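import Pool.Agent.Lib.MP_305fdd_al.Master

/-!
# MP_305fdd_al: homomorphisms to finite abelian groups which are trivial on the attached factors
-/

set_option autoImplicit false

namespace Pool.Agent.Lib.MP_305fdd_al

open Monoid Pool.Agent.MP_305fdd_al

theorem card_hom_free (n : ℕ) (C : Type) [CommGroup C] :
    Nat.card (Multiplicative (Fin n →₀ ℤ) →* C) = Nat.card C ^ n := by
  have e2 : (Multiplicative (Fin n →₀ ℤ) →* C) ≃ (Fin n → C) :=
    MonoidHom.toAdditiveRight.trans <| (Finsupp.liftAddHom (α := Fin n) (M := ℤ)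
      (N := Additive C)).symm.toEquiv.trans <| Equiv.piCongrRight fun _ =>
        (zmultiplesHom (Additive C)).symm.trans Additive.toMul
  rw [Nat.card_congr e2, Nat.card_fun, Nat.card_fin]

/-- the torsion free rank -/
theorem exists_free_quotient (A : Type) [Group A] [Group.FG A] :
    ∃ (n : ℕ) (p : A →* Multiplicative (Fin n →₀ ℤ)) (N : ℕ), Function.Surjective p ∧ N ≠ 0 ∧
      ∀ (q : ℕ) (_ : Fact q.Prime), ¬ q ∣ N → rk q A = n := by
  classical
  have hfg : AddGroup.FG (Additive (Abelianization A)) := by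
    have : Group.FG (Abelianization A) :=
      Group.fg_of_surjective (f := Abelianization.of) QuotientGroup.mk_surjective
    infer_instance
  obtain ⟨n, σ, _, p, hp, e, ⟨f⟩⟩ := AddCommGroup.equiv_free_prod_directSum_zmod
    (Additive (Abelianization A))
  let P : A →* Multiplicative (Fin n →₀ ℤ) :=
    (AddMonoidHom.toMultiplicativeRight ((AddMonoidHom.fst _ _).comp
      f.toAddMonoidHom)).comp Abelianization.of
  have hP : Function.Surjective P := by
    intro v
    obtain ⟨a, ha⟩ := QuotientGroup.mk_surjective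
      (Additive.toMul (f.symm (Multiplicative.toAdd v, 0)))
    refine ⟨a, ?_⟩
    show Multiplicative.ofAdd (f (Additive.ofMul (Abelianization.of a))).1 = v
    have h1 : Abelianization.of a = Additive.toMul (f.symm (Multiplicative.toAdd v, 0)) := ha
    rw [h1, ofMul_toMul, AddEquiv.apply_symm_apply]
    rfl
  let N := ∏ i, p i ^ e i
  have hN : ∀ t : (DirectSum σ fun i => ZMod (p i ^ e i)), N • t = 0 := by
    intro t
    ext i
    rw [DirectSum.smul_apply, DirectSum.zero_apply, nsmul_eq_mul]
    have h1 : ((N : ℕ) : ZMod (p i ^ e i)) = 0 := by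
      rw [ZMod.natCast_eq_zero_iff]
      exact Finset.dvd_prod_of_mem _ (Finset.mem_univ i)
    rw [h1, zero_mul]
  refine ⟨n, P, N, hP, ?_, ?_⟩
  · exact Finset.prod_ne_zero_iff.mpr fun i _ => pow_ne_zero _ (hp i).ne_zero
  · intro q hq hqN
    have hfac : ∀ h : A →* Multiplicative (ZMod q), ∃ g : Multiplicative (Fin n →₀ ℤ) →* Multiplicative (ZMod q), h = g.comp P := by
      intro h
      refine ⟨AddMonoidHom.toMultiplicativeLeft (((MonoidHom.toAdditive
        (Abelianization.lift h)).comp f.symm.toAddMonoidHom).comp (AddMonoidHom.inl _ _)), ?_⟩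
      apply MonoidHom.ext
      intro a
      show h a = Abelianization.lift h (Additive.toMul (f.symm
        ((f (Additive.ofMul (Abelianization.of a))).1, 0)))
      set z := f (Additive.ofMul (Abelianization.of a)) with hz
      have h1 : f.symm (z.1, 0) = f.symm z - f.symm (0, z.2) := by
        rw [← map_sub]
        congr 1
        ext <;> simp
      have h2 : Abelianization.lift h (Additive.toMul (f.symm (0, z.2))) = 1 := by
        have h3 : (Abelianization.lift h (Additive.toMul (f.symm (0, z.2)))) ^ N = 1 := by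
          rw [← map_pow, ← toMul_nsmul, ← map_nsmul, Prod.smul_mk, smul_zero, hN]
          have : ((0, 0) : (Fin n →₀ ℤ) × (DirectSum σ fun i => ZMod (p i ^ e i))) = 0 := rfl
          rw [this, map_zero, toMul_zero, map_one]
        have h4 : (Abelianization.lift h (Additive.toMul (f.symm (0, z.2)))) ^ q = 1 := by
          have h5 := pow_card_eq_one' (x := Abelianization.lift h
            (Additive.toMul (f.symm (0, z.2))))
          rwa [show Nat.card (Multiplicative (ZMod q)) = q from Nat.card_zmod q] at h5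
        have h6 : N.Coprime q := ((Nat.Prime.coprime_iff_not_dvd hq.out).mpr hqN).symm
        rw [← orderOf_eq_one_iff, ← Nat.dvd_one, ← h6.gcd_eq_one]
        exact Nat.dvd_gcd (orderOf_dvd_of_pow_eq_one h3) (orderOf_dvd_of_pow_eq_one h4)
      rw [h1, toMul_sub, map_div, h2, div_one, hz, AddEquiv.symm_apply_apply, toMul_ofMul,
        Abelianization.lift_apply_of]
    have e1 : (Multiplicative (Fin n →₀ ℤ) →* Multiplicative (ZMod q)) ≃
        (A →* Multiplicative (ZMod q)) :=
      Equiv.ofBijective (fun g => g.comp P)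
        ⟨fun a b h => (MonoidHom.cancel_right hP).mp h, fun f => by
          obtain ⟨g, hg⟩ := hfac f
          exact ⟨g, hg.symm⟩⟩
    have h1 := Nat.card_congr e1
    rw [card_hom_free, card_hom_zmod, show Nat.card (Multiplicative (ZMod q)) = q from
      Nat.card_zmod q] at h1
    exact (Nat.pow_right_injective hq.out.two_le h1).symm

/-- homomorphisms from `ℤ^n` to a finite group of exponent dividing `M` factor through
`(ℤ/N)^n` if `M ∣ N` -/
theorem exists_factor (n : ℕ) {V : Type} [CommGroup V] {M : ℕ} (hV : ∀ v : V, v ^ M = 1)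
    (N : ℕ) (hMN : M ∣ N) (g : Multiplicative (Fin n →₀ ℤ) →* V) :
    ∃ g' : Multiplicative (Fin n → ZMod N) →* V, ∀ x : Multiplicative (Fin n →₀ ℤ),
      g x = g' (Multiplicative.ofAdd fun k => ((Multiplicative.toAdd x k : ℤ) : ZMod N)) := by
  classical
  let v : Fin n → Additive V := fun k =>
    Additive.ofMul (g (Multiplicative.ofAdd (Finsupp.single k 1)))
  have hv : ∀ k, zmultiplesHom (Additive V) (v k) (N : ℤ) = 0 := by
    intro k
    rw [zmultiplesHom_apply, natCast_zsmul]
    obtain ⟨c, rfl⟩ := hMN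
    rw [mul_comm, mul_smul]
    have : M • v k = 0 := hV (g (Multiplicative.ofAdd (Finsupp.single k 1)))
    rw [this, smul_zero]
  let G : (Fin n → ZMod N) →+ Additive V :=
    ∑ k, (ZMod.lift N ⟨zmultiplesHom (Additive V) (v k), hv k⟩).comp
      (Pi.evalAddMonoidHom (fun _ : Fin n => ZMod N) k)
  have hG : ∀ x, G x = ∑ k, ZMod.lift N ⟨zmultiplesHom (Additive V) (v k), hv k⟩ (x k) := by
    intro x
    show (∑ k, (ZMod.lift N ⟨zmultiplesHom (Additive V) (v k), hv k⟩).comp
      (Pi.evalAddMonoidHom (fun _ : Fin n => ZMod N) k)) x = _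
    rw [AddMonoidHom.finsetSum_apply]
    rfl
  refine ⟨AddMonoidHom.toMultiplicativeLeft G, fun x => ?_⟩
  show Additive.ofMul (g x) = G (fun k => ((Multiplicative.toAdd x k : ℤ) : ZMod N))
  rw [hG]
  have h1 : ∀ k, ZMod.lift N ⟨zmultiplesHom (Additive V) (v k), hv k⟩
      ((Multiplicative.toAdd x k : ℤ) : ZMod N) = (Multiplicative.toAdd x k) • v k := by
    intro k
    rw [ZMod.lift_coe]
    rfl
  rw [Finset.sum_congr rfl fun k _ => h1 k]
  have h2 : ∀ y : Fin n →₀ ℤ, (MonoidHom.toAdditiveRight g) y = ∑ k, y k • v k := by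
    intro y
    conv_lhs => rw [← Finsupp.univ_sum_single y]
    rw [map_sum]
    refine Finset.sum_congr rfl fun k _ => ?_
    have h3 : Finsupp.single k (y k) = y k • Finsupp.single k (1 : ℤ) := by
      rw [Finsupp.smul_single, smul_eq_mul, mul_one]
    rw [h3, map_zsmul]
    rfl
  exact h2 (Multiplicative.toAdd x)

section main

variable {ι κ : Type} [Fintype ι] [Fintype κ] [DecidableEq κ] {m : ι → ℕ} {A : κ → Type}
  [∀ j, Group (A j)] [∀ j, Group.FG (A j)] (Φ : NatBij (CoprodI A) (FP m)) (q : ℕ)
  [hq : Fact q.Prime]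

omit [Fintype ι] [Fintype κ] [∀ j, Group.FG (A j)] in
/-- homomorphisms which factor through `ℤ^n` are in the class -/
theorem PP_of_factor (j : κ) {n : ℕ} (p : A j →* Multiplicative (Fin n →₀ ℤ)) {V : Type}
    [CommGroup V] [Finite V] (g : Multiplicative (Fin n →₀ ℤ) →* V) : PP Φ j (g.comp p) := by
  intro i hi
  have hV : Nat.card V ≠ 0 := Nat.card_pos.ne'
  let N := Nat.card V * m i
  have : NeZero N := ⟨mul_ne_zero hV hi⟩
  have : Finite (Multiplicative (Fin n → ZMod N)) := (inferInstance : Finite (Fin n → ZMod N))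
  obtain ⟨g', hg'⟩ := exists_factor n (M := Nat.card V) (fun v => pow_card_eq_one') N
    (dvd_mul_right _ _) g
  let r : Multiplicative (Fin n →₀ ℤ) →* Multiplicative (Fin n → ZMod N) :=
    { toFun := fun x => Multiplicative.ofAdd fun k => ((Multiplicative.toAdd x k : ℤ) : ZMod N)
      map_one' := by
        apply Multiplicative.toAdd.injective
        funext k
        show (((0 : Fin n →₀ ℤ) k : ℤ) : ZMod N) = 0
        simp
      map_mul' := fun x y => by
        apply Multiplicative.toAdd.injective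
        funext k
        show (((Multiplicative.toAdd x + Multiplicative.toAdd y) k : ℤ) : ZMod N) = _
        rw [Finsupp.add_apply, Int.cast_add]
        rfl }
  have h1 : g.comp p = g'.comp (r.comp p) := by
    apply MonoidHom.ext
    intro x
    exact hg' (p x)
  rw [h1, Ti_comp]
  apply MonoidHom.ext
  intro y
  show g' (Ti Φ j i (r.comp p) y) = 1
  have hy : (Ti Φ j i (r.comp p) y) ^ m i = 1 := by
    rw [← map_pow]
    have : y ^ m i = 1 := by
      have h2 : (m i) • (Multiplicative.toAdd y) = 0 := by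
        rw [nsmul_eq_mul, CharP.cast_eq_zero, zero_mul]
      exact h2
    rw [this, map_one]
  generalize Ti Φ j i (r.comp p) y = w at hy
  have hw : ∀ k, ∃ c : ZMod N, Multiplicative.toAdd w k = (Nat.card V) • c := by
    intro k
    have h2 : (m i) • (Multiplicative.toAdd w k) = 0 := congrFun hy k
    obtain ⟨a, ha⟩ := ZMod.natCast_zmod_surjective (Multiplicative.toAdd w k)
    rw [← ha, nsmul_eq_mul, ← Nat.cast_mul, ZMod.natCast_eq_zero_iff, mul_comm] at h2
    obtain ⟨b, hb⟩ := Nat.dvd_of_mul_dvd_mul_right (Nat.pos_of_ne_zero hi) h2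
    refine ⟨(b : ZMod N), ?_⟩
    rw [← ha, hb, nsmul_eq_mul, Nat.cast_mul]
  choose c hc using hw
  have h3 : w = (Multiplicative.ofAdd c) ^ Nat.card V := by
    apply Multiplicative.toAdd.injective
    funext k
    rw [hc k]
    rfl
  rw [h3, map_pow, pow_card_eq_one']

include q in
/-- homomorphisms to finite abelian groups in the class -/
theorem PP_comm (hqm : ∀ i, m i ≠ 0 → ¬ q ∣ m i) (hm : ∀ i, m i ≠ 1) {n : κ → ℕ}
    (p : ∀ j, A j →* Multiplicative (Fin (n j) →₀ ℤ)) (hp : ∀ j, Function.Surjective (p j))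
    (hn : ∀ j, rk q (A j) = n j) {V : Type} [CommGroup V] [Finite V] (j : κ) :
    KK Φ j V = Nat.card V ^ n j ∧
      ∀ v : A j →* V, PP Φ j v ↔ ∃ g : Multiplicative (Fin (n j) →₀ ℤ) →* V, v = g.comp (p j) := by
  let f : ∀ j, (Multiplicative (Fin (n j) →₀ ℤ) →* V) → {v : A j →* V // PP Φ j v} :=
    fun j g => ⟨g.comp (p j), PP_of_factor Φ j (p j) g⟩
  have hf : ∀ j, Function.Injective (f j) := fun j a b h =>
    (MonoidHom.cancel_right (hp j)).mp (congrArg Subtype.val h)
  have hfin : ∀ j, Finite {v : A j →* V // PP Φ j v} := fun j => by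
    have : Finite (A j →* V) := finite_hom _ _
    infer_instance
  have hle : ∀ j, Nat.card V ^ n j ≤ KK Φ j V := by
    intro j
    rw [← card_hom_free (n j) V]
    exact Nat.card_le_card_of_injective (f j) (hf j)
  have hprod : ∏ j, Nat.card V ^ n j = ∏ j, KK Φ j V := by
    rw [prod_KK Φ q hqm hm, Finset.prod_pow_eq_pow_sum, ← sum_rk q Φ hqm]
    congr 1
    exact Finset.sum_congr rfl fun j _ => (hn j).symm
  have heq : KK Φ j V = Nat.card V ^ n j := by
    by_contra hne
    have hlt : Nat.card V ^ n j < KK Φ j V := lt_of_le_of_ne (hle j) (Ne.symm hne)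
    exact (Finset.prod_lt_prod (fun j _ => pow_pos Nat.card_pos _) (fun j _ => hle j)
      ⟨j, Finset.mem_univ j, hlt⟩).ne hprod
  refine ⟨heq, fun v => ⟨fun hv => ?_, ?_⟩⟩
  · have hb : Function.Bijective (f j) := by
      rw [Nat.bijective_iff_injective_and_card]
      refine ⟨hf j, ?_⟩
      rw [card_hom_free]
      exact heq.symm
    obtain ⟨g, hg⟩ := hb.2 ⟨v, hv⟩
    exact ⟨g, (congrArg Subtype.val hg).symm⟩
  · rintro ⟨g, rfl⟩
    exact PP_of_factor Φ j (p j) g

end main

end Pool.Agent.Lib.MP_305fdd_al
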