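import Pool.Agent.Lib.MP_305fdd_al.Torsion2

/-!
# MP_305fdd_al: counting lifts for amalgamated products over a finite group
-/

set_option autoImplicit false

namespace Pool.Agent.Lib.MP_305fdd_al

open Monoid Pool.Agent.MP_305fdd_al

section conj

variable {V Q : Type} [CommGroup V] [Group Q] (φ : Q →* MulAut V)

/-- conjugation of a lift by an element of `V` -/
def cj {A : Type} [Group A] {θ : A →* Q} (v : V) (ψ : Lifts φ θ) : Lifts φ θ :=
  ⟨(MulAut.conj (SemidirectProduct.inl v : V ⋊[φ] Q)).toMonoidHom.comp ψ.1, by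
    have h := ψ.2
    ext x
    have h1 : (ψ.1 x).right = θ x := DFunLike.congr_fun h x
    simp [MulAut.conj_apply, h1]⟩

theorem cj_apply {A : Type} [Group A] {θ : A →* Q} (v : V) (ψ : Lifts φ θ) (x : A) :
    (cj φ v ψ).1 x = SemidirectProduct.inl v * ψ.1 x * (SemidirectProduct.inl v)⁻¹ := rfl

theorem cj_mul {A : Type} [Group A] {θ : A →* Q} (v w : V) (ψ : Lifts φ θ) :
    cj φ (v * w) ψ = cj φ v (cj φ w ψ) := by
  apply Subtype.ext
  ext1 x
  rw [cj_apply, cj_apply, cj_apply, map_mul]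
  group

theorem cj_one {A : Type} [Group A] {θ : A →* Q} (ψ : Lifts φ θ) : cj φ 1 ψ = ψ := by
  apply Subtype.ext
  ext1 x
  rw [cj_apply, map_one, one_mul, inv_one, mul_one]

theorem cobd_eq_cj {A : Type} [Group A] (θ : A →* Q) (v : V) :
    cobd φ θ v = cj φ v (triv φ θ) := rfl

/-- restriction of lifts -/
def resL {A C : Type} [Group A] [Group C] {θ : A →* Q} (j : C →* A) {η : C →* Q}
    (hη : θ.comp j = η) (ψ : Lifts φ θ) : Lifts φ η :=
  ⟨ψ.1.comp j, by rw [← MonoidHom.comp_assoc, ψ.2, hη]⟩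

theorem resL_cj {A C : Type} [Group A] [Group C] {θ : A →* Q} (j : C →* A) {η : C →* Q}
    (hη : θ.comp j = η) (v : V) (ψ : Lifts φ θ) :
    resL φ j hη (cj φ v ψ) = cj φ v (resL φ j hη ψ) := rfl

/-- the lifts of a finite group of order prime to `|V|` are conjugate -/
theorem exists_cobd_eq [Finite V] [Finite Q] {A : Type} [Group A] [Finite A]
    (hc : (Nat.card V).Coprime (Nat.card A)) (θ : A →* Q) (ψ : Lifts φ θ) :
    ∃ v, cobd φ θ v = ψ := by
  have h1 := NL_coprime φ hc θ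
  rw [Subgroup.card_eq_card_quotient_mul_card_subgroup (Fix φ θ)] at h1
  have h2 := Nat.eq_of_mul_eq_mul_right Nat.card_pos h1
  have : Group.FG A := inferInstance
  have : Finite (Lifts φ θ) := inferInstance
  have h3 : Function.Bijective (cobdQ φ θ) :=
    (Nat.bijective_iff_injective_and_card _).mpr ⟨cobdQ_injective φ θ, h2.symm⟩
  obtain ⟨x, hx⟩ := h3.2 ψ
  obtain ⟨v, rfl⟩ := QuotientGroup.mk_surjective x
  exact ⟨v, hx⟩

end conj

section amalgam

variable {V Q : Type} [CommGroup V] [Group Q] [Finite V] [Finite Q] (φ : Q →* MulAut V)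
  {C : Type} [Group C] [Finite C] {A : Fin 2 → Type} [∀ b, Group (A b)] {α : ∀ b, C →* A b}

omit [Finite C] in
/-- homomorphisms of an amalgamated product of two groups -/
def liftP {K : Type} [Group K] (f0 : A 0 →* K) (f1 : A 1 →* K)
    (h : f0.comp (α 0) = f1.comp (α 1)) : PushoutI α →* K :=
  PushoutI.lift (fun b => match b with
      | 0 => f0
      | 1 => f1) (f0.comp (α 0)) (by
        intro b
        match b with
        | 0 => rfl
        | 1 => exact h.symm)

omit [Finite C] in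
theorem liftP_zero {K : Type} [Group K] (f0 : A 0 →* K) (f1 : A 1 →* K)
    (h : f0.comp (α 0) = f1.comp (α 1)) : (liftP f0 f1 h).comp (PushoutI.of 0) = f0 := by
  ext x
  unfold liftP
  rw [MonoidHom.comp_apply, PushoutI.lift_of]

omit [Finite C] in
theorem liftP_one {K : Type} [Group K] (f0 : A 0 →* K) (f1 : A 1 →* K)
    (h : f0.comp (α 0) = f1.comp (α 1)) : (liftP f0 f1 h).comp (PushoutI.of 1) = f1 := by
  ext x
  unfold liftP
  rw [MonoidHom.comp_apply, PushoutI.lift_of]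

omit [Finite C] in
theorem pushout_ext {K : Type} [Group K] (f g : PushoutI α →* K)
    (h0 : f.comp (PushoutI.of 0) = g.comp (PushoutI.of 0))
    (h1 : f.comp (PushoutI.of 1) = g.comp (PushoutI.of 1)) : f = g := by
  apply PushoutI.hom_ext_nonempty
  intro b
  match b with
  | 0 => exact h0
  | 1 => exact h1

/-- lifts of a homomorphism of an amalgamated product -/
def liftsPushout (Θ : PushoutI α →* Q) :
    Lifts φ Θ ≃ {z : Lifts φ (Θ.comp (PushoutI.of 0)) × Lifts φ (Θ.comp (PushoutI.of 1)) //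
      z.1.1.comp (α 0) = z.2.1.comp (α 1)} where
  toFun ψ := ⟨(⟨ψ.1.comp (PushoutI.of 0), by rw [← MonoidHom.comp_assoc, ψ.2]⟩,
    ⟨ψ.1.comp (PushoutI.of 1), by rw [← MonoidHom.comp_assoc, ψ.2]⟩), by
      show (ψ.1.comp (PushoutI.of 0)).comp (α 0) = (ψ.1.comp (PushoutI.of 1)).comp (α 1)
      rw [MonoidHom.comp_assoc, MonoidHom.comp_assoc, PushoutI.of_comp_eq_base,
        PushoutI.of_comp_eq_base]⟩
  invFun z := ⟨liftP z.1.1.1 z.1.2.1 z.2, by
      apply pushout_ext
      · rw [MonoidHom.comp_assoc, liftP_zero]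
        exact z.1.1.2
      · rw [MonoidHom.comp_assoc, liftP_one]
        exact z.1.2.2⟩
  left_inv ψ := by
    have h : (ψ.1.comp (PushoutI.of 0)).comp (α 0) = (ψ.1.comp (PushoutI.of 1)).comp (α 1) := by
      rw [MonoidHom.comp_assoc, MonoidHom.comp_assoc, PushoutI.of_comp_eq_base,
        PushoutI.of_comp_eq_base]
    apply Subtype.ext
    apply pushout_ext
    · exact liftP_zero _ _ h
    · exact liftP_one _ _ h
  right_inv z := by
    apply Subtype.ext
    apply Prod.ext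
    · apply Subtype.ext
      exact liftP_zero _ _ z.2
    · apply Subtype.ext
      exact liftP_one _ _ z.2

theorem NL_pushout (hc : (Nat.card V).Coprime (Nat.card C)) (Θ : PushoutI α →* Q) :
    NL φ Θ * NL φ (Θ.comp (PushoutI.base α)) =
      NL φ (Θ.comp (PushoutI.of 0)) * NL φ (Θ.comp (PushoutI.of 1)) := by
  let η := Θ.comp (PushoutI.base α)
  have h0 : (Θ.comp (PushoutI.of 0)).comp (α 0) = η := by
    rw [MonoidHom.comp_assoc, PushoutI.of_comp_eq_base]
  have h1 : (Θ.comp (PushoutI.of 1)).comp (α 1) = η := by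
    rw [MonoidHom.comp_assoc, PushoutI.of_comp_eq_base]
  choose v hv using exists_cobd_eq φ hc η
  have hv' : ∀ c c' : Lifts φ η, cj φ (v c * (v c')⁻¹) c' = c := by
    intro c c'
    have h2 : cj φ (v c')⁻¹ c' = triv φ η := by
      nth_rewrite 2 [← hv c']
      rw [cobd_eq_cj, ← cj_mul, inv_mul_cancel, cj_one]
    rw [cj_mul, h2, ← cobd_eq_cj, hv]
  unfold NL
  rw [Nat.card_congr (liftsPushout φ Θ), ← Nat.card_prod, ← Nat.card_prod]
  refine Nat.card_congr
    { toFun := fun z => (z.1.1.1,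
        cj φ (v z.2 * (v (resL φ (α 1) h1 z.1.1.2))⁻¹) z.1.1.2)
      invFun := fun z => (⟨(z.1, cj φ (v (resL φ (α 0) h0 z.1) *
        (v (resL φ (α 1) h1 z.2))⁻¹) z.2), ?_⟩, resL φ (α 1) h1 z.2)
      left_inv := ?_
      right_inv := ?_ }
  · have h2 : resL φ (α 0) h0 z.1 = resL φ (α 1) h1 (cj φ (v (resL φ (α 0) h0 z.1) *
        (v (resL φ (α 1) h1 z.2))⁻¹) z.2) := by
      rw [resL_cj, hv']
    exact congrArg Subtype.val h2
  · rintro ⟨⟨⟨a, b⟩, hab⟩, c⟩
    have h2 : resL φ (α 0) h0 a = resL φ (α 1) h1 b := Subtype.ext hab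
    apply Prod.ext
    · apply Subtype.ext
      apply Prod.ext
      · rfl
      · show cj φ (v (resL φ (α 0) h0 a) * (v (resL φ (α 1) h1
          (cj φ (v c * (v (resL φ (α 1) h1 b))⁻¹) b)))⁻¹)
          (cj φ (v c * (v (resL φ (α 1) h1 b))⁻¹) b) = b
        rw [resL_cj, hv', ← cj_mul, h2]
        have : v (resL φ (α 1) h1 b) * (v c)⁻¹ * (v c * (v (resL φ (α 1) h1 b))⁻¹) = 1 := by
          group
        rw [this, cj_one]
    · show resL φ (α 1) h1 (cj φ (v c * (v (resL φ (α 1) h1 b))⁻¹) b) = c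
      rw [resL_cj, hv']
  · rintro ⟨a, b⟩
    apply Prod.ext
    · rfl
    · show cj φ (v (resL φ (α 1) h1 b) * (v (resL φ (α 1) h1 (cj φ (v (resL φ (α 0) h0 a) *
        (v (resL φ (α 1) h1 b))⁻¹) b)))⁻¹) (cj φ (v (resL φ (α 0) h0 a) *
        (v (resL φ (α 1) h1 b))⁻¹) b) = b
      rw [resL_cj, hv', ← cj_mul]
      have : v (resL φ (α 1) h1 b) * (v (resL φ (α 0) h0 a))⁻¹ * (v (resL φ (α 0) h0 a) *
          (v (resL φ (α 1) h1 b))⁻¹) = 1 := by
        group
      rw [this, cj_one]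

variable (q : ℕ) [hq : Fact q.Prime]

theorem LL_pushout [Group.FG (A 0)] [Group.FG (A 1)] [Group.FG (PushoutI α)]
    (hqC : ¬ q ∣ Nat.card C) (Θ : PushoutI α →* Q) :
    LL q Θ + wt (im (Θ.comp (PushoutI.base α))) =
      LL q (Θ.comp (PushoutI.of 0)) + LL q (Θ.comp (PushoutI.of 1)) := by
  have h1 := NL_pushout (reg q Q) (by
    rw [card_Reg]
    exact Nat.Coprime.pow_left _ ((Nat.Prime.coprime_iff_not_dvd hq.out).mpr hqC)) Θ
  rw [← LL_finite q hqC]
  have p1 : (0 : ℝ) < NL (reg q Q) Θ := by exact_mod_cast NL_pos (reg q Q) _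
  have p2 : (0 : ℝ) < NL (reg q Q) (Θ.comp (PushoutI.base α)) := by
    exact_mod_cast NL_pos (reg q Q) _
  have p3 : (0 : ℝ) < NL (reg q Q) (Θ.comp (PushoutI.of 0)) := by
    exact_mod_cast NL_pos (reg q Q) _
  have p4 : (0 : ℝ) < NL (reg q Q) (Θ.comp (PushoutI.of 1)) := by
    exact_mod_cast NL_pos (reg q Q) _
  unfold LL
  rw [← add_div, ← add_div, ← Real.logb_mul p1.ne' p2.ne', ← Real.logb_mul p3.ne' p4.ne']
  congr 2
  exact_mod_cast h1

end amalgam

end Pool.Agent.Lib.MP_305fdd_al
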