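import Pool.Agent.Lib.MP_305fdd_al.Cyclic

/-!
# MP_305fdd_al: the largest number of homomorphisms to `Q` of a quotient which is a free product of
cyclic groups of allowed orders
-/

set_option autoImplicit false

namespace Pool.Agent.Lib.MP_305fdd_al

open Monoid Pool.Agent.MP_305fdd_al Monoid.Coprod

/-- `FP l` is a quotient of `G` and the orders of its factors are allowed. -/
def HasQ (N : ℕ) (G : Type) [Group G] {n : ℕ} (l : Fin n → ℕ) : Prop :=
  (∀ i, Allowed N (l i)) ∧ ∃ f : G →* FP l, Function.Surjective f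

/-- `a` is the maximum of the number of homomorphisms to `Q` over the quotients `FP l` of `G`. -/
def IsVal (N : ℕ) (G : Type) [Group G] (Q : Type) [Group Q] (a : ℕ) : Prop :=
  (∃ (n : ℕ) (l : Fin n → ℕ), HasQ N G l ∧ hc (FP l) Q = a) ∧
    ∀ (n : ℕ) (l : Fin n → ℕ), HasQ N G l → hc (FP l) Q ≤ a

theorem IsVal.unique {N : ℕ} {G : Type} [Group G] {Q : Type} [Group Q] {a b : ℕ}
    (ha : IsVal N G Q a) (hb : IsVal N G Q b) : a = b := by
  obtain ⟨⟨n, l, h1, rfl⟩, h2⟩ := ha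
  obtain ⟨⟨n', l', h1', rfl⟩, h2'⟩ := hb
  exact le_antisymm (h2' _ _ h1) (h2 _ _ h1')

theorem fg_of_cyclic (G : Type) [Group G] [IsCyclic G] : Group.FG G := by
  obtain ⟨g, hg⟩ := IsCyclic.exists_generator (α := G)
  refine ⟨⟨{g}, ?_⟩⟩
  rw [Finset.coe_singleton, ← Subgroup.zpowers_eq_closure, eq_top_iff]
  intro x _
  exact hg x

instance fg_FP {ι : Type} [Finite ι] (m : ι → ℕ) : Group.FG (FP m) :=
  fg_coprodI fun _ => fg_of_cyclic _

theorem exists_val (N : ℕ) (G : Type) [Group G] [Group.FG G] (Q : Type) [Group Q] [Finite Q] :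
    ∃ a, IsVal N G Q a := by
  let S : Set ℕ := {a | ∃ (n : ℕ) (l : Fin n → ℕ), HasQ N G l ∧ hc (FP l) Q = a}
  have hne : S.Nonempty := by
    let l : Fin 0 → ℕ := fun i => i.elim0
    refine ⟨_, 0, l, ⟨fun i => i.elim0, 1, ?_⟩, rfl⟩
    apply surjective_of_of
    intro i
    exact i.elim0
  have hbd : BddAbove S := by
    refine ⟨hc G Q, ?_⟩
    rintro _ ⟨n, l, ⟨_, f, hf⟩, rfl⟩
    exact hc_le_of_surjective Q f hf
  refine ⟨sSup S, Nat.sSup_mem hne hbd, ?_⟩
  intro n l h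
  exact le_csSup hbd ⟨n, l, h, rfl⟩

theorem IsVal.pos {N : ℕ} {G : Type} [Group G] {Q : Type} [Group Q] [Finite Q] {a : ℕ}
    (ha : IsVal N G Q a) : 0 < a := by
  obtain ⟨⟨n, l, h1, rfl⟩, h2⟩ := ha
  exact hc_pos _ _

theorem IsVal.le {N : ℕ} {G : Type} [Group G] {Q : Type} [Group Q] {a : ℕ}
    (ha : IsVal N G Q a) {ι : Type} [Finite ι] (m : ι → ℕ) (hm : ∀ i, Allowed N (m i))
    {X : Type} [Group X] (e : X ≃* FP m) (f : G →* X) (hf : Function.Surjective f) :
    hc X Q ≤ a := by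
  obtain ⟨n, l, hl, ⟨g⟩⟩ := FP_fin m
  rw [hc_equiv Q (e.trans g)]
  refine ha.2 n l ⟨fun i => ?_, ((e.trans g).toMonoidHom).comp f, (e.trans g).surjective.comp hf⟩
  obtain ⟨j, hj⟩ := hl i
  rw [hj]
  exact hm j

theorem isVal_of {N : ℕ} {G : Type} [Group G] {Q : Type} [Group Q] {a : ℕ}
    {ι : Type} [Finite ι] (m : ι → ℕ) (hm : ∀ i, Allowed N (m i)) (f : G →* FP m)
    (hf : Function.Surjective f) (ha : hc (FP m) Q = a)
    (h : ∀ (n : ℕ) (l : Fin n → ℕ), HasQ N G l → hc (FP l) Q ≤ a) : IsVal N G Q a := by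
  obtain ⟨n, l, hl, ⟨g⟩⟩ := FP_fin m
  refine ⟨⟨n, l, ⟨fun i => ?_, g.toMonoidHom.comp f, g.surjective.comp hf⟩, ?_⟩, h⟩
  · obtain ⟨j, hj⟩ := hl i
    rw [hj]
    exact hm j
  · rw [← hc_equiv Q g, ha]

theorem isVal_FP {N : ℕ} {ι : Type} [Finite ι] (m : ι → ℕ) (hm : ∀ i, Allowed N (m i))
    (Q : Type) [Group Q] [Finite Q] : IsVal N (FP m) Q (hc (FP m) Q) := by
  refine isVal_of m hm (MonoidHom.id _) Function.surjective_id rfl ?_
  rintro n l ⟨_, f, hf⟩
  exact hc_le_of_surjective Q f hf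

theorem IsVal.equiv {N : ℕ} {G H : Type} [Group G] [Group H] {Q : Type} [Group Q] {a : ℕ}
    (ha : IsVal N G Q a) (e : G ≃* H) : IsVal N H Q a := by
  obtain ⟨⟨n, l, ⟨h1, f, hf⟩, h2⟩, h3⟩ := ha
  refine ⟨⟨n, l, ⟨h1, f.comp e.symm.toMonoidHom, hf.comp e.symm.surjective⟩, h2⟩, ?_⟩
  rintro n l ⟨h1, f, hf⟩
  exact h3 n l ⟨h1, f.comp e.toMonoidHom, hf.comp e.surjective⟩

theorem hc_coprod (G H Q : Type) [Group G] [Group H] [Group Q] :
    hc (G ∗ H) Q = hc G Q * hc H Q := by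
  unfold hc
  rw [← Nat.card_prod]
  exact (Nat.card_congr Coprod.liftEquiv).symm

/-- binary free product of two free products -/
theorem coprodI_sum {ι κ : Type} (X : ι ⊕ κ → Type) [∀ x, Group (X x)] :
    Nonempty (CoprodI (fun i => X (Sum.inl i)) ∗ CoprodI (fun i => X (Sum.inr i)) ≃* CoprodI X) := by
  let f1 : CoprodI (fun i => X (Sum.inl i)) →* CoprodI X :=
    CoprodI.lift fun i => CoprodI.of (M := X) (i := Sum.inl i)
  have hf1 : ∀ i (x : X (Sum.inl i)),
      f1 (CoprodI.of (M := fun i => X (Sum.inl i)) x) = CoprodI.of x := fun i x =>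
    CoprodI.lift_of (M := fun i => X (Sum.inl i)) _ x
  let f2 : CoprodI (fun i => X (Sum.inr i)) →* CoprodI X :=
    CoprodI.lift fun i => CoprodI.of (M := X) (i := Sum.inr i)
  have hf2 : ∀ i (x : X (Sum.inr i)),
      f2 (CoprodI.of (M := fun i => X (Sum.inr i)) x) = CoprodI.of x := fun i x =>
    CoprodI.lift_of (M := fun i => X (Sum.inr i)) _ x
  let f : CoprodI (fun i => X (Sum.inl i)) ∗ CoprodI (fun i => X (Sum.inr i)) →* CoprodI X :=
    Coprod.lift f1 f2
  have hfl : ∀ y, f (Coprod.inl y) = f1 y := fun y => Coprod.lift_apply_inl _ _ _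
  have hfr : ∀ y, f (Coprod.inr y) = f2 y := fun y => Coprod.lift_apply_inr _ _ _
  let g0 : ∀ x : ι ⊕ κ, X x →* CoprodI (fun i => X (Sum.inl i)) ∗ CoprodI (fun i => X (Sum.inr i)) :=
    fun x => match x with
    | Sum.inl i => (Coprod.inl).comp (CoprodI.of (M := fun i => X (Sum.inl i)) (i := i))
    | Sum.inr i => (Coprod.inr).comp (CoprodI.of (M := fun i => X (Sum.inr i)) (i := i))
  let g : CoprodI X →* CoprodI (fun i => X (Sum.inl i)) ∗ CoprodI (fun i => X (Sum.inr i)) :=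
    CoprodI.lift g0
  have hg : ∀ (x : ι ⊕ κ) (y : X x), g (CoprodI.of y) = g0 x y := fun x y => CoprodI.lift_of _ _
  refine ⟨MonoidHom.toMulEquiv f g ?_ ?_⟩
  · apply Coprod.hom_ext
    · apply CoprodI.ext_hom
      intro i
      apply MonoidHom.ext
      intro x
      show g (f (Coprod.inl (CoprodI.of (M := fun i => X (Sum.inl i)) x))) =
        Coprod.inl (CoprodI.of (M := fun i => X (Sum.inl i)) x)
      rw [hfl, hf1, hg]
      rfl
    · apply CoprodI.ext_hom
      intro i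
      apply MonoidHom.ext
      intro x
      show g (f (Coprod.inr (CoprodI.of (M := fun i => X (Sum.inr i)) x))) =
        Coprod.inr (CoprodI.of (M := fun i => X (Sum.inr i)) x)
      rw [hfr, hf2, hg]
      rfl
  · apply CoprodI.ext_hom
    rintro (i | i)
    · apply MonoidHom.ext
      intro x
      show f (g (CoprodI.of x)) = CoprodI.of x
      rw [hg]
      show f (Coprod.inl (CoprodI.of (M := fun i => X (Sum.inl i)) x)) = _
      rw [hfl, hf1]
    · apply MonoidHom.ext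
      intro x
      show f (g (CoprodI.of x)) = CoprodI.of x
      rw [hg]
      show f (Coprod.inr (CoprodI.of (M := fun i => X (Sum.inr i)) x)) = _
      rw [hfr, hf2]

/-- free products of two free products of cyclic groups -/
theorem FP_sum {ι κ : Type} (m : ι → ℕ) (m' : κ → ℕ) :
    Nonempty (FP m ∗ FP m' ≃* FP (Sum.elim m m')) :=
  coprodI_sum fun x => Multiplicative (ZMod (Sum.elim m m' x))

theorem coprod_map_surjective {G H G' H' : Type} [Group G] [Group H] [Group G'] [Group H']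
    (f : G →* G') (g : H →* H') (hf : Function.Surjective f) (hg : Function.Surjective g) :
    Function.Surjective (Coprod.lift ((Coprod.inl : G' →* G' ∗ H').comp f)
      ((Coprod.inr : H' →* G' ∗ H').comp g)) := by
  rw [← MonoidHom.range_eq_top]
  rw [Coprod.range_lift, MonoidHom.range_comp, MonoidHom.range_comp,
    MonoidHom.range_eq_top.mpr hf, MonoidHom.range_eq_top.mpr hg, ← MonoidHom.range_eq_map,
    ← MonoidHom.range_eq_map]
  exact Coprod.range_inl_sup_range_inr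

/-- **Multiplicativity** of the value under free products (from the Kurosh subgroup theorem). -/
theorem IsVal.coprod {N : ℕ} {G H : Type} [Group G] [Group H] [Group.FG G] [Group.FG H]
    {Q : Type} [Group Q] [Finite Q] {a b : ℕ} (ha : IsVal N G Q a) (hb : IsVal N H Q b) :
    IsVal N (G ∗ H) Q (a * b) := by
  obtain ⟨⟨n, l, ⟨h1, f, hf⟩, h2⟩, -⟩ := id ha
  obtain ⟨⟨n', l', ⟨h1', f', hf'⟩, h2'⟩, -⟩ := id hb
  obtain ⟨e⟩ := FP_sum l l'
  refine isVal_of (Sum.elim l l') (by rintro (i | i); exacts [h1 i, h1' i])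
    (e.toMonoidHom.comp (Coprod.lift (Coprod.inl.comp f) (Coprod.inr.comp f'))) (e.surjective.comp (coprod_map_surjective f f' hf hf'))
    ?_ ?_
  · rw [← hc_equiv (G := FP l ∗ FP l') (H := FP (Sum.elim l l')) Q e, hc_coprod, h2, h2']
  · rintro r q ⟨hq, g, hg⟩
    -- the images of the factors
    have hA : Group.FG (g.comp Coprod.inl).range := Group.fg_range _
    have hB : Group.FG (g.comp Coprod.inr).range := Group.fg_range _
    obtain ⟨_, la, hla, -, ⟨ea⟩⟩ := fg_subgroup q hq _ hA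
    obtain ⟨_, lb, hlb, -, ⟨eb⟩⟩ := fg_subgroup q hq _ hB
    have h3 : hc (g.comp Coprod.inl).range Q ≤ a :=
      ha.le la hla ea _ (MonoidHom.rangeRestrict_surjective _)
    have h4 : hc (g.comp Coprod.inr).range Q ≤ b :=
      hb.le lb hlb eb _ (MonoidHom.rangeRestrict_surjective _)
    refine le_trans ?_ (Nat.mul_le_mul h3 h4)
    unfold hc
    rw [← Nat.card_prod]
    refine Nat.card_le_card_of_injective
      (fun φ : FP q →* Q => (φ.comp (g.comp Coprod.inl).range.subtype,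
        φ.comp (g.comp Coprod.inr).range.subtype)) ?_
    intro φ ψ hφψ
    rw [Prod.mk.injEq] at hφψ
    have h5 : φ.comp g = ψ.comp g := by
      apply Coprod.hom_ext
      · apply MonoidHom.ext
        intro x
        exact DFunLike.congr_fun hφψ.1 ⟨g (Coprod.inl x), ⟨x, rfl⟩⟩
      · apply MonoidHom.ext
        intro x
        exact DFunLike.congr_fun hφψ.2 ⟨g (Coprod.inr x), ⟨x, rfl⟩⟩
    exact (MonoidHom.cancel_right hg).mp h5

theorem rf_cyclic (k : ℕ) : Group.ResiduallyFinite (Multiplicative (ZMod k)) := by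
  refine Group.residuallyFinite_iff_exists_finiteIndex.2 fun x hx => ?_
  by_cases h : k = 0
  · subst h
    let n : ℤ := Multiplicative.toAdd x
    have hn : n ≠ 0 := hx
    let φ : Multiplicative ℤ →* Multiplicative (ZMod (n.natAbs + 1)) :=
      AddMonoidHom.toMultiplicative (Int.castAddHom (ZMod (n.natAbs + 1)))
    have : Finite (Multiplicative (ZMod (n.natAbs + 1))) :=
      (inferInstance : Finite (ZMod (n.natAbs + 1)))
    refine ⟨φ.ker, Subgroup.finiteIndex_ker φ, ?_⟩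
    intro h1
    have h2 : ((n : ℤ) : ZMod (n.natAbs + 1)) = 0 := h1
    rw [ZMod.intCast_zmod_eq_zero_iff_dvd] at h2
    have h3 := Int.le_of_dvd (by positivity) ((dvd_abs _ _).mpr h2)
    rw [Int.abs_eq_natAbs] at h3
    push_cast at h3
    omega
  · have : NeZero k := ⟨h⟩
    have : Finite (Multiplicative (ZMod k)) := (inferInstance : Finite (ZMod k))
    exact ⟨⊥, inferInstance, by rwa [Subgroup.mem_bot]⟩

theorem rf_FP {ι : Type} (m : ι → ℕ) : Group.ResiduallyFinite (FP m) :=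
  RFC.residuallyFinite_coprodI _ fun _ => rf_cyclic _

theorem IsVal.res {N : ℕ} {G : Type} [Group G] {Q : Type} [Group Q] {a : ℕ}
    (ha : IsVal N G Q a) : IsVal N (G ⧸ res G) Q a := by
  obtain ⟨⟨n, l, ⟨h1, f, hf⟩, h2⟩, h3⟩ := ha
  have := rf_FP l
  refine ⟨⟨n, l, ⟨h1, QuotientGroup.lift (Pool.Agent.MP_305fdd_al.res G) f (res_le_ker_of_rf f), ?_⟩, h2⟩, ?_⟩
  · intro y
    obtain ⟨x, rfl⟩ := hf y
    exact ⟨x, rfl⟩
  · rintro n l ⟨h1, f, hf⟩
    exact h3 n l ⟨h1, f.comp (QuotientGroup.mk' _), hf.comp (QuotientGroup.mk'_surjective _)⟩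

end Pool.Agent.Lib.MP_305fdd_al
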