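import Pool.Agent.Lib.MP_305fdd_al.LogCount
import Pool.Agent.Lib.MP_305fdd_al.Val

/-!
# MP_305fdd_al: attaching the cyclic factors of `Γ` to the free factors of a group in its genus
-/

set_option autoImplicit false

namespace Pool.Agent.Lib.MP_305fdd_al

open Monoid Pool.Agent.MP_305fdd_al

/-! ### Extending a homomorphism of a free factor by the trivial homomorphism -/

section ext

variable {κ : Type} [DecidableEq κ] {A : κ → Type} [∀ j, Group (A j)] {Q R : Type} [Group Q]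
  [Group R]

/-- `θ` on the factor `j`, trivial on the others -/
noncomputable def ext (j : κ) (θ : A j →* Q) : CoprodI A →* Q :=
  CoprodI.lift (Pi.mulSingle (M := fun j => A j →* Q) j θ)

theorem ext_same (j : κ) (θ : A j →* Q) : (ext j θ).comp CoprodI.of = θ := by
  unfold ext
  rw [CoprodI.lift_comp_of, Pi.mulSingle_eq_same]

theorem ext_ne {j j' : κ} (h : j' ≠ j) (θ : A j →* Q) :
    (ext j θ).comp (CoprodI.of (i := j')) = 1 := by
  unfold ext
  rw [CoprodI.lift_comp_of, Pi.mulSingle_eq_of_ne h]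

theorem comp_ext (j : κ) (θ : A j →* Q) (f : Q →* R) : f.comp (ext j θ) = ext j (f.comp θ) := by
  apply CoprodI.ext_hom
  intro j'
  rw [MonoidHom.comp_assoc]
  by_cases h : j' = j
  · subst h
    rw [ext_same, ext_same]
  · rw [ext_ne h, ext_ne h, MonoidHom.comp_one]

theorem range_ext (j : κ) (θ : A j →* Q) : (ext j θ).range = θ.range := by
  apply le_antisymm
  · let θ' : A j →* θ.range := θ.rangeRestrict
    have h1 : θ = (θ.range.subtype).comp θ' := by ext x; rfl
    rw [h1, ← comp_ext]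
    rintro _ ⟨x, rfl⟩
    rw [← h1]
    exact (ext j θ' x).2
  · rintro _ ⟨x, rfl⟩
    exact ⟨CoprodI.of x, DFunLike.congr_fun (ext_same j θ) x⟩

end ext

theorem im_one {A Q : Type} [Group A] [Group Q] : im (1 : A →* Q) = 1 := by
  rw [im, MonoidHom.range_one, Subgroup.card_bot]

theorem im_pos {A Q : Type} [Group A] [Group Q] [Finite Q] (θ : A →* Q) : 0 < im θ :=
  Nat.card_pos

theorem two_le_im {A Q : Type} [Group A] [Group Q] [Finite Q] {θ : A →* Q} (h : θ ≠ 1) :
    2 ≤ im θ := by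
  by_contra hlt
  have h1 := im_pos θ
  have h2 : im θ = 1 := by omega
  apply h
  rw [im, Subgroup.card_eq_one] at h2
  exact MonoidHom.range_eq_bot_iff.mp h2

theorem im_le_of_comp {A Q R : Type} [Group A] [Group Q] [Group R] [Finite Q] (θ : A →* Q)
    (f : Q →* R) : im (f.comp θ) ≤ im θ := by
  rw [im, MonoidHom.range_comp]
  exact Nat.card_le_card_of_surjective (fun x : θ.range =>
    (⟨f x, ⟨x, x.2, rfl⟩⟩ : Subgroup.map f θ.range)) (by
      rintro ⟨_, ⟨x, hx, rfl⟩⟩
      exact ⟨⟨x, hx⟩, rfl⟩)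

theorem im_comp_of_injective {A Q R : Type} [Group A] [Group Q] [Group R] (θ : A →* Q)
    (f : Q →* R) (hf : Function.Injective f) : im (f.comp θ) = im θ := by
  rw [im, MonoidHom.range_comp]
  exact (Nat.card_congr (θ.range.equivMapOfInjective f hf).toEquiv).symm

theorem im_le_dom {A Q : Type} [Group A] [Group Q] [Finite A] (θ : A →* Q) :
    im θ ≤ Nat.card A :=
  Nat.card_le_card_of_surjective θ.rangeRestrict θ.rangeRestrict_surjective

theorem im_le_prod {A Q R : Type} [Group A] [Group Q] [Group R] [Finite Q] [Finite R]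
    (θ : A →* Q × R) :
    im θ ≤ im ((MonoidHom.fst Q R).comp θ) * im ((MonoidHom.snd Q R).comp θ) := by
  rw [im, im, im, ← Nat.card_prod]
  refine Nat.card_le_card_of_injective (fun x : θ.range =>
    ((⟨x.1.1, by obtain ⟨y, hy⟩ := x.2; exact ⟨y, by rw [← hy]; rfl⟩⟩ :
        ((MonoidHom.fst Q R).comp θ).range),
      (⟨x.1.2, by obtain ⟨y, hy⟩ := x.2; exact ⟨y, by rw [← hy]; rfl⟩⟩ :
        ((MonoidHom.snd Q R).comp θ).range))) ?_
  rintro ⟨⟨a, b⟩, hx⟩ ⟨⟨c, d⟩, hy⟩ h
  simp only [Prod.mk.injEq, Subtype.mk.injEq] at h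
  obtain ⟨rfl, rfl⟩ := h
  rfl

/-! ### The setting -/

section main

variable {ι κ : Type} [Fintype ι] [Fintype κ] [DecidableEq κ] {m : ι → ℕ} {A : κ → Type}
  [∀ j, Group (A j)] [∀ j, Group.FG (A j)] (Φ : NatBij (CoprodI A) (FP m)) {Q R : Type} [Group Q]
  [Group R] [Finite Q] [Finite R]

/-- the inclusion of the factor `i` in `Γ` -/
noncomputable abbrev oi (m : ι → ℕ) (i : ι) : Multiplicative (ZMod (m i)) →* FP m :=
  CoprodI.of (M := fun i => Multiplicative (ZMod (m i))) (i := i)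

instance fg_zmod (n : ℕ) : Group.FG (Multiplicative (ZMod n)) := fg_of_cyclic _

/-- the homomorphism of `Γ` corresponding to `ext j θ` -/
noncomputable def TT (j : κ) (θ : A j →* Q) : FP m →* Q := Φ.toFun Q (ext j θ)

/-- its restriction to the factor `i` of `Γ` -/
noncomputable def Ti (j : κ) (i : ι) (θ : A j →* Q) : Multiplicative (ZMod (m i)) →* Q :=
  (TT Φ j θ).comp (oi m i)

omit [Fintype ι] [Fintype κ] [∀ j, Group.FG (A j)] in
theorem TT_comp (j : κ) (θ : A j →* Q) (f : Q →* R) : TT Φ j (f.comp θ) = f.comp (TT Φ j θ) := by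
  unfold TT
  rw [← comp_ext, Φ.nat]

omit [Fintype ι] [Fintype κ] [∀ j, Group.FG (A j)] in
theorem Ti_comp (j : κ) (i : ι) (θ : A j →* Q) (f : Q →* R) :
    Ti Φ j i (f.comp θ) = f.comp (Ti Φ j i θ) := by
  unfold Ti
  rw [TT_comp, MonoidHom.comp_assoc]

omit [Fintype ι] [Fintype κ] [∀ j, Group.FG (A j)] in
theorem range_TT (j : κ) (θ : A j →* Q) : (TT Φ j θ).range = θ.range := by
  unfold TT
  rw [Φ.range_eq, range_ext]

omit [Fintype ι] [Fintype κ] [∀ j, Group.FG (A j)] in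
theorem range_Ti_le (j : κ) (i : ι) (θ : A j →* Q) : (Ti Φ j i θ).range ≤ θ.range := by
  rw [← range_TT Φ j θ]
  rintro _ ⟨x, rfl⟩
  exact ⟨_, rfl⟩

omit [Fintype ι] [Fintype κ] [∀ j, Group.FG (A j)] in
theorem im_Ti_le (j : κ) (i : ι) (θ : A j →* Q) : im (Ti Φ j i θ) ≤ im θ :=
  Nat.card_le_card_of_injective _ (Subgroup.inclusion_injective (range_Ti_le Φ j i θ))

/-- the factor `i` of `Γ` is attached to the factor `j` of `Λ` -/
def Att (j : κ) (i : ι) : Prop :=
  ∃ (Q : Type) (_ : Group Q) (_ : Finite Q) (θ : A j →* Q), Ti Φ j i θ ≠ 1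

/-- the sum of the weights of the images of the finite factors -/
noncomputable def SS (Ψ : FP m →* Q) : ℝ :=
  ∑ i, if m i = 0 then 0 else wt (im (Ψ.comp (oi m i)))

/-- the number of infinite cyclic factors of `Γ` -/
noncomputable def rr (m : ι → ℕ) : ℕ := (Finset.univ.filter fun i => m i = 0).card

variable (q : ℕ) [hq : Fact q.Prime]

omit [Fintype ι] in
theorem LL_factor (hqm : ∀ i, m i ≠ 0 → ¬ q ∣ m i) (i : ι)
    (θ : Multiplicative (ZMod (m i)) →* Q) : LL q θ =
      (if m i = 0 then 1 else 0) + if m i = 0 then 0 else wt (im θ) := by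
  by_cases h : m i = 0
  · rw [if_pos h, if_pos h, add_zero]
    revert θ
    rw [h]
    exact fun θ => LL_int q θ
  · rw [if_neg h, if_neg h, zero_add]
    have : NeZero (m i) := ⟨h⟩
    have : Finite (Multiplicative (ZMod (m i))) := (inferInstance : Finite (ZMod (m i)))
    apply LL_finite q
    have : Nat.card (Multiplicative (ZMod (m i))) = m i := Nat.card_zmod (m i)
    rw [this]
    exact hqm i h

theorem LL_FP (hqm : ∀ i, m i ≠ 0 → ¬ q ∣ m i) (Ψ : FP m →* Q) : LL q Ψ = rr m + SS Ψ := by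
  rw [LL_coprodI]
  simp only [LL_factor q hqm]
  rw [Finset.sum_add_distrib]
  congr 1
  unfold rr
  rw [Finset.sum_boole]

omit [Finite Q] in
theorem SS_one : SS (1 : FP m →* Q) = 0 := by
  unfold SS
  apply Finset.sum_eq_zero
  intro i _
  rw [MonoidHom.one_comp, im_one, wt_one, ite_self]

omit [DecidableEq κ] in
theorem sum_rk (Φ : NatBij (CoprodI A) (FP m)) (hqm : ∀ i, m i ≠ 0 → ¬ q ∣ m i) :
    ∑ j, rk q (A j) = rr m := by
  have h1 : LL q (1 : CoprodI A →* Multiplicative (ZMod 1)) = ∑ j, (rk q (A j) : ℝ) := by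
    rw [LL_coprodI]
    refine Finset.sum_congr rfl fun j _ => ?_
    rw [MonoidHom.one_comp, LL_one']
  have h2 := LL_natBij q Φ (1 : CoprodI A →* Multiplicative (ZMod 1))
  rw [Φ.one, LL_FP q hqm, SS_one, add_zero, h1] at h2
  exact_mod_cast h2.symm

theorem LL_eq (hqm : ∀ i, m i ≠ 0 → ¬ q ∣ m i) (j : κ) (θ : A j →* Q) :
    LL q θ = rk q (A j) + SS (TT Φ j θ) := by
  have h1 := LL_natBij q Φ (ext j θ)
  rw [LL_FP q hqm, LL_coprodI, ← Finset.add_sum_erase _ _ (Finset.mem_univ j), ext_same] at h1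
  have h2 : ∑ x ∈ Finset.univ.erase j, LL q ((ext j θ).comp (CoprodI.of (i := x))) =
      ∑ x ∈ Finset.univ.erase j, (rk q (A x) : ℝ) := by
    refine Finset.sum_congr rfl fun x hx => ?_
    rw [ext_ne (Finset.ne_of_mem_erase hx), LL_one']
  have h3 : (rk q (A j) : ℝ) + ∑ x ∈ Finset.univ.erase j, (rk q (A x) : ℝ) = rr m := by
    rw [Finset.add_sum_erase _ (fun x => (rk q (A x) : ℝ)) (Finset.mem_univ j)]
    exact_mod_cast sum_rk q Φ hqm
  rw [h2] at h1
  show LL q θ = rk q (A j) + SS (Φ.toFun Q (ext j θ))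
  linarith

theorem SS_natBij (hqm : ∀ i, m i ≠ 0 → ¬ q ∣ m i) (Θ : CoprodI A →* Q) :
    SS (Φ.toFun Q Θ) = ∑ j, SS (TT Φ j (Θ.comp CoprodI.of)) := by
  have h1 := LL_natBij q Φ Θ
  rw [LL_FP q hqm, LL_coprodI] at h1
  have h2 : ∑ j, LL q (Θ.comp (CoprodI.of (i := j))) =
      ∑ j, (rk q (A j) : ℝ) + ∑ j, SS (TT Φ j (Θ.comp CoprodI.of)) := by
    rw [← Finset.sum_add_distrib]
    exact Finset.sum_congr rfl fun j _ => LL_eq Φ q hqm j _
  have h3 : ∑ j, (rk q (A j) : ℝ) = rr m := by exact_mod_cast sum_rk q Φ hqm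
  rw [h2, h3] at h1
  linarith

end main

end Pool.Agent.Lib.MP_305fdd_al
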