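import Pool.Agent.Lib.MP_305fdd_al.Attach

/-!
# MP_305fdd_al: every finite factor of `Γ` is attached to exactly one factor of `Λ`
-/

set_option autoImplicit false

namespace Pool.Agent.Lib.MP_305fdd_al

open Monoid Pool.Agent.MP_305fdd_al

section main

variable {ι κ : Type} [Fintype ι] [Fintype κ] [DecidableEq κ] {m : ι → ℕ} {A : κ → Type}
  [∀ j, Group (A j)] [∀ j, Group.FG (A j)] (Φ : NatBij (CoprodI A) (FP m)) {Q R : Type} [Group Q]
  [Group R] [Finite Q] [Finite R] (q : ℕ) [hq : Fact q.Prime]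

omit [Fintype κ] [DecidableEq κ] [∀ j, Group (A j)] [∀ j, Group.FG (A j)] [Finite Q]
  [Finite R] in
theorem SS_comp_of_injective (Ψ : FP m →* Q) (f : Q →* R) (hf : Function.Injective f) :
    SS (f.comp Ψ) = SS Ψ := by
  unfold SS
  refine Finset.sum_congr rfl fun i _ => ?_
  rw [MonoidHom.comp_assoc, im_comp_of_injective _ _ hf]

omit [Fintype κ] [∀ j, Group.FG (A j)] [Fintype ι] in
theorem TT_one (j : κ) : TT Φ j (1 : A j →* Q) = 1 := by
  have h := TT_comp Φ j (1 : A j →* Q) (1 : Q →* Q)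
  rwa [MonoidHom.one_comp, MonoidHom.one_comp] at h

theorem SS_prod (hqm : ∀ i, m i ≠ 0 → ¬ q ∣ m i) {j j' : κ} (hj : j ≠ j') (θ : A j →* Q)
    (θ' : A j' →* R) :
    SS (Φ.toFun (Q × R) ((ext j θ).prod (ext j' θ'))) = SS (TT Φ j θ) + SS (TT Φ j' θ') := by
  rw [SS_natBij Φ q hqm, ← Finset.add_sum_erase _ _ (Finset.mem_univ j),
    ← Finset.add_sum_erase _ _ (Finset.mem_erase.mpr ⟨hj.symm, Finset.mem_univ j'⟩),
    Finset.sum_eq_zero, add_zero]
  · congr 1
    · have h1 : ((ext j θ).prod (ext j' θ')).comp (CoprodI.of (i := j)) =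
          (MonoidHom.inl Q R).comp θ := by
        ext x
        · exact DFunLike.congr_fun (ext_same j θ) x
        · exact DFunLike.congr_fun (ext_ne hj θ') x
      rw [h1, TT_comp, SS_comp_of_injective]
      intro a b hab
      exact congrArg Prod.fst hab
    · have h1 : ((ext j θ).prod (ext j' θ')).comp (CoprodI.of (i := j')) =
          (MonoidHom.inr Q R).comp θ' := by
        ext x
        · exact DFunLike.congr_fun (ext_ne hj.symm θ) x
        · exact DFunLike.congr_fun (ext_same j' θ') x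
      rw [h1, TT_comp, SS_comp_of_injective]
      intro a b hab
      exact congrArg Prod.snd hab
  · intro x hx
    obtain ⟨hx1, hx2⟩ := Finset.mem_erase.mp hx
    have hx3 := Finset.ne_of_mem_erase hx2
    have h1 : ((ext j θ).prod (ext j' θ')).comp (CoprodI.of (i := x)) = 1 := by
      ext y
      · exact DFunLike.congr_fun (ext_ne hx3 θ) y
      · exact DFunLike.congr_fun (ext_ne hx1 θ') y
    rw [h1, TT_one, SS_one]

include q in
/-- a finite factor of `Γ` is attached to at most one factor of `Λ` -/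
theorem Att_unique (hqm : ∀ i, m i ≠ 0 → ¬ q ∣ m i) {j j' : κ} {i : ι} (hi : m i ≠ 0)
    (h : Att Φ j i) (h' : Att Φ j' i) : j = j' := by
  by_contra hj
  obtain ⟨Q, _, _, θ, hθ⟩ := h
  obtain ⟨R, _, _, θ', hθ'⟩ := h'
  have h1 := SS_prod Φ q hqm hj θ θ'
  let Ψ := Φ.toFun (Q × R) ((ext j θ).prod (ext j' θ'))
  have hfst : (MonoidHom.fst Q R).comp Ψ = TT Φ j θ := by
    rw [← Φ.nat]; rfl
  have hsnd : (MonoidHom.snd Q R).comp Ψ = TT Φ j' θ' := by
    rw [← Φ.nat]; rfl
  have hb : ∀ k, wt (im (Ψ.comp (oi m k))) ≤ wt (im (Ti Φ j k θ)) + wt (im (Ti Φ j' k θ')) -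
      wt (im (Ti Φ j k θ)) * wt (im (Ti Φ j' k θ')) := by
    intro k
    rw [← wt_mul (im_pos _) (im_pos _)]
    apply wt_mono (im_pos _)
    have := im_le_prod (Ψ.comp (oi m k))
    rw [← MonoidHom.comp_assoc, ← MonoidHom.comp_assoc, hfst, hsnd] at this
    exact this
  have h2 : SS Ψ ≤ SS (TT Φ j θ) + SS (TT Φ j' θ') -
      ∑ k, (if m k = 0 then 0 else wt (im (Ti Φ j k θ)) * wt (im (Ti Φ j' k θ'))) := by
    unfold SS
    rw [← Finset.sum_add_distrib, ← Finset.sum_sub_distrib]
    refine Finset.sum_le_sum fun k _ => ?_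
    by_cases hk : m k = 0
    · simp only [hk, if_true]; norm_num
    · simp only [hk, if_false]
      exact hb k
  have h3 : ∑ k, (if m k = 0 then 0 else wt (im (Ti Φ j k θ)) * wt (im (Ti Φ j' k θ'))) ≤ 0 := by
    have : SS Ψ = SS (TT Φ j θ) + SS (TT Φ j' θ') := h1
    linarith
  have h4 : (if m i = 0 then 0 else wt (im (Ti Φ j i θ)) * wt (im (Ti Φ j' i θ'))) ≤
      ∑ k, (if m k = 0 then 0 else wt (im (Ti Φ j k θ)) * wt (im (Ti Φ j' k θ'))) := by
    apply Finset.single_le_sum (f := fun k => if m k = 0 then 0 else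
      wt (im (Ti Φ j k θ)) * wt (im (Ti Φ j' k θ'))) _ (Finset.mem_univ i)
    intro k _
    by_cases hk : m k = 0
    · simp only [hk, if_true]; exact le_refl _
    · simp only [hk, if_false]
      exact mul_nonneg (wt_nonneg (im_pos _)) (wt_nonneg (im_pos _))
  rw [if_neg hi] at h4
  have h5 := half_le_wt (two_le_im hθ)
  have h6 := half_le_wt (two_le_im hθ')
  nlinarith

omit [Fintype ι] [Fintype κ] [DecidableEq κ] [∀ j, Group.FG (A j)] in
/-- for commutative targets `Φ` is multiplicative -/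
theorem natBij_mul {C : Type} [CommGroup C] [Finite C] {G H : Type} [Group G] [Group H]
    (Φ : NatBij G H) (a b : G →* C) : Φ.toFun C (a * b) = Φ.toFun C a * Φ.toFun C b := by
  let μ : C × C →* C := (MonoidHom.fst C C) * (MonoidHom.snd C C)
  have h1 : a * b = μ.comp (a.prod b) := by ext x; rfl
  have h2 : Φ.toFun C a = (MonoidHom.fst C C).comp (Φ.toFun (C × C) (a.prod b)) := by
    rw [← Φ.nat]; rfl
  have h3 : Φ.toFun C b = (MonoidHom.snd C C).comp (Φ.toFun (C × C) (a.prod b)) := by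
    rw [← Φ.nat]; rfl
  rw [h1, Φ.nat, h2, h3]
  rfl

omit [Fintype ι] [Fintype κ] [DecidableEq κ] [∀ j, Group.FG (A j)] in
theorem natBij_prod {C : Type} [CommGroup C] [Finite C] {G H : Type} [Group G] [Group H]
    (Φ : NatBij G H) {σ : Type} (s : Finset σ) (f : σ → (G →* C)) :
    Φ.toFun C (∏ x ∈ s, f x) = ∏ x ∈ s, Φ.toFun C (f x) := by
  classical
  induction s using Finset.induction_on with
  | empty => simp only [Finset.prod_empty]; exact Φ.one C
  | insert a s ha ih => rw [Finset.prod_insert ha, Finset.prod_insert ha, natBij_mul, ih]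

omit [∀ j, Group.FG (A j)] in
theorem prod_ext {C : Type} [CommGroup C] (Θ : CoprodI A →* C) :
    ∏ j, ext j (Θ.comp (CoprodI.of (i := j))) = Θ := by
  apply CoprodI.ext_hom
  intro j
  ext x
  rw [MonoidHom.comp_apply, MonoidHom.finsetProd_apply, MonoidHom.comp_apply]
  rw [Finset.prod_eq_single j]
  · exact DFunLike.congr_fun (ext_same j _) x
  · intro k _ hk
    exact DFunLike.congr_fun (ext_ne hk.symm _) x
  · intro h
    exact absurd (Finset.mem_univ j) h

include q in
/-- the factor `ℤ/m_i` of `Γ` is a quotient of the factor of `Λ` to which it is attached -/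
theorem exists_att (hqm : ∀ i, m i ≠ 0 → ¬ q ∣ m i) {i : ι} (hi : m i ≠ 0) (hi1 : m i ≠ 1) :
    ∃ j, Att Φ j i ∧ ∃ θ : A j →* Multiplicative (ZMod (m i)), Function.Surjective θ := by
  classical
  have : NeZero (m i) := ⟨hi⟩
  have : Finite (Multiplicative (ZMod (m i))) := (inferInstance : Finite (ZMod (m i)))
  have : Fact (1 < m i) := ⟨by omega⟩
  have : Nontrivial (Multiplicative (ZMod (m i))) := (inferInstance : Nontrivial (ZMod (m i)))
  let ψ : FP m →* Multiplicative (ZMod (m i)) :=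
    ext (A := fun i => Multiplicative (ZMod (m i))) i (MonoidHom.id _)
  have hψ : ψ.comp (oi m i) = MonoidHom.id _ :=
    ext_same (A := fun i => Multiplicative (ZMod (m i))) i (MonoidHom.id _)
  let Θ := Φ.invFun _ ψ
  have h1 : ψ = ∏ j, TT Φ j (Θ.comp (CoprodI.of (i := j))) := by
    unfold TT
    rw [← natBij_prod, prod_ext]
    exact (Φ.right_inv _ ψ).symm
  have h2 : MonoidHom.id _ = ∏ j, Ti Φ j i (Θ.comp (CoprodI.of (i := j))) := by
    rw [← hψ, h1]
    apply MonoidHom.ext
    intro x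
    rw [MonoidHom.comp_apply, MonoidHom.finsetProd_apply, MonoidHom.finsetProd_apply]
    rfl
  -- at most one factor is nontrivial
  have h3 : ∃ j, Ti Φ j i (Θ.comp (CoprodI.of (i := j))) ≠ 1 := by
    by_contra hc
    push Not at hc
    rw [Finset.prod_eq_one fun j _ => hc j] at h2
    obtain ⟨x, hx⟩ := exists_ne (1 : Multiplicative (ZMod (m i)))
    exact hx (DFunLike.congr_fun h2 x)
  obtain ⟨j, hj⟩ := h3
  refine ⟨j, ⟨_, _, _, _, hj⟩, Θ.comp CoprodI.of, ?_⟩
  rw [Finset.prod_eq_single j] at h2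
  · rw [← MonoidHom.range_eq_top, eq_top_iff]
    refine le_trans ?_ (range_Ti_le Φ j i (Θ.comp CoprodI.of))
    rw [← h2]
    exact fun x _ => ⟨x, rfl⟩
  · intro k _ hk
    by_contra hne
    exact hk (Att_unique Φ q hqm hi ⟨_, _, _, _, hne⟩ ⟨_, _, _, _, hj⟩)
  · intro h
    exact absurd (Finset.mem_univ j) h

end main

end Pool.Agent.Lib.MP_305fdd_al
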