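import Pool.Agent.Lib.MP_305fdd_al.Attach2

/-!
# MP_305fdd_al: factors with one attached finite factor
-/

set_option autoImplicit false

namespace Pool.Agent.Lib.MP_305fdd_al

open Monoid Pool.Agent.MP_305fdd_al

theorem exists_ne_one {A : Type} [Group A] [Nontrivial A] (hrf : Group.ResiduallyFinite A) :
    ∃ (Q : Type) (_ : Group Q) (_ : Finite Q) (θ : A →* Q), θ ≠ 1 := by
  obtain ⟨x, hx⟩ := exists_ne (1 : A)
  obtain ⟨N, hN⟩ := Group.exists_finiteIndexNormalSubgroup_notMem x hx
  have : Finite (A ⧸ N.toSubgroup) := Subgroup.finite_quotient_of_finiteIndex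
  refine ⟨A ⧸ N.toSubgroup, inferInstance, inferInstance, QuotientGroup.mk' _, fun h => hN ?_⟩
  exact (QuotientGroup.eq_one_iff x).mp (DFunLike.congr_fun h x)

/-- a residually finite group with bounded finite quotients is finite -/
theorem finite_of_bdd {A : Type} [Group A] [Group.FG A] (hrf : Group.ResiduallyFinite A) (M : ℕ)
    (h : ∀ (Q : Type) [Group Q] [Finite Q] (θ : A →* Q), im θ ≤ M) : Finite A := by
  have : Finite (A →* Equiv.Perm (Fin M)) := finite_hom _ _
  have hbot : KQ A (Equiv.Perm (Fin M)) = ⊥ := by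
    rw [eq_bot_iff]
    intro x hx
    rw [Subgroup.mem_bot]
    refine Group.eq_one_iff_forall_finiteIndexNormalSubroup _ fun N => ?_
    have : Finite (A ⧸ N.toSubgroup) := Subgroup.finite_quotient_of_finiteIndex
    have h1 := h (A ⧸ N.toSubgroup) (QuotientGroup.mk' _)
    rw [im, MonoidHom.range_eq_top.mpr (QuotientGroup.mk'_surjective _), Subgroup.card_top] at h1
    have h2 := KQ_le_ker A h1 (QuotientGroup.mk' N.toSubgroup) hx
    rwa [QuotientGroup.ker_mk'] at h2
  have hfin : (KQ A (Equiv.Perm (Fin M))).FiniteIndex := Subgroup.finiteIndex_ker _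
  rw [hbot] at hfin
  have h0 := hfin.index_ne_zero
  rw [Subgroup.index_bot] at h0
  exact Nat.finite_of_card_ne_zero h0

section main

variable {ι κ : Type} [Fintype ι] [Fintype κ] [DecidableEq κ] {m : ι → ℕ} {A : κ → Type}
  [∀ j, Group (A j)] [∀ j, Group.FG (A j)] (Φ : NatBij (CoprodI A) (FP m)) {Q R : Type} [Group Q]
  [Group R] [Finite Q] [Finite R] (q : ℕ) [hq : Fact q.Prime]

include q in
theorem exists_att_of_rk_zero (hqm : ∀ i, m i ≠ 0 → ¬ q ∣ m i) (j : κ)
    (hrf : Group.ResiduallyFinite (A j)) [Nontrivial (A j)] (h0 : rk q (A j) = 0) :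
    ∃ i, m i ≠ 0 ∧ Att Φ j i := by
  obtain ⟨Q, _, _, θ, hθ⟩ := exists_ne_one hrf
  have h1 := LL_eq Φ q hqm j θ
  have h2 := le_LL q θ
  have h3 := half_le_wt (two_le_im hθ)
  rw [h0, Nat.cast_zero, zero_add] at h1
  have h4 : SS (TT Φ j θ) ≠ 0 := by
    rw [← h1]
    linarith
  obtain ⟨i, -, hi⟩ := Finset.exists_ne_zero_of_sum_ne_zero h4
  refine ⟨i, fun h => hi (if_pos h), Q, inferInstance, inferInstance, θ, fun h => hi ?_⟩
  by_cases hm : m i = 0
  · exact if_pos hm
  · rw [if_neg hm]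
    show wt (im (Ti Φ j i θ)) = 0
    rw [h, im_one, wt_one]

omit [Fintype κ] [∀ j, Group.FG (A j)] in
theorem SS_single (j : κ) {i : ι} (hi : m i ≠ 0)
    (huniq : ∀ i', m i' ≠ 0 → Att Φ j i' → i' = i) (θ : A j →* Q) :
    SS (TT Φ j θ) = wt (im (Ti Φ j i θ)) := by
  unfold SS
  rw [Finset.sum_eq_single i]
  · rw [if_neg hi]
    rfl
  · intro i' _ hne
    by_cases hm : m i' = 0
    · exact if_pos hm
    · rw [if_neg hm]
      show wt (im (Ti Φ j i' θ)) = 0
      have : Ti Φ j i' θ = 1 := by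
        by_contra hc
        exact hne (huniq i' hm ⟨_, _, _, _, hc⟩)
      rw [this, im_one, wt_one]
  · intro h
    exact absurd (Finset.mem_univ i) h

include q in
/-- a factor with trivial homology modulo `q` and only one attached finite factor -/
theorem equiv_of_one_att (hqm : ∀ i, m i ≠ 0 → ¬ q ∣ m i) (j : κ)
    (hrf : Group.ResiduallyFinite (A j)) (h0 : rk q (A j) = 0) {i : ι} (hi : m i ≠ 0)
    (hi1 : m i ≠ 1) (huniq : ∀ i', m i' ≠ 0 → Att Φ j i' → i' = i) (hatt : Att Φ j i) :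
    Nonempty (A j ≃* Multiplicative (ZMod (m i))) := by
  have : NeZero (m i) := ⟨hi⟩
  have : Finite (Multiplicative (ZMod (m i))) := (inferInstance : Finite (ZMod (m i)))
  have hcard : Nat.card (Multiplicative (ZMod (m i))) = m i := Nat.card_zmod (m i)
  have key : ∀ {Q : Type} [Group Q] [Finite Q] (θ : A j →* Q), im θ ≤ im (Ti Φ j i θ) := by
    intro Q _ _ θ
    have h1 := LL_eq Φ q hqm j θ
    rw [h0, Nat.cast_zero, zero_add, SS_single Φ j hi huniq] at h1
    have h2 := le_LL q θ
    by_contra hlt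
    push Not at hlt
    have h3 := wt_strictMono (im_pos _) hlt
    linarith
  have hfin : Finite (A j) := finite_of_bdd hrf (m i) fun Q _ _ θ =>
    (key θ).trans ((im_le_dom _).trans_eq hcard)
  -- the identity
  have h1 : Function.Surjective (Ti Φ j i (MonoidHom.id (A j))) := by
    rw [← MonoidHom.range_eq_top]
    apply Subgroup.eq_top_of_card_eq
    apply le_antisymm (Subgroup.card_le_card_group _)
    have := key (MonoidHom.id (A j))
    rwa [im, MonoidHom.range_eq_top.mpr (show Function.Surjective (MonoidHom.id (A j)) from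
      fun x => ⟨x, rfl⟩), Subgroup.card_top] at this
  obtain ⟨j', hj', θ, hθ⟩ := exists_att Φ q hqm hi hi1
  obtain rfl := Att_unique Φ q hqm hi hj' hatt
  have h2 : m i ≤ Nat.card (A j') := by
    rw [← hcard]
    exact Nat.card_le_card_of_surjective _ hθ
  have h3 : Nat.card (A j') ≤ Nat.card (Multiplicative (ZMod (m i))) :=
    Nat.card_le_card_of_surjective _ h1
  exact ⟨(MulEquiv.ofBijective (Ti Φ j' i (MonoidHom.id (A j')))
    ((Nat.bijective_iff_surjective_and_card _).mpr ⟨h1, by omega⟩)).symm⟩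

include q in
/-- finite cyclic factors have trivial homology modulo `q` and exactly one attached factor -/
theorem att_of_finite_cyclic (hqm : ∀ i, m i ≠ 0 → ¬ q ∣ m i) (j : κ) [Nontrivial (A j)]
    [Finite (A j)] (hqA : ¬ q ∣ Nat.card (A j)) :
    rk q (A j) = 0 ∧ ∃ i, m i ≠ 0 ∧ Att Φ j i ∧ ∀ i', m i' ≠ 0 → Att Φ j i' → i' = i := by
  have h0 : rk q (A j) = 0 := by
    have h1 := LL_finite q hqA (1 : A j →* Multiplicative (ZMod 1))
    rw [LL_one', im_one, wt_one] at h1
    exact_mod_cast h1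
  refine ⟨h0, ?_⟩
  have h1 := LL_finite q hqA (MonoidHom.id (A j))
  rw [LL_eq Φ q hqm, h0, Nat.cast_zero, zero_add, im,
    MonoidHom.range_eq_top.mpr (show Function.Surjective (MonoidHom.id (A j)) from
      fun x => ⟨x, rfl⟩), Subgroup.card_top] at h1
  have hlt : SS (TT Φ j (MonoidHom.id (A j))) < 1 := by
    rw [h1]
    exact wt_lt_one Nat.card_pos
  have hpos : SS (TT Φ j (MonoidHom.id (A j))) ≠ 0 := by
    rw [h1]
    have := half_le_wt (Finite.one_lt_card (α := A j))
    linarith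
  obtain ⟨i, -, hi⟩ := Finset.exists_ne_zero_of_sum_ne_zero hpos
  have hmi : m i ≠ 0 := fun h => hi (if_pos h)
  rw [if_neg hmi] at hi
  have hTi : Ti Φ j i (MonoidHom.id (A j)) ≠ 1 := by
    intro h
    apply hi
    show wt (im (Ti Φ j i (MonoidHom.id (A j)))) = 0
    rw [h, im_one, wt_one]
  refine ⟨i, hmi, ⟨_, _, _, _, hTi⟩, ?_⟩
  rintro i' hmi' ⟨Q, _, _, θ, hθ⟩
  by_contra hne
  have hTi' : Ti Φ j i' (MonoidHom.id (A j)) ≠ 1 := by
    intro h
    apply hθ
    have := Ti_comp Φ j i' (MonoidHom.id (A j)) θ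
    rw [MonoidHom.comp_id, h, MonoidHom.comp_one] at this
    exact this
  have h2 : (if m i = 0 then 0 else wt (im ((TT Φ j (MonoidHom.id (A j))).comp (oi m i)))) +
      (if m i' = 0 then 0 else wt (im ((TT Φ j (MonoidHom.id (A j))).comp (oi m i')))) ≤
      SS (TT Φ j (MonoidHom.id (A j))) := by
    classical
    unfold SS
    rw [← Finset.sum_pair (f := fun i => if m i = 0 then (0 : ℝ) else
      wt (im ((TT Φ j (MonoidHom.id (A j))).comp (oi m i)))) (Ne.symm hne)]
    apply Finset.sum_le_sum_of_subset_of_nonneg (Finset.subset_univ _)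
    intro k _ _
    by_cases hk : m k = 0
    · simp only [hk, if_true]; exact le_refl _
    · simp only [hk, if_false]
      exact wt_nonneg (im_pos _)
  rw [if_neg hmi, if_neg hmi'] at h2
  have h3 := half_le_wt (two_le_im hTi)
  have h4 := half_le_wt (two_le_im hTi')
  have h5 : wt (im (Ti Φ j i (MonoidHom.id (A j)))) + wt (im (Ti Φ j i' (MonoidHom.id (A j)))) ≤
      SS (TT Φ j (MonoidHom.id (A j))) := h2
  linarith

include q in
/-- infinite cyclic factors have rank one and no attached finite factor -/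
theorem att_of_infinite_cyclic (hqm : ∀ i, m i ≠ 0 → ¬ q ∣ m i) (j : κ)
    (e : A j ≃* Multiplicative (ZMod 0)) :
    rk q (A j) = 1 ∧ ∀ i, m i ≠ 0 → ¬ Att Φ j i := by
  have hL : ∀ {Q : Type} [Group Q] [Finite Q] (θ : A j →* Q), LL q θ = 1 := by
    intro Q _ _ θ
    have h1 : θ = (θ.comp e.symm.toMonoidHom).comp e.toMonoidHom := by
      ext x
      simp
    rw [h1]
    unfold LL
    rw [NL_equiv]
    exact LL_int q _
  have h0 : rk q (A j) = 1 := by
    have h1 := hL (1 : A j →* Multiplicative (ZMod 1))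
    rw [LL_one'] at h1
    exact_mod_cast h1
  refine ⟨h0, ?_⟩
  rintro i hi ⟨Q, _, _, θ, hθ⟩
  have h1 := LL_eq Φ q hqm j θ
  rw [hL, h0, Nat.cast_one] at h1
  have h2 : SS (TT Φ j θ) = 0 := by linarith
  unfold SS at h2
  rw [Finset.sum_eq_zero_iff_of_nonneg] at h2
  · have h3 := h2 i (Finset.mem_univ i)
    rw [if_neg hi] at h3
    have h4 := half_le_wt (two_le_im hθ)
    have h5 : wt (im (Ti Φ j i θ)) = 0 := h3
    linarith
  · intro k _
    by_cases hk : m k = 0
    · simp only [hk, if_true]; exact le_refl _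
    · simp only [hk, if_false]
      exact wt_nonneg (im_pos _)

end main

end Pool.Agent.Lib.MP_305fdd_al
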