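import Mathlib

/-!
Kurosh subgroup theorem for free products `Monoid.CoprodI C` (own proof): a point stabiliser of a
transitive action of a free product is a free product of subgroups of the factors and infinite
cyclic groups.
-/

set_option autoImplicit false

namespace Pool.Agent.Lib.MP_305fdd_al

open Monoid

namespace Kurosh

variable {ι : Type} {C : ι → Type} [∀ i, Group (C i)] {V : Type} [MulAction (CoprodI C) V]

/-- Combinatorial data on a transitive action of a free product: representatives of the orbits of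
the factors, transversals, and a spanning tree. -/
structure KData (C : ι → Type) [∀ i, Group (C i)] (V : Type) [MulAction (CoprodI C) V] where
  v0 : V
  rep : ι → V → V
  t : (i : ι) → V → C i
  t_smul : ∀ i v, (CoprodI.of (t i v) : CoprodI C) • rep i v = v
  rep_smul : ∀ i (c : C i) v, rep i ((CoprodI.of c : CoprodI C) • v) = rep i v
  t_rep : ∀ i v, t i (rep i v) = 1
  par : (v : V) → v ≠ v0 → ι
  d : V → ℕ
  d_lt : ∀ v (h : v ≠ v0), d (rep (par v h) v) < d v

variable (K : KData C V)

namespace KData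

variable {K}

open Classical in
/-- tree path from `v0` to `v` -/
noncomputable def p (K : KData C V) (v : V) : CoprodI C :=
  if h : v = K.v0 then 1 else
    CoprodI.of (K.t (K.par v h) v) * p K (K.rep (K.par v h) v)
termination_by K.d v
decreasing_by exact K.d_lt v h

theorem p_v0 (K : KData C V) : K.p K.v0 = 1 := by
  rw [p]; simp

theorem p_of_ne (K : KData C V) (v : V) (h : v ≠ K.v0) :
    K.p v = CoprodI.of (K.t (K.par v h) v) * K.p (K.rep (K.par v h) v) := by
  rw [p]; simp [h]

theorem induct (K : KData C V) {P : V → Prop} (h0 : P K.v0)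
    (h1 : ∀ v (h : v ≠ K.v0), P (K.rep (K.par v h) v) → P v) (v : V) : P v := by
  by_cases h : v = K.v0
  · rw [h]; exact h0
  · exact h1 v h (induct K h0 h1 _)
termination_by K.d v
decreasing_by exact K.d_lt v h

theorem p_smul (K : KData C V) (v : V) : K.p v • K.v0 = v := by
  induction v using K.induct with
  | h0 => rw [p_v0, one_smul]
  | h1 v h ih => rw [p_of_ne K v h, mul_smul, ih, K.t_smul]

theorem rep_rep (K : KData C V) (i : ι) (v : V) : K.rep i (K.rep i v) = K.rep i v := by
  have := K.rep_smul i (K.t i v) (K.rep i v)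
  rw [K.t_smul] at this
  exact this.symm

/-- stabiliser of `w` in the factor `C i` -/
def S (_ : KData C V) (i : ι) (w : V) : Subgroup (C i) :=
  (MulAction.stabilizer (CoprodI C) w).comap (CoprodI.of : C i →* CoprodI C)

theorem mem_S (K : KData C V) (i : ι) (w : V) (e : C i) :
    e ∈ K.S i w ↔ (CoprodI.of e : CoprodI C) • w = w := Iff.rfl

/-- non-tree edges -/
def NT (K : KData C V) (x : ι × V) : Prop :=
  K.rep x.1 x.2 ≠ x.2 ∧ ¬ ∃ h : x.2 ≠ K.v0, x.1 = K.par x.2 h

/-- index set of the free decomposition -/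
inductive J (K : KData C V) : Type
  | v (i : ι) (w : V) (hw : K.rep i w = w) : J K
  | e (x : ι × V) (hx : K.NT x) : J K

/-- the factors -/
def A (K : KData C V) : K.J → Type
  | J.v i w _ => ↥(K.S i w)
  | J.e _ _ => Multiplicative ℤ

instance instGroupA (K : KData C V) : ∀ j, Group (K.A j)
  | J.v i w _ => inferInstanceAs (Group ↥(K.S i w))
  | J.e _ _ => inferInstanceAs (Group (Multiplicative ℤ))

/-- the target free product -/
abbrev X (K : KData C V) : Type := CoprodI K.A

/-- inclusion of a factor of the first kind -/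
def in1 (K : KData C V) (i : ι) (w : V) (hw : K.rep i w = w) : ↥(K.S i w) →* K.X :=
  CoprodI.of (M := K.A) (i := J.v i w hw)

/-- inclusion of a factor of the second kind -/
def in2 (K : KData C V) (x : ι × V) (hx : K.NT x) : Multiplicative ℤ →* K.X :=
  CoprodI.of (M := K.A) (i := J.e x hx)

theorem hom_ext (K : KData C V) {N : Type} [Monoid N] {f g : K.X →* N}
    (h1 : ∀ i w hw e, f (K.in1 i w hw e) = g (K.in1 i w hw e))
    (h2 : ∀ x hx e, f (K.in2 x hx e) = g (K.in2 x hx e)) : f = g := by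
  apply CoprodI.ext_hom
  intro j
  rcases j with ⟨i, w, hw⟩ | ⟨x, hx⟩
  · exact MonoidHom.ext fun e => h1 i w hw e
  · exact MonoidHom.ext fun e => h2 x hx e

/-- universal property -/
noncomputable def lft (K : KData C V) {N : Type} [Monoid N]
    (f1 : ∀ i w, K.rep i w = w → (↥(K.S i w) →* N)) (f2 : ∀ x, K.NT x → (Multiplicative ℤ →* N)) :
    K.X →* N :=
  CoprodI.lift fun j => match j with
    | J.v i w hw => f1 i w hw
    | J.e x hx => f2 x hx

theorem lft_in1 (K : KData C V) {N : Type} [Monoid N]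
    (f1 : ∀ i w, K.rep i w = w → (↥(K.S i w) →* N)) (f2 : ∀ x, K.NT x → (Multiplicative ℤ →* N))
    (i : ι) (w : V) (hw : K.rep i w = w) (e : ↥(K.S i w)) :
    K.lft f1 f2 (K.in1 i w hw e) = f1 i w hw e :=
  CoprodI.lift_of (M := K.A) _ (i := J.v i w hw) e

theorem lft_in2 (K : KData C V) {N : Type} [Monoid N]
    (f1 : ∀ i w, K.rep i w = w → (↥(K.S i w) →* N)) (f2 : ∀ x, K.NT x → (Multiplicative ℤ →* N))
    (x : ι × V) (hx : K.NT x) (e : Multiplicative ℤ) :
    K.lft f1 f2 (K.in2 x hx e) = f2 x hx e :=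
  CoprodI.lift_of (M := K.A) _ (i := J.e x hx) e

open Classical in
/-- edge element -/
noncomputable def x (K : KData C V) (i : ι) (v : V) : K.X :=
  if h : K.NT (i, v) then K.in2 (i, v) h (Multiplicative.ofAdd (1 : ℤ)) else 1

open Classical in
/-- stabiliser element -/
noncomputable def s (K : KData C V) (i : ι) (w : V) (e : C i) : K.X :=
  if h : K.rep i w = w ∧ e ∈ K.S i w then K.in1 i w h.1 ⟨e, h.2⟩ else 1

theorem s_eq (K : KData C V) (i : ι) (w : V) (hw : K.rep i w = w) (e : C i) (he : e ∈ K.S i w) :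
    K.s i w e = K.in1 i w hw ⟨e, he⟩ := by
  unfold s
  rw [dif_pos ⟨hw, he⟩]

theorem x_eq (K : KData C V) (i : ι) (v : V) (h : K.NT (i, v)) :
    K.x i v = K.in2 (i, v) h (Multiplicative.ofAdd (1 : ℤ)) := by
  unfold x
  rw [dif_pos h]

theorem s_one (K : KData C V) (i : ι) (w : V) : K.s i w 1 = 1 := by
  by_cases hw : K.rep i w = w
  · rw [s_eq K i w hw 1 (one_mem _)]
    exact map_one (K.in1 i w hw)
  · unfold s
    rw [dif_neg]
    intro h
    exact hw h.1

theorem s_mul (K : KData C V) (i : ι) (w : V) (hw : K.rep i w = w) (e e' : C i)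
    (he : e ∈ K.S i w) (he' : e' ∈ K.S i w) : K.s i w (e * e') = K.s i w e * K.s i w e' := by
  rw [s_eq K i w hw _ he, s_eq K i w hw _ he', s_eq K i w hw _ (mul_mem he he'), ← map_mul]
  rfl

theorem x_rep (K : KData C V) (i : ι) (v : V) (hv : K.rep i v = v) : K.x i v = 1 := by
  unfold x
  rw [dif_neg]
  intro h
  exact h.1 hv

theorem x_par (K : KData C V) (v : V) (h : v ≠ K.v0) : K.x (K.par v h) v = 1 := by
  unfold x
  rw [dif_neg]
  intro h'
  exact h'.2 ⟨h, rfl⟩

theorem conj_mem (K : KData C V) (i : ι) (g : C i) (v : V) :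
    (K.t i ((CoprodI.of g : CoprodI C) • v))⁻¹ * g * K.t i v ∈ K.S i (K.rep i v) := by
  rw [mem_S, map_mul, map_mul, map_inv, mul_smul, mul_smul, K.t_smul, inv_smul_eq_iff]
  have := K.t_smul i ((CoprodI.of g : CoprodI C) • v)
  rw [K.rep_smul] at this
  exact this.symm

/-- the cocycle on a factor -/
noncomputable def c (K : KData C V) (i : ι) (g : C i) (v : V) : K.X :=
  K.x i ((CoprodI.of g : CoprodI C) • v) *
    K.s i (K.rep i v) ((K.t i ((CoprodI.of g : CoprodI C) • v))⁻¹ * g * K.t i v) * (K.x i v)⁻¹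

theorem c_one (K : KData C V) (i : ι) (v : V) : K.c i 1 v = 1 := by
  unfold c
  rw [map_one, one_smul, mul_one, inv_mul_cancel, s_one, mul_one, mul_inv_cancel]

theorem c_mul (K : KData C V) (i : ι) (g h : C i) (v : V) :
    K.c i (g * h) v = K.c i g ((CoprodI.of h : CoprodI C) • v) * K.c i h v := by
  unfold c
  rw [map_mul, mul_smul, K.rep_smul]
  have h1 : (K.t i ((CoprodI.of g : CoprodI C) • (CoprodI.of h : CoprodI C) • v))⁻¹ * (g * h) *
      K.t i v = ((K.t i ((CoprodI.of g : CoprodI C) • (CoprodI.of h : CoprodI C) • v))⁻¹ * g *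
      K.t i ((CoprodI.of h : CoprodI C) • v)) *
      ((K.t i ((CoprodI.of h : CoprodI C) • v))⁻¹ * h * K.t i v) := by group
  have h2 := K.conj_mem i g ((CoprodI.of h : CoprodI C) • v)
  rw [K.rep_smul] at h2
  rw [h1, s_mul K i (K.rep i v) (K.rep_rep i v) _ _ h2 (K.conj_mem i h v)]
  group

/-- the action of the free product on `V × X` -/
noncomputable def Ψ (K : KData C V) : CoprodI C →* Function.End (V × K.X) :=
  CoprodI.lift fun i =>
    { toFun := fun g vy => ((CoprodI.of g : CoprodI C) • vy.1, K.c i g vy.1 * vy.2)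
      map_one' := by
        funext vy
        simp only [map_one, one_smul, c_one, one_mul]
        rfl
      map_mul' := fun g h => by
        funext vy
        rw [c_mul, map_mul, mul_smul, mul_assoc]
        rfl }

theorem Ψ_of (K : KData C V) (i : ι) (g : C i) (v : V) (y : K.X) :
    K.Ψ (CoprodI.of g) (v, y) = ((CoprodI.of g : CoprodI C) • v, K.c i g v * y) := by
  unfold Ψ
  rw [CoprodI.lift_of]
  rfl

theorem Ψ_eq (K : KData C V) (g : CoprodI C) : ∀ (v : V) (y : K.X),
    K.Ψ g (v, y) = (g • v, (K.Ψ g (v, 1)).2 * y) := by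
  induction g using CoprodI.induction_left with
  | one => intro v y; simp only [map_one, one_smul]; show (v, y) = (v, 1 * y); rw [one_mul]
  | mul m x ih =>
    intro v y
    have h1 : ∀ y, K.Ψ (CoprodI.of m * x) (v, y) = K.Ψ (CoprodI.of m) (K.Ψ x (v, y)) := by
      intro y; rw [map_mul]; rfl
    rw [h1, h1, ih v y, ih v 1, Ψ_of, Ψ_of, mul_smul]
    simp only [mul_one, mul_assoc]

/-- the cocycle of the whole group -/
noncomputable def Φ (K : KData C V) (g : CoprodI C) (v : V) : K.X := (K.Ψ g (v, 1)).2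

theorem Φ_one (K : KData C V) (v : V) : K.Φ 1 v = 1 := by
  unfold Φ; rw [map_one]; rfl

theorem Φ_mul (K : KData C V) (g h : CoprodI C) (v : V) :
    K.Φ (g * h) v = K.Φ g (h • v) * K.Φ h v := by
  unfold Φ
  have h1 : K.Ψ (g * h) (v, 1) = K.Ψ g (K.Ψ h (v, 1)) := by rw [map_mul]; rfl
  rw [h1, Ψ_eq K h v 1, Ψ_eq K g]

theorem Φ_of (K : KData C V) (i : ι) (g : C i) (v : V) :
    K.Φ (CoprodI.of g) v = K.c i g v := by
  unfold Φ; rw [Ψ_of, mul_one]

theorem Φ_inv (K : KData C V) (g : CoprodI C) (v : V) :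
    K.Φ g⁻¹ (g • v) = (K.Φ g v)⁻¹ := by
  have := K.Φ_mul g⁻¹ g v
  rw [inv_mul_cancel, Φ_one] at this
  exact eq_inv_of_mul_eq_one_left this.symm

theorem Φ_t (K : KData C V) (i : ι) (v : V) :
    K.Φ (CoprodI.of (K.t i v)) (K.rep i v) = K.x i v := by
  rw [Φ_of, c, K.t_smul, K.rep_rep, x_rep K i _ (K.rep_rep i v), K.t_rep, inv_mul_cancel, one_mul,
    s_one, mul_one, inv_one, mul_one]

theorem Φ_p (K : KData C V) (v : V) : K.Φ (K.p v) K.v0 = 1 := by
  induction v using K.induct with
  | h0 => rw [p_v0, Φ_one]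
  | h1 v h ih => rw [p_of_ne K v h, Φ_mul, ih, mul_one, p_smul, Φ_t, x_par]

/-- loops of the first kind -/
theorem loop1_mem (K : KData C V) (i : ι) (w : V) (e : C i) (he : e ∈ K.S i w) :
    (K.p w)⁻¹ * CoprodI.of e * K.p w ∈ MulAction.stabilizer (CoprodI C) K.v0 := by
  rw [MulAction.mem_stabilizer_iff, mul_smul, mul_smul, p_smul]
  rw [mem_S] at he
  rw [he, inv_smul_eq_iff, p_smul]

theorem loop2_mem (K : KData C V) (i : ι) (v : V) :
    (K.p v)⁻¹ * CoprodI.of (K.t i v) * K.p (K.rep i v) ∈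
      MulAction.stabilizer (CoprodI C) K.v0 := by
  rw [MulAction.mem_stabilizer_iff, mul_smul, mul_smul, p_smul, K.t_smul, inv_smul_eq_iff, p_smul]

/-- the homomorphism on a factor of the first kind -/
noncomputable def ψ1 (K : KData C V) (i : ι) (w : V) :
    ↥(K.S i w) →* MulAction.stabilizer (CoprodI C) K.v0 where
  toFun e := ⟨(K.p w)⁻¹ * CoprodI.of (e : C i) * K.p w, K.loop1_mem i w e e.2⟩
  map_one' := by
    apply Subtype.ext
    simp
  map_mul' a b := by
    apply Subtype.ext
    show (K.p w)⁻¹ * CoprodI.of ((a : C i) * b) * K.p w =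
      ((K.p w)⁻¹ * CoprodI.of (a : C i) * K.p w) * ((K.p w)⁻¹ * CoprodI.of (b : C i) * K.p w)
    rw [map_mul]
    group

/-- the homomorphism from the free product of the factors -/
noncomputable def ψ (K : KData C V) : K.X →* MulAction.stabilizer (CoprodI C) K.v0 :=
  K.lft (fun i w _ => K.ψ1 i w) (fun x _ => zpowersHom _ ⟨_, K.loop2_mem x.1 x.2⟩)

theorem ψ_s (K : KData C V) (i : ι) (w : V) (hw : K.rep i w = w) (e : C i) (he : e ∈ K.S i w) :
    ((K.ψ (K.s i w e) : MulAction.stabilizer (CoprodI C) K.v0) : CoprodI C) =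
      (K.p w)⁻¹ * CoprodI.of e * K.p w := by
  rw [s_eq K i w hw e he, ψ, lft_in1]
  rfl

theorem ψ_x (K : KData C V) (i : ι) (v : V) :
    ((K.ψ (K.x i v) : MulAction.stabilizer (CoprodI C) K.v0) : CoprodI C) =
      (K.p v)⁻¹ * CoprodI.of (K.t i v) * K.p (K.rep i v) := by
  by_cases h : K.NT (i, v)
  · rw [x_eq K i v h, ψ, lft_in2, zpowersHom_apply]
    simp
  · have h1 : K.x i v = 1 := by unfold x; rw [dif_neg h]
    rw [h1, map_one]
    unfold NT at h
    rw [not_and_or, not_not, not_not] at h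
    rcases h with h | ⟨h, h'⟩
    · simp only at h
      have h2 : K.t i v = 1 := by rw [← h, K.t_rep]
      rw [h2, h]
      simp
    · simp only at h h'
      subst h'
      rw [p_of_ne K v h]
      simp

theorem ψ_Φ (K : KData C V) (g : CoprodI C) : ∀ v : V,
    ((K.ψ (K.Φ g v) : MulAction.stabilizer (CoprodI C) K.v0) : CoprodI C) =
      (K.p (g • v))⁻¹ * g * K.p v := by
  induction g using CoprodI.induction_left with
  | one => intro v; rw [Φ_one, map_one, one_smul]; simp
  | mul m x ih =>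
    intro v
    rw [Φ_mul, map_mul, Subgroup.coe_mul, ih v, Φ_of, c, map_mul, map_mul, map_inv,
      Subgroup.coe_mul, Subgroup.coe_mul, Subgroup.coe_inv, ψ_x, ψ_x,
      ψ_s K _ _ (K.rep_rep _ _) _ (K.conj_mem _ _ _), K.rep_smul, mul_smul, map_mul, map_mul,
      map_inv]
    group

/-- the homomorphism from the stabiliser -/
noncomputable def φ (K : KData C V) : MulAction.stabilizer (CoprodI C) K.v0 →* K.X where
  toFun h := K.Φ (h : CoprodI C) K.v0
  map_one' := K.Φ_one _
  map_mul' a b := by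
    rw [Subgroup.coe_mul, Φ_mul, MulAction.mem_stabilizer_iff.mp b.2]

theorem φ_loop (K : KData C V) (g : CoprodI C) (v w : V) (h : g • v = w)
    (hm : (K.p w)⁻¹ * g * K.p v ∈ MulAction.stabilizer (CoprodI C) K.v0) :
    K.φ ⟨_, hm⟩ = K.Φ g v := by
  show K.Φ ((K.p w)⁻¹ * g * K.p v) K.v0 = _
  rw [Φ_mul, Φ_mul, Φ_p, mul_one, p_smul, h]
  have h1 : K.Φ (K.p w)⁻¹ w = 1 := by
    have := K.Φ_inv (K.p w) K.v0
    rw [p_smul, Φ_p, inv_one] at this
    exact this
  rw [h1, one_mul]

/-- **Kurosh**: the stabiliser is the free product of the factors `A`. -/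
noncomputable def iso (K : KData C V) : MulAction.stabilizer (CoprodI C) K.v0 ≃* K.X :=
  MonoidHom.toMulEquiv K.φ K.ψ
    (by
      apply MonoidHom.ext
      intro h
      apply Subtype.ext
      show ((K.ψ (K.Φ (h : CoprodI C) K.v0) : MulAction.stabilizer (CoprodI C) K.v0) :
        CoprodI C) = h
      rw [ψ_Φ, MulAction.mem_stabilizer_iff.mp h.2, p_v0]
      simp)
    (by
      apply K.hom_ext
      · intro i w hw e
        have hs : K.in1 i w hw e = K.s i w e := (s_eq K i w hw e e.2).symm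
        show K.φ (K.ψ (K.in1 i w hw e)) = K.in1 i w hw e
        rw [ψ, lft_in1]
        show K.φ ⟨(K.p w)⁻¹ * CoprodI.of (e : C i) * K.p w, K.loop1_mem i w e e.2⟩ = _
        rw [φ_loop K (CoprodI.of (e : C i)) w w ((K.mem_S i w e).mp e.2), Φ_of, c,
          (K.mem_S i w e).mp e.2, x_rep K i w hw, hw, hs]
        have ht : K.t i w = 1 := by
          have := K.t_rep i w
          rwa [hw] at this
        rw [ht]
        simp
      · intro x hx e
        show K.φ (K.ψ (K.in2 x hx e)) = K.in2 x hx e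
        rcases x with ⟨i, v⟩
        have he : e = (Multiplicative.ofAdd (1 : ℤ)) ^ (Multiplicative.toAdd e) := by
          rw [← ofAdd_zsmul]; simp
        have key : K.φ (K.ψ (K.in2 (i, v) hx (Multiplicative.ofAdd (1 : ℤ)))) =
            K.in2 (i, v) hx (Multiplicative.ofAdd (1 : ℤ)) := by
          rw [← x_eq K i v hx]
          have h2 : K.ψ (K.x i v) = ⟨_, K.loop2_mem i v⟩ := Subtype.ext (K.ψ_x i v)
          rw [h2, φ_loop K (CoprodI.of (K.t i v)) (K.rep i v) v (K.t_smul i v), Φ_t]
        rw [he, map_zpow, map_zpow, map_zpow, key])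

end KData

/-- word length of a point -/
noncomputable def dist (C : ι → Type) [∀ i, Group (C i)] {V : Type} [MulAction (CoprodI C) V]
    (v0 v : V) : ℕ :=
  sInf {n | ∃ l : List (Σ i, C i), l.length = n ∧
    ((l.map fun x => (CoprodI.of x.2 : CoprodI C)).prod) • v0 = v}

theorem exists_list (g : CoprodI C) :
    ∃ l : List (Σ i, C i), (l.map fun x => (CoprodI.of x.2 : CoprodI C)).prod = g := by
  induction g using CoprodI.induction_left with
  | one => exact ⟨[], rfl⟩
  | mul m x ih =>
    obtain ⟨l, hl⟩ := ih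
    exact ⟨⟨_, m⟩ :: l, by rw [List.map_cons, List.prod_cons, hl]⟩

theorem dist_step [MulAction.IsPretransitive (CoprodI C) V] (v0 v : V) (h : v ≠ v0) :
    ∃ (i : ι) (c : C i), dist C v0 ((CoprodI.of c : CoprodI C) • v) < dist C v0 v := by
  have hne : {n | ∃ l : List (Σ i, C i), l.length = n ∧
    ((l.map fun x => (CoprodI.of x.2 : CoprodI C)).prod) • v0 = v}.Nonempty := by
    obtain ⟨g, hg⟩ := MulAction.exists_smul_eq (CoprodI C) v0 v
    obtain ⟨l, hl⟩ := exists_list g
    exact ⟨l.length, l, rfl, by rw [hl, hg]⟩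
  obtain ⟨l, hl, hv⟩ := Nat.sInf_mem hne
  have hd : dist C v0 v = l.length := hl.symm
  rcases l with _ | ⟨⟨i, c⟩, l⟩
  · exfalso
    apply h
    rw [← hv]
    simp
  · refine ⟨i, c⁻¹, ?_⟩
    rw [hd, List.length_cons]
    have h2 : (CoprodI.of c⁻¹ : CoprodI C) • v =
        ((l.map fun x => (CoprodI.of x.2 : CoprodI C)).prod) • v0 := by
      rw [← hv, List.map_cons, List.prod_cons, mul_smul, map_inv, inv_smul_smul]
    have h3 : dist C v0 ((CoprodI.of c⁻¹ : CoprodI C) • v) ≤ l.length :=
      Nat.sInf_le ⟨l, rfl, h2.symm⟩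
    omega

/-- orbit of a point under a factor -/
def orb (C : ι → Type) [∀ i, Group (C i)] {V : Type} [MulAction (CoprodI C) V] (i : ι) (v : V) :
    Set V := {w | ∃ c : C i, (CoprodI.of c : CoprodI C) • v = w}

theorem orb_smul (i : ι) (c : C i) (v : V) :
    orb C i ((CoprodI.of c : CoprodI C) • v) = orb C i v := by
  ext w
  constructor
  · rintro ⟨e, rfl⟩
    exact ⟨e * c, by rw [map_mul, mul_smul]⟩
  · rintro ⟨e, rfl⟩
    exact ⟨e * c⁻¹, by rw [map_mul, mul_smul, map_inv, inv_smul_smul]⟩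

theorem orb_nonempty (i : ι) (v : V) : (orb C i v).Nonempty := ⟨v, 1, by simp⟩

open Classical in
/-- a point of minimal distance in a set -/
noncomputable def pick (C : ι → Type) [∀ i, Group (C i)] {V : Type} [MulAction (CoprodI C) V]
    (v0 : V) (s : Set V) : V :=
  if h : s.Nonempty then Function.argminOn (dist C v0) s h else v0

theorem pick_mem (v0 : V) (s : Set V) (h : s.Nonempty) : pick C v0 s ∈ s := by
  unfold pick
  rw [dif_pos h]
  exact Function.argminOn_mem _ _ _

theorem pick_le (v0 : V) (s : Set V) (w : V) (hw : w ∈ s) :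
    dist C v0 (pick C v0 s) ≤ dist C v0 w := by
  unfold pick
  rw [dif_pos ⟨w, hw⟩]
  exact Function.argminOn_le _ _ hw

open Classical in
/-- existence of the data -/
noncomputable def mkData [MulAction.IsPretransitive (CoprodI C) V] (v0 : V) : KData C V where
  v0 := v0
  rep i v := pick C v0 (orb C i v)
  t i v := if pick C v0 (orb C i v) = v then 1 else
    (show ∃ c : C i, (CoprodI.of c : CoprodI C) • pick C v0 (orb C i v) = v by
      obtain ⟨c, hc⟩ := pick_mem (C := C) v0 _ (orb_nonempty (C := C) i v)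
      exact ⟨c⁻¹, by rw [← hc, map_inv, inv_smul_smul]⟩).choose
  t_smul i v := by
    split_ifs with h
    · rw [map_one, one_smul, h]
    · exact (show ∃ c : C i, (CoprodI.of c : CoprodI C) • pick C v0 (orb C i v) = v by
        obtain ⟨c, hc⟩ := pick_mem (C := C) v0 _ (orb_nonempty (C := C) i v)
        exact ⟨c⁻¹, by rw [← hc, map_inv, inv_smul_smul]⟩).choose_spec
  rep_smul i c v := by rw [orb_smul]
  t_rep i v := by
    rw [if_pos]
    obtain ⟨c, hc⟩ := pick_mem (C := C) v0 _ (orb_nonempty (C := C) i v)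
    have : orb C i (pick C v0 (orb C i v)) = orb C i v := by
      conv_lhs => rw [← hc]
      rw [orb_smul]
    rw [this]
  par v h := (dist_step (C := C) v0 v h).choose
  d := dist C v0
  d_lt v h := by
    obtain ⟨c, hc⟩ := (dist_step (C := C) v0 v h).choose_spec
    exact lt_of_le_of_lt (pick_le (C := C) v0 _ _ ⟨c, rfl⟩) hc

/-- **Kurosh subgroup theorem**, abstract form: every subgroup `H` of a free product is isomorphic
to a free product of groups each of which is isomorphic to `ℤ` or to a subgroup of a factor. -/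
theorem kurosh (H : Subgroup (CoprodI C)) :
    ∃ (J : Type) (A : J → Type) (_ : ∀ j, Group (A j)),
      (∀ j, (∃ (i : ι) (T : Subgroup (C i)), Nonempty (A j ≃* T)) ∨
        Nonempty (A j ≃* Multiplicative ℤ)) ∧ Nonempty (H ≃* CoprodI A) := by
  let K : KData C (CoprodI C ⧸ H) := mkData ((1 : CoprodI C) : CoprodI C ⧸ H)
  refine ⟨K.J, K.A, K.instGroupA, ?_, ?_⟩
  · intro j
    rcases j with ⟨i, w, hw⟩ | ⟨x, hx⟩
    · exact Or.inl ⟨i, K.S i w, ⟨MulEquiv.refl _⟩⟩
    · exact Or.inr ⟨MulEquiv.refl _⟩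
  · have h1 : MulAction.stabilizer (CoprodI C) K.v0 = H := MulAction.stabilizer_quotient H
    exact ⟨(MulEquiv.subgroupCongr h1.symm).trans K.iso⟩

end Kurosh

end Pool.Agent.Lib.MP_305fdd_al
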