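import Mathlib

/-!
# MP_305fdd_al: a free product of residually finite groups is residually finite

Proof by the truncated action on the reduced words of length at most `n`.
-/

set_option autoImplicit false

namespace Pool.Agent.Lib.MP_305fdd_al

open Monoid

namespace RFC

section trunc

variable {ι : Type} [DecidableEq ι] {R : ι → Type} [∀ i, Group (R i)] [∀ i, DecidableEq (R i)]

/-- reduced words of length at most `n` -/
abbrev V (R : ι → Type) [∀ i, Group (R i)] (n : ℕ) : Type :=
  {w : CoprodI.Word R // w.toList.length ≤ n}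

omit [DecidableEq ι] in
theorem length_rcons_le {i : ι} (p : CoprodI.Word.Pair R i) :
    (CoprodI.Word.rcons p).toList.length ≤ p.tail.toList.length + 1 := by
  unfold CoprodI.Word.rcons
  split_ifs
  · omega
  · simp

/-- truncated action of a letter -/
def T (n : ℕ) (i : ι) (b : R i) (w : V R n) : V R n :=
  if h : (CoprodI.Word.equivPair i w.1).tail.toList.length < n then
    ⟨(CoprodI.of b : CoprodI R) • w.1, by
      rw [CoprodI.Word.of_smul_def]
      exact (length_rcons_le _).trans h⟩
  else w

theorem T_of_lt {n : ℕ} {i : ι} (b : R i) (w : V R n)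
    (h : (CoprodI.Word.equivPair i w.1).tail.toList.length < n) :
    (T n i b w).1 = (CoprodI.of b : CoprodI R) • w.1 := by
  unfold T
  rw [dif_pos h]

theorem T_of_not_lt {n : ℕ} {i : ι} (b : R i) (w : V R n)
    (h : ¬ (CoprodI.Word.equivPair i w.1).tail.toList.length < n) : T n i b w = w := by
  unfold T
  rw [dif_neg h]

theorem T_one (n : ℕ) (i : ι) (w : V R n) : T n i 1 w = w := by
  by_cases h : (CoprodI.Word.equivPair i w.1).tail.toList.length < n
  · apply Subtype.ext
    rw [T_of_lt _ _ h, map_one, one_smul]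
  · exact T_of_not_lt _ _ h

theorem T_mul (n : ℕ) (i : ι) (a b : R i) (w : V R n) : T n i (a * b) w = T n i a (T n i b w) := by
  by_cases h : (CoprodI.Word.equivPair i w.1).tail.toList.length < n
  · have h2 : (CoprodI.Word.equivPair i (T n i b w).1).tail.toList.length < n := by
      rw [T_of_lt _ _ h, CoprodI.Word.equivPair_smul_same]
      exact h
    apply Subtype.ext
    rw [T_of_lt _ _ h, T_of_lt _ _ h2, T_of_lt _ _ h, map_mul, mul_smul]
  · rw [T_of_not_lt b _ h, T_of_not_lt _ _ h, T_of_not_lt _ _ h]

/-- the truncated action -/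
def ρ0 (n : ℕ) (i : ι) : R i →* Function.End (V R n) where
  toFun b := T n i b
  map_one' := funext fun w => T_one n i w
  map_mul' a b := funext fun w => T_mul n i a b w

/-- the truncated action -/
def ρ (R : ι → Type) [∀ i, Group (R i)] [∀ i, DecidableEq (R i)] (n : ℕ) :
    CoprodI R →* Equiv.Perm (V R n) :=
  (CoprodI.lift fun i => ρ0 n i).toHomPerm

theorem ρ_of (n : ℕ) {i : ι} (b : R i) (w : V R n) : ρ R n (CoprodI.of b) w = T n i b w := by
  show (CoprodI.lift fun i => ρ0 n i) (CoprodI.of b) w = _
  rw [CoprodI.lift_of]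
  rfl

theorem ρ_prod (n : ℕ) (w : CoprodI.Word R) : ∀ (h : w.toList.length ≤ n),
    ρ R n w.prod ⟨CoprodI.Word.empty, by simp⟩ = ⟨w, h⟩ := by
  induction w using CoprodI.Word.consRecOn with
  | empty => intro h; simp
  | cons i m w h1 h2 ih =>
    intro h
    have h3 : w.toList.length < n := by
      rw [CoprodI.Word.cons_toList, List.length_cons] at h
      omega
    rw [CoprodI.Word.prod_cons, map_mul, Equiv.Perm.mul_apply, ih h3.le, ρ_of]
    apply Subtype.ext
    rw [T_of_lt]
    · exact (CoprodI.Word.cons_eq_smul (h1 := h1) (h2 := h2)).symm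
    · show (CoprodI.Word.equivPair i w).tail.toList.length < n
      rw [CoprodI.Word.equivPair_eq_of_fstIdx_ne h1]
      exact h3

theorem ρ_ne_one (w : CoprodI.Word R) (hw : w ≠ CoprodI.Word.empty) :
    ρ R w.toList.length w.prod ≠ 1 := by
  intro h
  have := ρ_prod w.toList.length w le_rfl
  rw [h, Equiv.Perm.one_apply] at this
  exact hw (Subtype.ext_iff.mp this).symm

omit [DecidableEq ι] [∀ i, DecidableEq (R i)] in
theorem finite_V (n : ℕ) (h : {x : Σ i, R i | x.2 ≠ 1}.Finite) : Finite (V R n) := by
  have : Finite {x : Σ i, R i | x.2 ≠ 1} := h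
  have h2 : Finite {l : List {x : Σ i, R i | x.2 ≠ 1} // l.length ≤ n} :=
    (List.finite_length_le _ n)
  let f : V R n → {l : List {x : Σ i, R i | x.2 ≠ 1} // l.length ≤ n} := fun w =>
    ⟨w.1.toList.attach.map fun x => ⟨x.1, w.1.ne_one x.1 x.2⟩, by
      simpa using w.2⟩
  refine Finite.of_injective f ?_
  intro w w' hww
  have h3 : (f w).1.map (fun x => x.1) = (f w').1.map (fun x => x.1) := by rw [hww]
  have h4 : ∀ w : V R n, (f w).1.map (fun x => x.1) = w.1.toList := by
    intro w
    show List.map _ (List.map _ _) = _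
    rw [List.map_map]
    exact List.attach_map_subtype_val _
  rw [h4, h4] at h3
  exact Subtype.ext (CoprodI.Word.ext h3)

end trunc

theorem exists_normal {G : Type} [Group G] [Group.ResiduallyFinite G] (L : List G)
    (hL : ∀ b ∈ L, b ≠ 1) :
    ∃ N : Subgroup G, N.Normal ∧ N.FiniteIndex ∧ (∀ b ∈ L, b ∉ N) ∧ (L = [] → N = ⊤) := by
  induction L with
  | nil => exact ⟨⊤, inferInstance, inferInstance, by simp, fun _ => rfl⟩
  | cons b L ih =>
    obtain ⟨N, h1, h2, h3, -⟩ := ih fun x hx => hL x (List.mem_cons_of_mem _ hx)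
    obtain ⟨M, hM⟩ := Group.exists_finiteIndexNormalSubgroup_notMem b (hL b List.mem_cons_self)
    refine ⟨M.toSubgroup ⊓ N, inferInstance, inferInstance, ?_, by simp⟩
    intro x hx hx2
    rw [Subgroup.mem_inf] at hx2
    rcases List.mem_cons.mp hx with rfl | hx
    · exact hM hx2.1
    · exact h3 x hx hx2.2

/-- **A free product of residually finite groups is residually finite.** -/
theorem residuallyFinite_coprodI {ι : Type} (B : ι → Type) [∀ i, Group (B i)]
    (hB : ∀ i, Group.ResiduallyFinite (B i)) : Group.ResiduallyFinite (CoprodI B) := by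
  classical
  refine Group.residuallyFinite_iff_exists_finiteIndex.2 fun g hg => ?_
  set w : CoprodI.Word B := CoprodI.Word.equiv g with hw
  have hwg : w.prod = g := CoprodI.Word.equiv.symm_apply_apply g
  have hne : w ≠ CoprodI.Word.empty := by
    intro h
    rw [h, CoprodI.Word.prod_empty] at hwg
    exact hg hwg.symm
  -- letters in `B i`
  let L : ∀ i, List (B i) := fun i =>
    w.toList.filterMap fun l => if h : l.1 = i then some (h ▸ l.2) else none
  have hL : ∀ i (b : B i), b ∈ L i ↔ (⟨i, b⟩ : Σ i, B i) ∈ w.toList := by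
    intro i b
    simp only [L, List.mem_filterMap]
    constructor
    · rintro ⟨⟨j, c⟩, h1, h2⟩
      by_cases h : j = i
      · subst h
        simp only [dif_pos, Option.some.injEq] at h2
        subst h2
        exact h1
      · rw [dif_neg h] at h2
        exact absurd h2 (by simp)
    · intro h
      exact ⟨_, h, by simp⟩
  have key : ∀ i, ∃ N : Subgroup (B i), N.Normal ∧ N.FiniteIndex ∧ (∀ b ∈ L i, b ∉ N) ∧
      (L i = [] → N = ⊤) := by
    intro i
    have := hB i
    apply exists_normal
    intro b hb
    exact w.ne_one _ ((hL i b).mp hb)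
  choose N hN1 hN2 hN3 hN4 using key
  -- image word
  let w' : CoprodI.Word (fun i => B i ⧸ N i) :=
    { toList := w.toList.map fun l => ⟨l.1, QuotientGroup.mk' (N l.1) l.2⟩
      ne_one := by
        intro l hl
        rw [List.mem_map] at hl
        obtain ⟨x, hx, rfl⟩ := hl
        intro h
        exact hN3 x.1 x.2 ((hL x.1 x.2).mpr hx) ((QuotientGroup.eq_one_iff _).mp h)
      chain_ne := by
        rw [List.isChain_map]
        exact w.chain_ne }
  have hw'ne : w' ≠ CoprodI.Word.empty := by
    intro h
    apply hne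
    apply CoprodI.Word.ext
    have h2 : w'.toList = [] := by rw [h]; rfl
    have h3 : w.toList.map (fun l => (⟨l.1, QuotientGroup.mk' (N l.1) l.2⟩ : Σ i, B i ⧸ N i)) = [] :=
      h2
    rw [List.map_eq_nil_iff] at h3
    rw [h3]
    rfl
  let F : CoprodI B →* CoprodI (fun i => B i ⧸ N i) :=
    CoprodI.lift fun i => (CoprodI.of (M := fun i => B i ⧸ N i) (i := i)).comp
      (QuotientGroup.mk' (N i))
  have hF : F g = w'.prod := by
    rw [← hwg]
    show F (List.prod _) = List.prod (List.map _ (List.map _ _))
    rw [map_list_prod, List.map_map, List.map_map]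
    congr 1
  have hfin : {x : Σ i, B i ⧸ N i | x.2 ≠ 1}.Finite := by
    -- the indices which occur in `w`
    have h1 : {x : Σ i, B i ⧸ N i | x.2 ≠ 1} ⊆
        ⋃ i ∈ {i | i ∈ w.toList.map (fun l => l.1)}, (fun r : B i ⧸ N i => ⟨i, r⟩) '' Set.univ := by
      rintro ⟨i, r⟩ hr
      simp only [Set.mem_iUnion]
      refine ⟨i, ?_, r, trivial, rfl⟩
      by_contra hi
      apply hr
      have hLi : L i = [] := by
        rw [List.eq_nil_iff_forall_not_mem]
        intro b hb
        exact hi (List.mem_map.mpr ⟨_, (hL i b).mp hb, rfl⟩)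
      show r = 1
      induction r using QuotientGroup.induction_on with
      | H b =>
        rw [QuotientGroup.eq_one_iff, hN4 i hLi]
        trivial
    refine Set.Finite.subset ?_ h1
    refine Set.Finite.biUnion (List.finite_toSet _) fun i _ => ?_
    have : Finite (B i ⧸ N i) := by
      have := hN2 i
      exact Subgroup.finite_quotient_of_finiteIndex
    exact Set.Finite.image _ Set.finite_univ
  have hV := finite_V w'.toList.length hfin
  refine ⟨((ρ (fun i => B i ⧸ N i) w'.toList.length).comp F).ker, Subgroup.finiteIndex_ker _, ?_⟩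
  rw [MonoidHom.mem_ker, MonoidHom.comp_apply, hF]
  exact ρ_ne_one w' hw'ne

end RFC

end Pool.Agent.Lib.MP_305fdd_al
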