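import Pool.Agent.Lib.MP_305fdd_al.Genus
import Pool.Agent.Lib.MP_305fdd_al.RFCoprod
import Pool.Agent.Lib.MP_305fdd_al.Kurosh

/-!
Finite quotients, genus, and generalities on free products.
-/

set_option autoImplicit false

namespace Pool.Agent.Lib.MP_305fdd_al

open Monoid Pool.Agent.MP_305fdd_al

/-- The free product of cyclic groups of orders `m i`; the order `0` stands for an infinite cyclic
group. -/
abbrev FP {ι : Type} (m : ι → ℕ) : Type := CoprodI fun i => Multiplicative (ZMod (m i))

/-! ### Homomorphisms to finite groups -/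

attribute [instance] finite_hom

/-- the number of homomorphisms to `Q` -/
noncomputable def hc (G Q : Type) [Group G] [Group Q] : ℕ := Nat.card (G →* Q)

theorem hc_pos (G Q : Type) [Group G] [Group Q] [Group.FG G] [Finite Q] : 0 < hc G Q :=
  Nat.card_pos

theorem hc_equiv {G H : Type} (Q : Type) [Group G] [Group H] [Group Q] (e : G ≃* H) :
    hc G Q = hc H Q := by
  refine Nat.card_congr ⟨fun f => f.comp e.symm.toMonoidHom, fun f => f.comp e.toMonoidHom, ?_, ?_⟩
  · intro f; ext x; simp
  · intro f; ext x; simp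

theorem hc_le_of_surjective {G H : Type} (Q : Type) [Group G] [Group H] [Group Q] [Group.FG G]
    [Finite Q] (f : G →* H) (hf : Function.Surjective f) : hc H Q ≤ hc G Q :=
  Nat.card_le_card_of_injective (fun g : H →* Q => g.comp f)
    fun a b h => (MonoidHom.cancel_right hf).mp h

theorem hc_le_of_same {G H : Type} (Q : Type) [Group G] [Group H] [Group Q] [Group.FG G]
    [Group.FG H] [Finite Q] (h : SameFiniteQuotients G H) : hc G Q ≤ hc H Q := by
  -- the universal finite quotient of `G` with respect to maps to `Q`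
  let u : G →* ((G →* Q) → Q) := MonoidHom.pi fun f => f
  obtain ⟨v, hv⟩ := (h u.range).mp ⟨u.rangeRestrict, u.rangeRestrict_surjective⟩
  have h1 : hc u.range Q ≤ hc H Q := hc_le_of_surjective Q v hv
  refine le_trans ?_ h1
  refine Nat.card_le_card_of_injective
    (fun f : G →* Q => (Pi.evalMonoidHom (fun _ : G →* Q => Q) f).comp u.range.subtype) ?_
  intro f g hfg
  ext x
  have := DFunLike.congr_fun hfg (u.rangeRestrict x)
  exact this

theorem hc_eq_of_same {G H : Type} (Q : Type) [Group G] [Group H] [Group Q] [Group.FG G]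
    [Group.FG H] [Finite Q] (h : SameFiniteQuotients G H) : hc G Q = hc H Q :=
  le_antisymm (hc_le_of_same Q h) (hc_le_of_same Q h.symm)

theorem hc_prod (G Q R : Type) [Group G] [Group Q] [Group R] :
    hc G (Q × R) = hc G Q * hc G R := by
  unfold hc
  rw [← Nat.card_prod]
  refine Nat.card_congr ⟨fun f => ((MonoidHom.fst Q R).comp f, (MonoidHom.snd Q R).comp f),
    fun p => p.1.prod p.2, ?_, ?_⟩
  · intro f; ext x <;> rfl
  · intro p; rfl

theorem hc_coprodI {ι : Type} [Finite ι] (G : ι → Type) [∀ i, Group (G i)] (Q : Type) [Group Q] :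
    letI := Fintype.ofFinite ι
    hc (CoprodI G) Q = ∏ i, hc (G i) Q := by
  letI := Fintype.ofFinite ι
  unfold hc
  rw [← Nat.card_pi]
  exact (Nat.card_congr CoprodI.lift).symm

/-- A surjection from a residually finite group which does not lose homomorphisms to finite groups
is an isomorphism. -/
theorem equiv_of_hc_eq {G H : Type} [Group G] [Group H] [Group.FG G] [Group.ResiduallyFinite G]
    (f : G →* H) (hf : Function.Surjective f)
    (h : ∀ (Q : Type) [Group Q] [Finite Q], hc H Q = hc G Q) : Nonempty (G ≃* H) := by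
  refine ⟨MulEquiv.ofBijective f ⟨?_, hf⟩⟩
  rw [injective_iff_map_eq_one]
  intro x hx
  by_contra hne
  obtain ⟨N, hN⟩ := Group.exists_finiteIndexNormalSubgroup_notMem x hne
  have : Group.FG H := Group.fg_of_surjective hf
  have : Finite (G ⧸ N.toSubgroup) := Subgroup.finite_quotient_of_finiteIndex
  have hb : Function.Bijective (fun g : H →* (G ⧸ N.toSubgroup) => g.comp f) := by
    rw [Nat.bijective_iff_injective_and_card]
    exact ⟨fun a b h => (MonoidHom.cancel_right hf).mp h, h _⟩
  obtain ⟨g, hg⟩ := hb.2 (QuotientGroup.mk' N.toSubgroup)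
  apply hN
  have h1 : QuotientGroup.mk' N.toSubgroup x = 1 := by
    rw [← hg]
    show g (f x) = 1
    rw [hx, map_one]
  exact (QuotientGroup.eq_one_iff x).mp h1

/-! ### Free products: functoriality -/

section coprod

variable {ι κ : Type}

/-- map of free products along a map of index sets -/
noncomputable def mapI {G : ι → Type} [∀ i, Group (G i)] {H : κ → Type} [∀ i, Group (H i)]
    (e : ι → κ) (f : ∀ i, G i →* H (e i)) : CoprodI G →* CoprodI H :=
  CoprodI.lift fun i => (CoprodI.of (i := e i)).comp (f i)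

theorem mapI_of {G : ι → Type} [∀ i, Group (G i)] {H : κ → Type} [∀ i, Group (H i)]
    (e : ι → κ) (f : ∀ i, G i →* H (e i)) (i : ι) (x : G i) :
    mapI e f (CoprodI.of x) = CoprodI.of (f i x) := by
  unfold mapI
  rw [CoprodI.lift_of]
  rfl

theorem surjective_of_of {G : ι → Type} [∀ i, Group (G i)] {K : Type} [Group K]
    (f : K →* CoprodI G) (h : ∀ i (x : G i), CoprodI.of x ∈ f.range) :
    Function.Surjective f := by
  rw [← MonoidHom.range_eq_top, eq_top_iff]
  intro x _
  induction x using CoprodI.induction_left with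
  | one => exact one_mem _
  | mul m x ih => exact mul_mem (h _ m) (ih trivial)

theorem surjective_mapI {G : ι → Type} [∀ i, Group (G i)] {H : ι → Type} [∀ i, Group (H i)]
    (f : ∀ i, G i →* H i) (hf : ∀ i, Function.Surjective (f i)) :
    Function.Surjective (mapI (fun i => i) f) := by
  apply surjective_of_of
  intro i x
  obtain ⟨y, rfl⟩ := hf i x
  exact ⟨CoprodI.of y, mapI_of _ _ _ _⟩

/-- The free product does not change if the index set is changed by an injection outside of whose
range all the factors are trivial. -/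
theorem coprodI_equiv {A : ι → Type} [∀ i, Group (A i)] {B : κ → Type} [∀ i, Group (B i)]
    (e : ι → κ) (he : Function.Injective e) (f : ∀ i, A i ≃* B (e i))
    (h : ∀ j, j ∉ Set.range e → Subsingleton (B j)) : Nonempty (CoprodI A ≃* CoprodI B) := by
  classical
  -- backwards map on factors
  have key : ∀ j : κ, ∃ g : B j →* CoprodI A, ∀ (i : ι) (hi : e i = j) (x : A i),
      g (hi ▸ f i x) = CoprodI.of x := by
    intro j
    by_cases hj : ∃ i, e i = j
    · obtain ⟨i, rfl⟩ := hj
      refine ⟨(CoprodI.of (i := i)).comp (f i).symm.toMonoidHom, ?_⟩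
      intro i' hi x
      obtain rfl := he hi
      simp
    · refine ⟨1, ?_⟩
      intro i hi
      exact absurd ⟨i, hi⟩ hj
  choose g hg using key
  refine ⟨MonoidHom.toMulEquiv (mapI e fun i => (f i).toMonoidHom) (CoprodI.lift g) ?_ ?_⟩
  · apply CoprodI.ext_hom
    intro i
    apply MonoidHom.ext
    intro x
    show CoprodI.lift g (mapI e (fun i => (f i).toMonoidHom) (CoprodI.of x)) = CoprodI.of x
    rw [mapI_of, CoprodI.lift_of]
    exact hg (e i) i rfl x
  · apply CoprodI.ext_hom
    intro j
    apply MonoidHom.ext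
    intro y
    show mapI e (fun i => (f i).toMonoidHom) (CoprodI.lift g (CoprodI.of y)) = CoprodI.of y
    rw [CoprodI.lift_of]
    by_cases hj : ∃ i, e i = j
    · obtain ⟨i, rfl⟩ := hj
      obtain ⟨x, rfl⟩ := (f i).surjective y
      have := hg (e i) i rfl x
      simp only at this
      rw [this, mapI_of]
      rfl
    · have := h j (fun ⟨i, hi⟩ => hj ⟨i, hi⟩)
      rw [Subsingleton.elim y 1, map_one, map_one, map_one]

/-- congruence -/
theorem coprodI_congr {A : ι → Type} [∀ i, Group (A i)] {B : ι → Type} [∀ i, Group (B i)]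
    (f : ∀ i, Nonempty (A i ≃* B i)) : Nonempty (CoprodI A ≃* CoprodI B) :=
  coprodI_equiv (fun i => i) (fun _ _ h => h) (fun i => (f i).some)
    (fun j hj => absurd ⟨j, rfl⟩ hj)

/-- associativity -/
noncomputable def coprodI_flatten {σ : ι → Type} (A : ∀ i, σ i → Type) [∀ i s, Group (A i s)] :
    CoprodI (fun i => CoprodI (A i)) ≃* CoprodI (fun x : Σ i, σ i => A x.1 x.2) :=
  MonoidHom.toMulEquiv
    (CoprodI.lift fun i => CoprodI.lift fun s =>
      (CoprodI.of (M := fun x : Σ i, σ i => A x.1 x.2) (i := ⟨i, s⟩)))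
    (CoprodI.lift fun x => (CoprodI.of (M := fun i => CoprodI (A i)) (i := x.1)).comp
      (CoprodI.of (M := A x.1) (i := x.2)))
    (by
      apply CoprodI.ext_hom
      intro i
      apply CoprodI.ext_hom
      intro s
      apply MonoidHom.ext
      intro x
      simp only [MonoidHom.comp_apply, CoprodI.lift_of, MonoidHom.id_apply])
    (by
      apply CoprodI.ext_hom
      rintro ⟨i, s⟩
      apply MonoidHom.ext
      intro x
      simp only [MonoidHom.comp_apply, CoprodI.lift_of, MonoidHom.id_apply])

theorem same_coprodI {G : ι → Type} [∀ i, Group (G i)] {H : ι → Type} [∀ i, Group (H i)]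
    (h : ∀ i, SameFiniteQuotients (G i) (H i)) :
    SameFiniteQuotients (CoprodI G) (CoprodI H) := by
  have aux : ∀ {G : ι → Type} [∀ i, Group (G i)] {H : ι → Type} [∀ i, Group (H i)]
      (_ : ∀ i, SameFiniteQuotients (G i) (H i)) (Q : Type) [Group Q] [Finite Q],
      (∃ f : CoprodI G →* Q, Function.Surjective f) →
        ∃ f : CoprodI H →* Q, Function.Surjective f := by
    intro G _ H _ h Q _ _ ⟨f, hf⟩
    have h1 : ∀ i, ∃ g : H i →* (f.comp (CoprodI.of (i := i))).range, Function.Surjective g :=
      fun i => (h i _).mp ⟨_, MonoidHom.rangeRestrict_surjective _⟩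
    choose g hg using h1
    refine ⟨CoprodI.lift fun i => (Subgroup.subtype _).comp (g i), ?_⟩
    rw [← MonoidHom.range_eq_top, CoprodI.range_eq_iSup]
    have h2 : (CoprodI.lift fun i => f.comp (CoprodI.of (i := i))) = f := CoprodI.lift_comp_of' f
    rw [← MonoidHom.range_eq_top, ← h2, CoprodI.range_eq_iSup] at hf
    rw [← hf]
    congr 1
    funext i
    rw [MonoidHom.range_comp, MonoidHom.range_eq_top.mpr (hg i)]
    rw [← MonoidHom.range_eq_map, Subgroup.range_subtype]
  intro Q _ _
  exact ⟨aux h Q, aux (fun i => (h i).symm) Q⟩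

theorem fg_coprodI {G : ι → Type} [∀ i, Group (G i)] [Finite ι] (h : ∀ i, Group.FG (G i)) :
    Group.FG (CoprodI G) := by
  rw [Group.fg_def]
  have h1 : (⊤ : Subgroup (CoprodI G)) = ⨆ i, (CoprodI.of (M := G) (i := i)).range := by
    rw [← CoprodI.range_eq_iSup, CoprodI.lift_of', eq_comm, MonoidHom.range_eq_top]
    exact fun x => ⟨x, rfl⟩
  rw [h1]
  apply Subgroup.FG.iSup
  intro i
  rw [← Group.fg_iff_subgroup_fg]
  infer_instance

end coprod

end Pool.Agent.Lib.MP_305fdd_al
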