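import Pool.Agent.Lib.MP_305fdd_al.Mult

/-!
# MP_305fdd_al: the blocks of a free decomposition in the genus of a free product of cyclic groups
-/

set_option autoImplicit false

namespace Pool.Agent.Lib.MP_305fdd_al

open Monoid Pool.Agent.MP_305fdd_al

section main

variable {ι κ : Type} [Fintype ι] [Fintype κ] [DecidableEq κ] {m : ι → ℕ} {A : κ → Type}
  [∀ j, Group (A j)] [∀ j, Group.FG (A j)] (Φ : NatBij (CoprodI A) (FP m)) (q : ℕ)
  [hq : Fact q.Prime]

/-- the class of a factor -/
def clsOf (hqm : ∀ i, m i ≠ 0 → ¬ q ∣ m i) (hm : ∀ i, m i ≠ 1) {n : κ → ℕ}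
    (p : ∀ j, A j →* Multiplicative (Fin (n j) →₀ ℤ)) (hp : ∀ j, Function.Surjective (p j))
    (hn : ∀ j, rk q (A j) = n j) (j : κ) : Cls (A j) (n j) where
  P := PP Φ j
  one _ _ _ := PP_one Φ j
  comp f _ h := PP_comp Φ j h f
  of_inj f _ hf h := PP_of_inj Φ j f hf h
  prod _ _ h h' := PP_prod Φ j h h'
  lift f θ hf h := PP_lift Φ q hqm hm j f hf θ h
  p := p j
  p_surj := hp j
  ab v := (PP_comm Φ q hqm hm p hp hn j).2 v
  cnt φ θ h := by
    rw [KK_lifts Φ q hqm hm j φ θ h]
    exact (PP_comm Φ q hqm hm p hp hn j).1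

end main

/-- **The blocks of a free decomposition.** -/
theorem blocks {ι κ : Type} [Finite ι] [Finite κ] (m : ι → ℕ) (hm : ∀ i, m i ≠ 1)
    (A : κ → Type) [∀ j, Group (A j)] (hA : ∀ j, Nontrivial (A j))
    (h : InGenus (FP m) (CoprodI A)) :
    ∃ f : ι → κ, Function.Surjective f ∧
      (∀ j, SameSolvableQuotients (A j) (FP fun i : {i // f i = j} => m i)) ∧
      (∀ j, (Nat.card {i // f i = j ∧ m i = 0} ≤ 1 ∨
          ∀ j', j' ≠ j → Nat.card {i // f i = j' ∧ m i = 0} ≤ 1) →
        InGenus (FP fun i : {i // f i = j} => m i) (A j)) ∧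
      (∀ j, (∀ (T : Type) [Group T] [Finite T], IsSimpleGroup T → (¬ ∀ x y : T, x * y = y * x) →
          Nat.card (A j →* T) = Nat.card ((FP fun i : {i // f i = j} => m i) →* T)) →
        InGenus (FP fun i : {i // f i = j} => m i) (A j)) ∧
      (∀ i, (∀ i', f i' = f i → i' = i) →
        Nonempty (A (f i) ≃* Multiplicative (ZMod (m i)))) ∧
      (∀ j, IsCyclic (A j) ↔ ∃! i, f i = j) := by
  classical
  have := Fintype.ofFinite ι
  have := Fintype.ofFinite κ
  obtain ⟨hfg, hrf, hsame⟩ := h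
  have hfgA : ∀ j, Group.FG (A j) := fun j => fg_factor j
  have hrfA : ∀ j, Group.ResiduallyFinite (A j) := fun j => rf_factor hrf j
  choose n p N hp hN hrk using fun j => exists_free_quotient (A j)
  obtain ⟨q, hqp, hqm, hqA'⟩ := exists_prime_not_dvd m
    (fun j : κ ⊕ κ => Sum.elim (fun j => Nat.card (A j)) N j)
  have hqf : Fact q.Prime := ⟨hqp⟩
  have hqA : ∀ j, Finite (A j) → ¬ q ∣ Nat.card (A j) := fun j _ =>
    hqA' (Sum.inl j) (Nat.card_pos (α := A j)).ne'
  have hn : ∀ j, rk q (A j) = n j := fun j => hrk j q hqf (hqA' (Sum.inr j) (hN j))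
  obtain ⟨Φ⟩ := exists_natBij hsame
  -- distribute the infinite factors
  have hcard : Fintype.card {i // m i = 0} = Fintype.card (Σ j, Fin (n j)) := by
    rw [Fintype.card_sigma, Fintype.card_subtype]
    have h1 := sum_rk q Φ hqm
    unfold rr at h1
    rw [← h1]
    refine Finset.sum_congr rfl fun j _ => ?_
    rw [hn, Fintype.card_fin]
  let e : {i // m i = 0} ≃ (Σ j, Fin (n j)) := Fintype.equivOfCardEq hcard
  have hatt : ∀ i, m i ≠ 0 → ∃ j, Att Φ j i := fun i hi =>
    (exists_att Φ q hqm hi (hm i)).imp fun j hj => hj.1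
  choose a ha using hatt
  let f : ι → κ := fun i => if hi : m i = 0 then (e ⟨i, hi⟩).1 else a i hi
  have hf0 : ∀ i (hi : m i = 0), f i = (e ⟨i, hi⟩).1 := fun i hi => dif_pos hi
  have hf1 : ∀ i (hi : m i ≠ 0), f i = a i hi := fun i hi => dif_neg hi
  have F1 : ∀ i j, m i ≠ 0 → (f i = j ↔ Att Φ j i) := by
    intro i j hi
    rw [hf1 i hi]
    constructor
    · rintro rfl
      exact ha i hi
    · exact fun h' => Att_unique Φ q hqm hi (ha i hi) h'
  have F2 : ∀ j, Nat.card {i // f i = j ∧ m i = 0} = n j := by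
    intro j
    rw [← Nat.card_fin (n j)]
    refine Nat.card_congr
      { toFun := fun i => Fin.cast (by rw [← hf0 i.1 i.2.2, i.2.1]) (e ⟨i.1, i.2.2⟩).2
        invFun := fun k => ⟨(e.symm ⟨j, k⟩).1, ?_, (e.symm ⟨j, k⟩).2⟩
        left_inv := ?_
        right_inv := ?_ }
    · rw [hf0 _ (e.symm ⟨j, k⟩).2, Subtype.coe_eta, e.apply_symm_apply]
    · rintro ⟨i, rfl, hi⟩
      apply Subtype.ext
      show (e.symm ⟨f i, Fin.cast _ (e ⟨i, hi⟩).2⟩).1 = i
      have h1 : (⟨f i, Fin.cast (by rw [← hf0 i hi]) (e ⟨i, hi⟩).2⟩ : Σ j, Fin (n j)) =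
          e ⟨i, hi⟩ := by
        generalize_proofs hcast
        revert hcast
        rw [hf0 i hi]
        intro hcast
        rfl
      rw [h1, e.symm_apply_apply]
    · intro k
      show Fin.cast _ (e ⟨(e.symm ⟨j, k⟩).1, _⟩).2 = k
      generalize_proofs h1 h2
      have h3 : e ⟨(e.symm ⟨j, k⟩).1, h1⟩ = ⟨j, k⟩ := by
        rw [Subtype.coe_eta, e.apply_symm_apply]
      revert h2
      rw [h3]
      intro h2
      rfl
  have F3 : ∀ j, (Finset.univ.filter fun i => f i = j ∧ m i = 0).card = n j := by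
    intro j
    rw [← F2 j, Nat.card_eq_fintype_card, Fintype.card_subtype]
  have F4 : ∀ j, (Finset.univ.filter fun i => f i = j ∧ ¬ m i = 0) = FF Φ j := by
    intro j
    ext i
    rw [mem_FF, Finset.mem_filter]
    constructor
    · rintro ⟨-, h1, h2⟩
      exact ⟨h2, (F1 i j h2).mp h1⟩
    · rintro ⟨h1, h2⟩
      exact ⟨Finset.mem_univ i, (F1 i j h1).mpr h2, h1⟩
  have F5 : ∀ j, (Finset.univ.filter fun i => f i = j).card = nn Φ q j := by
    intro j
    rw [← Finset.card_filter_add_card_filter_not (fun i => m i = 0), Finset.filter_filter,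
      Finset.filter_filter, F3, F4, nn, hn]
  -- the number of homomorphisms
  have hFP : ∀ (j : κ) (Q : Type) [Group Q] [Finite Q],
      hc (FP fun i : {i // f i = j} => m i) Q =
        (∏ i ∈ FF Φ j, hc (Multiplicative (ZMod (m i))) Q) * Nat.card Q ^ n j := by
    intro j Q _ _
    rw [hc_FP, ← Finset.prod_subtype (Finset.univ.filter fun i => f i = j)
      (fun i => by rw [Finset.mem_filter]; simp) (fun i => hc (Multiplicative (ZMod (m i))) Q),
      ← Finset.prod_filter_mul_prod_filter_not _ (fun i => m i = 0), Finset.filter_filter,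
      Finset.filter_filter, F4, mul_comm]
    congr 1
    rw [← F3 j, ← Finset.prod_const]
    refine Finset.prod_congr rfl fun i hi => ?_
    rw [Finset.mem_filter] at hi
    exact card_hom_int hi.2.2 Q
  let c : ∀ j, Cls (A j) (n j) := clsOf Φ q hqm hm p hp hn
  have hK : ∀ (j : κ) (Q : Type) [Group Q] [Finite Q], (c j).K Q = KK Φ j Q := fun j Q _ _ => rfl
  have hpos : ∀ j, 1 ≤ nn Φ q j := fun j => nn_pos Φ q hqm j (hrfA j)
  have hcyc : ∀ j, IsCyclic (A j) ↔ nn Φ q j = 1 := by
    intro j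
    refine ⟨nn_eq_one_of_cyclic Φ q hqm j (hqA j), fun h1 => ?_⟩
    rcases cases_of_nn_eq_one Φ q hqm hm j (hrfA j) h1 with ⟨-, i, -, -, ⟨e⟩⟩ | ⟨-, -, ⟨e⟩⟩
    · exact isCyclic_of_surjective e.symm e.symm.surjective
    · exact isCyclic_of_surjective e.symm e.symm.surjective
  refine ⟨f, ?_, ?_, ?_, ?_, ?_, ?_⟩
  · intro j
    have h1 : 0 < (Finset.univ.filter fun i => f i = j).card := by
      rw [F5]
      exact hpos j
    obtain ⟨i, hi⟩ := Finset.card_pos.mp h1
    exact ⟨i, (Finset.mem_filter.mp hi).2⟩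
  · intro j
    apply sameSolvable_of_hc
    intro Q _ _ hQ
    rw [hc_eq Φ q hqm hm j, hFP, ← hK, (c j).K_solvable _ Q hQ le_rfl]
  · intro j hj
    refine ⟨hfgA j, hrfA j, same_of_hc fun Q _ _ => ?_⟩
    rw [hc_eq Φ q hqm hm j, hFP, ← hK]
    congr 1
    have key : ∀ j, n j ≤ 1 → (c j).K Q = Nat.card Q ^ n j := by
      intro j hj
      generalize c j = cj
      revert cj
      rcases Nat.le_one_iff_eq_zero_or_eq_one.mp hj with h0 | h0
      · rw [h0]
        intro cj
        rw [cj.K_zero, pow_zero]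
      · rw [h0]
        intro cj
        rw [cj.K_one, pow_one]
    rcases hj with hj | hj
    · rw [F2] at hj
      exact key j hj
    · have h1 := prod_KK Φ q hqm hm (Q := Q)
      rw [← Finset.mul_prod_erase _ _ (Finset.mem_univ j)] at h1
      have h2 : ∏ x ∈ Finset.univ.erase j, KK Φ x Q =
          ∏ x ∈ Finset.univ.erase j, Nat.card Q ^ n x := by
        refine Finset.prod_congr rfl fun x hx => ?_
        have h3 := hj x (Finset.ne_of_mem_erase hx)
        rw [F2] at h3
        exact key x h3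
      have h3 : rr m = n j + ∑ x ∈ Finset.univ.erase j, n x := by
        rw [Finset.add_sum_erase _ _ (Finset.mem_univ j), ← sum_rk q Φ hqm]
        exact Finset.sum_congr rfl fun j _ => hn j
      rw [h2, Finset.prod_pow_eq_pow_sum, h3, pow_add] at h1
      exact Nat.eq_of_mul_eq_mul_right (pow_pos Nat.card_pos _) h1
  · intro j hj
    refine ⟨hfgA j, hrfA j, same_of_hc fun Q _ _ => ?_⟩
    rw [hc_eq Φ q hqm hm j, hFP]
    congr 1
    refine KK_of_simple Φ q hqm hm j (n j) (fun T _ _ hT => ?_) _ Q le_rfl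
    by_cases hcomm : ∀ x y : T, x * y = y * x
    · let _ : CommGroup T := { (inferInstance : Group T) with mul_comm := hcomm }
      exact (PP_comm Φ q hqm hm p hp hn (V := T) j).1
    have h1 : hc (A j) T = hc (FP fun i : {i // f i = j} => m i) T := hj T hT hcomm
    rw [hc_eq Φ q hqm hm j, hFP] at h1
    exact Nat.eq_of_mul_eq_mul_left (Finset.prod_pos fun i _ => hc_pos _ _) h1
  · intro i hi
    have h1 : (Finset.univ.filter fun i' => f i' = f i) = {i} := by
      ext i'
      rw [Finset.mem_filter, Finset.mem_singleton]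
      constructor
      · exact fun h => hi i' h.2
      · rintro rfl
        exact ⟨Finset.mem_univ _, rfl⟩
    have h2 : nn Φ q (f i) = 1 := by rw [← F5, h1, Finset.card_singleton]
    rcases cases_of_nn_eq_one Φ q hqm hm (f i) (hrfA _) h2 with ⟨-, i', h3, -, h4⟩ | ⟨-, h3, h4⟩
    · have h5 : i' ∈ FF Φ (f i) := by rw [h3]; exact Finset.mem_singleton_self _
      rw [← F4, Finset.mem_filter] at h5
      have h6 := hi i' h5.2.1
      rw [h6] at h4
      exact h4
    · by_cases h5 : m i = 0
      · rw [h5]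
        exact h4
      · have h6 : i ∈ FF Φ (f i) := by
          rw [← F4, Finset.mem_filter]
          exact ⟨Finset.mem_univ _, rfl, h5⟩
        rw [h3] at h6
        exact absurd h6 (Finset.notMem_empty i)
  · intro j
    rw [hcyc j, ← F5 j, Finset.card_eq_one]
    constructor
    · rintro ⟨i, hi⟩
      refine ⟨i, ?_, fun i' hi' => ?_⟩
      · have : i ∈ Finset.univ.filter fun i => f i = j := by
          rw [hi]; exact Finset.mem_singleton_self i
        exact (Finset.mem_filter.mp this).2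
      · have : i' ∈ Finset.univ.filter fun i => f i = j := by
          rw [Finset.mem_filter]; exact ⟨Finset.mem_univ _, hi'⟩
        rw [hi, Finset.mem_singleton] at this
        exact this
    · rintro ⟨i, hi, huniq⟩
      refine ⟨i, ?_⟩
      ext i'
      rw [Finset.mem_filter, Finset.mem_singleton]
      constructor
      · exact fun h => huniq i' h.2
      · rintro rfl
        exact ⟨Finset.mem_univ _, hi⟩

end Pool.Agent.Lib.MP_305fdd_al
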