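import Pool.Agent.Lib.MP_305fdd_al.RF

/-!
# MP_305fdd_al: free products and the genus, the corank
-/

set_option autoImplicit false

namespace Pool.Agent.MP_305fdd_al

open Monoid.Coprod

/-! ## Finite quotients -/

section fq

variable {G H K : Type} [Group G] [Group H] [Group K]

theorem SameFiniteQuotients.refl (G : Type) [Group G] : SameFiniteQuotients G G :=
  fun _ _ _ => Iff.rfl

theorem SameFiniteQuotients.symm (h : SameFiniteQuotients G H) : SameFiniteQuotients H G :=
  fun Q _ _ => (h Q).symm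

theorem SameFiniteQuotients.trans (h : SameFiniteQuotients G H) (h' : SameFiniteQuotients H K) :
    SameFiniteQuotients G K :=
  fun Q _ _ => (h Q).trans (h' Q)

theorem sameFQ_of_surj (f : G →* H) (hf : Function.Surjective f) (g : H →* G)
    (hg : Function.Surjective g) : SameFiniteQuotients G H :=
  fun _ _ _ => ⟨fun ⟨φ, hφ⟩ => ⟨φ.comp g, hφ.comp hg⟩, fun ⟨φ, hφ⟩ => ⟨φ.comp f, hφ.comp hf⟩⟩

theorem sameFQ_res (G : Type) [Group G] : SameFiniteQuotients (G ⧸ res G) G := by
  intro Q _ _
  constructor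
  · rintro ⟨φ, hφ⟩
    exact ⟨φ.comp (QuotientGroup.mk' _), hφ.comp (QuotientGroup.mk'_surjective _)⟩
  · rintro ⟨φ, hφ⟩
    refine ⟨QuotientGroup.lift (res G) φ (res_le_ker φ), fun q => ?_⟩
    obtain ⟨g, rfl⟩ := hφ q
    exact ⟨g, rfl⟩

theorem sameFQ_coprod_aux (h : ∀ (Q : Type) [Group Q] [Finite Q],
    (∃ φ : G →* Q, Function.Surjective φ) → (∃ φ : H →* Q, Function.Surjective φ))
    (Q : Type) [Group Q] [Finite Q] (hq : ∃ φ : (G ∗ K) →* Q, Function.Surjective φ) :
    ∃ φ : (H ∗ K) →* Q, Function.Surjective φ := by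
  obtain ⟨φ, hφ⟩ := hq
  obtain ⟨ψ, hψ⟩ := h (φ.comp inl).range ⟨(φ.comp inl).rangeRestrict,
    MonoidHom.rangeRestrict_surjective _⟩
  refine ⟨lift ((Subgroup.subtype _).comp ψ) (φ.comp inr), ?_⟩
  rw [← MonoidHom.range_eq_top, range_lift, MonoidHom.range_comp, MonoidHom.range_eq_top.2 hψ,
    ← MonoidHom.range_eq_map, Subgroup.range_subtype, ← range_eq, MonoidHom.range_eq_top]
  exact hφ

theorem sameFQ_coprod (h : SameFiniteQuotients G H) : SameFiniteQuotients (G ∗ K) (H ∗ K) :=
  fun Q _ _ => ⟨sameFQ_coprod_aux (fun Q _ _ => (h Q).1) Q,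
    sameFQ_coprod_aux (fun Q _ _ => (h Q).2) Q⟩

theorem sameFQ_coprod_right (h : SameFiniteQuotients G H) :
    SameFiniteQuotients (K ∗ G) (K ∗ H) :=
  ((sameFQ_of_surj (swap K G) (swap_surjective) (swap G K) swap_surjective).trans
    (sameFQ_coprod h)).trans (sameFQ_of_surj (swap H K) (swap_surjective) (swap K H)
      swap_surjective)

instance fg_coprod [Group.FG G] [Group.FG H] : Group.FG (G ∗ H) := by
  have h1 : Group.FG (inl : G →* G ∗ H).range := Group.fg_range _
  have h2 : Group.FG (inr : H →* G ∗ H).range := Group.fg_range _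
  rw [Group.fg_iff_subgroup_fg] at h1 h2
  rw [Group.fg_def, ← range_inl_sup_range_inr]
  exact h1.sup h2

end fq

/-! ## Homomorphisms from finitely generated groups to finite groups -/

section hom

theorem finite_hom (G Q : Type) [Group G] [Group Q] [Finite Q] [hG : Group.FG G] :
    Finite (G →* Q) := by
  obtain ⟨S, hS⟩ := hG.out
  refine Finite.of_injective (fun φ : G →* Q => fun s : S => φ s) fun φ ψ h => ?_
  refine MonoidHom.eq_of_eqOn_dense hS fun x hx => ?_
  exact congrFun h ⟨x, hx⟩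

/-- evaluation at all homomorphisms to `Q` -/
def evQ (G Q : Type) [Group G] [Group Q] : G →* ((G →* Q) → Q) where
  toFun g := fun φ => φ g
  map_one' := by ext φ; simp
  map_mul' x y := by ext φ; simp

theorem mem_ker_evQ {G Q : Type} [Group G] [Group Q] {x : G} :
    x ∈ (evQ G Q).ker ↔ ∀ φ : G →* Q, φ x = 1 := by
  rw [MonoidHom.mem_ker]
  exact ⟨fun h φ => congrFun h φ, fun h => funext h⟩

theorem evQ_index_le {G H Q : Type} [Group G] [Group H] [Group Q] [Finite Q] [Group.FG G]
    [Group.FG H] (h : SameFiniteQuotients G H) :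
    (evQ G Q).ker.index ≤ (evQ H Q).ker.index := by
  have : Finite (G →* Q) := finite_hom G Q
  have : Finite (H →* Q) := finite_hom H Q
  obtain ⟨θ, hθ⟩ := (h (evQ G Q).range).1 ⟨(evQ G Q).rangeRestrict,
    MonoidHom.rangeRestrict_surjective _⟩
  have hle : (evQ H Q).ker ≤ θ.ker := by
    intro x hx
    rw [mem_ker_evQ] at hx
    rw [MonoidHom.mem_ker]
    apply Subtype.ext
    funext φ
    exact hx ((Pi.evalMonoidHom _ φ).comp ((Subgroup.subtype _).comp θ))
  have hfin : (evQ H Q).ker.FiniteIndex := Subgroup.finiteIndex_ker _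
  have h1 : θ.ker.index ≤ (evQ H Q).ker.index :=
    Nat.le_of_dvd (Nat.pos_of_ne_zero hfin.index_ne_zero) (Subgroup.index_dvd_of_le hle)
  rwa [Subgroup.index_ker, MonoidHom.range_eq_top.2 hθ, Subgroup.card_top,
    ← Subgroup.index_ker] at h1

theorem evQ_ker_eq {G H Q : Type} [Group G] [Group H] [Group Q] [Finite Q] [Group.FG G]
    [Group.FG H] (h : SameFiniteQuotients G H) (ψ : G →* H) (hψ : Function.Surjective ψ) :
    (evQ G Q).ker = (evQ H Q).ker.comap ψ := by
  have : Finite (G →* Q) := finite_hom _ _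
  have : Finite (H →* Q) := finite_hom _ _
  have hle : (evQ G Q).ker ≤ (evQ H Q).ker.comap ψ := by
    intro y hy
    rw [mem_ker_evQ] at hy
    rw [Subgroup.mem_comap, mem_ker_evQ]
    exact fun φ => hy (φ.comp ψ)
  have hidx : ((evQ H Q).ker.comap ψ).index = (evQ H Q).ker.index :=
    Subgroup.index_comap_of_surjective _ hψ
  have hfin : (evQ G Q).ker.FiniteIndex := Subgroup.finiteIndex_ker _
  refine le_antisymm hle ?_
  have h1 : (evQ G Q).ker.relIndex ((evQ H Q).ker.comap ψ) * ((evQ H Q).ker.comap ψ).index =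
      (evQ G Q).ker.index := Subgroup.relIndex_mul_index hle
  have h2 := evQ_index_le (Q := Q) h.symm
  have h3 := evQ_index_le (Q := Q) h
  have h4 : (evQ G Q).ker.index ≠ 0 := hfin.index_ne_zero
  have h5 : (evQ G Q).ker.relIndex ((evQ H Q).ker.comap ψ) = 1 := by
    rw [hidx] at h1
    have h6 : (evQ G Q).ker.index = (evQ H Q).ker.index := le_antisymm h3 h2
    rw [← h6] at h1
    exact Nat.eq_of_mul_eq_mul_right (Nat.pos_of_ne_zero h4) (by rw [h1, one_mul])
  exact Subgroup.relIndex_eq_one.1 h5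

/-- a surjection between groups with the same finite quotients is an isomorphism -/
theorem injective_of_surj {G H : Type} [Group G] [Group H] [Group.FG G] [Group.FG H]
    [Group.ResiduallyFinite G] (h : SameFiniteQuotients G H) (ψ : G →* H)
    (hψ : Function.Surjective ψ) : Function.Injective ψ := by
  rw [injective_iff_map_eq_one]
  intro x hx
  refine Group.eq_one_iff_forall_finiteIndexNormalSubroup _ fun N => ?_
  have : Finite (G ⧸ N.toSubgroup) := Subgroup.finite_quotient_of_finiteIndex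
  have hx' : x ∈ (evQ G (G ⧸ N.toSubgroup)).ker := by
    rw [evQ_ker_eq h ψ hψ, Subgroup.mem_comap, hx]
    exact one_mem _
  rw [mem_ker_evQ] at hx'
  have := hx' (QuotientGroup.mk' N.toSubgroup)
  rw [QuotientGroup.mk'_apply, QuotientGroup.eq_one_iff] at this
  exact this

end hom

end Pool.Agent.MP_305fdd_al
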