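import Pool.Agent.Lib.MP_305fdd_al.Basic

/-!
# MP_305fdd_al: a natural family of bijections `Hom(G, Q) ≃ Hom(H, Q)`

If `G` and `H` are finitely generated with the same finite quotients, then there are bijections
`Φ_Q : Hom(G, Q) → Hom(H, Q)` for all finite groups `Q`, natural in `Q`. (This is what is left of
an isomorphism of the profinite completions; it is obtained from isomorphisms of large
characteristic finite quotients by an ultrafilter limit.)
-/

set_option autoImplicit false

namespace Pool.Agent.Lib.MP_305fdd_al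

open Monoid Pool.Agent.MP_305fdd_al

/-- the kernel of all the homomorphisms to `P` -/
abbrev KQ (G P : Type) [Group G] [Group P] : Subgroup G := (evQ G P).ker

theorem iso_KQ {G H : Type} [Group G] [Group H] [Group.FG G] [Group.FG H]
    (h : SameFiniteQuotients G H) (P : Type) [Group P] [Finite P] :
    Nonempty ((G ⧸ KQ G P) ≃* (H ⧸ KQ H P)) := by
  have : Finite (G →* P) := finite_hom G P
  have : Finite (H →* P) := finite_hom H P
  obtain ⟨θ, hθ⟩ := (h (evQ G P).range).1 ⟨(evQ G P).rangeRestrict,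
    MonoidHom.rangeRestrict_surjective _⟩
  have hle : (evQ H P).ker ≤ θ.ker := by
    intro x hx
    rw [mem_ker_evQ] at hx
    rw [MonoidHom.mem_ker]
    apply Subtype.ext
    funext φ
    exact hx ((Pi.evalMonoidHom _ φ).comp ((Subgroup.subtype _).comp θ))
  have hfin : (evQ H P).ker.FiniteIndex := Subgroup.finiteIndex_ker _
  have h1 : (evQ H P).ker.relIndex θ.ker * θ.ker.index = (evQ H P).ker.index :=
    Subgroup.relIndex_mul_index hle
  have h2 : θ.ker.index = (evQ G P).ker.index := by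
    rw [Subgroup.index_ker, MonoidHom.range_eq_top.2 hθ, Subgroup.card_top, ← Subgroup.index_ker]
  have h3 : (evQ G P).ker.index = (evQ H P).ker.index :=
    le_antisymm (evQ_index_le h) (evQ_index_le h.symm)
  have h4 : (evQ H P).ker.index ≠ 0 := hfin.index_ne_zero
  have h5 : (evQ H P).ker.relIndex θ.ker = 1 := by
    rw [h2, h3] at h1
    exact Nat.eq_of_mul_eq_mul_right (Nat.pos_of_ne_zero h4) (by rw [h1, one_mul])
  have h6 : (evQ H P).ker = θ.ker := le_antisymm hle (Subgroup.relIndex_eq_one.1 h5)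
  have e1 : (G ⧸ KQ G P) ≃* (evQ G P).range := QuotientGroup.quotientKerEquivRange _
  have e2 : (H ⧸ θ.ker) ≃* (evQ G P).range :=
    QuotientGroup.quotientKerEquivOfSurjective θ hθ
  have e3 : (H ⧸ KQ H P) ≃* (H ⧸ θ.ker) := QuotientGroup.quotientMulEquivOfEq h6
  exact ⟨e1.trans (e2.symm.trans e3.symm)⟩

theorem KQ_le_ker (G : Type) [Group G] {Q : Type} [Group Q] [Finite Q] {n : ℕ}
    (hn : Nat.card Q ≤ n) (θ : G →* Q) : KQ G (Equiv.Perm (Fin n)) ≤ θ.ker := by
  classical
  have := Fintype.ofFinite Q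
  rw [Nat.card_eq_fintype_card] at hn
  -- an embedding of `Q` into the symmetric group
  let ι : Q ↪ Fin n := (Fintype.equivFin Q).toEmbedding.trans (Fin.castLEEmb hn)
  let j : Q →* Equiv.Perm (Fin n) :=
    (Equiv.Perm.viaEmbeddingHom ι).comp (MulAction.toPermHom Q Q)
  have hj : Function.Injective j :=
    (Equiv.Perm.viaEmbeddingHom_injective ι).comp MulAction.toPerm_injective
  intro x hx
  rw [mem_ker_evQ] at hx
  rw [MonoidHom.mem_ker]
  apply hj
  rw [map_one]
  exact hx (j.comp θ)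

/-- transport of a homomorphism along an isomorphism of quotients -/
noncomputable def transp {G H : Type} [Group G] [Group H] {K : Subgroup G} [K.Normal]
    {L : Subgroup H} [L.Normal] (e : (G ⧸ K) ≃* (H ⧸ L)) (Q : Type) [Group Q] (θ : G →* Q) :
    H →* Q :=
  open Classical in
  if h : K ≤ θ.ker then
    (QuotientGroup.lift K θ h).comp (e.symm.toMonoidHom.comp (QuotientGroup.mk' L)) else 1

section transp

variable {G H : Type} [Group G] [Group H] {K : Subgroup G} [K.Normal]
    {L : Subgroup H} [L.Normal] (e : (G ⧸ K) ≃* (H ⧸ L)) {Q R : Type} [Group Q] [Group R]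

theorem transp_of_le {θ : G →* Q} (h : K ≤ θ.ker) : transp e Q θ =
    (QuotientGroup.lift K θ h).comp (e.symm.toMonoidHom.comp (QuotientGroup.mk' L)) :=
  dif_pos h

theorem transp_comp {θ : G →* Q} (h : K ≤ θ.ker) (f : Q →* R) :
    transp e R (f.comp θ) = f.comp (transp e Q θ) := by
  have h' : K ≤ (f.comp θ).ker := h.trans fun x hx => by
    rw [MonoidHom.mem_ker] at hx ⊢
    rw [MonoidHom.comp_apply, hx, map_one]
  rw [transp_of_le e h, transp_of_le e h']
  ext x
  simp only [MonoidHom.comp_apply]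
  obtain ⟨y, hy⟩ := QuotientGroup.mk_surjective (e.symm.toMonoidHom (QuotientGroup.mk' L x))
  rw [← hy]
  rfl

theorem le_ker_transp (θ : G →* Q) : L ≤ (transp e Q θ).ker := by
  intro x hx
  rw [MonoidHom.mem_ker]
  by_cases h : K ≤ θ.ker
  · rw [transp_of_le e h]
    have : QuotientGroup.mk' L x = 1 := (QuotientGroup.eq_one_iff x).mpr hx
    simp only [MonoidHom.comp_apply]
    rw [this, map_one, map_one]
  · unfold transp
    rw [dif_neg h]
    rfl

theorem transp_transp {θ : G →* Q} (h : K ≤ θ.ker) :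
    transp e.symm Q (transp e Q θ) = θ := by
  rw [transp_of_le e.symm (le_ker_transp e θ)]
  ext x
  simp only [MonoidHom.comp_apply]
  obtain ⟨y, hy⟩ := QuotientGroup.mk_surjective (e.symm.symm.toMonoidHom (QuotientGroup.mk' K x))
  rw [← hy]
  show transp e Q θ y = θ x
  rw [transp_of_le e h]
  simp only [MonoidHom.comp_apply]
  have : e.symm.toMonoidHom (QuotientGroup.mk' L y) = QuotientGroup.mk' K x := by
    apply e.injective
    rw [MulEquiv.coe_toMonoidHom, MulEquiv.apply_symm_apply]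
    exact hy
  rw [this]
  rfl

end transp

/-- ultrafilter limits of functions to finite sets -/
theorem exists_ulim {X : Type} [Finite X] (𝒰 : Ultrafilter ℕ) (f : ℕ → X) :
    ∃ x, ∀ᶠ n in 𝒰, f n = x := by
  obtain ⟨x, hx⟩ := Ultrafilter.eq_pure_of_finite (𝒰.map f)
  refine ⟨x, ?_⟩
  have : {x} ∈ 𝒰.map f := by
    rw [hx]
    exact Set.mem_singleton x
  exact this

/-- The natural family of bijections. -/
structure NatBij (G H : Type) [Group G] [Group H] where
  /-- the maps -/
  toFun : ∀ (Q : Type) [Group Q] [Finite Q], (G →* Q) → (H →* Q)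
  /-- the inverse maps -/
  invFun : ∀ (Q : Type) [Group Q] [Finite Q], (H →* Q) → (G →* Q)
  left_inv : ∀ (Q : Type) [Group Q] [Finite Q] (θ : G →* Q), invFun Q (toFun Q θ) = θ
  right_inv : ∀ (Q : Type) [Group Q] [Finite Q] (θ : H →* Q), toFun Q (invFun Q θ) = θ
  nat : ∀ {Q R : Type} [Group Q] [Finite Q] [Group R] [Finite R] (f : Q →* R) (θ : G →* Q),
    toFun R (f.comp θ) = f.comp (toFun Q θ)

theorem exists_natBij {G H : Type} [Group G] [Group H] [Group.FG G] [Group.FG H]
    (h : SameFiniteQuotients G H) : Nonempty (NatBij G H) := by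
  let e : ∀ n : ℕ, (G ⧸ KQ G (Equiv.Perm (Fin n))) ≃* (H ⧸ KQ H (Equiv.Perm (Fin n))) :=
    fun n => (iso_KQ h (Equiv.Perm (Fin n))).some
  let 𝒰 : Ultrafilter ℕ := Filter.hyperfilter ℕ
  have hlarge : ∀ N : ℕ, ∀ᶠ n in 𝒰, N ≤ n := by
    intro N
    have h1 : ∀ᶠ n in Filter.cofinite, N ≤ n := by
      rw [Nat.cofinite_eq_atTop]
      exact Filter.eventually_ge_atTop N
    exact Filter.hyperfilter_le_cofinite h1
  have hX : ∀ (Q : Type) [Group Q] [Finite Q] (θ : G →* Q), ∃ ψ : H →* Q,
      ∀ᶠ n in 𝒰, transp (e n) Q θ = ψ := fun Q _ _ θ => by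
    have : Finite (H →* Q) := finite_hom H Q
    exact exists_ulim 𝒰 _
  have hY : ∀ (Q : Type) [Group Q] [Finite Q] (θ : H →* Q), ∃ ψ : G →* Q,
      ∀ᶠ n in 𝒰, transp (e n).symm Q θ = ψ := fun Q _ _ θ => by
    have : Finite (G →* Q) := finite_hom G Q
    exact exists_ulim 𝒰 _
  choose F hF using hX
  choose F' hF' using hY
  refine ⟨⟨F, F', ?_, ?_, ?_⟩⟩
  · intro Q _ _ θ
    obtain ⟨n, h1, h2, h3⟩ := ((hF Q θ).and ((hF' Q (F Q θ)).and (hlarge (Nat.card Q)))).exists
    rw [← h2, ← h1]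
    exact transp_transp (e n) (KQ_le_ker G h3 θ)
  · intro Q _ _ θ
    obtain ⟨n, h1, h2, h3⟩ := ((hF' Q θ).and ((hF Q (F' Q θ)).and (hlarge (Nat.card Q)))).exists
    rw [← h2, ← h1]
    exact transp_transp (e n).symm (KQ_le_ker H h3 θ)
  · intro Q R _ _ _ _ f θ
    obtain ⟨n, h1, h2, h3⟩ := ((hF Q θ).and ((hF R (f.comp θ)).and (hlarge (Nat.card Q)))).exists
    rw [← h2, ← h1]
    exact transp_comp (e n) (KQ_le_ker G h3 θ) f

namespace NatBij

variable {G H : Type} [Group G] [Group H] (Φ : NatBij G H)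

/-- the inverse family -/
def symm : NatBij H G where
  toFun := Φ.invFun
  invFun := Φ.toFun
  left_inv := Φ.right_inv
  right_inv := Φ.left_inv
  nat := by
    intro Q R _ _ _ _ f θ
    have h1 := Φ.nat f (Φ.invFun Q θ)
    rw [Φ.right_inv] at h1
    rw [← h1, Φ.left_inv]

theorem injective (Q : Type) [Group Q] [Finite Q] : Function.Injective (Φ.toFun Q) :=
  Function.LeftInverse.injective (Φ.left_inv Q)

theorem surjective (Q : Type) [Group Q] [Finite Q] : Function.Surjective (Φ.toFun Q) :=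
  Function.RightInverse.surjective (Φ.right_inv Q)

/-- the bijection -/
def equiv (Q : Type) [Group Q] [Finite Q] : (G →* Q) ≃ (H →* Q) :=
  ⟨Φ.toFun Q, Φ.invFun Q, Φ.left_inv Q, Φ.right_inv Q⟩

/-- lifts correspond to lifts -/
theorem card_lifts {Q R : Type} [Group Q] [Finite Q] [Group R] [Finite R] (f : Q →* R)
    (θ : G →* R) : Nat.card {ψ : G →* Q // f.comp ψ = θ} =
      Nat.card {ψ : H →* Q // f.comp ψ = Φ.toFun R θ} := by
  refine Nat.card_congr ((Φ.equiv Q).subtypeEquiv fun ψ => ?_)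
  show f.comp ψ = θ ↔ f.comp (Φ.toFun Q ψ) = Φ.toFun R θ
  rw [← Φ.nat f ψ]
  exact (Φ.injective R).eq_iff.symm

theorem one (Q : Type) [Group Q] [Finite Q] : Φ.toFun Q 1 = 1 := by
  have h1 := Φ.nat (1 : Q →* Q) (1 : G →* Q)
  rw [MonoidHom.one_comp, MonoidHom.one_comp] at h1
  exact h1

/-- images correspond to images -/
theorem range_le {Q : Type} [Group Q] [Finite Q] (θ : G →* Q) (S : Subgroup Q)
    (h : θ.range ≤ S) : (Φ.toFun Q θ).range ≤ S := by
  let θ' : G →* S := θ.codRestrict S fun x => h ⟨x, rfl⟩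
  have h1 : S.subtype.comp θ' = θ := by ext x; rfl
  rw [← h1, Φ.nat]
  rintro _ ⟨x, rfl⟩
  exact (Φ.toFun S θ' x).2

theorem range_eq {Q : Type} [Group Q] [Finite Q] (θ : G →* Q) :
    (Φ.toFun Q θ).range = θ.range := by
  apply le_antisymm
  · exact Φ.range_le θ _ le_rfl
  · have := Φ.symm.range_le (Φ.toFun Q θ) _ le_rfl
    rwa [show Φ.symm.toFun Q (Φ.toFun Q θ) = θ from Φ.left_inv Q θ] at this

end NatBij

end Pool.Agent.Lib.MP_305fdd_al
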