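import Pool.Agent.Lib.MP_305fdd_al.AbClass

/-!
# MP_305fdd_al: classes of homomorphisms which look like those of a free group of rank `n`
-/

set_option autoImplicit false

namespace Pool.Agent.Lib.MP_305fdd_al

open Monoid Pool.Agent.MP_305fdd_al

/-- A class of homomorphisms from `A` to finite groups with the formal properties of the class of
those homomorphisms from `B * F_n` which are trivial on `B`. -/
structure Cls (A : Type) [Group A] (n : ℕ) where
  /-- the class -/
  P : ∀ {Q : Type} [Group Q] [Finite Q], (A →* Q) → Prop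
  one : ∀ (Q : Type) [Group Q] [Finite Q], P (1 : A →* Q)
  comp : ∀ {Q R : Type} [Group Q] [Finite Q] [Group R] [Finite R] (f : Q →* R) (θ : A →* Q),
    P θ → P (f.comp θ)
  of_inj : ∀ {Q R : Type} [Group Q] [Finite Q] [Group R] [Finite R] (f : Q →* R) (θ : A →* Q),
    Function.Injective f → P (f.comp θ) → P θ
  prod : ∀ {Q R : Type} [Group Q] [Finite Q] [Group R] [Finite R] (θ : A →* Q) (θ' : A →* R),
    P θ → P θ' → P (θ.prod θ')
  lift : ∀ {Q R : Type} [Group Q] [Finite Q] [Group R] [Finite R] (f : R →* Q) (θ : A →* Q),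
    Function.Surjective f → P θ → ∃ ψ : A →* R, P ψ ∧ f.comp ψ = θ
  /-- the map to `ℤ^n` -/
  p : A →* Multiplicative (Fin n →₀ ℤ)
  p_surj : Function.Surjective p
  ab : ∀ {V : Type} [CommGroup V] [Finite V] (v : A →* V), P v ↔
    ∃ g : Multiplicative (Fin n →₀ ℤ) →* V, v = g.comp p
  cnt : ∀ {V Q : Type} [CommGroup V] [Finite V] [Group Q] [Finite Q] (φ : Q →* MulAut V)
    (θ : A →* Q), P θ → Nat.card {ψ : Lifts φ θ // P ψ.1} = Nat.card V ^ n

namespace Cls

variable {A : Type} [Group A] [Group.FG A] {n : ℕ} (c : Cls A n)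

/-- a homomorphism to the product is in the class if its components are -/
theorem of_prod {Q R : Type} [Group Q] [Finite Q] [Group R] [Finite R] (ψ : A →* Q × R)
    (h1 : c.P ((MonoidHom.fst Q R).comp ψ)) (h2 : c.P ((MonoidHom.snd Q R).comp ψ)) : c.P ψ := by
  rw [← prod_comp_eq ψ]
  exact c.prod _ _ h1 h2

section conj

variable {Q : Type} [Group Q] [Finite Q] (M : Subgroup Q) [M.Normal]

/-- `M ⋊ Q → Q × Q` -/
def toProd (φ : Q →* MulAut M) (hφ : ∀ (g : Q) (x : M), (φ g x : Q) = g * x * g⁻¹) :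
    M ⋊[φ] Q →* Q × Q where
  toFun w := ((w.left : Q) * w.right, w.right)
  map_one' := by simp
  map_mul' a b := by
    rw [SemidirectProduct.mul_left, SemidirectProduct.mul_right, Subgroup.coe_mul, hφ]
    apply Prod.ext
    · show (a.left : Q) * (a.right * b.left * a.right⁻¹) * (a.right * b.right) = _
      rw [Prod.fst_mul]
      group
    · rfl

omit [Finite Q] [M.Normal] in
theorem toProd_injective (φ : Q →* MulAut M)
    (hφ : ∀ (g : Q) (x : M), (φ g x : Q) = g * x * g⁻¹) :
    Function.Injective (toProd M φ hφ) := by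
  intro a b h
  have h1 : (a.left : Q) * a.right = (b.left : Q) * b.right := congrArg Prod.fst h
  have h2 : a.right = b.right := congrArg Prod.snd h
  ext
  · rw [h2] at h1
    exact mul_right_cancel h1
  · exact h2

/-- lifts to `M ⋊ Q` in the class -/
theorem lift_mem (φ : Q →* MulAut M) (hφ : ∀ (g : Q) (x : M), (φ g x : Q) = g * x * g⁻¹)
    {θ : A →* Q} (hθ : c.P θ) (ψ : A →* M ⋊[φ] Q) (f : A →* Q)
    (hψ : ∀ a, (ψ a).right = θ a) (hf : ∀ a, ((ψ a).left : Q) * θ a = f a) :
    c.P ψ ↔ c.P f := by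
  have h1 : (toProd M φ hφ).comp ψ = f.prod θ := by
    apply MonoidHom.ext
    intro a
    apply Prod.ext
    · show ((ψ a).left : Q) * (ψ a).right = f a
      rw [hψ, hf]
    · exact hψ a
  constructor
  · intro h
    have h2 := c.comp (toProd M φ hφ) ψ h
    rw [h1] at h2
    have h3 := c.comp (MonoidHom.fst Q Q) _ h2
    exact h3
  · intro h
    apply c.of_inj (toProd M φ hφ) ψ (toProd_injective M φ hφ)
    rw [h1]
    exact c.prod _ _ h hθ

end conj

/-- the number of homomorphisms in the class -/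
noncomputable def K (Q : Type) [Group Q] [Finite Q] : ℕ := Nat.card {θ : A →* Q // c.P θ}

/-- the number of homomorphisms in the class with the same reduction -/
theorem card_fiber {Q : Type} [Group Q] [Finite Q] (θ : A →* Q) (hθ : c.P θ) (M : Subgroup Q)
    [M.Normal] (hM : ∀ x ∈ M, ∀ y ∈ M, x * y = y * x) :
    Nat.card {f : A →* Q // c.P f ∧
      (QuotientGroup.mk' M).comp f = (QuotientGroup.mk' M).comp θ} = Nat.card M ^ n := by
  let _ : CommGroup M := { (inferInstance : Group M) with
    mul_comm := fun x y => Subtype.ext (hM x x.2 y y.2) }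
  let φ : Q →* MulAut M := MulAut.conjNormal
  have hφ : ∀ (g : Q) (x : M), (φ g x : Q) = g * x * g⁻¹ := fun g x => rfl
  rw [← c.cnt φ θ hθ]
  have key : ∀ ψ : Lifts φ θ, ∀ a, (ψ.1 a).right = θ a := fun ψ a => DFunLike.congr_fun ψ.2 a
  have key2 : ∀ f : {f : A →* Q // c.P f ∧
      (QuotientGroup.mk' M).comp f = (QuotientGroup.mk' M).comp θ},
      ∀ a, f.1 a * (θ a)⁻¹ ∈ M := by
    intro f a
    have h1 : (QuotientGroup.mk (f.1 a) : Q ⧸ M) = QuotientGroup.mk (θ a) :=
      DFunLike.congr_fun f.2.2 a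
    rw [← QuotientGroup.eq_one_iff, QuotientGroup.mk_mul, QuotientGroup.mk_inv, h1,
      mul_inv_cancel]
  let F : Lifts φ θ → (A →* Q) := fun ψ =>
    { toFun := fun a => ((ψ.1 a).left : Q) * θ a
      map_one' := by rw [map_one, map_one]; simp
      map_mul' := fun a b => by
        rw [map_mul, SemidirectProduct.mul_left, key, map_mul]
        show ((ψ.1 a).left : Q) * (θ a * ((ψ.1 b).left : Q) * (θ a)⁻¹) * (θ a * θ b) = _
        group }
  refine Nat.card_congr (Equiv.symm
    { toFun := fun ψ => ⟨F ψ.1, ?_, ?_⟩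
      invFun := fun f => ⟨⟨{ toFun := fun a => ⟨⟨f.1 a * (θ a)⁻¹, key2 f a⟩, θ a⟩
                             map_one' := by
                               ext
                               · simp
                               · simp
                             map_mul' := fun a b => ?_ }, ?_⟩, ?_⟩
      left_inv := ?_
      right_inv := ?_ })
  · exact (c.lift_mem M φ hφ hθ ψ.1.1 (F ψ.1) (key ψ.1) (fun a => rfl)).mp ψ.2
  · ext a
    show (QuotientGroup.mk (((ψ.1.1 a).left : Q) * θ a) : Q ⧸ M) = QuotientGroup.mk (θ a)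
    rw [QuotientGroup.mk_mul, (QuotientGroup.eq_one_iff _).mpr (ψ.1.1 a).left.2, one_mul]
  · ext
    · show f.1 (a * b) * (θ (a * b))⁻¹ =
        (f.1 a * (θ a)⁻¹) * (θ a * (f.1 b * (θ b)⁻¹) * (θ a)⁻¹)
      rw [map_mul, map_mul]
      group
    · show θ (a * b) = θ a * θ b
      rw [map_mul]
  · ext a
    rfl
  · refine (c.lift_mem M φ hφ hθ _ f.1 (fun a => rfl) (fun a => ?_)).mpr f.2.1
    show f.1 a * (θ a)⁻¹ * θ a = f.1 a
    rw [inv_mul_cancel_right]
  · intro ψ
    apply Subtype.ext
    apply Subtype.ext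
    ext a
    · show ((ψ.1.1 a).left : Q) * θ a * (θ a)⁻¹ = (ψ.1.1 a).left
      rw [mul_inv_cancel_right]
    · exact (key ψ.1 a).symm
  · intro f
    apply Subtype.ext
    ext a
    show f.1 a * (θ a)⁻¹ * θ a = f.1 a
    rw [inv_mul_cancel_right]

/-- the number of homomorphisms in the class to a solvable group -/
theorem K_solvable : ∀ (k : ℕ) (Q : Type) [Group Q] [Finite Q], Group.IsSolvable Q →
      Nat.card Q ≤ k → c.K Q = Nat.card Q ^ n := by
  intro k
  induction k with
  | zero =>
    intro Q _ _ _ hk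
    have := Nat.card_pos (α := Q)
    omega
  | succ k ih =>
    intro Q _ _ hQ hk
    rcases subsingleton_or_nontrivial Q with h | h
    · have h1 : Nat.card Q = 1 := Nat.card_unique
      rw [h1, one_pow]
      unfold K
      rw [Nat.card_eq_one_iff_unique]
      exact ⟨⟨fun f g => Subtype.ext (by ext x; exact Subsingleton.elim _ _)⟩, ⟨⟨1, c.one Q⟩⟩⟩
    obtain ⟨M, hM, hbot, hcomm⟩ := exists_abelian_normal Q
    have hlt : Nat.card (Q ⧸ M) ≤ k := by
      have h1 := Subgroup.card_eq_card_quotient_mul_card_subgroup M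
      have h2 : 1 < Nat.card M := by
        rw [Finite.one_lt_card_iff_nontrivial]
        exact (Subgroup.nontrivial_iff_ne_bot M).mpr hbot
      have h3 : 0 < Nat.card (Q ⧸ M) := Nat.card_pos
      by_contra hc
      push Not at hc
      nlinarith
    have ih1 := ih (Q ⧸ M) inferInstance hlt
    have : Finite (A →* Q) := finite_hom _ _
    have : Finite (A →* Q ⧸ M) := finite_hom _ _
    have := Fintype.ofFinite {θ : A →* Q ⧸ M // c.P θ}
    let r : {θ : A →* Q // c.P θ} → {θ : A →* Q ⧸ M // c.P θ} := fun f =>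
      ⟨(QuotientGroup.mk' M).comp f.1, c.comp _ _ f.2⟩
    unfold K at ih1 ⊢
    rw [← Nat.card_congr (Equiv.sigmaFiberEquiv r), Nat.card_sigma]
    rw [Finset.sum_congr rfl (g := fun _ => Nat.card M ^ n)]
    · rw [Finset.sum_const, smul_eq_mul, Finset.card_univ, ← Nat.card_eq_fintype_card, ih1,
        ← mul_pow, ← Subgroup.card_eq_card_quotient_mul_card_subgroup M]
    · rintro ⟨θ, hθ⟩ _
      obtain ⟨ψ, hψ, rfl⟩ := c.lift (QuotientGroup.mk' M) θ (QuotientGroup.mk'_surjective M) hθ
      rw [← c.card_fiber ψ hψ M hcomm]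
      exact Nat.card_congr
        { toFun := fun f => ⟨f.1.1, f.1.2, congrArg Subtype.val f.2⟩
          invFun := fun f => ⟨⟨f.1, f.2.1⟩, Subtype.ext f.2.2⟩
          left_inv := fun f => rfl
          right_inv := fun f => rfl }

end Cls

end Pool.Agent.Lib.MP_305fdd_al
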