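import Pool.Agent.Lib.MP_305fdd_al.Cls

/-!
# MP_305fdd_al: classes of rank zero and one
-/

set_option autoImplicit false

namespace Pool.Agent.Lib.MP_305fdd_al

open Monoid Pool.Agent.MP_305fdd_al

namespace Cls

section zero

variable {A : Type} [Group A] [Group.FG A] (c : Cls A 0)

/-- in rank zero the class is trivial -/
theorem eq_one_of_zero {Q : Type} [Group Q] [Finite Q] (θ : A →* Q) (hθ : c.P θ) : θ = 1 := by
  have : Fact (Nat.Prime 2) := ⟨Nat.prime_two⟩
  have h1 := c.cnt (reg 2 Q) θ hθ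
  rw [pow_zero] at h1
  have hmem : ∀ v, c.P (cobd (reg 2 Q) θ v).1 := fun v => c.comp _ _ (c.comp _ _ hθ)
  have hmem' : ∀ x, c.P (cobdQ (reg 2 Q) θ x).1 := by
    intro x
    obtain ⟨v, rfl⟩ := QuotientGroup.mk_surjective x
    exact hmem v
  have hfin : Finite (Lifts (reg 2 Q) θ) := inferInstance
  have h2 : Nat.card (Reg 2 Q ⧸ Fix (reg 2 Q) θ) ≤ 1 := by
    rw [← h1]
    refine Nat.card_le_card_of_injective (fun x =>
      (⟨cobdQ (reg 2 Q) θ x, hmem' x⟩ : {ψ : Lifts (reg 2 Q) θ // c.P ψ.1})) ?_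
    intro x y h
    exact cobdQ_injective (reg 2 Q) θ (congrArg Subtype.val h)
  have h3 := Subgroup.card_eq_card_quotient_mul_card_subgroup (Fix (reg 2 Q) θ)
  have h4 : Nat.card (Reg 2 Q ⧸ Fix (reg 2 Q) θ) = 1 :=
    le_antisymm h2 Nat.card_pos
  rw [h4, one_mul, card_Reg, card_Fix_reg] at h3
  have h5 := Nat.pow_right_injective le_rfl h3
  have h6 := Subgroup.card_mul_index θ.range
  have h7 : 0 < Nat.card Q := Nat.card_pos
  rw [← h5] at h6
  have h8 : Nat.card θ.range = 1 := by
    apply Nat.eq_of_mul_eq_mul_right h7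
    rw [h6, one_mul]
  exact (im_eq_one_iff θ).mp h8

theorem K_zero (Q : Type) [Group Q] [Finite Q] : c.K Q = 1 := by
  unfold K
  rw [Nat.card_eq_one_iff_unique]
  exact ⟨⟨fun f g => Subtype.ext (by rw [c.eq_one_of_zero _ f.2, c.eq_one_of_zero _ g.2])⟩,
    ⟨⟨1, c.one Q⟩⟩⟩

end zero

section one

variable {A : Type} [Group A] [Group.FG A] (c : Cls A 1)

omit [Group.FG A] in
theorem exists_int : ∃ p : A →* Multiplicative ℤ, Function.Surjective p ∧
    ∀ {V : Type} [CommGroup V] [Finite V] (v : A →* V), c.P v ↔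
      ∃ g : Multiplicative ℤ →* V, v = g.comp p := by
  let e : Multiplicative (Fin 1 →₀ ℤ) ≃* Multiplicative ℤ :=
    AddEquiv.toMultiplicative (Finsupp.uniqueAddEquiv 0)
  refine ⟨e.toMonoidHom.comp c.p, e.surjective.comp c.p_surj, fun {V} _ _ v => ?_⟩
  rw [c.ab v]
  constructor
  · rintro ⟨g, rfl⟩
    refine ⟨g.comp e.symm.toMonoidHom, ?_⟩
    ext a
    simp
  · rintro ⟨g, rfl⟩
    exact ⟨g.comp e.toMonoidHom, rfl⟩

/-- the order of a homomorphism in the class -/
theorem mem_of_int (p : A →* Multiplicative ℤ)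
    (hab : ∀ {V : Type} [CommGroup V] [Finite V] (v : A →* V), c.P v ↔
      ∃ g : Multiplicative ℤ →* V, v = g.comp p) {Q : Type} [Group Q] [Finite Q]
    (g : Multiplicative ℤ →* Q) : c.P (g.comp p) := by
  have hc : IsCyclic g.range := isCyclic_of_surjective g.rangeRestrict g.rangeRestrict_surjective
  let _ : CommGroup g.range := { (inferInstance : Group g.range) with
    mul_comm := (IsCyclic.isMulCommutative (α := g.range)).is_comm.comm }
  have h1 : c.P (g.rangeRestrict.comp p) := (hab _).mpr ⟨_, rfl⟩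
  have h2 : g.comp p = g.range.subtype.comp (g.rangeRestrict.comp p) := by
    ext x; rfl
  rw [h2]
  exact c.comp _ _ h1

/-- Sylow subgroups of the images of the class are cyclic -/
theorem isZGroup {Q : Type} [Group Q] [Finite Q] (θ : A →* Q) (hP : c.P θ)
    (hθ : Function.Surjective θ) : IsZGroup Q := by
  refine ⟨fun p hp P => ?_⟩
  have : Fact p.Prime := ⟨hp⟩
  apply isCyclic_of_card_hom_le P.2
  let D : Type := Multiplicative (ZMod p)
  have hD : Nat.card D = p := Nat.card_zmod p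
  have : Finite D := (inferInstance : Finite (ZMod p))
  have hmem : ∀ z : ((Q ⧸ (P : Subgroup Q)) → D) × ((P : Subgroup Q) →* D),
      c.P (indLift (P : Subgroup Q) θ z.1 z.2).1 := by
    intro z
    have : (indLift (P : Subgroup Q) θ z.1 z.2).1 =
        (indLift (P : Subgroup Q) (MonoidHom.id Q) z.1 z.2).1.comp θ := by
      ext a <;> rfl
    rw [this]
    exact c.comp _ _ hP
  have hfin : Finite (Lifts (indAct (P : Subgroup Q) D) θ) := inferInstance
  have h1 := Nat.card_le_card_of_injective (fun z : ((Q ⧸ (P : Subgroup Q)) → D) ×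
      ((P : Subgroup Q) →* D) => ((⟨indLift (P : Subgroup Q) θ z.1 z.2, hmem z⟩,
        z.1 (QuotientGroup.mk 1)) : {ψ : Lifts (indAct (P : Subgroup Q) D) θ // c.P ψ.1} × D))
    (by
      intro z z' h
      have ha := congrArg (fun w => (Prod.fst w).1) h
      have hb := congrArg (fun w => Prod.snd w) h
      exact indLift_injective (P : Subgroup Q) (D := D) θ hθ (Prod.ext ha hb))
  rw [Nat.card_prod, Nat.card_prod, c.cnt _ θ hP, pow_one, hD] at h1
  exact Nat.le_of_mul_le_mul_left h1 Nat.card_pos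

/-- If `θ` is cyclic modulo an abelian normal subgroup, then it is cyclic. -/
theorem cyclic_of_cyclic_quotient {Q : Type} [Group Q] [Finite Q] (θ : A →* Q) (hP : c.P θ)
    (hθ : Function.Surjective θ) (M : Subgroup Q) [M.Normal]
    (hM : ∀ x ∈ M, ∀ y ∈ M, x * y = y * x) (hQM : IsCyclic (Q ⧸ M)) : IsCyclic Q := by
  obtain ⟨p, hp, hab⟩ := c.exists_int
  let _ : CommGroup M := { (inferInstance : Group M) with
    mul_comm := fun x y => Subtype.ext (hM x x.2 y y.2) }
  let φ : Q →* MulAut M := MulAut.conjNormal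
  have hφ : ∀ (g : Q) (x : M), (φ g x : Q) = g * x * g⁻¹ := fun g x => rfl
  have hcard : Nat.card {ψ : Lifts φ θ // c.P ψ.1} = Nat.card M := by
    rw [c.cnt φ θ hP, pow_one]
  let _ : CommGroup (Q ⧸ M) := IsCyclic.commGroup
  obtain ⟨g, hg⟩ := (hab ((QuotientGroup.mk' M).comp θ)).mp (c.comp _ _ hP)
  obtain ⟨t, ht⟩ := hp (Multiplicative.ofAdd 1)
  -- the homomorphisms through `ℤ`
  let f : Q → (A →* Q) := fun x => (zpowersHom Q x).comp p
  have hf : ∀ x a, f x a = x ^ Multiplicative.toAdd (p a) := fun x a => rfl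
  have hfP : ∀ x, c.P (f x) := fun x => c.mem_of_int p hab _
  have hfM : ∀ (v : M) (a : A), f (v * θ t) a * (θ a)⁻¹ ∈ M := by
    intro v a
    have h1 : (QuotientGroup.mk (θ a) : Q ⧸ M) = g (p a) := DFunLike.congr_fun hg a
    have h2 : (QuotientGroup.mk (θ t) : Q ⧸ M) = g (Multiplicative.ofAdd 1) := by
      rw [← ht]
      exact DFunLike.congr_fun hg t
    have h3 : (QuotientGroup.mk (f (v * θ t) a) : Q ⧸ M) = g (p a) := by
      rw [hf, QuotientGroup.mk_zpow, QuotientGroup.mk_mul, h2,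
        (QuotientGroup.eq_one_iff (v : Q)).mpr v.2, one_mul, ← map_zpow, ← ofAdd_zsmul,
        smul_eq_mul, mul_one, ofAdd_toAdd]
    rw [← QuotientGroup.eq_one_iff, QuotientGroup.mk_mul, QuotientGroup.mk_inv, h3, h1,
      mul_inv_cancel]
  let ψ0 : M → Lifts φ θ := fun v =>
    ⟨{ toFun := fun a => ⟨⟨f (v * θ t) a * (θ a)⁻¹, hfM v a⟩, θ a⟩
       map_one' := by
        ext
        · simp
        · simp
       map_mul' := fun a b => by
        ext
        · show f (v * θ t) (a * b) * (θ (a * b))⁻¹ =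
            (f (v * θ t) a * (θ a)⁻¹) * (θ a * (f (v * θ t) b * (θ b)⁻¹) * (θ a)⁻¹)
          rw [map_mul, map_mul]
          group
        · show θ (a * b) = θ a * θ b
          rw [map_mul] }, by
      ext a
      rfl⟩
  have hψ0 : ∀ v, c.P (ψ0 v).1 := fun v =>
    (c.lift_mem M φ hφ hP _ (f (v * θ t)) (fun a => rfl) (fun a => by
      show f (v * θ t) a * (θ a)⁻¹ * θ a = f (v * θ t) a
      rw [inv_mul_cancel_right])).mpr (hfP _)
  let ψ : M → {ψ : Lifts φ θ // c.P ψ.1} := fun v => ⟨ψ0 v, hψ0 v⟩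
  have hψ : Function.Injective ψ := by
    intro v w h
    have h1 := DFunLike.congr_fun (congrArg Subtype.val (congrArg Subtype.val h)) t
    have h2 : f (v * θ t) t * (θ t)⁻¹ = f (w * θ t) t * (θ t)⁻¹ :=
      congrArg Subtype.val (congrArg SemidirectProduct.left h1)
    rw [hf, hf, ht] at h2
    simp only [toAdd_ofAdd, zpow_one] at h2
    exact Subtype.ext (mul_right_cancel (mul_right_cancel h2))
  have hbij : Function.Bijective ψ :=
    (Nat.bijective_iff_injective_and_card ψ).mpr ⟨hψ, hcard.symm⟩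
  obtain ⟨v, hv⟩ := hbij.2 ⟨triv φ θ, c.comp _ _ hP⟩
  refine ⟨v * θ t, fun y => ?_⟩
  obtain ⟨a, rfl⟩ := hθ y
  have h1 := DFunLike.congr_fun (congrArg Subtype.val (congrArg Subtype.val hv)) a
  have h2 : f (v * θ t) a * (θ a)⁻¹ = 1 :=
    congrArg Subtype.val (congrArg SemidirectProduct.left h1)
  rw [mul_inv_eq_one] at h2
  rw [← h2, hf]
  exact Subgroup.mem_zpowers_iff.mpr ⟨_, rfl⟩

theorem isCyclic_quot : ∀ (n : ℕ) {Q : Type} [Group Q] [Finite Q] (θ : A →* Q), c.P θ →
    Function.Surjective θ → Nat.card Q ≤ n → IsCyclic Q := by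
  intro n
  induction n with
  | zero =>
    intro Q _ _ θ hP hθ hn
    have := Nat.card_pos (α := Q)
    omega
  | succ n ih =>
    intro Q _ _ θ hP hθ hn
    rcases subsingleton_or_nontrivial Q with h | h
    · infer_instance
    have := c.isZGroup θ hP hθ
    obtain ⟨M, hM, hbot, hcomm⟩ := exists_abelian_normal Q
    apply c.cyclic_of_cyclic_quotient θ hP hθ M hcomm
    apply ih ((QuotientGroup.mk' M).comp θ) (c.comp _ _ hP)
      ((QuotientGroup.mk'_surjective M).comp hθ)
    have h1 := Subgroup.card_eq_card_quotient_mul_card_subgroup M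
    have h2 : 1 < Nat.card M := by
      rw [Finite.one_lt_card_iff_nontrivial]
      exact (Subgroup.nontrivial_iff_ne_bot M).mpr hbot
    have h3 : 0 < Nat.card (Q ⧸ M) := Nat.card_pos
    by_contra hc
    push Not at hc
    nlinarith

theorem K_one (Q : Type) [Group Q] [Finite Q] : c.K Q = Nat.card Q := by
  obtain ⟨p, hp, hab⟩ := c.exists_int
  unfold K
  rw [← Nat.card_congr (zpowersHom Q).symm]
  symm
  refine Nat.card_congr (Equiv.ofBijective (fun g : Multiplicative ℤ →* Q =>
    (⟨g.comp p, c.mem_of_int p hab g⟩ : {θ : A →* Q // c.P θ})) ⟨?_, ?_⟩)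
  · intro a b h
    exact (MonoidHom.cancel_right hp).mp (congrArg Subtype.val h)
  · rintro ⟨θ, hθ⟩
    have h1 : c.P θ.rangeRestrict := by
      apply c.of_inj θ.range.subtype _ Subtype.val_injective
      have : θ.range.subtype.comp θ.rangeRestrict = θ := by ext x; rfl
      rw [this]
      exact hθ
    have hc := c.isCyclic_quot _ θ.rangeRestrict h1 θ.rangeRestrict_surjective le_rfl
    let _ : CommGroup θ.range := { (inferInstance : Group θ.range) with
      mul_comm := (IsCyclic.isMulCommutative (α := θ.range)).is_comm.comm }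
    obtain ⟨g, hg⟩ := (hab θ.rangeRestrict).mp h1
    refine ⟨θ.range.subtype.comp g, ?_⟩
    apply Subtype.ext
    show (θ.range.subtype.comp g).comp p = θ
    rw [MonoidHom.comp_assoc, ← hg]
    ext x
    rfl

end one

end Cls

end Pool.Agent.Lib.MP_305fdd_al
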