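import Pool.Agent.Lib.MP_305fdd_al.Genus

/-!
# MP_305fdd_al: the corank (largest rank of a free quotient)
-/

set_option autoImplicit false

namespace Pool.Agent.MP_305fdd_al

open Monoid.Coprod

/-- `G` maps onto the free group of rank `k`. -/
def MapsOnto (G : Type) [Group G] (k : ℕ) : Prop :=
  ∃ φ : G →* FreeGroup (Fin k), Function.Surjective φ

/-- the group with two elements -/
abbrev C2 : Type := Multiplicative (ZMod 2)

theorem card_hom_free (ι : Type) : Nat.card (FreeGroup ι →* C2) = Nat.card (ι → C2) :=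
  Nat.card_congr FreeGroup.lift.symm

theorem card_hom_fin (n : ℕ) : Nat.card (FreeGroup (Fin n) →* C2) = 2 ^ n := by
  rw [card_hom_free, Nat.card_fun]
  simp

theorem card_hom_le_of_surj {G H : Type} [Group G] [Group H] [Group.FG G] (f : G →* H)
    (hf : Function.Surjective f) : Nat.card (H →* C2) ≤ Nat.card (G →* C2) := by
  have : Finite (G →* C2) := finite_hom G C2
  refine Nat.card_le_card_of_injective (fun φ : H →* C2 => φ.comp f) fun φ ψ h => ?_
  exact (MonoidHom.cancel_right hf).1 h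

theorem finite_of_fg {ι : Type} (h : Group.FG (FreeGroup ι)) : Finite ι := by
  classical
  have h1 : Finite (FreeGroup ι →* C2) := finite_hom _ _
  have h2 : Finite (ι → C2) := Finite.of_equiv _ FreeGroup.lift.symm
  refine Finite.of_injective (fun i : ι => (Pi.mulSingle i (Multiplicative.ofAdd 1) : ι → C2))
    fun i j hij => ?_
  by_contra hne
  have h3 := congrFun hij i
  simp only [Pi.mulSingle_eq_same] at h3
  rw [Pi.mulSingle_eq_of_ne hne] at h3
  revert h3
  decide

theorem MapsOnto.le_of_gen {k n : ℕ} (f : FreeGroup (Fin n) →* FreeGroup (Fin k))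
    (hf : Function.Surjective f) : k ≤ n := by
  have := card_hom_le_of_surj f hf
  rw [card_hom_fin, card_hom_fin] at this
  exact (Nat.pow_le_pow_iff_right (by norm_num)).1 this

theorem MapsOnto.zero (G : Type) [Group G] : MapsOnto G 0 :=
  ⟨1, fun x => ⟨1, by rw [map_one]; exact (Subsingleton.elim _ _)⟩⟩

theorem free_surj {j k : ℕ} (h : j ≤ k) : MapsOnto (FreeGroup (Fin k)) j := by
  refine ⟨FreeGroup.lift fun i => if hi : i.val < j then FreeGroup.of ⟨i.val, hi⟩ else 1, ?_⟩
  rw [← MonoidHom.range_eq_top, eq_top_iff, ← FreeGroup.closure_range_of, Subgroup.closure_le]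
  rintro _ ⟨i, rfl⟩
  exact ⟨FreeGroup.of ⟨i.val, lt_of_lt_of_le i.isLt h⟩, by simp⟩

theorem MapsOnto.of_surj {G H : Type} [Group G] [Group H] {k : ℕ} (h : MapsOnto H k)
    (f : G →* H) (hf : Function.Surjective f) : MapsOnto G k := by
  obtain ⟨φ, hφ⟩ := h
  exact ⟨φ.comp f, hφ.comp hf⟩

theorem MapsOnto.mono {G : Type} [Group G] {j k : ℕ} (h : MapsOnto G k) (hjk : j ≤ k) :
    MapsOnto G j := by
  obtain ⟨φ, hφ⟩ := h
  exact (free_surj hjk).of_surj φ hφ

/-- `c` is the corank of `G` -/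
def Corank (G : Type) [Group G] (c : ℕ) : Prop := ∀ k, MapsOnto G k ↔ k ≤ c

theorem exists_corank (G : Type) [Group G] [Group.FG G] : ∃ c, Corank G c := by
  classical
  have hb : ∀ k, MapsOnto G k → k ≤ Nat.card (G →* C2) := by
    rintro k ⟨φ, hφ⟩
    have := card_hom_le_of_surj φ hφ
    rw [card_hom_fin] at this
    exact (Nat.lt_two_pow_self).le.trans this
  refine ⟨Nat.findGreatest (MapsOnto G) (Nat.card (G →* C2)), fun k => ⟨fun h => ?_, fun h => ?_⟩⟩
  · exact Nat.le_findGreatest (hb k h) h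
  · exact (Nat.findGreatest_spec (Nat.zero_le _) (MapsOnto.zero G)).mono h

theorem corank_free (n : ℕ) : Corank (FreeGroup (Fin n)) n :=
  fun _ => ⟨fun ⟨φ, hφ⟩ => MapsOnto.le_of_gen φ hφ, free_surj⟩

theorem corank_res {G : Type} [Group G] {c : ℕ} (h : Corank G c) : Corank (G ⧸ res G) c := by
  intro k
  rw [← h k]
  constructor
  · exact fun h' => h'.of_surj (QuotientGroup.mk' _) (QuotientGroup.mk'_surjective _)
  · rintro ⟨φ, hφ⟩
    refine ⟨QuotientGroup.lift (res G) φ (res_le_ker_of_rf φ), fun q => ?_⟩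
    obtain ⟨g, rfl⟩ := hφ q
    exact ⟨g, rfl⟩

/-- a finitely generated subgroup of a free group is free of finite rank -/
theorem exists_free_range {G : Type} [Group G] [Group.FG G] {k : ℕ}
    (φ : G →* FreeGroup (Fin k)) :
    ∃ a : ℕ, MapsOnto G a ∧ ∃ ψ : FreeGroup (Fin a) →* FreeGroup (Fin k), ψ.range = φ.range := by
  have e : φ.range ≃* FreeGroup (IsFreeGroup.Generators φ.range) := IsFreeGroup.toFreeGroup _
  have hfg : Group.FG φ.range := Group.fg_range φ
  have hfg' : Group.FG (FreeGroup (IsFreeGroup.Generators φ.range)) :=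
    Group.fg_of_surjective (f := e.toMonoidHom) e.surjective
  have hfin : Finite (IsFreeGroup.Generators φ.range) := finite_of_fg hfg'
  obtain ⟨a, ⟨e2⟩⟩ := Finite.exists_equiv_fin (IsFreeGroup.Generators φ.range)
  have e3 : φ.range ≃* FreeGroup (Fin a) := e.trans (FreeGroup.freeGroupCongr e2)
  refine ⟨a, ⟨e3.toMonoidHom.comp φ.rangeRestrict, e3.surjective.comp
    φ.rangeRestrict_surjective⟩, (Subgroup.subtype _).comp e3.symm.toMonoidHom, ?_⟩
  ext x
  constructor
  · rintro ⟨y, rfl⟩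
    exact (e3.symm y).2
  · intro hx
    exact ⟨e3 ⟨x, hx⟩, by simp⟩

/-- `F_a ∗ F_b` maps onto `F_{a+b}` -/
theorem coprod_to_free (a b : ℕ) : ∃ f : FreeGroup (Fin a) ∗ FreeGroup (Fin b) →*
    FreeGroup (Fin (a + b)), Function.Surjective f := by
  refine ⟨lift (FreeGroup.map (Fin.castAdd b)) (FreeGroup.map (Fin.natAdd a)), ?_⟩
  rw [← MonoidHom.range_eq_top, eq_top_iff, ← FreeGroup.closure_range_of, Subgroup.closure_le]
  rintro _ ⟨i, rfl⟩
  induction i using Fin.addCases with
  | left i => exact ⟨inl (FreeGroup.of i), by simp⟩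
  | right i => exact ⟨inr (FreeGroup.of i), by simp⟩

/-- `F_{a+b}` maps onto `F_a ∗ F_b` -/
theorem free_to_coprod (a b : ℕ) : ∃ f : FreeGroup (Fin (a + b)) →*
    FreeGroup (Fin a) ∗ FreeGroup (Fin b), Function.Surjective f := by
  refine ⟨FreeGroup.lift (Fin.addCases (fun i => inl (FreeGroup.of i))
    (fun i => inr (FreeGroup.of i))), ?_⟩
  rw [← MonoidHom.range_eq_top, eq_top_iff, ← range_inl_sup_range_inr, sup_le_iff]
  constructor
  · rw [MonoidHom.range_eq_map, ← FreeGroup.closure_range_of, MonoidHom.map_closure,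
      Subgroup.closure_le]
    rintro _ ⟨_, ⟨i, rfl⟩, rfl⟩
    exact ⟨FreeGroup.of (Fin.castAdd b i), by simp⟩
  · rw [MonoidHom.range_eq_map, ← FreeGroup.closure_range_of, MonoidHom.map_closure,
      Subgroup.closure_le]
    rintro _ ⟨_, ⟨i, rfl⟩, rfl⟩
    exact ⟨FreeGroup.of (Fin.natAdd a i), by simp⟩

theorem corank_coprod {G H : Type} [Group G] [Group H] [Group.FG G] [Group.FG H] {a b : ℕ}
    (hG : Corank G a) (hH : Corank H b) : Corank (G ∗ H) (a + b) := by
  intro k
  constructor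
  · rintro ⟨φ, hφ⟩
    obtain ⟨a', ha', α, hα⟩ := exists_free_range (φ.comp inl)
    obtain ⟨b', hb', β, hβ⟩ := exists_free_range (φ.comp inr)
    obtain ⟨f, hf⟩ := free_to_coprod a' b'
    have h1 : Function.Surjective (lift α β) := by
      rw [← MonoidHom.range_eq_top, range_lift, hα, hβ, ← range_eq, MonoidHom.range_eq_top]
      exact hφ
    have h2 := MapsOnto.le_of_gen ((lift α β).comp f) (h1.comp hf)
    have h3 := (hG a').1 ha'
    have h4 := (hH b').1 hb'
    omega
  · intro hk
    obtain ⟨α, hα⟩ := (hG a).2 le_rfl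
    obtain ⟨β, hβ⟩ := (hH b).2 le_rfl
    obtain ⟨f, hf⟩ := coprod_to_free a b
    have h1 : Function.Surjective (Monoid.Coprod.map α β) := by
      rw [← MonoidHom.range_eq_top, range_eq, map_comp_inl, map_comp_inr, MonoidHom.range_comp,
        MonoidHom.range_comp, MonoidHom.range_eq_top.2 hα, MonoidHom.range_eq_top.2 hβ,
        ← MonoidHom.range_eq_map, ← MonoidHom.range_eq_map, range_inl_sup_range_inr]
    exact MapsOnto.mono ⟨f.comp (Monoid.Coprod.map α β), hf.comp h1⟩ hk

theorem corank_eq_of_equiv {G H : Type} [Group G] [Group H] {a b : ℕ} (e : G ≃* H)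
    (hG : Corank G a) (hH : Corank H b) : a = b := by
  refine le_antisymm ?_ ?_
  · exact (hH a).1 (((hG a).2 le_rfl).of_surj e.symm.toMonoidHom e.symm.surjective)
  · exact (hG b).1 (((hH b).2 le_rfl).of_surj e.toMonoidHom e.surjective)

end Pool.Agent.MP_305fdd_al
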