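import Pool.Agent.Lib.MP_305fdd_al.Basic

/-!
# MP_305fdd_al: counting homomorphisms from cyclic groups to the affine groups `AGL(1,p)`
-/

set_option autoImplicit false

namespace Pool.Agent.Lib.MP_305fdd_al

open Monoid Pool.Agent.MP_305fdd_al Polynomial

/-- the affine group of the line over `ZMod p` -/
@[ext]
structure AGL (p : ℕ) where
  b : ZMod p
  a : (ZMod p)ˣ

namespace AGL

variable {p : ℕ}

instance : Mul (AGL p) := ⟨fun x y => ⟨x.b + x.a * y.b, x.a * y.a⟩⟩
instance : One (AGL p) := ⟨⟨0, 1⟩⟩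
instance : Inv (AGL p) := ⟨fun x => ⟨-((x.a⁻¹ : (ZMod p)ˣ) * x.b), x.a⁻¹⟩⟩

theorem mul_b (x y : AGL p) : (x * y).b = x.b + x.a * y.b := rfl
theorem mul_a (x y : AGL p) : (x * y).a = x.a * y.a := rfl
theorem one_b : (1 : AGL p).b = 0 := rfl
theorem one_a : (1 : AGL p).a = 1 := rfl
theorem inv_b (x : AGL p) : (x⁻¹).b = -((x.a⁻¹ : (ZMod p)ˣ) * x.b) := rfl
theorem inv_a (x : AGL p) : (x⁻¹).a = x.a⁻¹ := rfl

instance : Group (AGL p) := Group.ofLeftAxioms
  (by
    intro x y z
    ext
    · simp only [mul_b, mul_a, Units.val_mul]; ring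
    · simp only [mul_a, mul_assoc])
  (by
    intro x
    ext
    · simp [mul_b, one_b, one_a]
    · simp [mul_a, one_a])
  (by
    intro x
    ext
    · simp [mul_b, inv_b, inv_a, one_b]
    · simp [mul_a, inv_a, one_a])

/-- as a set -/
def equiv (p : ℕ) : AGL p ≃ ZMod p × (ZMod p)ˣ where
  toFun x := (x.b, x.a)
  invFun y := ⟨y.1, y.2⟩
  left_inv _ := rfl
  right_inv _ := rfl

instance [NeZero p] : Finite (AGL p) := Finite.of_equiv _ (equiv p).symm

theorem card (p : ℕ) [Fact p.Prime] : Nat.card (AGL p) = p * (p - 1) := by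
  rw [Nat.card_congr (equiv p), Nat.card_prod, Nat.card_zmod, Nat.card_eq_fintype_card,
    ZMod.card_units]

theorem pow_a (x : AGL p) (n : ℕ) : (x ^ n).a = x.a ^ n := by
  induction n with
  | zero => simp [one_a]
  | succ n ih => rw [pow_succ, mul_a, ih, pow_succ]

theorem pow_b (x : AGL p) (n : ℕ) :
    (x ^ n).b = (∑ i ∈ Finset.range n, (x.a : ZMod p) ^ i) * x.b := by
  induction n with
  | zero => simp [one_b]
  | succ n ih =>
    rw [pow_succ, mul_b, ih, pow_a, Finset.sum_range_succ, Units.val_pow_eq_pow_val]; ring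

theorem pow_eq_one_iff [Fact p.Prime] {n : ℕ} (hn : n ≠ 0) (hnp : n ∣ p - 1) (x : AGL p) :
    x ^ n = 1 ↔ x.a ^ n = 1 ∧ (x.a = 1 → x.b = 0) := by
  have hp : p.Prime := Fact.out
  have hn' : (n : ZMod p) ≠ 0 := by
    intro h
    rw [ZMod.natCast_eq_zero_iff] at h
    have h1 := Nat.le_of_dvd (Nat.pos_of_ne_zero hn) h
    have h2 := Nat.le_of_dvd (by have := hp.two_le; omega) hnp
    have := hp.two_le
    omega
  have key : x ^ n = 1 ↔ x.a ^ n = 1 ∧ (∑ i ∈ Finset.range n, (x.a : ZMod p) ^ i) * x.b = 0 := by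
    rw [AGL.ext_iff, pow_b, pow_a, one_b, one_a, and_comm]
  rw [key]
  refine and_congr_right fun ha => ?_
  by_cases h : x.a = 1
  · rw [h]
    simp [hn']
  · have h1 : (x.a : ZMod p) - 1 ≠ 0 := by
      intro h2
      apply h
      ext
      rw [Units.val_one]
      linear_combination h2
    have h2 : (∑ i ∈ Finset.range n, (x.a : ZMod p) ^ i) = 0 := by
      have h3 := geom_sum_mul (x.a : ZMod p) n
      have h4 : (x.a : ZMod p) ^ n = 1 := by
        rw [← Units.val_pow_eq_pow_val, ha, Units.val_one]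
      rw [h4, sub_self] at h3
      rcases mul_eq_zero.mp h3 with h5 | h5
      · exact h5
      · exact absurd h5 h1
    simp [h, h2]

theorem card_pow [Fact p.Prime] {n : ℕ} (hn : n ≠ 0) (hnp : n ∣ p - 1) :
    Nat.card {x : AGL p // x ^ n = 1} = 1 + p * (n - 1) := by
  classical
  have hp : p.Prime := Fact.out
  let K : Subgroup (ZMod p)ˣ := (powMonoidHom n : (ZMod p)ˣ →* (ZMod p)ˣ).ker
  have hK : Nat.card K = n := by
    rw [IsCyclic.card_powMonoidHom_ker, Nat.card_eq_fintype_card, ZMod.card_units]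
    exact Nat.gcd_eq_right hnp
  have hKmem : ∀ a : (ZMod p)ˣ, a ∈ K ↔ a ^ n = 1 := fun a => by
    rw [MonoidHom.mem_ker]; rfl
  let F : {x : AGL p // x ^ n = 1} ≃ Unit ⊕ (ZMod p × {a : K // a ≠ 1}) :=
    { toFun := fun x => if h : x.1.a = 1 then Sum.inl () else
        Sum.inr (x.1.b, ⟨⟨x.1.a, (hKmem _).mpr ((pow_eq_one_iff hn hnp x.1).mp x.2).1⟩,
          fun h' => h (congrArg Subtype.val h')⟩)
      invFun := fun y => match y with
        | Sum.inl _ => ⟨1, one_pow _⟩
        | Sum.inr z => ⟨⟨z.1, z.2.1⟩, (pow_eq_one_iff hn hnp _).mpr ⟨(hKmem _).mp z.2.1.2,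
            fun h => absurd (Subtype.ext h) z.2.2⟩⟩
      left_inv := by
        rintro ⟨x, hx⟩
        by_cases h : x.a = 1
        · simp only [h, dif_pos]
          apply Subtype.ext
          rw [pow_eq_one_iff hn hnp] at hx
          ext
          · exact (hx.2 h).symm
          · exact congrArg Units.val h.symm
        · simp only [h, dif_neg, not_false_eq_true]
      right_inv := by
        rintro (y | ⟨b, ⟨a, ha⟩⟩)
        · simp [one_a]
        · have h : (a : (ZMod p)ˣ) ≠ 1 := fun h => ha (Subtype.ext h)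
          simp only [h, dif_neg, not_false_eq_true] }
  rw [Nat.card_congr F, Nat.card_sum, Nat.card_prod, Nat.card_zmod, Nat.card_unique]
  congr 2
  have h1 : Nat.card {a : K // a ≠ 1} = Nat.card K - 1 := by
    have : Fintype K := Fintype.ofFinite _
    rw [Nat.card_eq_fintype_card, Nat.card_eq_fintype_card]
    exact Set.card_ne_eq _
  rw [h1, hK]

end AGL

/-- homomorphisms from a cyclic group -/
theorem hc_cyclic (k : ℕ) (Q : Type) [Group Q] :
    hc (Multiplicative (ZMod k)) Q = Nat.card {x : Q // x ^ k = 1} := by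
  unfold hc
  refine Nat.card_congr ((AddMonoidHom.toMultiplicativeLeft (α := ZMod k) (β := Q)).symm.trans
    ((ZMod.lift k (A := Additive Q)).symm.trans ?_))
  refine Equiv.subtypeEquiv ((zmultiplesHom (Additive Q)).symm.trans Additive.toMul) ?_
  intro f
  obtain ⟨x, rfl⟩ := (zmultiplesHom (Additive Q)).surjective f
  simp only [zmultiplesHom_apply, Equiv.trans_apply, Equiv.symm_apply_apply]
  rw [natCast_zsmul]
  exact Iff.rfl

/-- `k` is `0` or divides `N` -/
def Allowed (N k : ℕ) : Prop := k = 0 ∨ k ∣ N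

theorem hc_cyclic_AGL {N p k : ℕ} (hN : N ≠ 0) [Fact p.Prime] (hp : p ≡ 1 [MOD N])
    (hk : Allowed N k) :
    hc (Multiplicative (ZMod k)) (AGL p) = if k = 0 then p * (p - 1) else 1 + p * (k - 1) := by
  have hp' : p.Prime := Fact.out
  rw [hc_cyclic]
  split_ifs with h
  · subst h
    rw [← AGL.card p]
    exact Nat.card_congr (Equiv.subtypeUnivEquiv fun x => pow_zero x)
  · apply AGL.card_pow h
    rcases hk with hk | hk
    · exact absurd hk h
    · exact hk.trans ((Nat.modEq_iff_dvd' hp'.one_le).mp hp.symm)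

/-- the polynomial -/
noncomputable def pol (k : ℕ) : ℚ[X] := if k = 0 then X * (X - C 1) else C ((k : ℚ) - 1) * X + C 1

theorem pol_ne_zero (k : ℕ) : pol k ≠ 0 := by
  unfold pol
  split_ifs with h
  · exact mul_ne_zero X_ne_zero (X_sub_C_ne_zero _)
  · intro h2
    have := congrArg (eval 0) h2
    simp at this

theorem eval_pol {N p k : ℕ} (hN : N ≠ 0) [Fact p.Prime] (hp : p ≡ 1 [MOD N])
    (hk : Allowed N k) : (pol k).eval (p : ℚ) = (hc (Multiplicative (ZMod k)) (AGL p) : ℕ) := by
  have hp' : p.Prime := Fact.out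
  rw [hc_cyclic_AGL hN hp hk]
  unfold pol
  split_ifs with h
  · have h1 : ((p - 1 : ℕ) : ℚ) = (p : ℚ) - 1 := by
      rw [Nat.cast_sub hp'.one_le, Nat.cast_one]
    rw [Nat.cast_mul, h1]
    simp
  · have h1 : ((k - 1 : ℕ) : ℚ) = (k : ℚ) - 1 := by
      rw [Nat.cast_sub (Nat.pos_of_ne_zero h), Nat.cast_one]
    rw [Nat.cast_add, Nat.cast_mul, h1]
    simp
    ring

/-- the distinguished root -/
noncomputable def rt (j : ℕ) : ℚ := if j = 0 then 0 else -(((j : ℚ) - 1)⁻¹ * 1)

theorem count_rt (k j : ℕ) (hj : j ≠ 1) : (pol k).roots.count (rt j) = if k = j then 1 else 0 := by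
  by_cases hk : k = 0
  · subst hk
    have h1 : (pol 0).roots = {0} + {1} := by
      unfold pol
      rw [if_pos rfl, roots_mul (mul_ne_zero X_ne_zero (X_sub_C_ne_zero _)), roots_X, roots_X_sub_C]
    rw [h1, Multiset.count_add, Multiset.count_singleton, Multiset.count_singleton]
    by_cases hj0 : j = 0
    · subst hj0
      simp [rt]
    · have hj2 : 2 ≤ j := by omega
      have h2 : rt j < 0 := by
        unfold rt
        rw [if_neg hj0, mul_one, neg_lt_zero, inv_pos]
        have : (2 : ℚ) ≤ j := by exact_mod_cast hj2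
        linarith
      rw [if_neg (ne_of_lt h2), if_neg (ne_of_lt (h2.trans one_pos)), if_neg (fun h => hj0 h.symm)]
  · by_cases hk1 : k = 1
    · subst hk1
      have h1 : (pol 1).roots = 0 := by
        unfold pol
        simp
      rw [h1, Multiset.count_zero, if_neg (fun h => hj h.symm)]
    · have hk2 : 2 ≤ k := by omega
      have hk3 : (0 : ℚ) < (k : ℚ) - 1 := by
        have : (2 : ℚ) ≤ k := by exact_mod_cast hk2
        linarith
      have h1 : (pol k).roots = {-(((k : ℚ) - 1)⁻¹ * 1)} := by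
        unfold pol
        rw [if_neg hk, roots_C_mul_X_add_C _ hk3.ne']
      rw [h1, Multiset.count_singleton]
      by_cases hj0 : j = 0
      · subst hj0
        rw [if_neg, if_neg hk]
        unfold rt
        rw [if_pos rfl, mul_one]
        intro h
        have : (0 : ℚ) < ((k : ℚ) - 1)⁻¹ := inv_pos.mpr hk3
        linarith
      · unfold rt
        rw [if_neg hj0]
        refine if_congr ?_ rfl rfl
        rw [mul_one, mul_one, neg_inj, inv_inj, sub_left_inj, Nat.cast_inj]
        exact eq_comm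

theorem count_prod {ι : Type} [Fintype ι] (m : ι → ℕ) (j : ℕ) (hj : j ≠ 1) :
    (∏ i, pol (m i)).roots.count (rt j) = Nat.card {i // m i = j} := by
  classical
  rw [roots_prod _ _ (Finset.prod_ne_zero_iff.mpr fun i _ => pol_ne_zero (m i)),
    Multiset.count_bind]
  have : (Multiset.map (fun i => Multiset.count (rt j) (pol (m i)).roots)
      (Finset.univ : Finset ι).val).sum = ∑ i, (if m i = j then 1 else 0) := by
    rw [Finset.sum]
    congr 1
    apply Multiset.map_congr rfl
    intro i _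
    exact count_rt _ _ hj
  rw [this, Finset.sum_boole, Nat.card_eq_fintype_card, Fintype.card_subtype]
  rfl

theorem hc_FP {ι : Type} [Fintype ι] (m : ι → ℕ) (Q : Type) [Group Q] :
    hc (FP m) Q = ∏ i, hc (Multiplicative (ZMod (m i))) Q := by
  rw [hc_coprodI]
  congr
  exact Subsingleton.elim _ _

/-- free products of cyclic groups with the same number of homomorphisms to every `AGL(1,p)` have
the same number of factors of each order -/
theorem card_eq_of_hc_eq {ι κ : Type} [Finite ι] [Finite κ] {N : ℕ} (hN : N ≠ 0) (m : ι → ℕ)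
    (m' : κ → ℕ) (hm : ∀ i, Allowed N (m i)) (hm' : ∀ i, Allowed N (m' i))
    (h : ∀ (Q : Type) [Group Q] [Finite Q], hc (FP m) Q = hc (FP m') Q) (j : ℕ) (hj : j ≠ 1) :
    Nat.card {i // m i = j} = Nat.card {i // m' i = j} := by
  have := Fintype.ofFinite ι
  have := Fintype.ofFinite κ
  have key : ∏ i, pol (m i) = ∏ i, pol (m' i) := by
    apply eq_of_infinite_eval_eq
    have h1 : (Set.image (fun p : ℕ => (p : ℚ)) {p : ℕ | p.Prime ∧ p ≡ 1 [MOD N]}) ⊆
        {x | eval x (∏ i, pol (m i)) = eval x (∏ i, pol (m' i))} := by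
      rintro _ ⟨p, ⟨hp, hp1⟩, rfl⟩
      have : Fact p.Prime := ⟨hp⟩
      show eval (p : ℚ) _ = eval (p : ℚ) _
      rw [eval_prod, eval_prod]
      have h2 : ∀ i, eval (p : ℚ) (pol (m i)) = (hc (Multiplicative (ZMod (m i))) (AGL p) : ℕ) :=
        fun i => eval_pol hN hp1 (hm i)
      have h3 : ∀ i, eval (p : ℚ) (pol (m' i)) = (hc (Multiplicative (ZMod (m' i))) (AGL p) : ℕ) :=
        fun i => eval_pol hN hp1 (hm' i)
      simp only [h2, h3]
      rw [← Nat.cast_prod, ← Nat.cast_prod, ← hc_FP, ← hc_FP, h]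
    refine Set.Infinite.mono h1 ?_
    refine Set.Infinite.image (fun x _ y _ hxy => Nat.cast_injective hxy) ?_
    rw [Set.infinite_iff_exists_gt]
    intro n
    obtain ⟨p, hp, hn, hp1⟩ := Nat.exists_prime_gt_modEq_one n hN
    exact ⟨p, ⟨hp, hp1⟩, hn⟩
  rw [← count_prod m j hj, ← count_prod m' j hj, key]

end Pool.Agent.Lib.MP_305fdd_al
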