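import Pool.Agent.Lib.MP_305fdd_al.Count

/-!
# MP_305fdd_al: free products of cyclic groups: subgroups and isomorphism
-/

set_option autoImplicit false

namespace Pool.Agent.Lib.MP_305fdd_al

open Monoid Pool.Agent.MP_305fdd_al

/-! ### Subgroups of cyclic groups -/

theorem cyclic_sub {N k : ℕ} (hk : Allowed N k) (T : Subgroup (Multiplicative (ZMod k))) :
    ∃ k', Allowed N k' ∧ Nonempty (T ≃* Multiplicative (ZMod k')) := by
  have hT : IsCyclic T := inferInstance
  refine ⟨Nat.card T, ?_, ⟨(zmodCyclicMulEquiv hT).symm⟩⟩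
  by_cases hk0 : k = 0
  · subst hk0
    by_cases hf : Finite T
    · right
      have : T = ⊥ := by
        rw [eq_bot_iff]
        intro x hx
        rw [Subgroup.mem_bot]
        have h1 : IsOfFinOrder (⟨x, hx⟩ : T) := isOfFinOrder_of_finite _
        rw [isOfFinOrder_iff_pow_eq_one] at h1
        obtain ⟨n, hn, h2⟩ := h1
        have h3 : x ^ n = 1 := congrArg Subtype.val h2
        have h4 : (n : ℤ) * (Multiplicative.toAdd x : ℤ) = 0 := by
          have h5 := congrArg Multiplicative.toAdd h3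
          rw [toAdd_pow, toAdd_one] at h5
          rw [← nsmul_eq_mul]
          exact h5
        rcases mul_eq_zero.mp h4 with h5 | h5
        · exact absurd (Nat.cast_eq_zero.mp h5) hn.ne'
        · exact h5
      rw [this, Subgroup.card_bot]
      exact one_dvd _
    · left
      exact Nat.card_eq_zero.mpr (Or.inr (not_finite_iff_infinite.mp hf))
  · right
    rcases hk with hk | hk
    · exact absurd hk hk0
    · have := Subgroup.card_subgroup_dvd_card T
      rw [Nat.card_congr Multiplicative.toAdd, Nat.card_zmod] at this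
      exact this.trans hk

/-! ### Isomorphisms -/

theorem subsingleton_one {k : ℕ} (hk : k = 1) : Subsingleton (Multiplicative (ZMod k)) := by
  subst hk
  exact (inferInstance : Subsingleton (ZMod 1))

theorem nontrivial_ne_one {k : ℕ} (hk : k ≠ 1) : Nontrivial (Multiplicative (ZMod k)) := by
  have : Nontrivial (ZMod k) := ZMod.nontrivial_iff.mpr hk
  exact this

theorem FP_restrict {ι : Type} (m : ι → ℕ) :
    Nonempty (FP (fun a : {i // m i ≠ 1} => m a) ≃* FP m) := by
  refine coprodI_equiv (fun a : {i // m i ≠ 1} => a.1) Subtype.val_injective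
    (fun a => MulEquiv.refl _) ?_
  intro j hj
  apply subsingleton_one
  by_contra h
  exact hj ⟨⟨j, h⟩, rfl⟩

theorem FP_equiv_of_card {ι κ : Type} [Finite ι] [Finite κ] (m : ι → ℕ) (m' : κ → ℕ)
    (h : ∀ j, j ≠ 1 → Nat.card {i // m i = j} = Nat.card {i // m' i = j}) :
    Nonempty (FP m ≃* FP m') := by
  classical
  have hE : ∀ j, j ≠ 1 → Nonempty ({i // m i = j} ≃ {i // m' i = j}) := by
    intro j hj
    exact Finite.card_eq.mp (h j hj)
  let e : {i // m i ≠ 1} → κ := fun a => ((hE (m a) a.2).some ⟨a, rfl⟩).1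
  have he : ∀ a, m' (e a) = m a := fun a => ((hE (m a) a.2).some ⟨a, rfl⟩).2
  have aux : ∀ (a : {i // m i ≠ 1}) (j : ℕ) (hj : j ≠ 1) (h : m a = j),
      e a = ((hE j hj).some ⟨a, h⟩).1 := by
    intro a j hj h
    subst h
    rfl
  have hinj : Function.Injective e := by
    intro a b hab
    have h1 : m a = m b := by rw [← he a, ← he b, hab]
    rw [aux a (m b) b.2 h1, aux b (m b) b.2 rfl] at hab
    have h3 := (hE (m b) b.2).some.injective (Subtype.ext hab)
    have h4 := congrArg (fun z : {i // m i = m b} => z.1) h3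
    exact Subtype.ext h4
  obtain ⟨f⟩ := FP_restrict m
  have h2 : Nonempty (FP (fun a : {i // m i ≠ 1} => m a) ≃* FP m') := by
    refine coprodI_equiv e hinj (fun a => ?_) ?_
    · show Multiplicative (ZMod (m a)) ≃* Multiplicative (ZMod (m' (e a)))
      rw [he a]
    · intro j hj
      apply subsingleton_one
      by_contra hj1
      apply hj
      have hy := ((hE (m' j) hj1).some.symm ⟨j, rfl⟩).2
      refine ⟨⟨((hE (m' j) hj1).some.symm ⟨j, rfl⟩).1, by rw [hy]; exact hj1⟩, ?_⟩
      rw [aux _ (m' j) hj1 hy]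
      simp
  obtain ⟨g⟩ := h2
  exact ⟨f.symm.trans g⟩

/-! ### Finitely generated free products -/

theorem finite_of_fg_coprodI {J : Type} {B : J → Type} [∀ j, Group (B j)]
    (hB : ∀ j, Nontrivial (B j)) (h : Group.FG (CoprodI B)) : Finite J := by
  classical
  let π : ∀ j, CoprodI B →* B j := fun j => CoprodI.lift (Pi.mulSingle j (MonoidHom.id (B j)))
  have hπ : ∀ j (b : B j), π j (CoprodI.of b) = b := fun j b => CoprodI.of_leftInverse j b
  have hfin : ∀ x : CoprodI B, {j | π j x ≠ 1}.Finite := by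
    intro x
    induction x using CoprodI.induction_left with
    | one => simp
    | mul m x ih =>
      rename_i i
      refine Set.Finite.subset (ih.union (Set.finite_singleton i)) ?_
      intro j hj
      by_cases hji : j = i
      · right; exact hji
      · left
        intro h0
        apply hj
        have h1 : π j (CoprodI.of m) = 1 := by
          show CoprodI.lift _ _ = _
          rw [CoprodI.lift_of, Pi.mulSingle_eq_of_ne (fun h => hji h.symm)]
          rfl
        rw [map_mul, h0, h1, mul_one]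
  obtain ⟨S, hS⟩ := Group.fg_def.mp h
  have h1 : (⋃ x ∈ S, {j | π j x ≠ 1}).Finite := S.finite_toSet.biUnion fun x _ => hfin x
  have h2 : (⋃ x ∈ S, {j | π j x ≠ 1}) = Set.univ := by
    rw [Set.eq_univ_iff_forall]
    intro j
    by_contra hj
    simp only [Set.mem_iUnion, not_exists, Set.mem_ofPred_eq, not_not] at hj
    have h3 : π j = 1 := by
      apply MonoidHom.eq_of_eqOn_dense hS
      intro x hx
      exact hj x hx
    obtain ⟨b, hb⟩ := exists_ne (1 : B j)
    apply hb
    rw [← hπ j b, h3]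
    rfl
  rw [h2] at h1
  exact Set.finite_univ_iff.mp h1

theorem FP_fin {ι : Type} [Finite ι] (m : ι → ℕ) :
    ∃ (n : ℕ) (l : Fin n → ℕ), (∀ i, ∃ j, l i = m j) ∧ Nonempty (FP m ≃* FP l) := by
  obtain ⟨n, ⟨e⟩⟩ := Finite.exists_equiv_fin ι
  refine ⟨n, fun i => m (e.symm i), fun i => ⟨_, rfl⟩, ?_⟩
  obtain ⟨f⟩ : Nonempty (FP (fun i => m (e.symm i)) ≃* FP m) :=
    coprodI_equiv (fun i => e.symm i) e.symm.injective (fun i => MulEquiv.refl _)
      (fun j hj => absurd (e.symm.surjective j) hj)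
  exact ⟨f.symm⟩

/-- **Finitely generated subgroups of free products of cyclic groups.** -/
theorem fg_subgroup {ι : Type} {N : ℕ} (l : ι → ℕ) (hl : ∀ i, Allowed N (l i))
    (H : Subgroup (FP l)) (hH : Group.FG H) :
    ∃ (n : ℕ) (l' : Fin n → ℕ), (∀ i, Allowed N (l' i)) ∧ (∀ i, l' i ≠ 1) ∧
      Nonempty (H ≃* FP l') := by
  obtain ⟨J, A, hAg, hA, ⟨e⟩⟩ := Kurosh.kurosh H
  have h1 : ∀ j, ∃ k, Allowed N k ∧ Nonempty (A j ≃* Multiplicative (ZMod k)) := by
    intro j
    rcases hA j with ⟨i, T, ⟨f⟩⟩ | ⟨⟨f⟩⟩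
    · obtain ⟨k, hk, ⟨g⟩⟩ := cyclic_sub (hl i) T
      exact ⟨k, hk, ⟨f.trans g⟩⟩
    · exact ⟨0, Or.inl rfl, ⟨f⟩⟩
  choose k hk hkA using h1
  obtain ⟨f⟩ : Nonempty (CoprodI A ≃* FP k) := coprodI_congr hkA
  obtain ⟨g⟩ := FP_restrict k
  have e2 : H ≃* FP (fun a : {i // k i ≠ 1} => k a) := (e.trans f).trans g.symm
  have hfg : Group.FG (FP (fun a : {i // k i ≠ 1} => k a)) :=
    Group.fg_of_surjective (f := e2.toMonoidHom) e2.surjective
  have hfin : Finite {i // k i ≠ 1} := by
    apply finite_of_fg_coprodI _ hfg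
    intro a
    exact nontrivial_ne_one a.2
  obtain ⟨n, l', hl', ⟨e3⟩⟩ := FP_fin (fun a : {i // k i ≠ 1} => k a)
  refine ⟨n, l', ?_, ?_, ⟨e2.trans e3⟩⟩
  · intro i
    obtain ⟨j, hj⟩ := hl' i
    rw [hj]
    exact hk j.1
  · intro i
    obtain ⟨j, hj⟩ := hl' i
    rw [hj]
    exact j.2

end Pool.Agent.Lib.MP_305fdd_al
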