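import Pool.Agent.Lib.MP_305fdd_al.Structure

/-!
# MP_305fdd_al: free decompositions in the genus of a free product of cyclic groups
-/

set_option autoImplicit false

namespace Pool.Agent.Lib.MP_305fdd_al

open Monoid Pool.Agent.MP_305fdd_al

section main

variable {ι κ : Type} [Fintype ι] [Fintype κ] [DecidableEq κ] {m : ι → ℕ} {A : κ → Type}
  [∀ j, Group (A j)] [∀ j, Group.FG (A j)] (Φ : NatBij (CoprodI A) (FP m)) (q : ℕ)
  [hq : Fact q.Prime]

include Φ in
theorem exists_matching (hqm : ∀ i, m i ≠ 0 → ¬ q ∣ m i) (hm : ∀ i, m i ≠ 1)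
    (hrf : ∀ j, Group.ResiduallyFinite (A j)) (hA : ∀ j, Nontrivial (A j))
    (hqA : ∀ j, Finite (A j) → ¬ q ∣ Nat.card (A j)) :
    ∃ e : {j // IsCyclic (A j)} → ι, Function.Injective e ∧
      ∀ j, Nonempty (A j.1 ≃* Multiplicative (ZMod (m (e j)))) := by
  classical
  have hc : ∀ j : {j // IsCyclic (A j)}, _ := fun j => cases_of_nn_eq_one Φ q hqm hm j.1 (hrf j.1)
    (nn_eq_one_of_cyclic Φ q hqm j.1 (hqA j.1) j.2)
  -- the factors of rank one
  have hcard : Fintype.card {j : {j // IsCyclic (A j)} // rk q (A j.1) = 1} ≤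
      Fintype.card {i // m i = 0} := by
    have h1 := sum_rk q Φ hqm
    unfold rr at h1
    rw [Fintype.card_subtype (fun i => m i = 0), ← h1]
    let f : {j : {j // IsCyclic (A j)} // rk q (A j.1) = 1} → κ := fun j => j.1.1
    have hf : Function.Injective f := fun a b h => Subtype.ext (Subtype.ext h)
    calc Fintype.card {j : {j // IsCyclic (A j)} // rk q (A j.1) = 1}
        = ∑ _j : {j : {j // IsCyclic (A j)} // rk q (A j.1) = 1}, 1 := by simp
      _ = ∑ j : {j : {j // IsCyclic (A j)} // rk q (A j.1) = 1}, rk q (A (f j)) :=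
          Finset.sum_congr rfl fun j _ => j.2.symm
      _ = ∑ j ∈ Finset.univ.map ⟨f, hf⟩, rk q (A j) := by rw [Finset.sum_map]; rfl
      _ ≤ ∑ j, rk q (A j) := Finset.sum_le_sum_of_subset (Finset.subset_univ _)
  obtain ⟨g⟩ := Function.Embedding.nonempty_of_card_le hcard
  have hc0 : ∀ j : {j // IsCyclic (A j)}, ¬ rk q (A j.1) = 1 → ∃ i, FF Φ j.1 = {i} ∧ m i ≠ 0 ∧
      Nonempty (A j.1 ≃* Multiplicative (ZMod (m i))) := by
    intro j hj
    rcases hc j with h | h
    · exact h.2
    · exact absurd h.1 hj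
  have hc1 : ∀ j : {j // IsCyclic (A j)}, rk q (A j.1) = 1 →
      Nonempty (A j.1 ≃* Multiplicative (ZMod 0)) := by
    intro j hj
    rcases hc j with h | h
    · rw [h.1] at hj
      exact absurd hj (by norm_num)
    · exact h.2.2
  let e : {j // IsCyclic (A j)} → ι := fun j =>
    if h : rk q (A j.1) = 1 then (g ⟨j, h⟩).1 else (hc0 j h).choose
  have he1 : ∀ (j) (h : rk q (A j.1) = 1), e j = (g ⟨j, h⟩).1 := fun j h => dif_pos h
  have he0 : ∀ (j) (_ : ¬ rk q (A j.1) = 1), FF Φ j.1 = {e j} ∧ m (e j) ≠ 0 ∧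
      Nonempty (A j.1 ≃* Multiplicative (ZMod (m (e j)))) := by
    intro j h
    have : e j = (hc0 j h).choose := dif_neg h
    rw [this]
    exact (hc0 j h).choose_spec
  have hm0 : ∀ j, rk q (A j.1) = 1 → m (e j) = 0 := fun j h => by
    rw [he1 j h]
    exact (g ⟨j, h⟩).2
  refine ⟨e, ?_, ?_⟩
  · intro j j' hjj
    by_cases h : rk q (A j.1) = 1
    · by_cases h' : rk q (A j'.1) = 1
      · rw [he1 j h, he1 j' h'] at hjj
        have := g.injective (Subtype.ext hjj)
        exact congrArg Subtype.val this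
      · have h1 := hm0 j h
        rw [hjj] at h1
        exact absurd h1 (he0 j' h').2.1
    · by_cases h' : rk q (A j'.1) = 1
      · have h1 := hm0 j' h'
        rw [← hjj] at h1
        exact absurd h1 (he0 j h).2.1
      · have h1 : e j ∈ FF Φ j.1 := by
          rw [(he0 j h).1]
          exact Finset.mem_singleton_self _
        have h2 : e j ∈ FF Φ j'.1 := by
          rw [(he0 j' h').1, hjj]
          exact Finset.mem_singleton_self _
        rw [mem_FF] at h1 h2
        exact Subtype.ext (Att_unique Φ q hqm h1.1 h1.2 h2.2)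
  · intro j
    by_cases h : rk q (A j.1) = 1
    · rw [hm0 j h]
      exact hc1 j h
    · exact (he0 j h).2.2

end main

theorem decomposition {ι κ : Type} [Fintype ι] [Fintype κ] (m : ι → ℕ) (hm : ∀ i, m i ≠ 1)
    (A : κ → Type) [∀ j, Group (A j)] (hA : ∀ j, Nontrivial (A j))
    (h : InGenus (FP m) (CoprodI A)) :
    Fintype.card κ + Nat.card {j // ¬ IsCyclic (A j)} ≤ Fintype.card ι ∧
    (∃ e : {j // IsCyclic (A j)} → ι, Function.Injective e ∧
      (∀ j, Nonempty (A j.1 ≃* Multiplicative (ZMod (m (e j))))) ∧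
      ((∀ j, IsCyclic (A j)) → Nonempty (CoprodI A ≃* FP m)) ∧
      (∀ j₀, (∀ j, ¬ IsCyclic (A j) ↔ j = j₀) →
        InGenus (FP fun i : {i // i ∉ Set.range e} => m i) (A j₀))) ∧
    ((∀ i, m i = 0) → ∃ n : κ → ℕ, ∑ j, n j = Fintype.card ι ∧
      ∀ j, 1 ≤ n j ∧ (IsCyclic (A j) ↔ n j = 1) ∧
        SameSolvableQuotients (A j) (FreeGroup (Fin (n j)))) := by
  classical
  obtain ⟨hfg, hrf, hsame⟩ := h
  have hfgA : ∀ j, Group.FG (A j) := fun j => fg_factor j
  have hrfA : ∀ j, Group.ResiduallyFinite (A j) := fun j => rf_factor hrf j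
  obtain ⟨q, hqp, hqm, hqA'⟩ := exists_prime_not_dvd m (fun j => Nat.card (A j))
  have : Fact q.Prime := ⟨hqp⟩
  have hqA : ∀ j, Finite (A j) → ¬ q ∣ Nat.card (A j) := fun j _ =>
    hqA' j (Nat.card_pos (α := A j)).ne'
  obtain ⟨Φ⟩ := exists_natBij hsame
  have hsum := sum_nn Φ q hqm hm
  have hpos : ∀ j, 1 ≤ nn Φ q j := fun j => nn_pos Φ q hqm j (hrfA j)
  have hcyc : ∀ j, IsCyclic (A j) ↔ nn Φ q j = 1 := by
    intro j
    refine ⟨nn_eq_one_of_cyclic Φ q hqm j (hqA j), fun h1 => ?_⟩
    rcases cases_of_nn_eq_one Φ q hqm hm j (hrfA j) h1 with ⟨-, i, -, -, ⟨e⟩⟩ | ⟨-, -, ⟨e⟩⟩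
    · exact isCyclic_of_surjective e.symm e.symm.surjective
    · exact isCyclic_of_surjective e.symm e.symm.surjective
  refine ⟨?_, ?_, ?_⟩
  · -- the inequality
    rw [← hsum, Nat.card_eq_fintype_card, Fintype.card_subtype, ← Finset.card_univ,
      Finset.card_eq_sum_ones, Finset.card_filter, ← Finset.sum_add_distrib]
    refine Finset.sum_le_sum fun j _ => ?_
    by_cases hj : IsCyclic (A j)
    · simp only [hj, not_true_eq_false, if_false, add_zero]
      exact hpos j
    · simp only [hj, not_false_eq_true, if_true]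
      have h1 := hpos j
      have h2 : nn Φ q j ≠ 1 := fun h3 => hj ((hcyc j).mpr h3)
      omega
  · obtain ⟨e, he, hiso⟩ := exists_matching Φ q hqm hm hrfA hA hqA
    refine ⟨e, he, hiso, ?_, ?_⟩
    · intro hall
      have hcard : Fintype.card κ = Fintype.card ι := by
        rw [← hsum, ← Finset.card_univ, Finset.card_eq_sum_ones]
        exact Finset.sum_congr rfl fun j _ => ((hcyc j).mp (hall j)).symm
      let e' : κ → ι := fun j => e ⟨j, hall j⟩
      have he' : Function.Injective e' := fun a b hab =>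
        congrArg Subtype.val (he hab)
      have hb : Function.Bijective e' :=
        (Fintype.bijective_iff_injective_and_card e').mpr ⟨he', hcard⟩
      exact coprodI_equiv e' he' (fun j => (hiso ⟨j, hall j⟩).some)
        fun i hi => absurd (hb.2 i) hi
    · intro j₀ hj₀
      have hrfF : Group.FG (FP fun i : {i // i ∉ Set.range e} => m i) := inferInstance
      refine ⟨hfgA j₀, hrfA j₀, same_of_hc fun Q _ _ => ?_⟩
      have h1 : hc (CoprodI A) Q = hc (FP m) Q := hc_eq_of_same Q hsame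
      rw [hc_FP, hc_coprodI] at h1
      rw [hc_FP]
      have h2 : ∏ j, hc (A j) Q = (∏ j : {j // IsCyclic (A j)}, hc (A j.1) Q) * hc (A j₀) Q := by
        rw [← Fintype.prod_subtype_mul_prod_subtype (fun j => IsCyclic (A j))
          (fun j => hc (A j) Q)]
        congr 1
        have : Subsingleton {j // ¬ IsCyclic (A j)} :=
          ⟨fun x y => Subtype.ext (((hj₀ x.1).mp x.2).trans ((hj₀ y.1).mp y.2).symm)⟩
        rw [Fintype.prod_subsingleton _
          (⟨j₀, (hj₀ j₀).mpr rfl⟩ : {j // ¬ IsCyclic (A j)})]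
      have h3 : ∏ i, hc (Multiplicative (ZMod (m i))) Q =
          (∏ j : {j // IsCyclic (A j)}, hc (A j.1) Q) *
            ∏ i : {i // i ∉ Set.range e}, hc (Multiplicative (ZMod (m i))) Q := by
        rw [← Fintype.prod_subtype_mul_prod_subtype (fun i => i ∈ Set.range e)
          (fun i => hc (Multiplicative (ZMod (m i))) Q)]
        congr 1
        have hinst : ∀ (I : Fintype {i // i ∈ Set.range e}),
            ∏ i ∈ @Finset.univ {i // i ∈ Set.range e} I,
              hc (Multiplicative (ZMod (m i))) Q = ∏ j : {j // IsCyclic (A j)}, hc (A j.1) Q :=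
          fun I => (@Fintype.prod_equiv _ _ _ _ I _ (Equiv.ofInjective e he)
            (fun j : {j // IsCyclic (A j)} => hc (A j.1) Q)
            (fun i : {i // i ∈ Set.range e} => hc (Multiplicative (ZMod (m i))) Q)
            (fun j => hc_equiv Q (hiso j).some)).symm
        exact hinst _
      have h4 : (∏ j : {j // IsCyclic (A j)}, hc (A j.1) Q) * hc (A j₀) Q =
          (∏ j : {j // IsCyclic (A j)}, hc (A j.1) Q) *
            ∏ i : {i // i ∉ Set.range e}, hc (Multiplicative (ZMod (m i))) Q := by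
        rw [← h2, ← h3, ← h1]
        congr 1
        exact congrArg _ (Subsingleton.elim _ _)
      have h5 := Nat.eq_of_mul_eq_mul_left (Finset.prod_pos fun j _ => hc_pos _ _) h4
      rw [h5]
  · intro hm0
    refine ⟨nn Φ q, hsum, fun j => ⟨hpos j, hcyc j, ?_⟩⟩
    have hno : ∀ i, m i ≠ 0 → ¬ Att Φ j i := fun i hi => absurd (hm0 i) hi
    have hFF : FF Φ j = ∅ := by
      rw [Finset.eq_empty_iff_forall_notMem]
      intro i hi
      exact ((mem_FF Φ).mp hi).1 (hm0 i)
    obtain ⟨n, hn⟩ := abRank_of_proj (A j) (proj_of_no_att Φ j hno)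
    have h1 : nn Φ q j = n := by
      unfold nn
      rw [hFF, Finset.card_empty, add_zero, rk_of_abRank hn q]
    rw [h1]
    exact sameSolvable_free (proj_of_no_att Φ j hno) (cnt_of_no_att Φ j hno) hn

end Pool.Agent.Lib.MP_305fdd_al
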