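import Mathlib

/-!
# MP_305fdd_al: definitions

Profinite genus and profinite rigidity (in the absolute sense), through finite quotients.
-/

set_option autoImplicit false

namespace Pool.Agent.MP_305fdd_al

/-- `G` and `H` have the same finite quotients (up to isomorphism). For finitely generated groups
this is equivalent to `Ĝ ≅ Ĥ`. -/
def SameFiniteQuotients (G H : Type) [Group G] [Group H] : Prop :=
  ∀ (Q : Type) [Group Q] [Finite Q],
    (∃ φ : G →* Q, Function.Surjective φ) ↔ (∃ φ : H →* Q, Function.Surjective φ)

/-- `Λ` is a finitely generated residually finite group with the same finite quotients as `Γ`. -/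
def InGenus (Γ : Type) [Group Γ] (Λ : Type) [Group Λ] : Prop :=
  Group.FG Λ ∧ Group.ResiduallyFinite Λ ∧ SameFiniteQuotients Λ Γ

/-- `Γ` is profinitely rigid in the absolute sense. -/
def ProfinitelyRigid (Γ : Type) [Group Γ] : Prop :=
  ∀ (Λ : Type) [Group Λ], InGenus Γ Λ → Nonempty (Λ ≃* Γ)

/-- There are at least `k` pairwise non-isomorphic finitely generated residually finite groups with
the same finite quotients as `Γ`. -/
def GenusAtLeast (Γ : Type) [Group Γ] (k : ℕ) : Prop :=
  ∃ (G : Fin k → Type) (_ : ∀ i, Group (G i)),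
    (∀ i, InGenus Γ (G i)) ∧ ∀ i j, i ≠ j → IsEmpty (G i ≃* G j)

end Pool.Agent.MP_305fdd_al
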