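import Pool.Agent.Lib.MP_305fdd_al.Attach3

/-!
# MP_305fdd_al: factors without attached finite factors

Such a factor `A` is projective for finite groups (`Proj`), and the number of its crossed
homomorphisms to a finite module does not depend on the action (`Cnt`).
-/

set_option autoImplicit false

namespace Pool.Agent.Lib.MP_305fdd_al

open Monoid Pool.Agent.MP_305fdd_al

/-- homomorphisms from `A` to finite groups lift along surjections of finite groups -/
def Proj (A : Type) [Group A] : Prop :=
  ∀ (E Q : Type) [Group E] [Finite E] [Group Q] [Finite Q] (f : E →* Q),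
    Function.Surjective f → ∀ θ : A →* Q, ∃ ψ : A →* E, f.comp ψ = θ

/-- the number of lifts to `V ⋊ Q` does not depend on the action -/
def Cnt (A : Type) [Group A] : Prop :=
  ∀ (V Q : Type) [CommGroup V] [Finite V] [Group Q] [Finite Q] (φ : Q →* MulAut V) (θ : A →* Q),
    NL φ θ = Nat.card (A →* V)

section main

variable {ι κ : Type} [Fintype ι] [Fintype κ] [DecidableEq κ] {m : ι → ℕ} {A : κ → Type}
  [∀ j, Group (A j)] [∀ j, Group.FG (A j)] (Φ : NatBij (CoprodI A) (FP m))

omit [Fintype ι] [Fintype κ] [∀ j, Group.FG (A j)] in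
theorem proj_of_no_att (j : κ) (hno : ∀ i, m i ≠ 0 → ¬ Att Φ j i) : Proj (A j) := by
  intro E Q _ _ _ _ f hf θ
  have h1 : ∀ i, ∃ ψ : Multiplicative (ZMod (m i)) →* E, f.comp ψ = Ti Φ j i θ := by
    intro i
    by_cases hi : m i = 0
    · generalize Ti Φ j i θ = t
      revert t
      rw [hi]
      intro t
      obtain ⟨e, he⟩ := hf (t (Multiplicative.ofAdd (1 : ℤ)))
      refine ⟨zpowersHom E e, ?_⟩
      apply MonoidHom.ext_mint
      show f (zpowersHom E e (Multiplicative.ofAdd (1 : ℤ))) = _
      rw [zpowersHom_apply, toAdd_ofAdd, zpow_one]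
      exact he
    · have : Ti Φ j i θ = 1 := by
        by_contra hc
        exact hno i hi ⟨_, _, _, _, hc⟩
      exact ⟨1, by rw [this, MonoidHom.comp_one]⟩
  choose ψ hψ using h1
  let Ψ : FP m →* E := CoprodI.lift ψ
  have h2 : f.comp Ψ = TT Φ j θ := by
    apply CoprodI.ext_hom
    intro i
    rw [MonoidHom.comp_assoc, CoprodI.lift_comp_of]
    exact hψ i
  refine ⟨(Φ.symm.toFun E Ψ).comp CoprodI.of, ?_⟩
  rw [← MonoidHom.comp_assoc, ← Φ.symm.nat, h2]
  have h3 : Φ.symm.toFun Q (TT Φ j θ) = ext j θ := Φ.left_inv Q _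
  rw [h3, ext_same]

theorem cnt_of_no_att (j : κ) (hno : ∀ i, m i ≠ 0 → ¬ Att Φ j i) : Cnt (A j) := by
  intro V Q _ _ _ _ φ θ
  have h1 : NL φ (TT Φ j θ) = NL φ (1 : FP m →* Q) := by
    rw [NL_coprodI, NL_coprodI]
    refine Finset.prod_congr rfl fun i _ => ?_
    by_cases hi : m i = 0
    · rw [MonoidHom.one_comp]
      generalize (TT Φ j θ).comp (oi m i) = t
      have : ∀ t : Multiplicative (ZMod (m i)) →* Q,
          NL φ t = NL φ (1 : Multiplicative (ZMod (m i)) →* Q) := by
        rw [hi]
        intro t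
        rw [NL_int, NL_int]
      exact this t
    · have : Ti Φ j i θ = 1 := by
        by_contra hc
        exact hno i hi ⟨_, _, _, _, hc⟩
      show NL φ (Ti Φ j i θ) = _
      rw [this, MonoidHom.one_comp]
  have h2 : NL φ (ext j θ) = NL φ (1 : CoprodI A →* Q) := by
    rw [← NL_natBij φ Φ, ← NL_natBij φ Φ, Φ.one]
    exact h1
  rw [NL_coprodI, NL_coprodI, ← Finset.mul_prod_erase _ _ (Finset.mem_univ j),
    ← Finset.mul_prod_erase _ _ (Finset.mem_univ j), ext_same, MonoidHom.one_comp] at h2
  have h3 : ∏ x ∈ Finset.univ.erase j, NL φ ((ext j θ).comp (CoprodI.of (i := x))) =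
      ∏ x ∈ Finset.univ.erase j, NL φ ((1 : CoprodI A →* Q).comp (CoprodI.of (i := x))) := by
    refine Finset.prod_congr rfl fun x hx => ?_
    rw [ext_ne (Finset.ne_of_mem_erase hx), MonoidHom.one_comp]
  rw [h3] at h2
  have h4 := Nat.eq_of_mul_eq_mul_right (Finset.prod_pos fun x _ => NL_pos φ _) h2
  rw [h4, NL_one]

end main

/-! ### The abelianization -/

/-- the abelianization of `A` is free abelian of rank `n` -/
def AbRank (A : Type) [Group A] (n : ℕ) : Prop :=
  ∃ p : A →* Multiplicative (Fin n →₀ ℤ), Function.Surjective p ∧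
    ∀ (C : Type) [CommGroup C] (f : A →* C), ∃ g : Multiplicative (Fin n →₀ ℤ) →* C, f = g.comp p

theorem abRank_of_proj (A : Type) [Group A] [Group.FG A] (hA : Proj A) : ∃ n, AbRank A n := by
  classical
  have hfg : AddGroup.FG (Additive (Abelianization A)) := by
    have : Group.FG (Abelianization A) :=
      Group.fg_of_surjective (f := Abelianization.of) QuotientGroup.mk_surjective
    infer_instance
  obtain ⟨n, σ, _, p, hp, e, ⟨f⟩⟩ := AddCommGroup.equiv_free_prod_directSum_zmod
    (Additive (Abelianization A))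
  have he : ∀ i, e i = 0 := by
    intro i
    by_contra hei
    have hpi := hp i
    have : Fact (p i).Prime := ⟨hpi⟩
    have : NeZero (p i ^ (e i + 1)) := ⟨pow_ne_zero _ hpi.ne_zero⟩
    have : Finite (Multiplicative (ZMod (p i))) := (inferInstance : Finite (ZMod (p i)))
    have : Finite (Multiplicative (ZMod (p i ^ (e i + 1)))) :=
      (inferInstance : Finite (ZMod (p i ^ (e i + 1))))
    have hd1 : p i ∣ p i ^ e i := dvd_pow_self _ hei
    have hd2 : p i ∣ p i ^ (e i + 1) := dvd_pow_self _ (by omega)
    -- the component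
    let pr : Additive (Abelianization A) →+ ZMod (p i ^ e i) :=
      ((DirectSum.component ℤ σ (fun i => ZMod (p i ^ e i)) i).toAddMonoidHom.comp
        (AddMonoidHom.snd _ _)).comp f.toAddMonoidHom
    let χ : Additive (Abelianization A) →+ ZMod (p i) :=
      (ZMod.castHom hd1 (ZMod (p i))).toAddMonoidHom.comp pr
    let θ : A →* Multiplicative (ZMod (p i)) :=
      (AddMonoidHom.toMultiplicativeRight χ).comp Abelianization.of
    let g : Multiplicative (ZMod (p i ^ (e i + 1))) →* Multiplicative (ZMod (p i)) :=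
      AddMonoidHom.toMultiplicative (ZMod.castHom hd2 (ZMod (p i))).toAddMonoidHom
    obtain ⟨ψ, hψ⟩ := hA _ _ g (ZMod.castHom_surjective hd2) θ
    let ψ' : Additive (Abelianization A) →+ ZMod (p i ^ (e i + 1)) :=
      MonoidHom.toAdditiveLeft (Abelianization.lift ψ)
    have hψ' : ∀ x, ZMod.castHom hd2 (ZMod (p i)) (ψ' x) = χ x := by
      have h1 : (g.comp (Abelianization.lift ψ)) = (AddMonoidHom.toMultiplicativeRight χ) := by
        apply Abelianization.hom_ext
        ext x
        show g (Abelianization.lift ψ (Abelianization.of x)) = _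
        rw [Abelianization.lift_apply_of]
        exact DFunLike.congr_fun hψ x
      intro x
      exact DFunLike.congr_fun h1 (Additive.toMul x)
    let x : Additive (Abelianization A) :=
      f.symm (0, DirectSum.of (fun i => ZMod (p i ^ e i)) i 1)
    have hx : p i ^ e i • x = 0 := by
      apply f.injective
      rw [map_nsmul, map_zero, AddEquiv.apply_symm_apply, Prod.smul_mk, smul_zero, ← map_nsmul,
        nsmul_eq_mul, CharP.cast_eq_zero, zero_mul, map_zero]
      rfl
    have hχ : χ x = 1 := by
      show ZMod.castHom hd1 (ZMod (p i)) ((f x).2 i) = 1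
      have h1 : (f x).2 = DirectSum.of (fun i => ZMod (p i ^ e i)) i 1 := by
        show (f (f.symm _)).2 = _
        rw [AddEquiv.apply_symm_apply]
      rw [h1, DirectSum.of_eq_same, map_one]
    have h2 : (p i ^ e i : ℕ) • ψ' x = 0 := by rw [← map_nsmul, hx, map_zero]
    have h3 : χ x = 0 := by
      rw [← hψ']
      obtain ⟨k, hk⟩ := ZMod.natCast_zmod_surjective (ψ' x)
      rw [← hk] at h2 ⊢
      rw [map_natCast, ZMod.natCast_eq_zero_iff]
      rw [nsmul_eq_mul, ← Nat.cast_mul, ZMod.natCast_eq_zero_iff, pow_succ] at h2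
      exact Nat.dvd_of_mul_dvd_mul_left (pow_pos hpi.pos _) h2
    rw [hχ] at h3
    exact one_ne_zero h3
  have hsub : ∀ t : (DirectSum σ fun i => ZMod (p i ^ e i)), t = 0 := by
    intro t
    ext i
    have : Subsingleton (ZMod (p i ^ e i)) := by
      rw [he i, pow_zero]
      infer_instance
    exact Subsingleton.elim _ _
  refine ⟨n, (AddMonoidHom.toMultiplicativeRight ((AddMonoidHom.fst _ _).comp
    f.toAddMonoidHom)).comp Abelianization.of, ?_, ?_⟩
  · intro v
    obtain ⟨a, ha⟩ := QuotientGroup.mk_surjective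
      (Additive.toMul (f.symm (Multiplicative.toAdd v, 0)))
    refine ⟨a, ?_⟩
    show Multiplicative.ofAdd (f (Additive.ofMul (Abelianization.of a))).1 = v
    have h1 : Abelianization.of a = Additive.toMul (f.symm (Multiplicative.toAdd v, 0)) := ha
    rw [h1, ofMul_toMul, AddEquiv.apply_symm_apply]
    rfl
  · intro C _ h
    refine ⟨AddMonoidHom.toMultiplicativeLeft (((MonoidHom.toAdditive
      (Abelianization.lift h)).comp f.symm.toAddMonoidHom).comp (AddMonoidHom.inl _ _)), ?_⟩
    ext a
    show h a = Abelianization.lift h (Additive.toMul (f.symm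
      ((f (Additive.ofMul (Abelianization.of a))).1, 0)))
    have h1 : ((f (Additive.ofMul (Abelianization.of a))).1, 0) =
        f (Additive.ofMul (Abelianization.of a)) := Prod.ext rfl (hsub _).symm
    rw [h1, AddEquiv.symm_apply_apply, toMul_ofMul, Abelianization.lift_apply_of]

end Pool.Agent.Lib.MP_305fdd_al
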