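import Pool.Agent.Lib.MP_305fdd_al.Free

/-!
# MP_305fdd_al: a factor of rank one without attached finite factors is infinite cyclic
-/

set_option autoImplicit false

namespace Pool.Agent.Lib.MP_305fdd_al

open Monoid Pool.Agent.MP_305fdd_al

theorem card_hom_of_abRank {A : Type} [Group A] {n : ℕ} (hA : AbRank A n) (C : Type)
    [CommGroup C] : Nat.card (A →* C) = Nat.card C ^ n := by
  obtain ⟨p, hp, hfac⟩ := hA
  have e1 : (Multiplicative (Fin n →₀ ℤ) →* C) ≃ (A →* C) :=
    Equiv.ofBijective (fun g => g.comp p)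
      ⟨fun a b h => (MonoidHom.cancel_right hp).mp h, fun f => by
        obtain ⟨g, hg⟩ := hfac C f
        exact ⟨g, hg.symm⟩⟩
  have e2 : (Multiplicative (Fin n →₀ ℤ) →* C) ≃ (Fin n → C) :=
    MonoidHom.toAdditiveRight.trans <| (Finsupp.liftAddHom (α := Fin n) (M := ℤ)
      (N := Additive C)).symm.toEquiv.trans <| Equiv.piCongrRight fun _ =>
        (zmultiplesHom (Additive C)).symm.trans Additive.toMul
  rw [← Nat.card_congr e1, Nat.card_congr e2, Nat.card_fun, Nat.card_fin]

theorem rk_of_abRank {A : Type} [Group A] [Group.FG A] {n : ℕ} (hA : AbRank A n) (q : ℕ)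
    [hq : Fact q.Prime] : rk q A = n := by
  have h1 := card_hom_of_abRank hA (Multiplicative (ZMod q))
  rw [card_hom_zmod] at h1
  have h2 : Nat.card (Multiplicative (ZMod q)) = q := Nat.card_zmod q
  rw [h2] at h1
  exact Nat.pow_right_injective hq.out.two_le h1

/-! ### Cyclic `p`-groups -/

/-- a maximal subgroup of a finite `p`-group is the kernel of a homomorphism to `ℤ/p` -/
theorem exists_hom_of_coatom {p : ℕ} [hp : Fact p.Prime] {P : Type} [Group P] [Finite P]
    (hP : IsPGroup p P) (M : Subgroup P) (hM : IsCoatom M) :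
    ∃ χ : P →* Multiplicative (ZMod p), χ.ker = M := by
  have hnil : Group.IsNilpotent P := hP.isNilpotent
  have : M.Normal := Subgroup.NormalizerCondition.normal_of_coatom M Group.normalizerCondition_of_isNilpotent hM
  have hQ : IsPGroup p (P ⧸ M) := hP.to_quotient M
  have hnt : Nontrivial (P ⧸ M) := by
    rw [QuotientGroup.nontrivial_iff]
    exact hM.1
  have hd : p ∣ Nat.card (P ⧸ M) := by
    rcases hQ.card_eq_or_dvd with h | h
    · exact absurd h (Finite.one_lt_card).ne'
    · exact h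
  obtain ⟨x, hx⟩ := exists_prime_orderOf_dvd_card' p hd
  have htop : Subgroup.zpowers x = ⊤ := by
    have h1 : M ≤ (Subgroup.zpowers x).comap (QuotientGroup.mk' M) := by
      intro y hy
      rw [Subgroup.mem_comap]
      have : QuotientGroup.mk' M y = 1 := (QuotientGroup.eq_one_iff y).mpr hy
      rw [this]
      exact one_mem _
    rcases hM.le_iff.mp h1 with h2 | h2
    · rw [eq_top_iff]
      intro z _
      obtain ⟨y, rfl⟩ := QuotientGroup.mk_surjective z
      have : y ∈ (Subgroup.zpowers x).comap (QuotientGroup.mk' M) := by rw [h2]; trivial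
      exact this
    · exfalso
      obtain ⟨y, rfl⟩ := QuotientGroup.mk_surjective x
      have h3 : y ∈ M := by
        rw [← h2]
        exact Subgroup.mem_zpowers _
      have h4 : (QuotientGroup.mk y : P ⧸ M) = 1 := (QuotientGroup.eq_one_iff y).mpr h3
      rw [h4, orderOf_one] at hx
      exact hp.out.one_lt.ne hx
  have hcard : Nat.card (P ⧸ M) = p := by
    rw [← hx, ← Nat.card_zpowers, htop, Subgroup.card_top]
  have e : (P ⧸ M) ≃* Multiplicative (ZMod p) :=
    mulEquivOfPrimeCardEq (p := p) hcard (Nat.card_zmod p)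
  refine ⟨e.toMonoidHom.comp (QuotientGroup.mk' M), ?_⟩
  ext y
  rw [MonoidHom.mem_ker, MonoidHom.comp_apply]
  constructor
  · intro h
    have h1 : QuotientGroup.mk' M y = 1 := e.injective (by rw [map_one]; exact h)
    exact (QuotientGroup.eq_one_iff y).mp h1
  · intro h
    have h1 : QuotientGroup.mk' M y = 1 := (QuotientGroup.eq_one_iff y).mpr h
    rw [h1, map_one]

theorem isCyclic_of_card_hom_le {p : ℕ} [hp : Fact p.Prime] {P : Type} [Group P] [Finite P]
    (hP : IsPGroup p P) (h : Nat.card (P →* Multiplicative (ZMod p)) ≤ p) : IsCyclic P := by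
  by_contra hc
  have hnt : Nontrivial P := by
    by_contra hnt
    rw [not_nontrivial_iff_subsingleton] at hnt
    exact hc inferInstance
  obtain ⟨M, hM, -⟩ := (eq_top_or_exists_le_coatom (⊥ : Subgroup P)).resolve_left bot_ne_top
  obtain ⟨g, hg⟩ : ∃ g, g ∉ M := by
    by_contra hall
    push Not at hall
    exact hM.1 (by rw [eq_top_iff]; exact fun x _ => hall x)
  have hz : Subgroup.zpowers g ≠ ⊤ := fun h => hc ⟨g, fun x => by
    have : x ∈ (⊤ : Subgroup P) := trivial
    rwa [← h] at this⟩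
  obtain ⟨N, hN, hgN⟩ := (eq_top_or_exists_le_coatom (Subgroup.zpowers g)).resolve_left hz
  obtain ⟨χ, hχ⟩ := exists_hom_of_coatom hP M hM
  obtain ⟨η, hη⟩ := exists_hom_of_coatom hP N hN
  have : Finite (P →* Multiplicative (ZMod p)) := by
    have : Group.FG P := inferInstance
    exact finite_hom _ _
  have hord : orderOf χ = p := by
    apply orderOf_eq_prime
    · ext x
      show (χ x) ^ p = 1
      have h1 : p • (Multiplicative.toAdd (χ x)) = 0 := by
        rw [nsmul_eq_mul, CharP.cast_eq_zero, zero_mul]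
      exact h1
    · intro h1
      rw [h1, MonoidHom.ker_one] at hχ
      exact hM.1 hχ.symm
  have htop : Subgroup.zpowers χ = ⊤ := by
    apply Subgroup.eq_top_of_card_eq
    apply le_antisymm (Subgroup.card_le_card_group _)
    rw [Nat.card_zpowers, hord]
    exact h
  have hη' : η ∈ Subgroup.zpowers χ := by rw [htop]; trivial
  obtain ⟨k, rfl⟩ := Subgroup.mem_zpowers_iff.mp hη'
  have hle : M ≤ N := by
    rw [← hχ, ← hη]
    intro x hx
    rw [MonoidHom.mem_ker] at hx ⊢
    rw [MonoidHom.zpow_apply, hx, one_zpow]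
  rcases hM.le_iff.mp hle with h1 | h1
  · exact hN.1 h1
  · rw [h1] at hgN
    exact hg (hgN (Subgroup.mem_zpowers g))

/-! ### Induced modules -/

section ind

variable {Q : Type} [Group Q] (P : Subgroup Q) (D : Type) [CommGroup D]

/-- the action of `Q` on functions on `Q / P` -/
noncomputable abbrev indAct : Q →* MulAut ((Q ⧸ P) → D) := mulAutArrow

theorem indAct_apply (g : Q) (F : (Q ⧸ P) → D) (x : Q ⧸ P) :
    indAct P D g F x = F (g⁻¹ • x) := rfl

/-- the cocycle of the transversal -/
noncomputable def tau (g : Q) (x : Q ⧸ P) : P :=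
  ⟨(Quotient.out x)⁻¹ * g * Quotient.out (g⁻¹ • x), by
    have h1 : QuotientGroup.mk (s := P) (g * Quotient.out (g⁻¹ • x)) = x := by
      have h2 : (QuotientGroup.mk (s := P) (Quotient.out (g⁻¹ • x))) = g⁻¹ • x :=
        QuotientGroup.out_eq' _
      rw [← smul_eq_mul, ← MulAction.Quotient.smul_mk, h2, smul_inv_smul]
    have h3 : QuotientGroup.mk (s := P) (Quotient.out x) =
        QuotientGroup.mk (s := P) (g * Quotient.out (g⁻¹ • x)) := by
      rw [h1]
      exact QuotientGroup.out_eq' _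
    rw [QuotientGroup.eq] at h3
    rwa [mul_assoc]⟩

theorem tau_mul (g h : Q) (x : Q ⧸ P) : tau P (g * h) x = tau P g x * tau P h (g⁻¹ • x) := by
  apply Subtype.ext
  show (Quotient.out x)⁻¹ * (g * h) * Quotient.out ((g * h)⁻¹ • x) =
    ((Quotient.out x)⁻¹ * g * Quotient.out (g⁻¹ • x)) *
      ((Quotient.out (g⁻¹ • x))⁻¹ * h * Quotient.out (h⁻¹ • g⁻¹ • x))
  rw [mul_inv_rev, mul_smul]
  group

variable {D} {A : Type} [Group A]

/-- the lift given by a function and a homomorphism of `P` -/
noncomputable def indLift (θ : A →* Q) (u : (Q ⧸ P) → D) (χ : P →* D) : Lifts (indAct P D) θ :=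
  ⟨{ toFun := fun a => ⟨fun x => χ (tau P (θ a) x) * (u x * (u ((θ a)⁻¹ • x))⁻¹), θ a⟩
     map_one' := by
      ext x
      · have h1 : tau P 1 x = 1 := by
          have := tau_mul P 1 1 x
          rw [mul_one, inv_one, one_smul] at this
          exact left_eq_mul.mp this
        show χ (tau P (θ 1) x) * (u x * (u ((θ 1)⁻¹ • x))⁻¹) = 1
        rw [map_one, h1, map_one, inv_one, one_smul, mul_inv_cancel, mul_one]
      · show θ 1 = 1
        rw [map_one]
     map_mul' := fun a b => by
      ext x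
      · show χ (tau P (θ (a * b)) x) * (u x * (u ((θ (a * b))⁻¹ • x))⁻¹) =
          (χ (tau P (θ a) x) * (u x * (u ((θ a)⁻¹ • x))⁻¹)) *
          (χ (tau P (θ b) ((θ a)⁻¹ • x)) *
            (u ((θ a)⁻¹ • x) * (u ((θ b)⁻¹ • (θ a)⁻¹ • x))⁻¹))
        rw [map_mul, tau_mul, map_mul, mul_inv_rev, mul_smul]
        generalize u ((θ b)⁻¹ • (θ a)⁻¹ • x) = c
        generalize u ((θ a)⁻¹ • x) = d
        generalize u x = e
        generalize χ (tau P (θ a) x) = f
        generalize χ (tau P (θ b) ((θ a)⁻¹ • x)) = g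
        calc f * g * (e * c⁻¹) = f * (e * c⁻¹) * g := by
              rw [mul_assoc, mul_comm g, ← mul_assoc]
          _ = f * (e * d⁻¹ * (d * c⁻¹)) * g := by group
          _ = f * (e * d⁻¹) * (g * (d * c⁻¹)) := by
              rw [mul_comm g]; group
      · show θ (a * b) = θ a * θ b
        rw [map_mul] }, by
    ext a
    rfl⟩

theorem indLift_injective (θ : A →* Q) (hθ : Function.Surjective θ) :
    Function.Injective (fun z : ((Q ⧸ P) → D) × (P →* D) =>
      ((indLift P θ z.1 z.2, z.1 (QuotientGroup.mk 1)) : Lifts (indAct P D) θ × D)) := by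
  rintro ⟨u, χ⟩ ⟨u', χ'⟩ h
  simp only [Prod.mk.injEq] at h
  obtain ⟨h1, h2⟩ := h
  have key : ∀ (g : Q) (x : Q ⧸ P), χ (tau P g x) * (u x * (u (g⁻¹ • x))⁻¹) =
      χ' (tau P g x) * (u' x * (u' (g⁻¹ • x))⁻¹) := by
    intro g x
    obtain ⟨a, rfl⟩ := hθ g
    have h3 := DFunLike.congr_fun (congrArg Subtype.val h1) a
    exact congrFun (congrArg SemidirectProduct.left h3) x
  let x0 : Q ⧸ P := QuotientGroup.mk 1
  let s0 : Q := Quotient.out x0
  have hs0 : s0 ∈ P := by
    have h3 : QuotientGroup.mk (s := P) s0 = QuotientGroup.mk (s := P) 1 :=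
      QuotientGroup.out_eq' _
    have h4 := QuotientGroup.eq.mp h3.symm
    rwa [inv_one, one_mul] at h4
  have hχ : χ = χ' := by
    ext g
    have hg : (g : Q)⁻¹ • x0 = x0 := by
      show QuotientGroup.mk ((g : Q)⁻¹ * 1) = QuotientGroup.mk (s := P) 1
      rw [QuotientGroup.eq, mul_one, mul_one, inv_inv]
      exact g.2
    have h3 := key g x0
    rw [hg, mul_inv_cancel, mul_inv_cancel, mul_one, mul_one] at h3
    have h4 : tau P (g : Q) x0 = (⟨s0, hs0⟩ : P)⁻¹ * g * ⟨s0, hs0⟩ := by
      apply Subtype.ext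
      show (Quotient.out x0)⁻¹ * (g : Q) * Quotient.out ((g : Q)⁻¹ • x0) = s0⁻¹ * g * s0
      rw [hg]
    have h5 : ∀ η : P →* D, η ((⟨s0, hs0⟩ : P)⁻¹ * g * ⟨s0, hs0⟩) = η g := by
      intro η
      rw [map_mul, map_mul, map_inv, mul_comm, mul_inv_cancel_left]
    rw [h4, h5, h5] at h3
    exact h3
  subst hχ
  congr 1
  funext x
  obtain ⟨g, rfl⟩ := QuotientGroup.mk_surjective x
  have h3 := key g (QuotientGroup.mk g)
  have h4 : g⁻¹ • (QuotientGroup.mk g : Q ⧸ P) = QuotientGroup.mk 1 := by
    show QuotientGroup.mk (g⁻¹ * g) = QuotientGroup.mk (s := P) 1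
    rw [inv_mul_cancel]
  rw [h4, h2] at h3
  exact mul_right_cancel (mul_left_cancel h3)

end ind

/-- Sylow subgroups of finite quotients of `A` are cyclic -/
theorem isZGroup_of_cnt {A : Type} [Group A] [Group.FG A] (hcnt : Cnt A) (hab : AbRank A 1)
    {Q : Type} [Group Q] [Finite Q] (θ : A →* Q) (hθ : Function.Surjective θ) : IsZGroup Q := by
  refine ⟨fun p hp P => ?_⟩
  have : Fact p.Prime := ⟨hp⟩
  apply isCyclic_of_card_hom_le P.2
  let D : Type := Multiplicative (ZMod p)
  have hD : Nat.card D = p := Nat.card_zmod p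
  have : Finite D := (inferInstance : Finite (ZMod p))
  have h1 := Nat.card_le_card_of_injective _ (indLift_injective (P : Subgroup Q) (D := D) θ hθ)
  rw [Nat.card_prod, Nat.card_prod] at h1
  have h2 : Nat.card (Lifts (indAct (P : Subgroup Q) D) θ) =
      Nat.card ((Q ⧸ (P : Subgroup Q)) → D) := by
    have := hcnt _ _ (indAct (P : Subgroup Q) D) θ
    rw [card_hom_of_abRank hab, pow_one] at this
    exact this
  rw [h2, hD] at h1
  exact Nat.le_of_mul_le_mul_left h1 Nat.card_pos

end Pool.Agent.Lib.MP_305fdd_al
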