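import Pool.Agent.Lib.MP_305fdd_al.Free2

/-!
# MP_305fdd_al: a factor of rank one without attached finite factors is infinite cyclic
-/

set_option autoImplicit false

namespace Pool.Agent.Lib.MP_305fdd_al

open Monoid Pool.Agent.MP_305fdd_al

/-- the abelianization of `A` is infinite cyclic -/
def AbZ (A : Type) [Group A] : Prop :=
  ∃ p : A →* Multiplicative ℤ, Function.Surjective p ∧
    ∀ (C : Type) [CommGroup C] (f : A →* C), ∃ g : Multiplicative ℤ →* C, f = g.comp p

theorem abZ_of_abRank {A : Type} [Group A] (h : AbRank A 1) : AbZ A := by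
  obtain ⟨p, hp, hfac⟩ := h
  let e : Multiplicative (Fin 1 →₀ ℤ) ≃* Multiplicative ℤ :=
    AddEquiv.toMultiplicative (Finsupp.uniqueAddEquiv 0)
  refine ⟨e.toMonoidHom.comp p, e.surjective.comp hp, fun C _ f => ?_⟩
  obtain ⟨g, rfl⟩ := hfac C f
  refine ⟨g.comp e.symm.toMonoidHom, ?_⟩
  ext a
  simp

/-- a nontrivial solvable group has a nontrivial abelian normal subgroup -/
theorem exists_abelian_normal (Q : Type) [Group Q] [Nontrivial Q] [h : Group.IsSolvable Q] :
    ∃ M : Subgroup Q, M.Normal ∧ M ≠ ⊥ ∧ ∀ x ∈ M, ∀ y ∈ M, x * y = y * x := by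
  classical
  have hex := h.solvable
  have h0 : Nat.find hex ≠ 0 := by
    intro h1
    have h2 := Nat.find_spec hex
    rw [h1, derivedSeries_zero] at h2
    exact top_ne_bot h2
  obtain ⟨n, hn⟩ := Nat.exists_eq_succ_of_ne_zero h0
  refine ⟨derivedSeries Q n, derivedSeries_normal Q n, fun h1 => ?_, fun x hx y hy => ?_⟩
  · exact Nat.find_min hex (by omega) h1
  · have h2 := Nat.find_spec hex
    rw [hn, Nat.succ_eq_add_one, derivedSeries_succ] at h2
    have h3 := Subgroup.commutator_mem_commutator hx hy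
    rw [h2, Subgroup.mem_bot, commutatorElement_eq_one_iff_mul_comm] at h3
    exact h3

/-- If `θ` is cyclic modulo an abelian normal subgroup, then it is cyclic. -/
theorem cyclic_of_cyclic_quotient {A : Type} [Group A] [Group.FG A] (hcnt : Cnt A)
    (hab : AbRank A 1) {Q : Type} [Group Q] [Finite Q] (θ : A →* Q)
    (hθ : Function.Surjective θ) (M : Subgroup Q) [M.Normal]
    (hM : ∀ x ∈ M, ∀ y ∈ M, x * y = y * x) (hQM : IsCyclic (Q ⧸ M)) : IsCyclic Q := by
  obtain ⟨p, hp, hfac⟩ := abZ_of_abRank hab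
  let _ : CommGroup M := { (inferInstance : Group M) with
    mul_comm := fun x y => Subtype.ext (hM x x.2 y y.2) }
  let φ : Q →* MulAut M := MulAut.conjNormal
  have hcard : Nat.card (Lifts φ θ) = Nat.card M := by
    have := hcnt M Q φ θ
    rw [card_hom_of_abRank hab, pow_one] at this
    exact this
  let _ : CommGroup (Q ⧸ M) := IsCyclic.commGroup
  obtain ⟨g, hg⟩ := hfac (Q ⧸ M) (QuotientGroup.mk' M |>.comp θ)
  obtain ⟨t, ht⟩ := hp (Multiplicative.ofAdd 1)
  -- the homomorphisms through `ℤ`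
  let f : Q → (A →* Q) := fun x => (zpowersHom Q x).comp p
  have hf : ∀ x a, f x a = x ^ Multiplicative.toAdd (p a) := fun x a => rfl
  have hfM : ∀ (v : M) (a : A), f (v * θ t) a * (θ a)⁻¹ ∈ M := by
    intro v a
    have h1 : (QuotientGroup.mk (θ a) : Q ⧸ M) = g (p a) := DFunLike.congr_fun hg a
    have h2 : (QuotientGroup.mk (θ t) : Q ⧸ M) = g (Multiplicative.ofAdd 1) := by
      rw [← ht]
      exact DFunLike.congr_fun hg t
    have h3 : (QuotientGroup.mk (f (v * θ t) a) : Q ⧸ M) = g (p a) := by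
      rw [hf, QuotientGroup.mk_zpow, QuotientGroup.mk_mul, h2,
        (QuotientGroup.eq_one_iff (v : Q)).mpr v.2, one_mul, ← map_zpow, ← ofAdd_zsmul,
        smul_eq_mul, mul_one, ofAdd_toAdd]
    rw [← QuotientGroup.eq_one_iff, QuotientGroup.mk_mul, QuotientGroup.mk_inv, h3, h1,
      mul_inv_cancel]
  let ψ : M → Lifts φ θ := fun v =>
    ⟨{ toFun := fun a => ⟨⟨f (v * θ t) a * (θ a)⁻¹, hfM v a⟩, θ a⟩
       map_one' := by
        ext
        · simp
        · simp
       map_mul' := fun a b => by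
        ext
        · show f (v * θ t) (a * b) * (θ (a * b))⁻¹ =
            (f (v * θ t) a * (θ a)⁻¹) * (θ a * (f (v * θ t) b * (θ b)⁻¹) * (θ a)⁻¹)
          rw [map_mul, map_mul]
          group
        · show θ (a * b) = θ a * θ b
          rw [map_mul] }, by
      ext a
      rfl⟩
  have hψ : Function.Injective ψ := by
    intro v w h
    have h1 := DFunLike.congr_fun (congrArg Subtype.val h) t
    have h2 : f (v * θ t) t * (θ t)⁻¹ = f (w * θ t) t * (θ t)⁻¹ :=
      congrArg Subtype.val (congrArg SemidirectProduct.left h1)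
    rw [hf, hf, ht] at h2
    simp only [toAdd_ofAdd, zpow_one] at h2
    exact Subtype.ext (mul_right_cancel (mul_right_cancel h2))
  have hbij : Function.Bijective ψ :=
    (Nat.bijective_iff_injective_and_card ψ).mpr ⟨hψ, hcard.symm⟩
  obtain ⟨v, hv⟩ := hbij.2 (triv φ θ)
  refine ⟨v * θ t, fun y => ?_⟩
  obtain ⟨a, rfl⟩ := hθ y
  have h1 := DFunLike.congr_fun (congrArg Subtype.val hv) a
  have h2 : f (v * θ t) a * (θ a)⁻¹ = 1 :=
    congrArg Subtype.val (congrArg SemidirectProduct.left h1)
  rw [mul_inv_eq_one] at h2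
  rw [← h2, hf]
  exact Subgroup.mem_zpowers_iff.mpr ⟨_, rfl⟩

theorem isCyclic_quot {A : Type} [Group A] [Group.FG A] (hcnt : Cnt A) (hab : AbRank A 1) :
    ∀ (n : ℕ) {Q : Type} [Group Q] [Finite Q] (θ : A →* Q), Function.Surjective θ →
      Nat.card Q ≤ n → IsCyclic Q := by
  intro n
  induction n with
  | zero =>
    intro Q _ _ θ hθ hn
    have := Nat.card_pos (α := Q)
    omega
  | succ n ih =>
    intro Q _ _ θ hθ hn
    rcases subsingleton_or_nontrivial Q with h | h
    · infer_instance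
    have := isZGroup_of_cnt hcnt hab θ hθ
    obtain ⟨M, hM, hbot, hcomm⟩ := exists_abelian_normal Q
    apply cyclic_of_cyclic_quotient hcnt hab θ hθ M hcomm
    apply ih ((QuotientGroup.mk' M).comp θ) ((QuotientGroup.mk'_surjective M).comp hθ)
    have h1 := Subgroup.card_eq_card_quotient_mul_card_subgroup M
    have h2 : 1 < Nat.card M := by
      rw [Finite.one_lt_card_iff_nontrivial]
      exact (Subgroup.nontrivial_iff_ne_bot M).mpr hbot
    have h3 : 0 < Nat.card (Q ⧸ M) := Nat.card_pos
    by_contra hc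
    push Not at hc
    nlinarith

/-- **rank one**: `A` is infinite cyclic -/
theorem equiv_int {A : Type} [Group A] [Group.FG A] (hrf : Group.ResiduallyFinite A)
    (hcnt : Cnt A) (hab : AbRank A 1) : Nonempty (A ≃* Multiplicative (ZMod 0)) := by
  have hcomm : ∀ x y : A, x * y = y * x := by
    intro x y
    rw [← mul_inv_eq_one]
    refine Group.eq_one_iff_forall_finiteIndexNormalSubroup _ fun N => ?_
    have : Finite (A ⧸ N.toSubgroup) := Subgroup.finite_quotient_of_finiteIndex
    have h1 := isCyclic_quot hcnt hab _ (QuotientGroup.mk' N.toSubgroup)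
      (QuotientGroup.mk'_surjective _) le_rfl
    have h2 := (IsCyclic.isMulCommutative (α := A ⧸ N.toSubgroup)).is_comm.comm
      (QuotientGroup.mk x) (QuotientGroup.mk y)
    apply (QuotientGroup.eq_one_iff (N := N.toSubgroup) _).mp
    rw [QuotientGroup.mk_mul, QuotientGroup.mk_inv,
      QuotientGroup.mk_mul, QuotientGroup.mk_mul, mul_inv_eq_one]
    exact h2
  let _ : CommGroup A := { (inferInstance : Group A) with mul_comm := hcomm }
  obtain ⟨p, hp, hfac⟩ := abZ_of_abRank hab
  obtain ⟨g, hg⟩ := hfac A (MonoidHom.id A)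
  refine ⟨MulEquiv.ofBijective p ⟨fun x y h => ?_, hp⟩⟩
  have h1 : x = g (p x) := DFunLike.congr_fun hg x
  have h2 : y = g (p y) := DFunLike.congr_fun hg y
  exact h1.trans ((congrArg g h).trans h2.symm)

end Pool.Agent.Lib.MP_305fdd_al
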