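import Pool.Agent.Lib.MP_305fdd_al.Splits

/-!
# MP_305fdd_al: the homomorphisms of a free factor which are trivial on the attached finite factors
-/

set_option autoImplicit false

namespace Pool.Agent.Lib.MP_305fdd_al

open Monoid Pool.Agent.MP_305fdd_al

theorem wt_inj {c d : ℕ} (hc : 0 < c) (hd : 0 < d) (h : wt c = wt d) : c = d := by
  rcases lt_trichotomy c d with h1 | h1 | h1
  · exact absurd h (wt_strictMono hc h1).ne
  · exact h1
  · exact absurd h (wt_strictMono hd h1).ne'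

section prod

variable {G Q R : Type} [Group G] [Group Q] [Group R]

theorem prod_comp_eq (ψ : G →* Q × R) :
    ((MonoidHom.fst Q R).comp ψ).prod ((MonoidHom.snd Q R).comp ψ) = ψ := by
  ext x <;> rfl

theorem im_of_snd_one (ψ : G →* Q × R) (h : (MonoidHom.snd Q R).comp ψ = 1) :
    im ψ = im ((MonoidHom.fst Q R).comp ψ) := by
  have h1 : ψ = (MonoidHom.inl Q R).comp ((MonoidHom.fst Q R).comp ψ) := by
    ext x
    · rfl
    · exact DFunLike.congr_fun h x
  conv_lhs => rw [h1]
  apply im_comp_of_injective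
  intro a b hab
  exact congrArg Prod.fst hab

theorem im_of_snd_injective [Finite G] (ψ : G →* Q × R)
    (h : Function.Injective ((MonoidHom.snd Q R).comp ψ)) : im ψ = Nat.card G := by
  have h1 : Function.Injective ψ := fun a b hab => h (by
    show (MonoidHom.snd Q R) (ψ a) = (MonoidHom.snd Q R) (ψ b)
    rw [hab])
  exact (Nat.card_congr (MonoidHom.ofInjective h1).toEquiv).symm

end prod

section main

variable {ι κ : Type} [Fintype ι] [Fintype κ] [DecidableEq κ] {m : ι → ℕ} {A : κ → Type}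
  [∀ j, Group (A j)] [∀ j, Group.FG (A j)] (Φ : NatBij (CoprodI A) (FP m)) {Q R : Type} [Group Q]
  [Group R] [Finite Q] [Finite R] (q : ℕ) [hq : Fact q.Prime]

omit [Fintype ι] [Fintype κ] [∀ j, Group.FG (A j)] in
theorem Ti_one (j : κ) (i : ι) : Ti Φ j i (1 : A j →* Q) = 1 := by
  unfold Ti
  rw [TT_one, MonoidHom.one_comp]

omit [Fintype ι] [Fintype κ] [∀ j, Group.FG (A j)] in
theorem Ti_not_att {j : κ} {i : ι} (h : ¬ Att Φ j i) (θ : A j →* Q) : Ti Φ j i θ = 1 := by
  by_contra hc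
  exact h ⟨_, _, _, _, hc⟩

include q in
/-- for commutative targets only the attached factor contributes -/
theorem Ti_comm {C : Type} [CommGroup C] [Finite C] (hqm : ∀ i, m i ≠ 0 → ¬ q ∣ m i) {i : ι}
    (hi : m i ≠ 0) {j : κ} (hatt : Att Φ j i) (α : CoprodI A →* C) :
    Ti Φ j i (α.comp CoprodI.of) = (Φ.toFun C α).comp (oi m i) := by
  have h1 : Φ.toFun C α = ∏ j, TT Φ j (α.comp (CoprodI.of (i := j))) := by
    unfold TT
    rw [← natBij_prod, prod_ext]
  have h2 : (Φ.toFun C α).comp (oi m i) = ∏ j, Ti Φ j i (α.comp (CoprodI.of (i := j))) := by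
    rw [h1]
    apply MonoidHom.ext
    intro x
    rw [MonoidHom.comp_apply, MonoidHom.finsetProd_apply, MonoidHom.finsetProd_apply]
    rfl
  rw [h2, Finset.prod_eq_single j]
  · intro k _ hk
    by_contra hne
    exact hk (Att_unique Φ q hqm hi ⟨_, _, _, _, hne⟩ hatt)
  · intro h
    exact absurd (Finset.mem_univ j) h

include q in
/-- **localisation**: the image of the factor `i` of `Γ` under `Φ(Θ)` has the same order as under
the extension of the restriction of `Θ` to the factor of `Λ` to which `i` is attached -/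
theorem im_natBij (hqm : ∀ i, m i ≠ 0 → ¬ q ∣ m i) (hm : ∀ i, m i ≠ 1) {i : ι} (hi : m i ≠ 0)
    {j : κ} (hatt : Att Φ j i) (Θ : CoprodI A →* Q) :
    im ((Φ.toFun Q Θ).comp (oi m i)) = im (Ti Φ j i (Θ.comp CoprodI.of)) := by
  classical
  let C : Type := ∀ k : {k // k ≠ i ∧ m k ≠ 0}, Multiplicative (ZMod (m k))
  have hfin : ∀ k, m k ≠ 0 → Finite (Multiplicative (ZMod (m k))) := fun k hk => by
    have : NeZero (m k) := ⟨hk⟩
    exact (inferInstance : Finite (ZMod (m k)))
  have : ∀ k : {k // k ≠ i ∧ m k ≠ 0}, Finite (Multiplicative (ZMod (m k))) :=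
    fun k => hfin k k.2.2
  let α : FP m →* C := MonoidHom.pi fun k =>
    ext (A := fun i => Multiplicative (ZMod (m i))) k.1 (MonoidHom.id _)
  have hαi : α.comp (oi m i) = 1 := by
    apply MonoidHom.ext
    intro x
    funext l
    exact DFunLike.congr_fun (ext_ne (A := fun i => Multiplicative (ZMod (m i)))
      (Ne.symm l.2.1) (MonoidHom.id _)) x
  have hαk : ∀ k, k ≠ i → m k ≠ 0 → Function.Injective (α.comp (oi m k)) := by
    intro k hk hk0 a b hab
    have h1 := congrFun hab (⟨k, hk, hk0⟩ : {k // k ≠ i ∧ m k ≠ 0})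
    have h2 : ∀ x, (α.comp (oi m k)) x (⟨k, hk, hk0⟩ : {k // k ≠ i ∧ m k ≠ 0}) = x := fun x =>
      DFunLike.congr_fun (ext_same (A := fun i => Multiplicative (ZMod (m i))) k
        (MonoidHom.id _)) x
    rw [h2, h2] at h1
    exact h1
  let α' : CoprodI A →* C := Φ.symm.toFun C α
  have hα' : Φ.toFun C α' = α := Φ.right_inv _ _
  let Θ' : CoprodI A →* Q × C := Θ.prod α'
  have hfst : (MonoidHom.fst Q C).comp (Φ.toFun _ Θ') = Φ.toFun Q Θ := by rw [← Φ.nat]; rfl
  have hsnd : (MonoidHom.snd Q C).comp (Φ.toFun _ Θ') = α := by rw [← Φ.nat, ← hα']; rfl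
  have hfst' : ∀ j k, (MonoidHom.fst Q C).comp (Ti Φ j k (Θ'.comp CoprodI.of)) =
      Ti Φ j k (Θ.comp CoprodI.of) := fun j k => by rw [← Ti_comp]; rfl
  have hsnd' : ∀ j k, (MonoidHom.snd Q C).comp (Ti Φ j k (Θ'.comp CoprodI.of)) =
      Ti Φ j k (α'.comp CoprodI.of) := fun j k => by rw [← Ti_comp]; rfl
  let T : ι → ℝ := fun k => if m k = 0 then 0 else wt (im ((Φ.toFun _ Θ').comp (oi m k)))
  let U : ι → ℝ := fun k => ∑ j, if m k = 0 then 0 else
    wt (im (Ti Φ j k (Θ'.comp (CoprodI.of (i := j)))))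
  have hTU : ∑ k, T k = ∑ k, U k := by
    have h1 := SS_natBij Φ q hqm Θ'
    show SS (Φ.toFun _ Θ') = _
    rw [h1]
    show ∑ j, SS _ = ∑ k, ∑ j, _
    rw [Finset.sum_comm]
    rfl
  have hU : ∀ (k : ι) (hk : m k ≠ 0) (j : κ) (_ : Att Φ j k),
      U k = wt (im (Ti Φ j k (Θ'.comp (CoprodI.of (i := j))))) := by
    intro k hk j hj
    show ∑ j, (if m k = 0 then 0 else wt (im (Ti Φ j k (Θ'.comp (CoprodI.of (i := j)))))) = _
    rw [Finset.sum_eq_single j]
    · rw [if_neg hk]
    · intro j' _ hj'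
      rw [if_neg hk]
      have : Ti Φ j' k (Θ'.comp (CoprodI.of (i := j'))) = 1 := by
        by_contra hc
        exact hj' (Att_unique Φ q hqm hk ⟨_, _, _, _, hc⟩ hj)
      rw [this, im_one, wt_one]
    · intro h
      exact absurd (Finset.mem_univ j) h
  have hne : ∀ k, k ≠ i → T k = U k := by
    intro k hk
    by_cases hk0 : m k = 0
    · have h1 : T k = 0 := if_pos hk0
      have h2 : U k = 0 := Finset.sum_eq_zero fun j _ => if_pos hk0
      rw [h1, h2]
    · obtain ⟨j', hj', -⟩ := exists_att Φ q hqm hk0 (hm k)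
      rw [hU k hk0 j' hj']
      have hf := hfin k hk0
      have h1 : T k = wt (im ((Φ.toFun _ Θ').comp (oi m k))) := if_neg hk0
      rw [h1, im_of_snd_injective, im_of_snd_injective]
      · rw [hsnd', Ti_comm Φ q hqm hk0 hj', hα']
        exact hαk k hk hk0
      · rw [← MonoidHom.comp_assoc, hsnd]
        exact hαk k hk hk0
  have hi' : T i = U i := by
    rw [← Finset.add_sum_erase _ _ (Finset.mem_univ i),
      ← Finset.add_sum_erase _ U (Finset.mem_univ i),
      Finset.sum_congr rfl fun k hk => hne k (Finset.ne_of_mem_erase hk)] at hTU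
    exact add_right_cancel hTU
  rw [hU i hi j hatt] at hi'
  have h1 : T i = wt (im ((Φ.toFun _ Θ').comp (oi m i))) := if_neg hi
  rw [h1] at hi'
  have h2 := wt_inj (im_pos _) (im_pos _) hi'
  rw [im_of_snd_one _ (by rw [← MonoidHom.comp_assoc, hsnd, hαi]),
    im_of_snd_one _ (by rw [hsnd', Ti_comm Φ q hqm hi hatt, hα', hαi]), hfst',
    ← MonoidHom.comp_assoc, hfst] at h2
  exact h2

theorem im_eq_one_iff {A Q : Type} [Group A] [Group Q] [Finite Q] (θ : A →* Q) :
    im θ = 1 ↔ θ = 1 := by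
  constructor
  · intro h
    by_contra hc
    have := two_le_im hc
    omega
  · rintro rfl
    exact im_one

include q in
theorem trivial_iff (hqm : ∀ i, m i ≠ 0 → ¬ q ∣ m i) (hm : ∀ i, m i ≠ 1) {i : ι} (hi : m i ≠ 0)
    (Θ : CoprodI A →* Q) : (Φ.toFun Q Θ).comp (oi m i) = 1 ↔
      ∀ j, Ti Φ j i (Θ.comp (CoprodI.of (i := j))) = 1 := by
  obtain ⟨j, hj, -⟩ := exists_att Φ q hqm hi (hm i)
  rw [← im_eq_one_iff, im_natBij Φ q hqm hm hi hj, im_eq_one_iff]
  constructor
  · intro h j'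
    by_cases hjj : j' = j
    · subst hjj
      exact h
    · exact Ti_not_att Φ (fun h' => hjj (Att_unique Φ q hqm hi h' hj)) _
  · exact fun h => h j

end main

end Pool.Agent.Lib.MP_305fdd_al
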