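import Pool.Agent.Lib.MP_305fdd_al.Free3

/-!
# MP_305fdd_al: numbers of homomorphisms determine the finite quotients; solvable quotients
-/

set_option autoImplicit false

namespace Pool.Agent.Lib.MP_305fdd_al

open Monoid Pool.Agent.MP_305fdd_al

/-- a homomorphism is a surjection to a subgroup -/
noncomputable def homEquivSigma (G Q : Type) [Group G] [Group Q] :
    (G →* Q) ≃ Σ K : Subgroup Q, {f : G →* K // Function.Surjective f} where
  toFun f := ⟨f.range, f.rangeRestrict, f.rangeRestrict_surjective⟩
  invFun z := z.1.subtype.comp z.2.1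
  left_inv f := by ext x; rfl
  right_inv z := by
    obtain ⟨K, f, hf⟩ := z
    have h1 : (K.subtype.comp f).range = K := by
      rw [MonoidHom.range_comp, MonoidHom.range_eq_top.mpr hf, ← MonoidHom.range_eq_map,
        Subgroup.range_subtype]
    have : ∀ (L : Subgroup Q) (_ : L = K) (g : {f : G →* L // Function.Surjective f}),
        (∀ x, (g.1 x : Q) = f x) → (⟨L, g⟩ : Σ K : Subgroup Q,
          {f : G →* K // Function.Surjective f}) = ⟨K, f, hf⟩ := by
      rintro L rfl g hg
      have : g = ⟨f, hf⟩ := by
        apply Subtype.ext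
        ext x
        exact hg x
      rw [this]
    exact this _ h1 _ fun x => rfl

theorem card_surj_eq {G H : Type} [Group G] [Group H] [Group.FG G] [Group.FG H]
    (P : ∀ (Q : Type) [Group Q], Prop)
    (hP : ∀ (Q : Type) [Group Q], P Q → ∀ K : Subgroup Q, P K)
    (h : ∀ (Q : Type) [Group Q] [Finite Q], P Q → hc G Q = hc H Q) :
    ∀ (n : ℕ) (Q : Type) [Group Q] [Finite Q], P Q → Nat.card Q ≤ n →
      Nat.card {f : G →* Q // Function.Surjective f} =
        Nat.card {f : H →* Q // Function.Surjective f} := by
  classical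
  intro n
  induction n with
  | zero =>
    intro Q _ _ _ hn
    have := Nat.card_pos (α := Q)
    omega
  | succ n ih =>
    intro Q _ _ hPQ hn
    have hfG : ∀ K : Subgroup Q, Finite (G →* K) := fun K => finite_hom _ _
    have hfH : ∀ K : Subgroup Q, Finite (H →* K) := fun K => finite_hom _ _
    have := Fintype.ofFinite (Subgroup Q)
    have h1 := h Q hPQ
    unfold hc at h1
    rw [Nat.card_congr (homEquivSigma G Q), Nat.card_congr (homEquivSigma H Q), Nat.card_sigma,
      Nat.card_sigma, ← Finset.add_sum_erase _ _ (Finset.mem_univ (⊤ : Subgroup Q)),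
      ← Finset.add_sum_erase _ _ (Finset.mem_univ (⊤ : Subgroup Q))] at h1
    have h2 : ∑ K ∈ Finset.univ.erase (⊤ : Subgroup Q),
        Nat.card {f : G →* K // Function.Surjective f} =
        ∑ K ∈ Finset.univ.erase (⊤ : Subgroup Q),
          Nat.card {f : H →* K // Function.Surjective f} := by
      refine Finset.sum_congr rfl fun K hK => ih K (hP Q hPQ K) ?_
      have hK' := Finset.ne_of_mem_erase hK
      have : Nat.card K ≠ Nat.card Q := fun hc => hK' (Subgroup.eq_top_of_card_eq K hc)
      have h3 := Subgroup.card_le_card_group K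
      omega
    rw [h2] at h1
    have h3 := Nat.add_right_cancel h1
    have e : ∀ (L : Type) [Group L], {f : L →* (⊤ : Subgroup Q) // Function.Surjective f} ≃
        {f : L →* Q // Function.Surjective f} := fun L _ =>
      { toFun := fun f => ⟨((Subgroup.topEquiv (G := Q)).toMonoidHom).comp f.1,
          (Subgroup.topEquiv (G := Q)).surjective.comp f.2⟩
        invFun := fun f => ⟨((Subgroup.topEquiv (G := Q)).symm.toMonoidHom).comp f.1,
          (Subgroup.topEquiv (G := Q)).symm.surjective.comp f.2⟩
        left_inv := fun f => by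
          apply Subtype.ext
          ext x
          rfl
        right_inv := fun f => by
          apply Subtype.ext
          ext x
          rfl }
    rw [← Nat.card_congr (e G), ← Nat.card_congr (e H)]
    exact h3

theorem exists_surj_iff {G H Q : Type} [Group G] [Group H] [Group Q] [Group.FG G] [Group.FG H]
    [Finite Q] (h : Nat.card {f : G →* Q // Function.Surjective f} =
        Nat.card {f : H →* Q // Function.Surjective f}) :
    (∃ f : G →* Q, Function.Surjective f) ↔ (∃ f : H →* Q, Function.Surjective f) := by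
  have : Finite (G →* Q) := finite_hom _ _
  have : Finite (H →* Q) := finite_hom _ _
  constructor
  · rintro ⟨f, hf⟩
    have : Nonempty {f : G →* Q // Function.Surjective f} := ⟨⟨f, hf⟩⟩
    have h1 : 0 < Nat.card {f : G →* Q // Function.Surjective f} := Nat.card_pos
    rw [h] at h1
    obtain ⟨⟨g, hg⟩⟩ := (Nat.card_pos_iff.mp h1).1
    exact ⟨g, hg⟩
  · rintro ⟨f, hf⟩
    have : Nonempty {f : H →* Q // Function.Surjective f} := ⟨⟨f, hf⟩⟩
    have h1 : 0 < Nat.card {f : H →* Q // Function.Surjective f} := Nat.card_pos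
    rw [← h] at h1
    obtain ⟨⟨g, hg⟩⟩ := (Nat.card_pos_iff.mp h1).1
    exact ⟨g, hg⟩

/-- equal numbers of homomorphisms to all finite groups give the same finite quotients -/
theorem same_of_hc {G H : Type} [Group G] [Group H] [Group.FG G] [Group.FG H]
    (h : ∀ (Q : Type) [Group Q] [Finite Q], hc G Q = hc H Q) : SameFiniteQuotients G H := by
  intro Q _ _
  exact exists_surj_iff (card_surj_eq (fun Q _ => True) (fun _ _ _ _ => trivial)
    (fun Q _ _ _ => h Q) _ Q trivial le_rfl)

/-- `G` and `H` have the same finite solvable quotients -/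
def SameSolvableQuotients (G H : Type) [Group G] [Group H] : Prop :=
  ∀ (Q : Type) [Group Q] [Finite Q], Group.IsSolvable Q →
    ((∃ φ : G →* Q, Function.Surjective φ) ↔ (∃ φ : H →* Q, Function.Surjective φ))

theorem sameSolvable_of_hc {G H : Type} [Group G] [Group H] [Group.FG G] [Group.FG H]
    (h : ∀ (Q : Type) [Group Q] [Finite Q], Group.IsSolvable Q → hc G Q = hc H Q) :
    SameSolvableQuotients G H := by
  intro Q _ _ hQ
  exact exists_surj_iff (card_surj_eq (fun Q _ => Group.IsSolvable Q)
    (fun Q _ hQ K => inferInstance) h _ Q hQ le_rfl)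

/-- the lifts of `mk ∘ θ` to `Q` are the lifts of `θ` to `M ⋊ Q` -/
theorem card_fiber {A : Type} [Group A] (hcnt : Cnt A) {n : ℕ}
    (hab : AbRank A n) {Q : Type} [Group Q] [Finite Q] (θ : A →* Q) (M : Subgroup Q) [M.Normal]
    (hM : ∀ x ∈ M, ∀ y ∈ M, x * y = y * x) :
    Nat.card {f : A →* Q // (QuotientGroup.mk' M).comp f = (QuotientGroup.mk' M).comp θ} =
      Nat.card M ^ n := by
  let _ : CommGroup M := { (inferInstance : Group M) with
    mul_comm := fun x y => Subtype.ext (hM x x.2 y y.2) }
  let φ : Q →* MulAut M := MulAut.conjNormal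
  rw [← card_hom_of_abRank hab M, ← hcnt M Q φ θ]
  unfold NL
  have key : ∀ ψ : Lifts φ θ, ∀ a, (ψ.1 a).right = θ a := fun ψ a => DFunLike.congr_fun ψ.2 a
  have key2 : ∀ f : {f : A →* Q // (QuotientGroup.mk' M).comp f = (QuotientGroup.mk' M).comp θ},
      ∀ a, f.1 a * (θ a)⁻¹ ∈ M := by
    intro f a
    have h1 : (QuotientGroup.mk (f.1 a) : Q ⧸ M) = QuotientGroup.mk (θ a) :=
      DFunLike.congr_fun f.2 a
    rw [← QuotientGroup.eq_one_iff, QuotientGroup.mk_mul, QuotientGroup.mk_inv, h1,
      mul_inv_cancel]
  refine Nat.card_congr (Equiv.symm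
    { toFun := fun ψ => ⟨{ toFun := fun a => ((ψ.1 a).left : Q) * θ a
                           map_one' := by rw [map_one, map_one]; simp
                           map_mul' := fun a b => ?_ }, ?_⟩
      invFun := fun f => ⟨{ toFun := fun a => ⟨⟨f.1 a * (θ a)⁻¹, key2 f a⟩, θ a⟩
                            map_one' := by
                              ext
                              · simp
                              · simp
                            map_mul' := fun a b => ?_ }, ?_⟩
      left_inv := ?_
      right_inv := ?_ })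
  · rw [map_mul, SemidirectProduct.mul_left, key, map_mul]
    show ((ψ.1 a).left : Q) * (θ a * ((ψ.1 b).left : Q) * (θ a)⁻¹) * (θ a * θ b) = _
    group
  · ext a
    show (QuotientGroup.mk (((ψ.1 a).left : Q) * θ a) : Q ⧸ M) = QuotientGroup.mk (θ a)
    rw [QuotientGroup.mk_mul, (QuotientGroup.eq_one_iff _).mpr (ψ.1 a).left.2, one_mul]
  · ext
    · show f.1 (a * b) * (θ (a * b))⁻¹ =
        (f.1 a * (θ a)⁻¹) * (θ a * (f.1 b * (θ b)⁻¹) * (θ a)⁻¹)
      rw [map_mul, map_mul]
      group
    · show θ (a * b) = θ a * θ b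
      rw [map_mul]
  · ext a
    rfl
  · intro ψ
    apply Subtype.ext
    ext a
    · show ((ψ.1 a).left : Q) * θ a * (θ a)⁻¹ = (ψ.1 a).left
      rw [mul_inv_cancel_right]
    · exact (key ψ a).symm
  · intro f
    apply Subtype.ext
    ext a
    show f.1 a * (θ a)⁻¹ * θ a = f.1 a
    rw [inv_mul_cancel_right]

/-- the number of homomorphisms to a solvable group -/
theorem hc_solvable {A : Type} [Group A] [Group.FG A] (hproj : Proj A) (hcnt : Cnt A) {n : ℕ}
    (hab : AbRank A n) : ∀ (k : ℕ) (Q : Type) [Group Q] [Finite Q], Group.IsSolvable Q →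
      Nat.card Q ≤ k → hc A Q = Nat.card Q ^ n := by
  intro k
  induction k with
  | zero =>
    intro Q _ _ _ hk
    have := Nat.card_pos (α := Q)
    omega
  | succ k ih =>
    intro Q _ _ hQ hk
    rcases subsingleton_or_nontrivial Q with h | h
    · have h1 : Nat.card Q = 1 := Nat.card_unique
      rw [h1, one_pow]
      unfold hc
      have : Unique (A →* Q) := ⟨⟨1⟩, fun f => by ext x; exact Subsingleton.elim _ _⟩
      exact Nat.card_unique
    obtain ⟨M, hM, hbot, hcomm⟩ := exists_abelian_normal Q
    have hlt : Nat.card (Q ⧸ M) ≤ k := by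
      have h1 := Subgroup.card_eq_card_quotient_mul_card_subgroup M
      have h2 : 1 < Nat.card M := by
        rw [Finite.one_lt_card_iff_nontrivial]
        exact (Subgroup.nontrivial_iff_ne_bot M).mpr hbot
      have h3 : 0 < Nat.card (Q ⧸ M) := Nat.card_pos
      by_contra hc
      push Not at hc
      nlinarith
    have ih1 := ih (Q ⧸ M) inferInstance hlt
    have : Finite (A →* Q) := finite_hom _ _
    have : Finite (A →* Q ⧸ M) := finite_hom _ _
    have := Fintype.ofFinite (A →* Q ⧸ M)
    unfold hc at ih1 ⊢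
    rw [← Nat.card_congr (Equiv.sigmaFiberEquiv
      (fun f : A →* Q => (QuotientGroup.mk' M).comp f)), Nat.card_sigma]
    rw [Finset.sum_congr rfl (g := fun _ => Nat.card M ^ n)]
    · rw [Finset.sum_const, smul_eq_mul, Finset.card_univ, ← Nat.card_eq_fintype_card, ih1,
        ← mul_pow, ← Subgroup.card_eq_card_quotient_mul_card_subgroup M]
    · intro θ _
      obtain ⟨ψ, rfl⟩ := hproj Q (Q ⧸ M) (QuotientGroup.mk' M)
        (QuotientGroup.mk'_surjective M) θ
      exact card_fiber hcnt hab ψ M hcomm

theorem sameSolvable_free {A : Type} [Group A] [Group.FG A] (hproj : Proj A) (hcnt : Cnt A)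
    {n : ℕ} (hab : AbRank A n) : SameSolvableQuotients A (FreeGroup (Fin n)) := by
  have : Group.FG (FreeGroup (Fin n)) := inferInstance
  apply sameSolvable_of_hc
  intro Q _ _ hQ
  rw [hc_solvable hproj hcnt hab _ Q hQ le_rfl]
  unfold hc
  rw [← Nat.card_congr (FreeGroup.lift (α := Fin n) (β := Q)), Nat.card_fun, Nat.card_fin]

end Pool.Agent.Lib.MP_305fdd_al
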