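import Pool.Agent.Lib.MP_305fdd_al.NatBij

/-!
# MP_305fdd_al: counting the lifts of a homomorphism `A → Q` to a semidirect product `V ⋊ Q`
-/

set_option autoImplicit false

namespace Pool.Agent.Lib.MP_305fdd_al

open Monoid Pool.Agent.MP_305fdd_al

instance finite_semidirect {V Q : Type} [Group V] [Group Q] (φ : Q →* MulAut V) [Finite V]
    [Finite Q] : Finite (V ⋊[φ] Q) := Finite.of_equiv _ SemidirectProduct.equivProd.symm

section NL

variable {V Q : Type} [CommGroup V] [Group Q] (φ : Q →* MulAut V)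

/-- the lifts of `θ` to `V ⋊ Q` -/
abbrev Lifts {A : Type} [Group A] (θ : A →* Q) : Type :=
  {ψ : A →* V ⋊[φ] Q // SemidirectProduct.rightHom.comp ψ = θ}

/-- the number of lifts of `θ` to `V ⋊ Q` -/
noncomputable def NL {A : Type} [Group A] (θ : A →* Q) : ℕ := Nat.card (Lifts φ θ)

theorem NL_natBij [Finite V] [Finite Q] {G H : Type} [Group G] [Group H] (Φ : NatBij G H)
    (θ : G →* Q) : NL φ (Φ.toFun Q θ) = NL φ θ :=
  (Φ.card_lifts (SemidirectProduct.rightHom (φ := φ)) θ).symm

instance finite_lifts [Finite V] [Finite Q] {A : Type} [Group A] [Group.FG A] (θ : A →* Q) :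
    Finite (Lifts φ θ) := by
  have : Finite (A →* V ⋊[φ] Q) := finite_hom _ _
  infer_instance

/-- the split lift -/
def triv {A : Type} [Group A] (θ : A →* Q) : Lifts φ θ :=
  ⟨SemidirectProduct.inr.comp θ, by
    rw [← MonoidHom.comp_assoc, SemidirectProduct.rightHom_comp_inr, MonoidHom.id_comp]⟩

theorem NL_pos [Finite V] [Finite Q] {A : Type} [Group A] [Group.FG A] (θ : A →* Q) :
    0 < NL φ θ := by
  have : Nonempty (Lifts φ θ) := ⟨triv φ θ⟩
  exact Nat.card_pos

theorem NL_coprodI {κ : Type} [Fintype κ] (A : κ → Type) [∀ j, Group (A j)]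
    (Θ : CoprodI A →* Q) : NL φ Θ = ∏ j, NL φ (Θ.comp (CoprodI.of (i := j))) := by
  unfold NL
  rw [← Nat.card_pi]
  refine Nat.card_congr
    { toFun := fun ψ j => ⟨ψ.1.comp (CoprodI.of (i := j)), by
        rw [← MonoidHom.comp_assoc, ψ.2]⟩
      invFun := fun f => ⟨CoprodI.lift fun j => (f j).1, ?_⟩
      left_inv := ?_
      right_inv := ?_ }
  · apply CoprodI.ext_hom
    intro j
    rw [MonoidHom.comp_assoc, CoprodI.lift_comp_of]
    exact (f j).2
  · intro ψ
    apply Subtype.ext
    exact CoprodI.lift_comp_of' ψ.1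
  · intro f
    funext j
    apply Subtype.ext
    exact CoprodI.lift_comp_of (fun j => (f j).1) j

theorem NL_equiv {A B : Type} [Group A] [Group B] (e : A ≃* B) (θ : B →* Q) :
    NL φ (θ.comp e.toMonoidHom) = NL φ θ := by
  unfold NL
  refine Nat.card_congr
    { toFun := fun ψ => ⟨ψ.1.comp e.symm.toMonoidHom, ?_⟩
      invFun := fun ψ => ⟨ψ.1.comp e.toMonoidHom, ?_⟩
      left_inv := ?_
      right_inv := ?_ }
  · rw [← MonoidHom.comp_assoc, ψ.2]
    ext x
    simp
  · rw [← MonoidHom.comp_assoc, ψ.2]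
  · intro ψ
    apply Subtype.ext
    ext1 x
    show ψ.1 (e.symm (e x)) = ψ.1 x
    rw [e.symm_apply_apply]
  · intro ψ
    apply Subtype.ext
    ext1 x
    show ψ.1 (e (e.symm x)) = ψ.1 x
    rw [e.apply_symm_apply]

theorem NL_one {A : Type} [Group A] : NL φ (1 : A →* Q) = Nat.card (A →* V) := by
  unfold NL
  have key : ∀ ψ : Lifts φ (1 : A →* Q), ∀ x, (ψ.1 x).right = 1 := fun ψ x =>
    DFunLike.congr_fun ψ.2 x
  refine Nat.card_congr
    { toFun := fun ψ =>
        { toFun := fun x => (ψ.1 x).left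
          map_one' := by rw [map_one]; rfl
          map_mul' := fun x y => by
            rw [map_mul, SemidirectProduct.mul_left, key, map_one]; rfl }
      invFun := fun g => ⟨SemidirectProduct.inl.comp g, by
        rw [← MonoidHom.comp_assoc, SemidirectProduct.rightHom_comp_inl, MonoidHom.one_comp]⟩
      left_inv := ?_
      right_inv := ?_ }
  · intro ψ
    apply Subtype.ext
    ext1 x
    show SemidirectProduct.inl (ψ.1 x).left = ψ.1 x
    ext
    · rfl
    · exact (key ψ x).symm
  · intro g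
    ext x
    rfl

/-- an infinite cyclic group has `|V|` lifts -/
theorem NL_int (θ : Multiplicative (ZMod 0) →* Q) : NL φ θ = Nat.card V := by
  unfold NL
  let t : Multiplicative (ZMod 0) := Multiplicative.ofAdd (1 : ℤ)
  have key : ∀ {E : Type} [Group E] (f g : Multiplicative (ZMod 0) →* E), f t = g t → f = g := by
    intro E _ f g h
    exact MonoidHom.ext_mint h
  refine Nat.card_congr
    { toFun := fun ψ => (ψ.1 t).left
      invFun := fun v => ⟨zpowersHom _ (⟨v, θ t⟩ : V ⋊[φ] Q), ?_⟩
      left_inv := ?_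
      right_inv := ?_ }
  · apply key
    show ((zpowersHom (V ⋊[φ] Q)) (⟨v, θ t⟩ : V ⋊[φ] Q) (Multiplicative.ofAdd (1 : ℤ))).right = θ t
    rw [zpowersHom_apply]
    simp
  · intro ψ
    apply Subtype.ext
    apply key
    show zpowersHom (V ⋊[φ] Q) _ (Multiplicative.ofAdd (1 : ℤ)) = ψ.1 t
    rw [zpowersHom_apply]
    have h1 : (ψ.1 t).right = θ t := DFunLike.congr_fun ψ.2 t
    simp only [toAdd_ofAdd, zpow_one]
    ext
    · rfl
    · exact h1.symm
  · intro v
    show ((zpowersHom (V ⋊[φ] Q)) (⟨v, θ t⟩ : V ⋊[φ] Q) (Multiplicative.ofAdd (1 : ℤ))).left = v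
    rw [zpowersHom_apply]
    simp

/-- the fixed points of the image of `θ` in `V` -/
def Fix {A : Type} [Group A] (θ : A →* Q) : Subgroup V where
  carrier := {v | ∀ a, φ (θ a) v = v}
  one_mem' := fun a => map_one _
  mul_mem' := fun {x y} hx hy a => by rw [map_mul, hx a, hy a]
  inv_mem' := fun {x} hx a => by rw [map_inv, hx a]

theorem mem_Fix {A : Type} [Group A] {θ : A →* Q} {v : V} :
    v ∈ Fix φ θ ↔ ∀ a, φ (θ a) v = v := Iff.rfl

/-- the conjugates of the split lift -/
def cobd {A : Type} [Group A] (θ : A →* Q) (v : V) : Lifts φ θ :=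
  ⟨(MulAut.conj (SemidirectProduct.inl v : V ⋊[φ] Q)).toMonoidHom.comp
    (SemidirectProduct.inr.comp θ), by
    ext x
    simp [MulAut.conj_apply]⟩

theorem cobd_apply_left {A : Type} [Group A] (θ : A →* Q) (v : V) (x : A) :
    ((cobd φ θ v).1 x).left = v * (φ (θ x) v)⁻¹ := by
  show ((SemidirectProduct.inl v : V ⋊[φ] Q) * SemidirectProduct.inr (θ x) *
    (SemidirectProduct.inl v : V ⋊[φ] Q)⁻¹).left = _
  rw [← map_inv]
  simp

theorem cobd_apply_right {A : Type} [Group A] (θ : A →* Q) (v : V) (x : A) :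
    ((cobd φ θ v).1 x).right = θ x := DFunLike.congr_fun (cobd φ θ v).2 x

theorem comm_aux {V : Type} [CommGroup V] (v w a b : V) :
    v * a⁻¹ = w * b⁻¹ ↔ a⁻¹ * b = v⁻¹ * w := by
  constructor
  · intro h
    calc a⁻¹ * b = v⁻¹ * (v * a⁻¹) * b := by group
      _ = v⁻¹ * (w * b⁻¹) * b := by rw [h]
      _ = v⁻¹ * w := by group
  · intro h
    calc v * a⁻¹ = v * (a⁻¹ * b) * b⁻¹ := by group
      _ = v * (v⁻¹ * w) * b⁻¹ := by rw [h]
      _ = w * b⁻¹ := by group

theorem cobd_eq_iff {A : Type} [Group A] (θ : A →* Q) (v w : V) :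
    cobd φ θ v = cobd φ θ w ↔ v⁻¹ * w ∈ Fix φ θ := by
  rw [mem_Fix]
  constructor
  · intro h x
    have h1 := cobd_apply_left φ θ v x
    rw [h, cobd_apply_left] at h1
    rw [map_mul, map_inv]
    exact (comm_aux _ _ _ _).mp h1.symm
  · intro h
    apply Subtype.ext
    ext1 x
    ext
    · rw [cobd_apply_left, cobd_apply_left]
      have h1 := h x
      rw [map_mul, map_inv] at h1
      exact (comm_aux _ _ _ _).mpr h1
    · rw [cobd_apply_right, cobd_apply_right]

/-- the map `V / Fix → Lifts` -/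
noncomputable def cobdQ {A : Type} [Group A] (θ : A →* Q) (x : V ⧸ Fix φ θ) : Lifts φ θ :=
  Quotient.liftOn' x (cobd φ θ) fun v w h => by
    rw [cobd_eq_iff]
    exact QuotientGroup.leftRel_apply.mp h

theorem cobdQ_injective {A : Type} [Group A] (θ : A →* Q) :
    Function.Injective (cobdQ φ θ) := by
  intro x y h
  obtain ⟨v, rfl⟩ := QuotientGroup.mk_surjective x
  obtain ⟨w, rfl⟩ := QuotientGroup.mk_surjective y
  have h1 : cobd φ θ v = cobd φ θ w := h
  rw [cobd_eq_iff] at h1
  exact QuotientGroup.eq.mpr h1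

/-- lower bound for the number of lifts -/
theorem card_le_NL [Finite V] [Finite Q] {A : Type} [Group A] [Group.FG A] (θ : A →* Q) :
    Nat.card V ≤ NL φ θ * Nat.card (Fix φ θ) := by
  rw [Subgroup.card_eq_card_quotient_mul_card_subgroup (Fix φ θ)]
  exact Nat.mul_le_mul_right _ (Nat.card_le_card_of_injective _ (cobdQ_injective φ θ))

/-- the lifts of a finite group of order prime to `|V|` -/
theorem NL_coprime [Finite V] {A : Type} [Group A] [Finite A]
    (hc : (Nat.card V).Coprime (Nat.card A)) (θ : A →* Q) :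
    NL φ θ * Nat.card (Fix φ θ) = Nat.card V := by
  rw [Subgroup.card_eq_card_quotient_mul_card_subgroup (Fix φ θ)]
  congr 1
  have := Fintype.ofFinite A
  refine (Nat.card_congr (Equiv.ofBijective _ ⟨cobdQ_injective φ θ, ?_⟩)).symm
  intro ψ
  let u : A → V := fun a => (ψ.1 a).left
  have hu : ∀ a b, u (a * b) = u a * φ (θ a) (u b) := by
    intro a b
    have h1 : (ψ.1 a).right = θ a := DFunLike.congr_fun ψ.2 a
    show (ψ.1 (a * b)).left = _
    rw [map_mul, SemidirectProduct.mul_left, h1]
  let w : V := ∏ a, u a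
  have hw : ∀ a, w = u a ^ Nat.card A * φ (θ a) w := by
    intro a
    show ∏ b, u b = _ * φ (θ a) (∏ b, u b)
    rw [map_prod, ← Fintype.prod_equiv (Equiv.mulLeft a) (fun b => u (a * b)) u (fun b => rfl)]
    simp only [hu]
    rw [Finset.prod_mul_distrib, Finset.prod_const, Finset.card_univ, Nat.card_eq_fintype_card]
  obtain ⟨v, hv⟩ := (powCoprime hc).surjective w
  rw [powCoprime_apply] at hv
  refine ⟨(v : V ⧸ Fix φ θ), ?_⟩
  show cobd φ θ v = ψ
  apply Subtype.ext
  ext1 a
  ext
  · rw [cobd_apply_left]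
    apply (powCoprime hc).injective
    rw [powCoprime_apply, powCoprime_apply, mul_pow, inv_pow, ← map_pow, hv]
    rw [mul_inv_eq_iff_eq_mul]
    exact hw a
  · rw [cobd_apply_right]
    exact (DFunLike.congr_fun ψ.2 a).symm

end NL

/-! ### The regular module -/

section reg

variable (q : ℕ) {Q : Type} [Group Q]

/-- functions `Q → ℤ/q` -/
abbrev Reg (Q : Type) : Type := Q → Multiplicative (ZMod q)

/-- the left regular action on functions -/
noncomputable abbrev reg (Q : Type) [Group Q] : Q →* MulAut (Reg q Q) := mulAutArrow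

theorem reg_apply (g : Q) (F : Reg q Q) (x : Q) : reg q Q g F x = F (g⁻¹ * x) := rfl

omit [Group Q] in
theorem card_Reg [NeZero q] [Finite Q] : Nat.card (Reg q Q) = q ^ Nat.card Q := by
  have := Fintype.ofFinite Q
  rw [Nat.card_fun]
  congr 1
  exact Nat.card_zmod q

theorem card_Fix_reg [NeZero q] [Finite Q] {A : Type} [Group A] (θ : A →* Q) :
    Nat.card (Fix (reg q Q) θ) = q ^ θ.range.index := by
  let s := QuotientGroup.rightRel θ.range
  have hF : ∀ F : Reg q Q, F ∈ Fix (reg q Q) θ ↔ ∀ x y, s x y → F x = F y := by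
    intro F
    rw [mem_Fix]
    constructor
    · intro h x y hxy
      obtain ⟨a, ha⟩ := QuotientGroup.rightRel_apply.mp hxy
      have h1 := congrFun (h a) y
      rw [reg_apply, ha] at h1
      rw [← h1]
      congr 1
      group
    · intro h a
      funext x
      rw [reg_apply]
      apply h
      exact QuotientGroup.rightRel_apply.mpr ⟨a, by group⟩
  have e : Fix (reg q Q) θ ≃ (Quotient s → Multiplicative (ZMod q)) :=
    { toFun := fun F c => Quotient.liftOn c F.1 fun x y h => (hF F.1).mp F.2 x y h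
      invFun := fun G => ⟨fun x => G ⟦x⟧, (hF _).mpr fun x y h => congrArg G (Quotient.sound h)⟩
      left_inv := fun F => rfl
      right_inv := fun G => by
        funext c
        induction c using Quotient.inductionOn with
        | h x => rfl }
  rw [Nat.card_congr e, Nat.card_fun]
  congr 1
  · exact Nat.card_zmod q
  · rw [Subgroup.index]
    exact Nat.card_congr (QuotientGroup.quotientRightRelEquivQuotientLeftRel _)

omit [Group Q] in
theorem card_hom_reg [Finite Q] (A : Type) [Group A] :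
    Nat.card (A →* Reg q Q) = Nat.card (A →* Multiplicative (ZMod q)) ^ Nat.card Q := by
  rw [← Nat.card_fun]
  refine Nat.card_congr
    { toFun := fun f x => (Pi.evalMonoidHom _ x).comp f
      invFun := fun g => MonoidHom.pi g
      left_inv := fun f => rfl
      right_inv := fun g => rfl }

end reg

end Pool.Agent.Lib.MP_305fdd_al
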