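import Pool.Agent.Lib.MP_305fdd_al.Lift

/-!
# MP_305fdd_al: the normalised logarithm of the number of lifts to the wreath product `ℤ/q ≀ Q`
-/

set_option autoImplicit false

namespace Pool.Agent.Lib.MP_305fdd_al

open Monoid Pool.Agent.MP_305fdd_al

/-- the order of the image -/
noncomputable abbrev im {A Q : Type} [Group A] [Group Q] (θ : A →* Q) : ℕ := Nat.card θ.range

/-- the weight -/
noncomputable def wt (c : ℕ) : ℝ := 1 - (c : ℝ)⁻¹

theorem wt_one : wt 1 = 0 := by simp [wt]

theorem wt_nonneg {c : ℕ} (hc : 0 < c) : 0 ≤ wt c := by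
  unfold wt
  have : (1 : ℝ) ≤ c := by exact_mod_cast hc
  have := inv_le_one_of_one_le₀ this
  linarith

theorem wt_lt_one {c : ℕ} (hc : 0 < c) : wt c < 1 := by
  unfold wt
  have : (0 : ℝ) < (c : ℝ)⁻¹ := by positivity
  linarith

theorem wt_mono {c d : ℕ} (hc : 0 < c) (h : c ≤ d) : wt c ≤ wt d := by
  unfold wt
  have h1 : (0 : ℝ) < c := by exact_mod_cast hc
  have h2 : (c : ℝ) ≤ d := by exact_mod_cast h
  have := inv_anti₀ h1 h2
  linarith

theorem wt_strictMono {c d : ℕ} (hc : 0 < c) (h : c < d) : wt c < wt d := by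
  unfold wt
  have h1 : (0 : ℝ) < c := by exact_mod_cast hc
  have h2 : (c : ℝ) < d := by exact_mod_cast h
  have := inv_strictAnti₀ h1 h2
  linarith

theorem half_le_wt {c : ℕ} (hc : 2 ≤ c) : 1 / 2 ≤ wt c := by
  refine le_trans ?_ (wt_mono (by norm_num) hc)
  unfold wt
  norm_num

theorem wt_mul {a b : ℕ} (ha : 0 < a) (hb : 0 < b) :
    wt (a * b) = wt a + wt b - wt a * wt b := by
  unfold wt
  have h1 : (a : ℝ) ≠ 0 := by exact_mod_cast ha.ne'
  have h2 : (b : ℝ) ≠ 0 := by exact_mod_cast hb.ne'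
  push_cast
  field_simp
  ring

section L

variable (q : ℕ) {Q : Type} [Group Q]

/-- normalised logarithm of the number of lifts -/
noncomputable def LL {A : Type} [Group A] (θ : A →* Q) : ℝ :=
  Real.logb q (NL (reg q Q) θ) / Nat.card Q

variable [hq : Fact q.Prime] [Finite Q]

instance : NeZero q := ⟨hq.out.ne_zero⟩

instance finite_mulZMod : Finite (Multiplicative (ZMod q)) :=
  (inferInstance : Finite (ZMod q))

theorem one_lt_q : (1 : ℝ) < q := by exact_mod_cast hq.out.one_lt

theorem LL_coprodI {κ : Type} [Fintype κ] (A : κ → Type) [∀ j, Group (A j)]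
    [∀ j, Group.FG (A j)] (Θ : CoprodI A →* Q) :
    LL q Θ = ∑ j, LL q (Θ.comp (CoprodI.of (i := j))) := by
  unfold LL
  rw [NL_coprodI, Nat.cast_prod, Real.logb_prod, Finset.sum_div]
  intro j _
  exact_mod_cast (NL_pos _ _).ne'

theorem LL_natBij {G H : Type} [Group G] [Group H] (Φ : NatBij G H) (θ : G →* Q) :
    LL q (Φ.toFun Q θ) = LL q θ := by
  unfold LL
  rw [NL_natBij]

theorem cardQ_pos : (0 : ℝ) < Nat.card Q := by exact_mod_cast Nat.card_pos

theorem index_div {A : Type} [Group A] (θ : A →* Q) :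
    (θ.range.index : ℝ) / Nat.card Q = (im θ : ℝ)⁻¹ := by
  have h1 : (Nat.card Q : ℝ) ≠ 0 := cardQ_pos.ne'
  have h2 : (im θ : ℝ) ≠ 0 := by
    have : 0 < im θ := Nat.card_pos
    exact_mod_cast this.ne'
  have h3 : (im θ : ℝ) * θ.range.index = Nat.card Q := by
    exact_mod_cast Subgroup.card_mul_index θ.range
  rw [div_eq_iff h1, ← h3]
  field_simp

theorem le_LL {A : Type} [Group A] [Group.FG A] (θ : A →* Q) : wt (im θ) ≤ LL q θ := by
  have h1 := card_le_NL (reg q Q) θ
  rw [card_Reg, card_Fix_reg] at h1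
  have hq0 : (0 : ℝ) < q := by exact_mod_cast hq.out.pos
  have hN : (0 : ℝ) < NL (reg q Q) θ := by exact_mod_cast NL_pos (reg q Q) θ
  have h2 : (q : ℝ) ^ Nat.card Q ≤ NL (reg q Q) θ * (q : ℝ) ^ θ.range.index := by
    exact_mod_cast h1
  have h3 := Real.logb_le_logb_of_le (one_lt_q q) (pow_pos hq0 _) h2
  rw [Real.logb_mul hN.ne' (pow_pos hq0 _).ne', Real.logb_pow, Real.logb_pow,
    Real.logb_self_eq_one (one_lt_q q), mul_one, mul_one] at h3
  unfold LL wt
  rw [← index_div, le_div_iff₀ cardQ_pos, sub_mul, one_mul, div_mul_cancel₀ _ cardQ_pos.ne']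
  linarith

theorem LL_finite {A : Type} [Group A] [Finite A] (hA : ¬ q ∣ Nat.card A) (θ : A →* Q) :
    LL q θ = wt (im θ) := by
  have h1 := NL_coprime (reg q Q) (A := A) (by
    rw [card_Reg]
    exact Nat.Coprime.pow_left _ ((Nat.Prime.coprime_iff_not_dvd hq.out).mpr hA)) θ
  rw [card_Reg, card_Fix_reg] at h1
  have hq0 : (0 : ℝ) < q := by exact_mod_cast hq.out.pos
  have hN : (0 : ℝ) < NL (reg q Q) θ := by
    have : Group.FG A := inferInstance
    exact_mod_cast NL_pos (reg q Q) θ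
  have h2 : (NL (reg q Q) θ : ℝ) * (q : ℝ) ^ θ.range.index = (q : ℝ) ^ Nat.card Q := by
    exact_mod_cast h1
  have h3 := congrArg (Real.logb q) h2
  rw [Real.logb_mul hN.ne' (pow_pos hq0 _).ne', Real.logb_pow, Real.logb_pow,
    Real.logb_self_eq_one (one_lt_q q), mul_one, mul_one] at h3
  unfold LL wt
  rw [← index_div, div_eq_iff cardQ_pos.ne', sub_mul, one_mul, div_mul_cancel₀ _ cardQ_pos.ne']
  linarith

theorem LL_int (θ : Multiplicative (ZMod 0) →* Q) : LL q θ = 1 := by
  unfold LL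
  rw [NL_int, card_Reg, Nat.cast_pow, Real.logb_pow, Real.logb_self_eq_one (one_lt_q q), mul_one,
    div_self cardQ_pos.ne']

theorem LL_one {A : Type} [Group A] : LL q (1 : A →* Q) =
    Real.logb q (Nat.card (A →* Multiplicative (ZMod q))) := by
  unfold LL
  rw [NL_one, card_hom_reg, Nat.cast_pow, Real.logb_pow, mul_div_assoc, mul_comm,
    div_mul_cancel₀ _ cardQ_pos.ne']

omit [Finite Q] [Group Q] in
/-- the number of homomorphisms to `ℤ/q` is a power of `q` -/
theorem exists_rank (A : Type) [Group A] [Group.FG A] :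
    ∃ b : ℕ, Nat.card (A →* Multiplicative (ZMod q)) = q ^ b := by
  have : Finite (A →* Multiplicative (ZMod q)) := finite_hom _ _
  have hp : IsPGroup q (A →* Multiplicative (ZMod q)) := by
    intro f
    refine ⟨1, ?_⟩
    ext x
    show (f x) ^ (q ^ 1) = 1
    rw [pow_one]
    have h1 : q • (Multiplicative.toAdd (f x)) = 0 := by
      rw [nsmul_eq_mul, CharP.cast_eq_zero, zero_mul]
    exact h1
  exact (IsPGroup.iff_card.mp hp)

/-- the rank of `A` modulo `q` -/
noncomputable def rk (A : Type) [Group A] [Group.FG A] : ℕ := (exists_rank q A).choose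

omit [Finite Q] [Group Q] in
theorem card_hom_zmod (A : Type) [Group A] [Group.FG A] :
    Nat.card (A →* Multiplicative (ZMod q)) = q ^ rk q A := (exists_rank q A).choose_spec

theorem LL_one' {A : Type} [Group A] [Group.FG A] : LL q (1 : A →* Q) = rk q A := by
  rw [LL_one, card_hom_zmod, Nat.cast_pow, Real.logb_pow, Real.logb_self_eq_one (one_lt_q q),
    mul_one]

end L

end Pool.Agent.Lib.MP_305fdd_al
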