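import Pool.Agent.Lib.MP_305fdd_al.HClass

/-!
# MP_305fdd_al: the master counting lemma
-/

set_option autoImplicit false

namespace Pool.Agent.Lib.MP_305fdd_al

open Monoid Pool.Agent.MP_305fdd_al

theorem card_hom_int {n : ℕ} (hn : n = 0) (Q : Type) [Group Q] :
    Nat.card (Multiplicative (ZMod n) →* Q) = Nat.card Q := by
  subst hn
  exact Nat.card_congr (zpowersHom Q).symm

theorem NL_int' {V Q : Type} [CommGroup V] [Group Q] (φ : Q →* MulAut V) {n : ℕ} (hn : n = 0)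
    (θ : Multiplicative (ZMod n) →* Q) : NL φ θ = Nat.card V := by
  subst hn
  exact NL_int φ θ

section main

variable {ι κ : Type} [Fintype ι] [Fintype κ] [DecidableEq κ] {m : ι → ℕ} {A : κ → Type}
  [∀ j, Group (A j)] [∀ j, Group.FG (A j)] (Φ : NatBij (CoprodI A) (FP m)) (q : ℕ)
  [hq : Fact q.Prime]

include q in
/-- **the master counting lemma** -/
theorem master (hqm : ∀ i, m i ≠ 0 → ¬ q ∣ m i) (hm : ∀ i, m i ≠ 1) {E Q : Type} [Group E]
    [Finite E] [Group Q] [Finite Q] (f : E →* Q) (Θ : CoprodI A →* Q) (D : ι → Prop) :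
    ∏ j, Nat.card {θ : A j →* E // f.comp θ = Θ.comp (CoprodI.of (i := j)) ∧
      ∀ i, D i → m i ≠ 0 → Ti Φ j i θ = 1} =
    ∏ i, Nat.card {ψ : Multiplicative (ZMod (m i)) →* E //
      f.comp ψ = (Φ.toFun Q Θ).comp (oi m i) ∧ (D i → m i ≠ 0 → ψ = 1)} := by
  rw [← Nat.card_pi, ← Nat.card_pi]
  have e1 : (∀ j, {θ : A j →* E // f.comp θ = Θ.comp (CoprodI.of (i := j)) ∧
      ∀ i, D i → m i ≠ 0 → Ti Φ j i θ = 1}) ≃
      {Ω : CoprodI A →* E // f.comp Ω = Θ ∧
        ∀ i, D i → m i ≠ 0 → (Φ.toFun E Ω).comp (oi m i) = 1} :=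
    { toFun := fun z => ⟨CoprodI.lift fun j => (z j).1, by
        constructor
        · apply CoprodI.ext_hom
          intro j
          rw [MonoidHom.comp_assoc, CoprodI.lift_comp_of]
          exact (z j).2.1
        · intro i hD hi
          rw [trivial_iff Φ q hqm hm hi]
          intro j
          rw [CoprodI.lift_comp_of]
          exact (z j).2.2 i hD hi⟩
      invFun := fun Ω j => ⟨Ω.1.comp CoprodI.of, by
        constructor
        · rw [← MonoidHom.comp_assoc, Ω.2.1]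
        · intro i hD hi
          exact (trivial_iff Φ q hqm hm hi _).mp (Ω.2.2 i hD hi) j⟩
      left_inv := fun z => by
        funext j
        apply Subtype.ext
        exact CoprodI.lift_comp_of (fun j => (z j).1) j
      right_inv := fun Ω => by
        apply Subtype.ext
        exact CoprodI.lift_comp_of' Ω.1 }
  have e2 : {Ω : CoprodI A →* E // f.comp Ω = Θ ∧
        ∀ i, D i → m i ≠ 0 → (Φ.toFun E Ω).comp (oi m i) = 1} ≃
      {Ψ : FP m →* E // f.comp Ψ = Φ.toFun Q Θ ∧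
        ∀ i, D i → m i ≠ 0 → Ψ.comp (oi m i) = 1} := by
    refine (Φ.equiv E).subtypeEquiv fun Ω => and_congr ?_ Iff.rfl
    show f.comp Ω = Θ ↔ f.comp (Φ.toFun E Ω) = Φ.toFun Q Θ
    rw [← Φ.nat f Ω]
    exact (Φ.injective Q).eq_iff.symm
  have e3 : {Ψ : FP m →* E // f.comp Ψ = Φ.toFun Q Θ ∧
        ∀ i, D i → m i ≠ 0 → Ψ.comp (oi m i) = 1} ≃
      (∀ i, {ψ : Multiplicative (ZMod (m i)) →* E //
        f.comp ψ = (Φ.toFun Q Θ).comp (oi m i) ∧ (D i → m i ≠ 0 → ψ = 1)}) :=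
    { toFun := fun Ψ i => ⟨Ψ.1.comp (oi m i), by
        rw [← MonoidHom.comp_assoc, Ψ.2.1], Ψ.2.2 i⟩
      invFun := fun z => ⟨CoprodI.lift fun i => (z i).1, by
        constructor
        · apply CoprodI.ext_hom
          intro i
          rw [MonoidHom.comp_assoc, CoprodI.lift_comp_of]
          exact (z i).2.1
        · intro i hD hi
          rw [CoprodI.lift_comp_of]
          exact (z i).2.2 hD hi⟩
      left_inv := fun Ψ => by
        apply Subtype.ext
        exact CoprodI.lift_comp_of' Ψ.1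
      right_inv := fun z => by
        funext i
        apply Subtype.ext
        exact CoprodI.lift_comp_of (fun i => (z i).1) i }
  exact Nat.card_congr (e1.trans (e2.trans e3))

/-- the class of the homomorphisms which are trivial on all the attached finite factors -/
def PP (j : κ) {Q : Type} [Group Q] [Finite Q] (θ : A j →* Q) : Prop :=
  ∀ i, m i ≠ 0 → Ti Φ j i θ = 1

/-- the number of homomorphisms in the class -/
noncomputable def KK (j : κ) (Q : Type) [Group Q] [Finite Q] : ℕ :=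
  Nat.card {θ : A j →* Q // PP Φ j θ}

section cls

variable {Q R : Type} [Group Q] [Finite Q] [Group R] [Finite R]

omit [Fintype ι] [Fintype κ] [∀ j, Group.FG (A j)] in
theorem PP_one (j : κ) : PP Φ j (1 : A j →* Q) := fun i _ => Ti_one Φ j i

omit [Fintype ι] [Fintype κ] [∀ j, Group.FG (A j)] in
theorem PP_comp (j : κ) {θ : A j →* Q} (h : PP Φ j θ) (f : Q →* R) : PP Φ j (f.comp θ) :=
  fun i hi => by rw [Ti_comp, h i hi, MonoidHom.comp_one]

omit [Fintype ι] [Fintype κ] [∀ j, Group.FG (A j)] in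
theorem PP_of_inj (j : κ) {θ : A j →* Q} (f : Q →* R) (hf : Function.Injective f)
    (h : PP Φ j (f.comp θ)) : PP Φ j θ := fun i hi => by
  have h1 := h i hi
  rw [Ti_comp] at h1
  apply MonoidHom.ext
  intro x
  apply hf
  rw [MonoidHom.one_apply, map_one]
  exact DFunLike.congr_fun h1 x

omit [Fintype ι] [Fintype κ] [∀ j, Group.FG (A j)] in
theorem PP_prod (j : κ) {θ : A j →* Q} {θ' : A j →* R} (h : PP Φ j θ) (h' : PP Φ j θ') :
    PP Φ j (θ.prod θ') := fun i hi => by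
  have h1 : (MonoidHom.fst Q R).comp (Ti Φ j i (θ.prod θ')) = Ti Φ j i θ := by
    rw [← Ti_comp]; rfl
  have h2 : (MonoidHom.snd Q R).comp (Ti Φ j i (θ.prod θ')) = Ti Φ j i θ' := by
    rw [← Ti_comp]; rfl
  rw [h i hi] at h1
  rw [h' i hi] at h2
  rw [← prod_comp_eq (Ti Φ j i (θ.prod θ')), h1, h2]
  rfl

omit [Fintype ι] [Fintype κ] in
theorem KK_pos (j : κ) : 0 < KK Φ j Q := by
  have : Finite (A j →* Q) := finite_hom _ _
  have : Nonempty {θ : A j →* Q // PP Φ j θ} := ⟨⟨1, PP_one Φ j⟩⟩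
  exact Nat.card_pos

include q in
/-- homomorphisms in the class lift -/
theorem PP_lift (hqm : ∀ i, m i ≠ 0 → ¬ q ∣ m i) (hm : ∀ i, m i ≠ 1) (j : κ) (f : R →* Q)
    (hf : Function.Surjective f) (θ : A j →* Q) (h : PP Φ j θ) :
    ∃ ψ : A j →* R, PP Φ j ψ ∧ f.comp ψ = θ := by
  have h1 : ∀ i, ∃ ψ : Multiplicative (ZMod (m i)) →* R, f.comp ψ = Ti Φ j i θ ∧
      (m i ≠ 0 → ψ = 1) := by
    intro i
    by_cases hi : m i = 0
    · generalize Ti Φ j i θ = t
      revert t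
      rw [hi]
      intro t
      obtain ⟨e, he⟩ := hf (t (Multiplicative.ofAdd (1 : ℤ)))
      refine ⟨zpowersHom R e, ?_, fun h => absurd rfl h⟩
      apply MonoidHom.ext_mint
      show f (zpowersHom R e (Multiplicative.ofAdd (1 : ℤ))) = _
      rw [zpowersHom_apply, toAdd_ofAdd, zpow_one]
      exact he
    · exact ⟨1, by rw [h i hi, MonoidHom.comp_one], fun _ => rfl⟩
  choose ψ hψ hψ1 using h1
  let Ψ : FP m →* R := CoprodI.lift ψ
  have h2 : f.comp Ψ = TT Φ j θ := by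
    apply CoprodI.ext_hom
    intro i
    rw [MonoidHom.comp_assoc, CoprodI.lift_comp_of]
    exact hψ i
  have h3 : Φ.symm.toFun Q (TT Φ j θ) = ext j θ := Φ.left_inv Q _
  refine ⟨(Φ.symm.toFun R Ψ).comp CoprodI.of, ?_, ?_⟩
  · intro i hi
    refine (trivial_iff Φ q hqm hm hi (Φ.symm.toFun R Ψ)).mp ?_ j
    have h4 : Φ.toFun R (Φ.symm.toFun R Ψ) = Ψ := Φ.right_inv R Ψ
    rw [h4]
    show (CoprodI.lift ψ).comp CoprodI.of = 1
    rw [CoprodI.lift_comp_of]
    exact hψ1 i hi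
  · rw [← MonoidHom.comp_assoc, ← Φ.symm.nat, h2, h3, ext_same]

include q in
theorem prod_KK (hqm : ∀ i, m i ≠ 0 → ¬ q ∣ m i) (hm : ∀ i, m i ≠ 1) :
    ∏ j, KK Φ j Q = Nat.card Q ^ rr m := by
  have h1 := master Φ q hqm hm (1 : Q →* Q) (1 : CoprodI A →* Q) (fun _ => True)
  have h2 : ∀ j, Nat.card {θ : A j →* Q // (1 : Q →* Q).comp θ =
      (1 : CoprodI A →* Q).comp (CoprodI.of (i := j)) ∧
      ∀ i, True → m i ≠ 0 → Ti Φ j i θ = 1} = KK Φ j Q := by
    intro j
    refine Nat.card_congr (Equiv.subtypeEquivRight fun θ => ?_)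
    rw [MonoidHom.one_comp, MonoidHom.one_comp]
    simp only [true_and, forall_const]
    rfl
  have h3 : ∀ i, Nat.card {ψ : Multiplicative (ZMod (m i)) →* Q //
      (1 : Q →* Q).comp ψ = (Φ.toFun Q (1 : CoprodI A →* Q)).comp (oi m i) ∧
        (True → m i ≠ 0 → ψ = 1)} = if m i = 0 then Nat.card Q else 1 := by
    intro i
    rw [Φ.one]
    by_cases hi : m i = 0
    · rw [if_pos hi, ← card_hom_int hi Q]
      exact Nat.card_congr (Equiv.subtypeUnivEquiv fun ψ => ⟨rfl, fun _ h => absurd hi h⟩)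
    · rw [if_neg hi]
      rw [Nat.card_eq_one_iff_unique]
      refine ⟨⟨fun a b => Subtype.ext ?_⟩, ⟨⟨1, ?_⟩⟩⟩
      · rw [a.2.2 trivial hi, b.2.2 trivial hi]
      · exact ⟨by rw [MonoidHom.comp_one, MonoidHom.one_comp], fun _ _ => rfl⟩
  rw [Finset.prod_congr rfl fun j _ => h2 j, Finset.prod_congr rfl fun i _ => h3 i] at h1
  rw [h1, Finset.prod_ite, Finset.prod_const, Finset.prod_const_one, mul_one]
  rfl

include q in
/-- the number of homomorphisms of `A j` -/
theorem hc_eq (hqm : ∀ i, m i ≠ 0 → ¬ q ∣ m i) (hm : ∀ i, m i ≠ 1) (j : κ) :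
    hc (A j) Q = (∏ i ∈ FF Φ j, hc (Multiplicative (ZMod (m i))) Q) * KK Φ j Q := by
  classical
  have h1 := master Φ q hqm hm (1 : Q →* Q) (1 : CoprodI A →* Q) (fun i => ¬ Att Φ j i)
  have h2 : ∀ j', j' ≠ j → Nat.card {θ : A j' →* Q // (1 : Q →* Q).comp θ =
      (1 : CoprodI A →* Q).comp (CoprodI.of (i := j')) ∧
      ∀ i, ¬ Att Φ j i → m i ≠ 0 → Ti Φ j' i θ = 1} = KK Φ j' Q := by
    intro j' hj'
    refine Nat.card_congr (Equiv.subtypeEquivRight fun θ => ?_)
    constructor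
    · intro h i hi
      by_cases hatt : Att Φ j i
      · exact Ti_not_att Φ (fun h' => hj' (Att_unique Φ q hqm hi h' hatt)) _
      · exact h.2 i hatt hi
    · exact fun h => ⟨rfl, fun i _ hi => h i hi⟩
  have h2' : Nat.card {θ : A j →* Q // (1 : Q →* Q).comp θ =
      (1 : CoprodI A →* Q).comp (CoprodI.of (i := j)) ∧
      ∀ i, ¬ Att Φ j i → m i ≠ 0 → Ti Φ j i θ = 1} = hc (A j) Q :=
    Nat.card_congr (Equiv.subtypeUnivEquiv fun θ => ⟨rfl, fun i h _ => Ti_not_att Φ h _⟩)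
  have h3 : ∀ i, Nat.card {ψ : Multiplicative (ZMod (m i)) →* Q //
      (1 : Q →* Q).comp ψ = (Φ.toFun Q (1 : CoprodI A →* Q)).comp (oi m i) ∧
        (¬ Att Φ j i → m i ≠ 0 → ψ = 1)} = (if m i = 0 then Nat.card Q else 1) *
          (if m i ≠ 0 ∧ Att Φ j i then hc (Multiplicative (ZMod (m i))) Q else 1) := by
    intro i
    rw [Φ.one]
    by_cases hi : m i = 0
    · rw [if_pos hi, ← card_hom_int hi Q, if_neg (fun h => h.1 hi), mul_one]
      exact Nat.card_congr (Equiv.subtypeUnivEquiv fun ψ => ⟨rfl, fun _ h => absurd hi h⟩)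
    · rw [if_neg hi, one_mul]
      by_cases hatt : Att Φ j i
      · rw [if_pos ⟨hi, hatt⟩]
        exact Nat.card_congr (Equiv.subtypeUnivEquiv fun ψ =>
          ⟨by rw [MonoidHom.one_comp, MonoidHom.one_comp], fun h => absurd hatt h⟩)
      · rw [if_neg (fun h => hatt h.2), Nat.card_eq_one_iff_unique]
        refine ⟨⟨fun a b => Subtype.ext ?_⟩, ⟨⟨1, ?_⟩⟩⟩
        · rw [a.2.2 hatt hi, b.2.2 hatt hi]
        · exact ⟨by rw [MonoidHom.comp_one, MonoidHom.one_comp], fun _ _ => rfl⟩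
  rw [← Finset.mul_prod_erase _ _ (Finset.mem_univ j), h2',
    Finset.prod_congr rfl fun j' hj' => h2 j' (Finset.ne_of_mem_erase hj'),
    Finset.prod_congr rfl fun i _ => h3 i, Finset.prod_mul_distrib, Finset.prod_ite,
    Finset.prod_const, Finset.prod_const_one, mul_one] at h1
  have h4 := prod_KK Φ q hqm hm (Q := Q)
  have h5 : (Finset.univ.filter fun i => m i = 0).card = rr m := rfl
  rw [h5, ← h4, ← Finset.mul_prod_erase _ _ (Finset.mem_univ j)] at h1
  have h6 : ∏ i, (if m i ≠ 0 ∧ Att Φ j i then hc (Multiplicative (ZMod (m i))) Q else 1) =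
      ∏ i ∈ FF Φ j, hc (Multiplicative (ZMod (m i))) Q := by
    unfold FF
    rw [Finset.prod_filter]
  rw [h6] at h1
  have h7 : 0 < ∏ x ∈ Finset.univ.erase j, KK Φ x Q := Finset.prod_pos fun x _ => KK_pos Φ x
  apply Nat.eq_of_mul_eq_mul_right h7
  rw [h1]
  ring

include q in
/-- the number of lifts in the class to a semidirect product does not depend on the action -/
theorem KK_lifts (hqm : ∀ i, m i ≠ 0 → ¬ q ∣ m i) (hm : ∀ i, m i ≠ 1) (j : κ) {V : Type}
    [CommGroup V] [Finite V] (φ : Q →* MulAut V) (θ : A j →* Q) (h : PP Φ j θ) :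
    Nat.card {ψ : Lifts φ θ // PP Φ j ψ.1} = KK Φ j V := by
  classical
  have h1 := master Φ q hqm hm (SemidirectProduct.rightHom : V ⋊[φ] Q →* Q) (ext j θ)
    (fun _ => True)
  have h2 : ∀ j', j' ≠ j → Nat.card {ψ : A j' →* V ⋊[φ] Q //
      (SemidirectProduct.rightHom : V ⋊[φ] Q →* Q).comp ψ =
        (ext j θ).comp (CoprodI.of (i := j')) ∧
      ∀ i, True → m i ≠ 0 → Ti Φ j' i ψ = 1} = KK Φ j' V := by
    intro j' hj'
    rw [ext_ne hj']
    have key : ∀ ψ : {ψ : A j' →* V ⋊[φ] Q //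
      (SemidirectProduct.rightHom : V ⋊[φ] Q →* Q).comp ψ = 1 ∧
      ∀ i, True → m i ≠ 0 → Ti Φ j' i ψ = 1}, ∀ x, (ψ.1 x).right = 1 := fun ψ x =>
      DFunLike.congr_fun ψ.2.1 x
    let g : {ψ : A j' →* V ⋊[φ] Q // (SemidirectProduct.rightHom : V ⋊[φ] Q →* Q).comp ψ = 1 ∧
      ∀ i, True → m i ≠ 0 → Ti Φ j' i ψ = 1} → (A j' →* V) := fun ψ =>
      { toFun := fun x => (ψ.1 x).left
        map_one' := by rw [map_one]; rfl
        map_mul' := fun x y => by
          rw [map_mul, SemidirectProduct.mul_left, key, map_one]; rfl }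
    have hg : ∀ ψ, SemidirectProduct.inl.comp (g ψ) = ψ.1 := by
      intro ψ
      ext1 x
      show SemidirectProduct.inl (ψ.1 x).left = ψ.1 x
      ext
      · rfl
      · exact (key ψ x).symm
    refine Nat.card_congr
      { toFun := fun ψ => ⟨g ψ, ?_⟩
        invFun := fun v => ⟨SemidirectProduct.inl.comp v.1, ?_, ?_⟩
        left_inv := ?_
        right_inv := ?_ }
    · apply PP_of_inj Φ j' (SemidirectProduct.inl : V →* V ⋊[φ] Q)
        SemidirectProduct.inl_injective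
      rw [hg]
      exact fun i hi => ψ.2.2 i trivial hi
    · rw [← MonoidHom.comp_assoc, SemidirectProduct.rightHom_comp_inl, MonoidHom.one_comp]
    · exact fun i _ hi => PP_comp Φ j' v.2 _ i hi
    · intro ψ
      apply Subtype.ext
      exact hg ψ
    · intro v
      apply Subtype.ext
      ext x
      rfl
  have h2' : Nat.card {ψ : A j →* V ⋊[φ] Q //
      (SemidirectProduct.rightHom : V ⋊[φ] Q →* Q).comp ψ =
        (ext j θ).comp (CoprodI.of (i := j)) ∧
      ∀ i, True → m i ≠ 0 → Ti Φ j i ψ = 1} = Nat.card {ψ : Lifts φ θ // PP Φ j ψ.1} := by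
    rw [ext_same]
    exact Nat.card_congr
      { toFun := fun ψ => ⟨⟨ψ.1, ψ.2.1⟩, fun i hi => ψ.2.2 i trivial hi⟩
        invFun := fun ψ => ⟨ψ.1.1, ψ.1.2, fun i _ hi => ψ.2 i hi⟩
        left_inv := fun ψ => rfl
        right_inv := fun ψ => rfl }
  have h3 : ∀ i, Nat.card {ψ : Multiplicative (ZMod (m i)) →* V ⋊[φ] Q //
      (SemidirectProduct.rightHom : V ⋊[φ] Q →* Q).comp ψ =
        (Φ.toFun Q (ext j θ)).comp (oi m i) ∧
        (True → m i ≠ 0 → ψ = 1)} = if m i = 0 then Nat.card V else 1 := by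
    intro i
    by_cases hi : m i = 0
    · rw [if_pos hi, ← NL_int' φ hi ((Φ.toFun Q (ext j θ)).comp (oi m i))]
      exact Nat.card_congr (Equiv.subtypeEquivRight fun ψ =>
        ⟨fun h => h.1, fun h => ⟨h, fun _ h' => absurd hi h'⟩⟩)
    · rw [if_neg hi, Nat.card_eq_one_iff_unique]
      refine ⟨⟨fun a b => Subtype.ext ?_⟩, ⟨⟨1, ?_⟩⟩⟩
      · rw [a.2.2 trivial hi, b.2.2 trivial hi]
      · refine ⟨?_, fun _ _ => rfl⟩
        rw [MonoidHom.comp_one]
        exact (h i hi).symm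
  rw [← Finset.mul_prod_erase _ _ (Finset.mem_univ j), h2',
    Finset.prod_congr rfl fun j' hj' => h2 j' (Finset.ne_of_mem_erase hj'),
    Finset.prod_congr rfl fun i _ => h3 i, Finset.prod_ite, Finset.prod_const,
    Finset.prod_const_one, mul_one] at h1
  have h4 := prod_KK Φ q hqm hm (Q := V)
  have h5 : (Finset.univ.filter fun i => m i = 0).card = rr m := rfl
  rw [h5, ← h4, ← Finset.mul_prod_erase _ _ (Finset.mem_univ j)] at h1
  exact Nat.eq_of_mul_eq_mul_right (Finset.prod_pos fun x _ => KK_pos Φ x) h1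

end cls

end main

end Pool.Agent.Lib.MP_305fdd_al
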