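import Pool.Agent.Lib.MP_305fdd_al.Cls2

/-!
# MP_305fdd_al: the number of homomorphisms in the class is multiplicative in extensions
-/

set_option autoImplicit false

namespace Pool.Agent.Lib.MP_305fdd_al

open Monoid Pool.Agent.MP_305fdd_al

/-- the lifts of a homomorphism of an infinite cyclic group along a surjection -/
theorem card_lifts_int {n : ℕ} (hn : n = 0) {E Q : Type} [Group E] [Group Q] [Finite E]
    (f : E →* Q) (hf : Function.Surjective f) (t : Multiplicative (ZMod n) →* Q) :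
    Nat.card {ψ : Multiplicative (ZMod n) →* E // f.comp ψ = t} = Nat.card f.ker := by
  subst hn
  obtain ⟨e0, he0⟩ := hf (t (Multiplicative.ofAdd (1 : ℤ)))
  refine Nat.card_congr
    { toFun := fun ψ => ⟨ψ.1 (Multiplicative.ofAdd (1 : ℤ)) * e0⁻¹, ?_⟩
      invFun := fun k => ⟨zpowersHom E ((k : E) * e0), ?_⟩
      left_inv := ?_
      right_inv := ?_ }
  · rw [MonoidHom.mem_ker, map_mul, map_inv, he0]
    have : f (ψ.1 (Multiplicative.ofAdd (1 : ℤ))) = t (Multiplicative.ofAdd (1 : ℤ)) :=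
      DFunLike.congr_fun ψ.2 _
    rw [this, mul_inv_cancel]
  · apply MonoidHom.ext_mint
    show f (zpowersHom E ((k : E) * e0) (Multiplicative.ofAdd (1 : ℤ))) = _
    rw [zpowersHom_apply, toAdd_ofAdd, zpow_one, map_mul, he0, (MonoidHom.mem_ker.mp k.2), one_mul]
    rfl
  · intro ψ
    apply Subtype.ext
    apply MonoidHom.ext_mint
    show zpowersHom E (ψ.1 (Multiplicative.ofAdd (1 : ℤ)) * e0⁻¹ * e0)
      (Multiplicative.ofAdd (1 : ℤ)) = ψ.1 (Multiplicative.ofAdd (1 : ℤ))
    rw [zpowersHom_apply, toAdd_ofAdd, zpow_one, inv_mul_cancel_right]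
  · intro k
    apply Subtype.ext
    show zpowersHom E ((k : E) * e0) (Multiplicative.ofAdd (1 : ℤ)) * e0⁻¹ = k
    rw [zpowersHom_apply, toAdd_ofAdd, zpow_one, mul_inv_cancel_right]

section main

variable {ι κ : Type} [Fintype ι] [Fintype κ] [DecidableEq κ] {m : ι → ℕ} {A : κ → Type}
  [∀ j, Group (A j)] [∀ j, Group.FG (A j)] (Φ : NatBij (CoprodI A) (FP m)) (q : ℕ)
  [hq : Fact q.Prime]

include q in
/-- the number of lifts in the class along a surjection of finite groups -/
theorem KK_fiber (hqm : ∀ i, m i ≠ 0 → ¬ q ∣ m i) (hm : ∀ i, m i ≠ 1) (j : κ) {E Q : Type}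
    [Group E] [Finite E] [Group Q] [Finite Q] (f : E →* Q) (hf : Function.Surjective f)
    (θ : A j →* Q) (h : PP Φ j θ) :
    Nat.card {ψ : A j →* E // f.comp ψ = θ ∧ PP Φ j ψ} = KK Φ j f.ker := by
  classical
  have h1 := master Φ q hqm hm f (ext j θ) (fun _ => True)
  have h2 : ∀ j', j' ≠ j → Nat.card {ψ : A j' →* E //
      f.comp ψ = (ext j θ).comp (CoprodI.of (i := j')) ∧
      ∀ i, True → m i ≠ 0 → Ti Φ j' i ψ = 1} = KK Φ j' f.ker := by
    intro j' hj'
    rw [ext_ne hj']
    refine Nat.card_congr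
      { toFun := fun ψ => ⟨ψ.1.codRestrict f.ker
          (fun x => MonoidHom.mem_ker.mpr (DFunLike.congr_fun ψ.2.1 x)), ?_⟩
        invFun := fun v => ⟨f.ker.subtype.comp v.1, ?_, ?_⟩
        left_inv := ?_
        right_inv := ?_ }
    · apply PP_of_inj Φ j' f.ker.subtype Subtype.val_injective
      exact fun i hi => ψ.2.2 i trivial hi
    · ext x
      exact MonoidHom.mem_ker.mp (v.1 x).2
    · exact fun i _ hi => PP_comp Φ j' v.2 _ i hi
    · intro ψ
      apply Subtype.ext
      ext x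
      rfl
    · intro v
      apply Subtype.ext
      ext x
      rfl
  have h2' : Nat.card {ψ : A j →* E // f.comp ψ = (ext j θ).comp (CoprodI.of (i := j)) ∧
      ∀ i, True → m i ≠ 0 → Ti Φ j i ψ = 1} =
      Nat.card {ψ : A j →* E // f.comp ψ = θ ∧ PP Φ j ψ} := by
    rw [ext_same]
    exact Nat.card_congr
      { toFun := fun ψ => ⟨ψ.1, ψ.2.1, fun i hi => ψ.2.2 i trivial hi⟩
        invFun := fun ψ => ⟨ψ.1, ψ.2.1, fun i _ hi => ψ.2.2 i hi⟩
        left_inv := fun ψ => rfl
        right_inv := fun ψ => rfl }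
  have h3 : ∀ i, Nat.card {ψ : Multiplicative (ZMod (m i)) →* E //
      f.comp ψ = (Φ.toFun Q (ext j θ)).comp (oi m i) ∧
        (True → m i ≠ 0 → ψ = 1)} = if m i = 0 then Nat.card f.ker else 1 := by
    intro i
    by_cases hi : m i = 0
    · rw [if_pos hi, ← card_lifts_int hi f hf ((Φ.toFun Q (ext j θ)).comp (oi m i))]
      exact Nat.card_congr (Equiv.subtypeEquivRight fun ψ =>
        ⟨fun h => h.1, fun h => ⟨h, fun _ h' => absurd hi h'⟩⟩)
    · rw [if_neg hi, Nat.card_eq_one_iff_unique]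
      refine ⟨⟨fun a b => Subtype.ext ?_⟩, ⟨⟨1, ?_⟩⟩⟩
      · rw [a.2.2 trivial hi, b.2.2 trivial hi]
      · refine ⟨?_, fun _ _ => rfl⟩
        rw [MonoidHom.comp_one]
        exact (h i hi).symm
  rw [← Finset.mul_prod_erase _ _ (Finset.mem_univ j), h2',
    Finset.prod_congr rfl fun j' hj' => h2 j' (Finset.ne_of_mem_erase hj'),
    Finset.prod_congr rfl fun i _ => h3 i, Finset.prod_ite, Finset.prod_const,
    Finset.prod_const_one, mul_one] at h1
  have h4 := prod_KK Φ q hqm hm (Q := f.ker)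
  have h5 : (Finset.univ.filter fun i => m i = 0).card = rr m := rfl
  rw [h5, ← h4, ← Finset.mul_prod_erase _ _ (Finset.mem_univ j)] at h1
  exact Nat.eq_of_mul_eq_mul_right (Finset.prod_pos fun x _ => KK_pos Φ x) h1

include q in
/-- **multiplicativity in extensions** -/
theorem KK_mul (hqm : ∀ i, m i ≠ 0 → ¬ q ∣ m i) (hm : ∀ i, m i ≠ 1) (j : κ) (E : Type)
    [Group E] [Finite E] (N : Subgroup E) [N.Normal] :
    KK Φ j E = KK Φ j N * KK Φ j (E ⧸ N) := by
  classical
  have : Finite (A j →* E) := finite_hom _ _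
  have : Finite (A j →* E ⧸ N) := finite_hom _ _
  have := Fintype.ofFinite {θ : A j →* E ⧸ N // PP Φ j θ}
  let r : {θ : A j →* E // PP Φ j θ} → {θ : A j →* E ⧸ N // PP Φ j θ} := fun f =>
    ⟨(QuotientGroup.mk' N).comp f.1, PP_comp Φ j f.2 _⟩
  have hN : KK Φ j (QuotientGroup.mk' N).ker = KK Φ j N := by
    have : ∀ (N' : Subgroup E), N' = N → KK Φ j N' = KK Φ j N := by
      rintro _ rfl
      rfl
    exact this _ (QuotientGroup.ker_mk' N)
  unfold KK
  rw [← Nat.card_congr (Equiv.sigmaFiberEquiv r), Nat.card_sigma,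
    Finset.sum_congr rfl (g := fun _ => KK Φ j N)]
  · rw [Finset.sum_const, smul_eq_mul, Finset.card_univ, ← Nat.card_eq_fintype_card, mul_comm]
    rfl
  · rintro ⟨θ, hθ⟩ _
    rw [← hN, ← KK_fiber Φ q hqm hm j (QuotientGroup.mk' N) (QuotientGroup.mk'_surjective N) θ hθ]
    exact Nat.card_congr
      { toFun := fun f => ⟨f.1.1, congrArg Subtype.val f.2, f.1.2⟩
        invFun := fun f => ⟨⟨f.1, f.2.2⟩, Subtype.ext f.2.1⟩
        left_inv := fun f => rfl
        right_inv := fun f => rfl }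

include q in
/-- the numbers for simple groups determine the numbers for all groups -/
theorem KK_of_simple (hqm : ∀ i, m i ≠ 0 → ¬ q ∣ m i) (hm : ∀ i, m i ≠ 1) (j : κ) (n : ℕ)
    (hs : ∀ (T : Type) [Group T] [Finite T], IsSimpleGroup T → KK Φ j T = Nat.card T ^ n) :
    ∀ (k : ℕ) (Q : Type) [Group Q] [Finite Q], Nat.card Q ≤ k → KK Φ j Q = Nat.card Q ^ n := by
  intro k
  induction k with
  | zero =>
    intro Q _ _ hk
    have := Nat.card_pos (α := Q)
    omega
  | succ k ih =>
    intro Q _ _ hk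
    rcases subsingleton_or_nontrivial Q with h | h
    · have h1 : Nat.card Q = 1 := Nat.card_unique
      rw [h1, one_pow]
      unfold KK
      rw [Nat.card_eq_one_iff_unique]
      exact ⟨⟨fun f g => Subtype.ext (by ext x; exact Subsingleton.elim _ _)⟩,
        ⟨⟨1, PP_one Φ j⟩⟩⟩
    by_cases hsimp : IsSimpleGroup Q
    · exact hs Q hsimp
    · have hex : ∃ N : Subgroup Q, N.Normal ∧ N ≠ ⊥ ∧ N ≠ ⊤ := by
        by_contra hc
        push Not at hc
        apply hsimp
        refine { eq_bot_or_eq_top_of_normal := fun H hH => ?_ }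
        by_cases hb : H = ⊥
        · exact Or.inl hb
        · exact Or.inr (hc H hH hb)
      obtain ⟨N, hN, hbot, htop⟩ := hex
      have h1 := Subgroup.card_eq_card_quotient_mul_card_subgroup N
      have h2 : 1 < Nat.card N := by
        rw [Finite.one_lt_card_iff_nontrivial]
        exact (Subgroup.nontrivial_iff_ne_bot N).mpr hbot
      have h3 : 1 < Nat.card (Q ⧸ N) := by
        rw [Finite.one_lt_card_iff_nontrivial, QuotientGroup.nontrivial_iff]
        exact htop
      have h4 : Nat.card (Q ⧸ N) ≤ k := by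
        by_contra hc
        push Not at hc
        nlinarith
      have h5 : Nat.card N ≤ k := by
        by_contra hc
        push Not at hc
        nlinarith
      rw [KK_mul Φ q hqm hm j Q N, ih N h5, ih (Q ⧸ N) h4, ← mul_pow, h1, mul_comm]

end main

end Pool.Agent.Lib.MP_305fdd_al
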