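import Pool.Agent.Lib.MP_305fdd_al.Amalgam

/-!
# MP_305fdd_al: amalgamated products over a nontrivial finite group are not in the genus of a free
product of two groups of prime order
-/

set_option autoImplicit false

namespace Pool.Agent.Lib.MP_305fdd_al

open Monoid Pool.Agent.MP_305fdd_al

section two

variable {m : Fin 2 → ℕ} [hm : ∀ i, Fact (m i).Prime] {Λ : Type} [Group Λ] (Φ : NatBij Λ (FP m))

/-- nontrivial finite subgroups are mapped isomorphically to one of the factors -/
theorem prime_index (hrf : Group.ResiduallyFinite Λ) {C : Type} [Group C] [Finite C]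
    [Nontrivial C] (γ : C →* Λ) (hγ : Function.Injective γ) :
    ∃ i : Fin 2, Function.Bijective (fun c => al Φ (γ c) i) ∧
      ∀ c, ∀ k, k ≠ i → al Φ (γ c) k = 1 := by
  have hinj := al_injective Φ hrf γ hγ
  have hinj' : ∀ c, al Φ (γ c) = 1 → c = 1 := fun c h =>
    (injective_iff_map_eq_one _).mp hinj c h
  -- an element of prime order
  obtain ⟨c0, hc0⟩ := exists_ne (1 : C)
  obtain ⟨p, hp, hd⟩ := Nat.exists_prime_and_dvd (Finite.one_lt_card (α := C)).ne'
  have : Fact p.Prime := ⟨hp⟩
  obtain ⟨x, hx⟩ := exists_prime_orderOf_dvd_card' p hd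
  have hxp : γ x ^ p = 1 := by rw [← map_pow, ← hx, pow_orderOf_eq_one, map_one]
  have hx1 : γ x ≠ 1 := by
    intro h
    have : x = 1 := hγ (by rw [h, map_one])
    rw [this, orderOf_one] at hx
    exact hp.one_lt.ne hx
  obtain ⟨i, y, hy, hal⟩ := al_ne_one Φ hrf (γ x) hxp hx1
  have hcomm : ∀ a b : C, a * b = b * a := fun a b => hinj (by
    rw [map_mul, map_mul, mul_comm])
  have htriv : ∀ c, ∀ k, k ≠ i → al Φ (γ c) k = 1 := by
    intro c k hk
    by_contra hne
    -- a power of `c` of prime order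
    let N : ℕ := if m i = m k then 1 else m i
    have hN : ∀ l, l ≠ k → m l ≠ m k → ∀ a : Multiplicative (ZMod (m l)), a ^ N = 1 := by
      intro l hl hml a
      have hli : l = i := by
        have h1 : ∀ i k l : Fin 2, k ≠ i → l ≠ k → l = i := by decide
        exact h1 i k l hk hl
      subst hli
      have : N = m l := if_neg hml
      rw [this]
      have h1 := pow_card_eq_one' (x := a)
      rwa [card_G] at h1
    have hz : (γ (c ^ N)) ^ (m k) = 1 := by
      rw [← map_pow]
      have h1 : (c ^ N) ^ m k = 1 := by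
        apply hinj'
        funext l
        rw [map_pow, map_pow, map_pow, map_pow, Pi.pow_apply, Pi.pow_apply, Pi.one_apply]
        by_cases hml : m l = m k
        · rw [← hml]
          have h2 := pow_card_eq_one' (x := (al Φ (γ c) l) ^ N)
          rwa [card_G] at h2
        · have hlk : l ≠ k := fun h => hml (by rw [h])
          rw [hN l hlk hml, one_pow]
      rw [h1, map_one]
    have hcop : ¬ m k ∣ N := by
      show ¬ m k ∣ (if m i = m k then 1 else m i)
      split_ifs with h
      · exact (hm k).out.one_lt.ne' ∘ Nat.dvd_one.mp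
      · intro h2
        exact h (((Nat.prime_dvd_prime_iff_eq (hm k).out (hm i).out).mp h2).symm)
    have hak : al Φ (γ (c ^ N)) k ≠ 1 := by
      rw [map_pow, map_pow, Pi.pow_apply]
      intro h1
      have h2 := orderOf_dvd_of_pow_eq_one h1
      have h3 : orderOf (al Φ (γ c) k) ∣ m k := by
        have := orderOf_dvd_natCard (al Φ (γ c) k)
        rwa [card_G] at this
      rcases (Nat.dvd_prime (hm k).out).mp h3 with h4 | h4
      · exact hne (orderOf_eq_one_iff.mp h4)
      · rw [h4] at h2
        exact hcop h2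
    have hz1 : γ (c ^ N) ≠ 1 := by
      intro h1
      rw [h1, map_one] at hak
      exact hak rfl
    obtain ⟨k', u, hu, hal'⟩ := al_ne_one Φ hrf (γ (c ^ N)) hz hz1
    have hkk : k' = k := by
      by_contra h1
      rw [hal', Pi.mulSingle_eq_of_ne (Ne.symm h1)] at hak
      exact hak rfl
    subst hkk
    have h5 := same_index Φ (γ x) (γ (c ^ N)) hxp hz (by rw [← map_mul, ← map_mul, hcomm]) hy hu
      hal hal'
    exact hk h5.symm
  refine ⟨i, ⟨?_, ?_⟩, htriv⟩
  · intro a b hab
    apply hinj
    funext l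
    by_cases hl : l = i
    · subst hl
      exact hab
    · show al Φ (γ a) l = al Φ (γ b) l
      rw [htriv a l hl, htriv b l hl]
  · let f : C →* Multiplicative (ZMod (m i)) :=
      (Pi.evalMonoidHom (fun i => Multiplicative (ZMod (m i))) i).comp ((al Φ).comp γ)
    have hf : f.range = ⊤ := by
      have h1 : Nat.card f.range ∣ m i := by
        have := Subgroup.card_subgroup_dvd_card f.range
        rwa [card_G] at this
      rcases (Nat.dvd_prime (hm i).out).mp h1 with h2 | h2
      · exfalso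
        have h3 := Subgroup.card_eq_one.mp h2
        have h4 : f x ∈ f.range := ⟨x, rfl⟩
        rw [h3, Subgroup.mem_bot] at h4
        have h5 : al Φ (γ x) i = 1 := h4
        rw [hal, Pi.mulSingle_eq_same] at h5
        exact hy h5
      · apply Subgroup.eq_top_of_card_eq
        rw [h2, card_G]
    exact MonoidHom.range_eq_top.mp hf

/-- the image of the factor is full as soon as `Ψ` is injective on the finite subgroup -/
theorem im_factor {C : Type} [Group C] [Finite C] [Nontrivial C] (γ : C →* Λ) (i : Fin 2)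
    (hbij : Function.Bijective (fun c => al Φ (γ c) i)) {Q : Type} [Group Q] [Finite Q]
    (Ψ : Λ →* Q) : im ((Φ.toFun Q Ψ).comp (oi m i)) = m i ∨ Ψ.comp γ = 1 := by
  by_cases h : Ψ.comp γ = 1
  · exact Or.inr h
  left
  have hcard : Nat.card C = m i := by
    rw [Nat.card_congr (Equiv.ofBijective _ hbij), card_G]
  have hex : ∃ c, Ψ (γ c) ≠ 1 := by
    by_contra hc
    push Not at hc
    exact h (by ext c; exact hc c)
  obtain ⟨c, hc⟩ := hex
  have hcp : γ c ^ m i = 1 := by
    rw [← map_pow, ← hcard, pow_card_eq_one', map_one]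
  have : Fact (m i).Prime := hm i
  obtain ⟨k, y, hy, hal, hconj⟩ := conj_index Φ (γ c) hcp Ψ (Or.inl hc)
  have hc1 : c ≠ 1 := by
    rintro rfl
    rw [map_one, map_one] at hc
    exact hc rfl
  have hki : k = i := by
    by_contra hne
    have h1 : al Φ (γ c) i = 1 := by rw [hal, Pi.mulSingle_eq_of_ne (Ne.symm hne)]
    apply hc1
    apply hbij.1
    show al Φ (γ c) i = al Φ (γ 1) i
    rw [h1, map_one, map_one, Pi.one_apply]
  subst hki
  have h2 : (Φ.toFun Q Ψ).comp (oi m k) ≠ 1 := by
    intro h3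
    have h4 : Φ.toFun Q Ψ (oi m k y) = 1 := DFunLike.congr_fun h3 y
    rw [h4, isConj_one_left] at hconj
    exact hc hconj
  have h3 : im ((Φ.toFun Q Ψ).comp (oi m k)) ∣ m k := by
    have := Subgroup.card_range_dvd ((Φ.toFun Q Ψ).comp (oi m k))
    rwa [card_G] at this
  rcases (Nat.dvd_prime (hm k).out).mp h3 with h4 | h4
  · have := two_le_im h2
    omega
  · exact h4

theorem SS_two {Q : Type} [Group Q] (Ψ : FP m →* Q) (i k : Fin 2) (hk : k ≠ i) :
    SS Ψ = wt (im (Ψ.comp (oi m i))) + wt (im (Ψ.comp (oi m k))) := by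
  unfold SS
  rw [Fin.sum_univ_two, if_neg (hm 0).out.ne_zero, if_neg (hm 1).out.ne_zero]
  have h1 : ∀ i k : Fin 2, k ≠ i → (i = 0 ∧ k = 1) ∨ (i = 1 ∧ k = 0) := by decide
  rcases h1 i k hk with ⟨rfl, rfl⟩ | ⟨rfl, rfl⟩
  · rfl
  · rw [add_comm]

theorem rr_two : rr m = 0 := by
  unfold rr
  rw [Finset.card_eq_zero, Finset.filter_eq_empty_iff]
  intro i _
  exact (hm i).out.ne_zero

theorem LL_two (q : ℕ) [hq : Fact q.Prime] (hqm : ∀ i, m i ≠ 0 → ¬ q ∣ m i) {Q : Type} [Group Q]
    [Finite Q] (Ψ : Λ →* Q) (i k : Fin 2) (hk : k ≠ i) :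
    LL q Ψ = wt (im ((Φ.toFun Q Ψ).comp (oi m i))) + wt (im ((Φ.toFun Q Ψ).comp (oi m k))) := by
  rw [← LL_natBij q Φ, LL_FP q hqm, rr_two, Nat.cast_zero, zero_add, SS_two _ i k hk]

theorem im_factor_cases {Q : Type} [Group Q] [Finite Q] (Ψ : FP m →* Q) (i : Fin 2) :
    im (Ψ.comp (oi m i)) = 1 ∨ im (Ψ.comp (oi m i)) = m i := by
  have h3 : im (Ψ.comp (oi m i)) ∣ m i := by
    have := Subgroup.card_range_dvd (Ψ.comp (oi m i))
    rwa [card_G] at this
  exact (Nat.dvd_prime (hm i).out).mp h3

end two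

/-- An amalgamated product over a nontrivial finite group, which is not an equality on either side,
is not in the genus of a free product of two groups of prime order. -/
theorem no_amalgam {m : Fin 2 → ℕ} [hm : ∀ i, Fact (m i).Prime] {C : Type} [Group C] [Finite C]
    [Nontrivial C] {A : Fin 2 → Type} [∀ b, Group (A b)] (α : ∀ b, C →* A b)
    (hα : ∀ b, Function.Injective (α b)) (hα' : ∀ b, ¬ Function.Surjective (α b))
    (h : InGenus (FP m) (PushoutI α)) : False := by
  classical
  obtain ⟨hfg, hrf, hsame⟩ := h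
  obtain ⟨Φ⟩ := exists_natBij hsame
  obtain ⟨q, hqp, hqm, hqC⟩ := exists_prime_not_dvd m (fun _ : Unit => Nat.card C)
  have : Fact q.Prime := ⟨hqp⟩
  have hqC' : ¬ q ∣ Nat.card C := hqC () (Nat.card_pos (α := C)).ne'
  let β : C →* PushoutI α := PushoutI.base α
  have hβ : Function.Injective β := PushoutI.base_injective hα
  obtain ⟨i, hbij, htriv⟩ := prime_index Φ hrf β hβ
  obtain ⟨k, hk⟩ : ∃ k : Fin 2, k ≠ i := by
    have : ∀ i : Fin 2, ∃ k : Fin 2, k ≠ i := by decide
    exact this i
  -- the retraction to `C`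
  let κ : C ≃* Multiplicative (ZMod (m i)) :=
    MulEquiv.ofBijective ((Pi.evalMonoidHom (fun i => Multiplicative (ZMod (m i))) i).comp
      ((al Φ).comp β)) hbij
  let ε : PushoutI α →* C := κ.symm.toMonoidHom.comp
    ((Pi.evalMonoidHom (fun i => Multiplicative (ZMod (m i))) i).comp (al Φ))
  have hεβ : ∀ c, ε (β c) = c := fun c => κ.symm_apply_apply c
  -- the retractions to the factors
  let g : ∀ b b', A b' →* A b := fun b => Function.update (β := fun b' => A b' →* A b)
    (fun b' => (α b).comp (ε.comp (PushoutI.of b'))) b (MonoidHom.id _)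
  have hg : ∀ b b', (g b b').comp (α b') = α b := by
    intro b b'
    by_cases hb : b' = b
    · subst hb
      show (Function.update (β := fun b'' => A b'' →* A b') _ b' _ b').comp _ = _
      rw [Function.update_self]
      rfl
    · show (Function.update (β := fun b'' => A b'' →* A b) _ b _ b').comp _ = _
      rw [Function.update_of_ne hb]
      ext c
      show α b (ε (PushoutI.of b' (α b' c))) = α b c
      rw [PushoutI.of_apply_eq_base, hεβ]
  let ρ : ∀ b, PushoutI α →* A b := fun b => PushoutI.lift (g b) (α b) (hg b)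
  have hρ : ∀ b, (ρ b).comp (PushoutI.of b) = MonoidHom.id _ := by
    intro b
    ext x
    show PushoutI.lift (g b) (α b) (hg b) (PushoutI.of b x) = x
    rw [PushoutI.lift_of]
    show Function.update (β := fun b'' => A b'' →* A b) _ b _ b x = x
    rw [Function.update_self]
    rfl
  have hρ' : ∀ b b', b' ≠ b → (ρ b).comp (PushoutI.of b') =
      (α b).comp (ε.comp (PushoutI.of b')) := by
    intro b b' hb
    ext x
    show PushoutI.lift (g b) (α b) (hg b) (PushoutI.of b' x) = _
    rw [PushoutI.lift_of]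
    show Function.update (β := fun b'' => A b'' →* A b) _ b _ b' x = _
    rw [Function.update_of_ne hb]
  have hρβ : ∀ b, (ρ b).comp β = α b := by
    intro b
    show (ρ b).comp (PushoutI.base α) = α b
    rw [← PushoutI.of_comp_eq_base (φ := α) b, ← MonoidHom.comp_assoc, hρ, MonoidHom.id_comp]
  have hfgA : ∀ b, Group.FG (A b) := fun b =>
    Group.fg_of_surjective (f := ρ b) fun x => ⟨PushoutI.of b x, DFunLike.congr_fun (hρ b) x⟩
  have := hfgA 0
  have := hfgA 1
  -- elements outside of `C`
  have hex : ∀ b, ∃ a : A b, ∀ c, α b c ≠ a := by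
    intro b
    by_contra hc
    push Not at hc
    exact hα' b hc
  choose a ha using hex
  -- a finite quotient
  obtain ⟨Q, _, _, Θ, hΘ⟩ := exists_sep (Λ := PushoutI α) hrf
    (σ := {c : C // c ≠ 1} ⊕ (Fin 2 × C))
    (Sum.elim (fun c => β c.1) (fun z => PushoutI.of z.1 (a z.1 * (α z.1 z.2)⁻¹))) (by
      rintro (c | ⟨b, c⟩) h1
      · exact c.2 (hβ (by rw [map_one]; exact h1))
      · have h2 : a b * (α b c)⁻¹ = 1 := PushoutI.of_injective hα b (by rw [map_one]; exact h1)
        rw [mul_inv_eq_one] at h2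
        exact ha b c h2.symm)
  let η : C →* Q := Θ.comp β
  have hη : Function.Injective η := by
    rw [injective_iff_map_eq_one]
    intro c hc
    by_contra hne
    exact hΘ (Sum.inl ⟨c, hne⟩) hc
  have hη1 : η ≠ 1 := by
    intro h1
    obtain ⟨c, hc⟩ := exists_ne (1 : C)
    exact hc (hη (by rw [h1]; rfl))
  have hcardC : Nat.card C = m i := by
    rw [Nat.card_congr (Equiv.ofBijective _ hbij), card_G]
  have himη : im η = m i := by
    rw [im, ← hcardC]
    exact (Nat.card_congr (MonoidHom.ofInjective hη).toEquiv).symm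
  let θ : ∀ b, A b →* Q := fun b => Θ.comp (PushoutI.of b)
  have hθη : ∀ b, (θ b).comp (α b) = η := by
    intro b
    show (Θ.comp (PushoutI.of b)).comp (α b) = Θ.comp β
    rw [MonoidHom.comp_assoc, PushoutI.of_comp_eq_base]
  have himθ : ∀ b, m i < im (θ b) := by
    intro b
    rw [← himη]
    have hle : η.range ≤ (θ b).range := by
      rintro _ ⟨c, rfl⟩
      exact ⟨α b c, DFunLike.congr_fun (hθη b) c⟩
    have hne : η.range ≠ (θ b).range := by
      intro h1
      have h2 : θ b (a b) ∈ η.range := by rw [h1]; exact ⟨_, rfl⟩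
      obtain ⟨c, hc⟩ := h2
      apply hΘ (Sum.inr (b, c))
      show Θ (PushoutI.of b (a b * (α b c)⁻¹)) = 1
      rw [map_mul, map_mul, map_inv, map_inv, mul_inv_eq_one, PushoutI.of_apply_eq_base]
      exact hc.symm
    by_contra hlt
    push Not at hlt
    exact hne (Subgroup.eq_of_le_of_card_ge hle hlt)
  -- the four homomorphisms
  let ΘC : PushoutI α →* Q := η.comp ε
  let Θb : ∀ b, PushoutI α →* Q := fun b => (θ b).comp (ρ b)
  have e0 : ∀ b, (Θb b).comp (PushoutI.of b) = θ b := by
    intro b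
    show ((θ b).comp (ρ b)).comp _ = _
    rw [MonoidHom.comp_assoc, hρ, MonoidHom.comp_id]
  have e1 : ∀ b b', b' ≠ b → (Θb b).comp (PushoutI.of b') = ΘC.comp (PushoutI.of b') := by
    intro b b' hb
    show ((θ b).comp (ρ b)).comp _ = (η.comp ε).comp _
    rw [MonoidHom.comp_assoc, hρ' b b' hb, ← MonoidHom.comp_assoc, hθη]
    rfl
  have e2 : ∀ b, (Θb b).comp β = η := by
    intro b
    show ((θ b).comp (ρ b)).comp β = η
    rw [MonoidHom.comp_assoc, hρβ, hθη]
  have e3 : ΘC.comp β = η := by
    ext c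
    show η (ε (β c)) = η c
    rw [hεβ]
  have I0 := LL_pushout q hqC' Θ
  have I1 := LL_pushout q hqC' (Θb 0)
  have I2 := LL_pushout q hqC' (Θb 1)
  have I3 := LL_pushout q hqC' ΘC
  rw [show (Θb 0).comp (PushoutI.base α) = η from e2 0, e0, e1 0 1 (by decide)] at I1
  rw [show (Θb 1).comp (PushoutI.base α) = η from e2 1, e0, e1 1 0 (by decide)] at I2
  rw [show ΘC.comp (PushoutI.base α) = η from e3] at I3
  rw [show Θ.comp (PushoutI.base α) = η from rfl, show Θ.comp (PushoutI.of 0) = θ 0 from rfl,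
    show Θ.comp (PushoutI.of 1) = θ 1 from rfl] at I0
  -- the values
  have hprime := fun i => (hm i).out
  have hfull : ∀ Ψ : PushoutI α →* Q, Ψ.comp β = η →
      im ((Φ.toFun Q Ψ).comp (oi m i)) = m i := by
    intro Ψ hΨ
    rcases im_factor Φ β i hbij Ψ with h1 | h1
    · exact h1
    · rw [hΨ] at h1
      exact absurd h1 hη1
  have J0 : LL q Θ ≤ wt (m i) + wt (m k) := by
    rw [LL_two Φ q hqm Θ i k hk, hfull Θ rfl]
    have := wt_mono (im_pos ((Φ.toFun Q Θ).comp (oi m k)))
      ((im_le_dom ((Φ.toFun Q Θ).comp (oi m k))).trans_eq (card_G k))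
    linarith
  have J1 : ∀ b, LL q (Θb b) = wt (m i) + wt (m k) := by
    intro b
    have h1 := le_LL q (Θb b)
    have h2 : im (θ b) ≤ im (Θb b) := by
      rw [← e0 b]
      apply Nat.card_le_card_of_injective _ (Subgroup.inclusion_injective ?_)
      rintro _ ⟨x, rfl⟩
      exact ⟨_, rfl⟩
    have h3 := wt_strictMono (hprime i).pos ((himθ b).trans_le h2)
    rw [LL_two Φ q hqm (Θb b) i k hk, hfull (Θb b) (e2 b)] at h1 ⊢
    rcases im_factor_cases (Φ.toFun Q (Θb b)) k with h4 | h4
    · rw [h4, wt_one] at h1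
      linarith
    · rw [h4]
  have J2 : LL q ΘC = wt (m i) := by
    rw [LL_two Φ q hqm ΘC i k hk, hfull ΘC e3]
    have h1 : (Φ.toFun Q ΘC).comp (oi m k) = 1 := by
      have h2 : Φ.toFun Q ΘC = (η.comp (κ.symm.toMonoidHom.comp
          (Pi.evalMonoidHom (fun i => Multiplicative (ZMod (m i))) i))).comp (prT m) := by
        rw [← Φ_al Φ, ← Φ.nat]
        rfl
      rw [h2]
      apply MonoidHom.ext
      intro y
      show η (κ.symm (prT m (oi m k y) i)) = 1
      rw [prT_oi, Pi.mulSingle_eq_of_ne (Ne.symm hk), map_one, map_one]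
    rw [h1, im_one, wt_one, add_zero]
  rw [J1 0] at I1
  rw [J1 1] at I2
  rw [J2] at I3
  have h5 := half_le_wt (hprime k).two_le
  linarith

end Pool.Agent.Lib.MP_305fdd_al
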