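import Pool.Agent.Lib.MP_305fdd_al.Defs

/-!
# MP_305fdd_al: residual finiteness of free groups, the residually finite quotient
-/

set_option autoImplicit false

namespace Pool.Agent.MP_305fdd_al

/-! ## Free groups are residually finite -/

section free

variable {α : Type*}

/-- the finite set of suffixes of the reduced word of `w` -/
def suff (L : List (α × Bool)) : Set (FreeGroup α) :=
  {x | ∃ M : List (α × Bool), M <:+ L ∧ x = FreeGroup.mk M}

theorem suff_finite (L : List (α × Bool)) : (suff L).Finite := by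
  have : suff L ⊆ (fun M => FreeGroup.mk M) '' {M | M ∈ L.tails} := by
    rintro x ⟨M, hM, rfl⟩
    exact ⟨M, by simpa using hM, rfl⟩
  exact (Set.Finite.image _ (List.finite_toSet _)).subset this

/-- a permutation of the finite set `S` extending the partial left translation by `g` -/
theorem exists_perm {G : Type*} [Group G] (S : Set G) (hS : S.Finite) (g : G) :
    ∃ e : Equiv.Perm S, (∀ x : S, g * x ∈ S → (e x : G) = g * x) := by
  classical
  have : Finite S := hS
  have := Fintype.ofFinite S
  let e0 : {x : S // g * x ∈ S} ≃ {y : S // g⁻¹ * y ∈ S} :=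
    { toFun := fun x => ⟨⟨g * x.1, x.2⟩, by simp⟩
      invFun := fun y => ⟨⟨g⁻¹ * y.1, y.2⟩, by simp⟩
      left_inv := fun x => by ext; simp
      right_inv := fun y => by ext; simp }
  refine ⟨e0.extendSubtype, fun x hx => ?_⟩
  rw [Equiv.extendSubtype_apply_of_mem e0 x hx]
  rfl

theorem freeGroup_rf_aux (w : FreeGroup α) (hw : w ≠ 1) :
    ∃ (S : Set (FreeGroup α)) (_ : S.Finite) (φ : FreeGroup α →* Equiv.Perm S), φ w ≠ 1 := by
  classical
  have hS := suff_finite w.toWord
  choose e he using exists_perm (suff w.toWord) hS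
  have h1 : (1 : FreeGroup α) ∈ suff w.toWord := ⟨[], List.nil_suffix, rfl⟩
  refine ⟨suff w.toWord, hS, FreeGroup.lift fun a => e (FreeGroup.of a), fun hc => hw ?_⟩
  have key : ∀ M : List (α × Bool), M <:+ w.toWord →
      ((FreeGroup.lift (fun a => e (FreeGroup.of a)) (FreeGroup.mk M)) ⟨1, h1⟩ : FreeGroup α) =
        FreeGroup.mk M := by
    intro M
    induction M with
    | nil => intro _; simp [← FreeGroup.one_eq_mk]
    | cons p M ih =>
      intro hM
      have hM' : M <:+ w.toWord := (List.suffix_cons p M).trans hM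
      have hmem : FreeGroup.mk M ∈ suff w.toWord := ⟨M, hM', rfl⟩
      have hmem' : FreeGroup.mk (p :: M) ∈ suff w.toWord := ⟨p :: M, hM, rfl⟩
      have ih' : (FreeGroup.lift (fun a => e (FreeGroup.of a)) (FreeGroup.mk M)) ⟨1, h1⟩ =
          ⟨FreeGroup.mk M, hmem⟩ := Subtype.ext (ih hM')
      have hsplit : FreeGroup.mk (p :: M) = FreeGroup.mk [p] * FreeGroup.mk M := by
        rw [FreeGroup.mul_mk]; rfl
      obtain ⟨a, b⟩ := p
      cases b with
      | true =>
        have h2 : FreeGroup.mk [(a, true)] = FreeGroup.of a := rfl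
        rw [hsplit, h2, map_mul, Equiv.Perm.mul_apply, ih', FreeGroup.lift_apply_of]
        exact he _ ⟨FreeGroup.mk M, hmem⟩ (by rw [hsplit, h2] at hmem'; exact hmem')
      | false =>
        have h2 : FreeGroup.mk [(a, false)] = (FreeGroup.of a)⁻¹ := rfl
        rw [hsplit, h2] at hmem'
        rw [hsplit, h2, map_mul, Equiv.Perm.mul_apply, ih', map_inv, FreeGroup.lift_apply_of]
        have h3 : e (FreeGroup.of a) ⟨(FreeGroup.of a)⁻¹ * FreeGroup.mk M, hmem'⟩ =
            ⟨FreeGroup.mk M, hmem⟩ := by
          apply Subtype.ext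
          rw [he _ ⟨(FreeGroup.of a)⁻¹ * FreeGroup.mk M, hmem'⟩ (by simpa using hmem)]
          simp
        rw [Equiv.Perm.inv_def, ← h3, Equiv.symm_apply_apply]
  have h4 := key w.toWord List.suffix_rfl
  rw [FreeGroup.mk_toWord, hc] at h4
  exact h4.symm

instance freeGroup_rf : Group.ResiduallyFinite (FreeGroup α) := by
  refine Group.residuallyFinite_iff_exists_finiteIndex.2 fun w hw => ?_
  obtain ⟨S, hS, φ, hφ⟩ := freeGroup_rf_aux w hw
  have : Finite S := hS
  exact ⟨φ.ker, Subgroup.finiteIndex_ker φ, by simpa using hφ⟩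

end free

/-! ## The residually finite quotient -/

section res

variable (G : Type*) [Group G]

/-- the finite residual -/
def res : Subgroup G := ⨅ H : FiniteIndexNormalSubgroup G, H.toSubgroup

instance res_normal : (res G).Normal := by
  refine ⟨fun x hx g => ?_⟩
  rw [res, Subgroup.mem_iInf] at hx ⊢
  intro H
  exact H.isNormal'.conj_mem x (hx H) g

variable {G}

theorem res_le_ker {Q : Type*} [Group Q] [Finite Q] (φ : G →* Q) : res G ≤ φ.ker := by
  have : φ.ker.FiniteIndex := Subgroup.finiteIndex_ker φ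
  exact iInf_le (fun H : FiniteIndexNormalSubgroup G => H.toSubgroup)
    (FiniteIndexNormalSubgroup.ofSubgroup φ.ker)

theorem res_le_ker_of_rf {Q : Type*} [Group Q] [Group.ResiduallyFinite Q] (φ : G →* Q) :
    res G ≤ φ.ker := by
  intro x hx
  rw [MonoidHom.mem_ker]
  refine Group.eq_one_iff_forall_finiteIndexNormalSubroup _ fun H => ?_
  have : Finite (Q ⧸ H.toSubgroup) := Subgroup.finite_quotient_of_finiteIndex
  have h := res_le_ker ((QuotientGroup.mk' H.toSubgroup).comp φ) hx
  rw [MonoidHom.mem_ker, MonoidHom.comp_apply, QuotientGroup.mk'_apply,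
    QuotientGroup.eq_one_iff] at h
  exact h

instance res_rf : Group.ResiduallyFinite (G ⧸ res G) := by
  refine Group.residuallyFinite_iff_exists_finiteIndex.2 fun x hx => ?_
  obtain ⟨g, rfl⟩ := QuotientGroup.mk_surjective x
  have h1 : g ∉ res G := fun h => hx ((QuotientGroup.eq_one_iff g).2 h)
  rw [res, Subgroup.mem_iInf] at h1
  push Not at h1
  obtain ⟨H, hH⟩ := h1
  have hle : res G ≤ (QuotientGroup.mk' H.toSubgroup).ker := by
    rw [QuotientGroup.ker_mk']
    exact iInf_le (fun H : FiniteIndexNormalSubgroup G => H.toSubgroup) H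
  have : Finite (G ⧸ H.toSubgroup) := Subgroup.finite_quotient_of_finiteIndex
  refine ⟨(QuotientGroup.lift (res G) (QuotientGroup.mk' H.toSubgroup) hle).ker,
    Subgroup.finiteIndex_ker _, fun h => hH ?_⟩
  rw [MonoidHom.mem_ker, QuotientGroup.lift_mk, QuotientGroup.mk'_apply,
    QuotientGroup.eq_one_iff] at h
  exact h

end res

end Pool.Agent.MP_305fdd_al
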