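import Pool.Agent.Lib.MP_305fdd_al.OneEnded

/-!
# MP_305fdd_al: splittings over finite groups in the genus of a free product of two groups of prime
order, and of the free group of rank two
-/

set_option autoImplicit false

namespace Pool.Agent.Lib.MP_305fdd_al

open Monoid Pool.Agent.MP_305fdd_al

/-- `Λ` splits over a finite group: it is an amalgamated product `A ∗_C B` with `C` finite and
different from `A` and `B`, or an HNN extension with finite associated subgroups. -/
def SplitsOverFinite (Λ : Type) [Group Λ] : Prop :=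
  (∃ (C : Type) (_ : Group C) (A : Fin 2 → Type) (_ : ∀ b, Group (A b)) (α : ∀ b, C →* A b),
    Finite C ∧ (∀ b, Function.Injective (α b)) ∧ (∀ b, ¬ Function.Surjective (α b)) ∧
    Nonempty (Λ ≃* PushoutI α)) ∨
  (∃ (G : Type) (_ : Group G) (A B : Subgroup G) (φ : A ≃* B), Finite A ∧
    Nonempty (Λ ≃* HNNExtension G A B φ))

theorem InGenus.equiv {Γ Λ Λ' : Type} [Group Γ] [Group Λ] [Group Λ'] (h : InGenus Γ Λ)
    (e : Λ ≃* Λ') : InGenus Γ Λ' := by
  obtain ⟨h1, h2, h3⟩ := h
  refine ⟨Group.fg_of_surjective (f := e.toMonoidHom) e.surjective,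
    rf_of_injective e.symm.toMonoidHom e.symm.injective h2, ?_⟩
  exact (sameFQ_of_surj e.symm.toMonoidHom e.symm.surjective e.toMonoidHom e.surjective).trans h3

/-- an amalgamated product over the trivial group -/
theorem pushout_trivial {C : Type} [Group C] [Subsingleton C] {A : Fin 2 → Type}
    [∀ b, Group (A b)] (α : ∀ b, C →* A b) : Nonempty (PushoutI α ≃* CoprodI A) := by
  have h1 : ∀ (b : Fin 2) (c : C), α b c = 1 := fun b c => by
    rw [Subsingleton.elim c 1, map_one]
  let f : PushoutI α →* CoprodI A := PushoutI.lift (fun b => CoprodI.of) 1 (by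
    intro b
    ext c
    show CoprodI.of (α b c) = 1
    rw [h1, map_one])
  have hf : ∀ (b : Fin 2) (x : A b), f (PushoutI.of b x) = CoprodI.of x := fun b x =>
    PushoutI.lift_of _ _ _ x
  let g : CoprodI A →* PushoutI α := PushoutI.ofCoprodI
  have hg : ∀ (b : Fin 2) (x : A b), g (CoprodI.of x) = PushoutI.of b x := fun b x =>
    PushoutI.ofCoprodI_of b x
  refine ⟨MonoidHom.toMulEquiv f g ?_ ?_⟩
  · apply PushoutI.hom_ext_nonempty
    intro b
    ext x
    show g (f (PushoutI.of b x)) = PushoutI.of b x
    rw [hf, hg]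
  · apply CoprodI.ext_hom
    intro b
    ext x
    show f (g (CoprodI.of x)) = CoprodI.of x
    rw [hg, hf]

/-- the two factors of an HNN extension over the trivial group -/
def TF (G : Type) : Fin 2 → Type
  | 0 => G
  | 1 => Multiplicative ℤ

instance (G : Type) [Group G] : ∀ b, Group (TF G b)
  | 0 => (inferInstance : Group G)
  | 1 => (inferInstance : Group (Multiplicative ℤ))

/-- an HNN extension over the trivial group -/
theorem hnn_trivial {G : Type} [Group G] (A B : Subgroup G) (φ : A ≃* B) [Subsingleton A] :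
    Nonempty (HNNExtension G A B φ ≃* CoprodI (TF G)) := by
  have h1 : ∀ a : A, (a : G) = 1 := fun a => by rw [Subsingleton.elim a 1]; rfl
  have h2 : ∀ a : A, (φ a : G) = 1 := fun a => by rw [Subsingleton.elim a 1, map_one]; rfl
  let o0 : G →* CoprodI (TF G) := CoprodI.of (M := TF G) (i := 0)
  let o1 : Multiplicative ℤ →* CoprodI (TF G) := CoprodI.of (M := TF G) (i := 1)
  let f : HNNExtension G A B φ →* CoprodI (TF G) :=
    HNNExtension.lift o0 (o1 (Multiplicative.ofAdd 1)) (by
      intro a
      rw [h1, h2, map_one o0, mul_one, one_mul])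
  let g' : ∀ b, TF G b →* HNNExtension G A B φ := fun b => match b with
    | 0 => (HNNExtension.of : G →* HNNExtension G A B φ)
    | 1 => zpowersHom _ (HNNExtension.t : HNNExtension G A B φ)
  let g : CoprodI (TF G) →* HNNExtension G A B φ := CoprodI.lift g'
  have hg0 : ∀ x : G, g (o0 x) = HNNExtension.of x := fun x =>
    CoprodI.lift_of (M := TF G) (i := 0) (fi := g') (m := x)
  have hg1 : ∀ x : Multiplicative ℤ, g (o1 x) = HNNExtension.t ^ (Multiplicative.toAdd x) :=
    fun x => CoprodI.lift_of (M := TF G) (i := 1) (fi := g') (m := x)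
  have hf0 : ∀ x : G, f (HNNExtension.of x) = o0 x := fun x => HNNExtension.lift_of _ _ _ x
  have hf1 : f HNNExtension.t = o1 (Multiplicative.ofAdd 1) := HNNExtension.lift_t _ _ _
  refine ⟨MonoidHom.toMulEquiv f g ?_ ?_⟩
  · apply HNNExtension.hom_ext
    · ext x
      show g (f (HNNExtension.of x)) = HNNExtension.of x
      rw [hf0, hg0]
    · show g (f HNNExtension.t) = HNNExtension.t
      rw [hf1, hg1, toAdd_ofAdd, zpow_one]
  · apply CoprodI.ext_hom
    intro b
    match b with
    | 0 =>
      apply MonoidHom.ext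
      have h3 : ∀ x : G, f (g (o0 x)) = o0 x := fun x => by rw [hg0, hf0]
      exact h3
    | 1 =>
      apply MonoidHom.ext
      have h3 : ∀ x : Multiplicative ℤ, f (g (o1 x)) = o1 x := fun x => by
        rw [hg1, map_zpow, hf1, ← map_zpow, ← ofAdd_zsmul, smul_eq_mul, mul_one, ofAdd_toAdd]
      exact h3

/-- free decompositions into two factors -/
theorem equiv_of_two_factors {m : Fin 2 → ℕ} (hm : ∀ i, m i ≠ 1) {A : Fin 2 → Type}
    [∀ b, Group (A b)] (hA : ∀ b, Nontrivial (A b)) (h : InGenus (FP m) (CoprodI A)) :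
    Nonempty (CoprodI A ≃* FP m) := by
  obtain ⟨h1, ⟨e, -, -, h2, -⟩, -⟩ := decomposition m hm A hA h
  apply h2
  by_contra hc
  push Not at hc
  obtain ⟨j, hj⟩ := hc
  have : Nonempty {j // ¬ IsCyclic (A j)} := ⟨⟨j, hj⟩⟩
  have h3 : 0 < Nat.card {j // ¬ IsCyclic (A j)} := Nat.card_pos
  rw [Fintype.card_fin] at h1
  omega

/-- torsion-freeness in the genus of a free group -/
theorem subsingleton_of_free {m : Fin 2 → ℕ} (hm : ∀ i, m i = 0) {Λ : Type} [Group Λ]
    (h : InGenus (FP m) Λ) {C : Type} [Group C] [Finite C] (γ : C →* Λ)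
    (hγ : Function.Injective γ) : Subsingleton C := by
  obtain ⟨hfg, hrf, hsame⟩ := h
  obtain ⟨Φ⟩ := exists_natBij hsame
  by_contra hnt
  rw [not_subsingleton_iff_nontrivial] at hnt
  obtain ⟨p, hp, hd⟩ := Nat.exists_prime_and_dvd (Finite.one_lt_card (α := C)).ne'
  have : Fact p.Prime := ⟨hp⟩
  obtain ⟨x, hx⟩ := exists_prime_orderOf_dvd_card' p hd
  have hxp : γ x ^ p = 1 := by rw [← map_pow, ← hx, pow_orderOf_eq_one, map_one]
  have hx1 : γ x ≠ 1 := by
    intro h
    have : x = 1 := hγ (by rw [h, map_one])
    rw [this, orderOf_one] at hx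
    exact hp.one_lt.ne hx
  obtain ⟨Q, _, _, Θ, hΘ⟩ := exists_sep hrf (fun _ : Unit => γ x) (fun _ => hx1)
  obtain ⟨i, hi, -⟩ := torsion_conj Φ (γ x) hxp Θ (hΘ ())
  exact hi (hm i)

/-- **Groups which split over a finite group.** A group in the genus of the free product of two
groups of prime order, or of the free group of rank two, which splits over a finite group, is
isomorphic to it. -/
theorem equiv_of_splits {m : Fin 2 → ℕ} (hm : (∀ i, (m i).Prime) ∨ (∀ i, m i = 0)) {Λ : Type}
    [Group Λ] (h : InGenus (FP m) Λ) (hs : SplitsOverFinite Λ) : Nonempty (Λ ≃* FP m) := by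
  have hm1 : ∀ i, m i ≠ 1 := by
    intro i
    rcases hm with hm | hm
    · exact (hm i).ne_one
    · rw [hm i]; norm_num
  rcases hs with ⟨C, _, A, _, α, hfin, hinj, hsurj, ⟨e⟩⟩ | ⟨G, _, A, B, φ, hfin, ⟨e⟩⟩
  · have h1 : InGenus (FP m) (PushoutI α) := InGenus.equiv h e
    have hsub : Subsingleton C := by
      by_contra hnt
      rw [not_subsingleton_iff_nontrivial] at hnt
      rcases hm with hm | hm
      · have : ∀ i, Fact (m i).Prime := fun i => ⟨hm i⟩
        exact no_amalgam α hinj hsurj h1
      · have := subsingleton_of_free hm h1 (PushoutI.base α) (PushoutI.base_injective hinj)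
        exact not_subsingleton C this
    have hA : ∀ b, Nontrivial (A b) := by
      intro b
      by_contra hnt
      rw [not_nontrivial_iff_subsingleton] at hnt
      exact hsurj b fun x => ⟨1, Subsingleton.elim _ _⟩
    obtain ⟨e2⟩ := pushout_trivial α
    obtain ⟨e3⟩ := equiv_of_two_factors hm1 hA (InGenus.equiv h1 e2)
    exact ⟨e.trans (e2.trans e3)⟩
  · have h1 : InGenus (FP m) (HNNExtension G A B φ) := InGenus.equiv h e
    rcases hm with hm | hm
    · -- there is no surjection to `ℤ/q`
      exfalso
      obtain ⟨q, hqp, hqm, -⟩ := exists_prime_not_dvd m (fun _ : Unit => 0)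
      have : Fact q.Prime := ⟨hqp⟩
      have : Finite (Multiplicative (ZMod q)) := (inferInstance : Finite (ZMod q))
      let f : HNNExtension G A B φ →* Multiplicative (ZMod q) :=
        HNNExtension.lift 1 (Multiplicative.ofAdd 1) (fun a => by
          rw [MonoidHom.one_apply, MonoidHom.one_apply, mul_one, one_mul])
      have hf : Function.Surjective f := by
        intro x
        obtain ⟨k, hk⟩ := ZMod.intCast_surjective (Multiplicative.toAdd x)
        refine ⟨HNNExtension.t ^ k, ?_⟩
        rw [map_zpow]
        have h2 : f HNNExtension.t = Multiplicative.ofAdd 1 := HNNExtension.lift_t _ _ _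
        rw [h2, ← ofAdd_zsmul, zsmul_one, hk, ofAdd_toAdd]
      obtain ⟨g, hg⟩ := (h1.2.2 _).mp ⟨f, hf⟩
      have hg1 : g = 1 := by
        apply CoprodI.ext_hom
        intro i
        apply MonoidHom.ext
        intro y
        have : NeZero (m i) := ⟨(hm i).ne_zero⟩
        have : Finite (Multiplicative (ZMod (m i))) := (inferInstance : Finite (ZMod (m i)))
        show g (oi m i y) = 1
        have h3 : (g (oi m i y)) ^ m i = 1 := by
          rw [← map_pow, ← map_pow]
          have h4 := pow_card_eq_one' (x := y)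
          rw [card_G] at h4
          rw [h4, map_one, map_one]
        have h5 : (g (oi m i y)) ^ q = 1 := by
          have h4 := pow_card_eq_one' (x := g (oi m i y))
          rwa [show Nat.card (Multiplicative (ZMod q)) = q from Nat.card_zmod q] at h4
        have h6 : (m i).Coprime q := ((Nat.coprime_primes (hm i) hqp).mpr (by
          rintro h7
          exact hqm i (hm i).ne_zero (by rw [← h7])))
        rw [← orderOf_eq_one_iff, ← Nat.dvd_one, ← h6.gcd_eq_one]
        exact Nat.dvd_gcd (orderOf_dvd_of_pow_eq_one h3) (orderOf_dvd_of_pow_eq_one h5)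
      have : Nontrivial (Multiplicative (ZMod q)) := (inferInstance : Nontrivial (ZMod q))
      obtain ⟨x, hx⟩ := exists_ne (1 : Multiplicative (ZMod q))
      obtain ⟨y, hy⟩ := hg x
      rw [hg1] at hy
      exact hx hy.symm
    · have hsub : Subsingleton A := subsingleton_of_free hm h1
        ((HNNExtension.of : G →* HNNExtension G A B φ).comp A.subtype)
        ((HNNExtension.of_injective (G := G) (A := A) (B := B) φ).comp Subtype.val_injective)
      obtain ⟨e2⟩ := hnn_trivial A B φ
      have h2 := InGenus.equiv h1 e2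
      by_cases hG : Nontrivial G
      · have hA : ∀ b, Nontrivial (TF G b) := fun b => match b with
          | 0 => hG
          | 1 => (inferInstance : Nontrivial (Multiplicative ℤ))
        obtain ⟨e3⟩ := equiv_of_two_factors hm1 hA h2
        exact ⟨e.trans (e2.trans e3)⟩
      · exfalso
        rw [not_nontrivial_iff_subsingleton] at hG
        have : Group.FG (CoprodI (TF G)) := h2.1
        let K := Multiplicative (ZMod 2)
        have : Finite K := (inferInstance : Finite (ZMod 2))
        have hK : Nat.card K = 2 := Nat.card_zmod 2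
        have h3 := hc_eq_of_same K h2.2.2
        rw [hc_FP, hc_coprodI] at h3
        have h4 : ∀ i, hc (Multiplicative (ZMod (m i))) K = 2 := by
          intro i
          rw [hc_cyclic, hm i]
          exact (Nat.card_congr (Equiv.subtypeUnivEquiv fun x => pow_zero x)).trans hK
        have h5 : hc (TF G 0) K = 1 := by
          have : Subsingleton (TF G 0) := hG
          have : Unique (TF G 0 →* K) := ⟨⟨1⟩, fun f => by
            apply MonoidHom.ext
            intro x
            rw [Subsingleton.elim x 1, map_one, map_one]⟩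
          exact Nat.card_unique
        have h6 : hc (TF G 1) K = 2 := by
          have h7 : hc (Multiplicative ℤ) K = 2 :=
            (Nat.card_congr (zpowersHom K).symm).trans hK
          exact h7
        have h7 : ∏ j : Fin 2, hc (TF G j) K = ∏ i : Fin 2, hc (Multiplicative (ZMod (m i))) K :=
          (congrArg (fun I : Fintype (Fin 2) => ∏ j ∈ @Finset.univ (Fin 2) I, hc (TF G j) K)
            (Subsingleton.elim _ _)).trans h3
        rw [Fin.prod_univ_two, Fin.prod_univ_two, h4, h4, h5, h6] at h7
        norm_num at h7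

end Pool.Agent.Lib.MP_305fdd_al
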