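import Pool.Agent.Lib.MP_305fdd_al.Inversion

/-!
# MP_305fdd_al: the structure of free decompositions in the genus of a free product of cyclic groups
-/

set_option autoImplicit false

namespace Pool.Agent.Lib.MP_305fdd_al

open Monoid Pool.Agent.MP_305fdd_al

section main

variable {ι κ : Type} [Fintype ι] [Fintype κ] [DecidableEq κ] {m : ι → ℕ} {A : κ → Type}
  [∀ j, Group (A j)] [∀ j, Group.FG (A j)] (Φ : NatBij (CoprodI A) (FP m)) (q : ℕ)
  [hq : Fact q.Prime]

open Classical in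
/-- the finite factors of `Γ` attached to `A j` -/
noncomputable def FF (j : κ) : Finset ι := Finset.univ.filter fun i => m i ≠ 0 ∧ Att Φ j i

omit [Fintype κ] [∀ j, Group.FG (A j)] in
theorem mem_FF {j : κ} {i : ι} : i ∈ FF Φ j ↔ m i ≠ 0 ∧ Att Φ j i := by
  simp only [FF, Finset.mem_filter, Finset.mem_univ, true_and]

/-- the number of cyclic factors of `Γ` which are used by `A j` -/
noncomputable def nn (j : κ) : ℕ := rk q (A j) + (FF Φ j).card

theorem sum_nn (hqm : ∀ i, m i ≠ 0 → ¬ q ∣ m i) (hm : ∀ i, m i ≠ 1) :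
    ∑ j, nn Φ q j = Fintype.card ι := by
  classical
  unfold nn
  rw [Finset.sum_add_distrib, sum_rk q Φ hqm]
  have h1 : ∑ j, (FF Φ j).card = (Finset.univ.biUnion fun j => FF Φ j).card := by
    rw [Finset.card_biUnion]
    intro j _ j' _ hne
    rw [Function.onFun, Finset.disjoint_left]
    intro i hi hi'
    rw [mem_FF] at hi hi'
    exact hne (Att_unique Φ q hqm hi.1 hi.2 hi'.2)
  have h2 : (Finset.univ.biUnion fun j => FF Φ j) = Finset.univ.filter fun i => ¬ m i = 0 := by
    ext i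
    rw [Finset.mem_biUnion, Finset.mem_filter]
    constructor
    · rintro ⟨j, -, hj⟩
      exact ⟨Finset.mem_univ _, ((mem_FF Φ).mp hj).1⟩
    · rintro ⟨-, hi⟩
      obtain ⟨j, hj, -⟩ := exists_att Φ q hqm hi (hm i)
      exact ⟨j, Finset.mem_univ _, (mem_FF Φ).mpr ⟨hi, hj⟩⟩
  rw [h1, h2]
  unfold rr
  exact Finset.card_filter_add_card_filter_not _

theorem nn_pos (hqm : ∀ i, m i ≠ 0 → ¬ q ∣ m i) (j : κ) (hrf : Group.ResiduallyFinite (A j))
    [Nontrivial (A j)] : 1 ≤ nn Φ q j := by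
  unfold nn
  rcases Nat.eq_zero_or_pos (rk q (A j)) with h | h
  · obtain ⟨i, hi⟩ := exists_att_of_rk_zero Φ q hqm j hrf h
    have : 0 < (FF Φ j).card := Finset.card_pos.mpr ⟨i, (mem_FF Φ).mpr hi⟩
    omega
  · omega

/-- factors which use exactly one cyclic factor of `Γ` -/
theorem cases_of_nn_eq_one (hqm : ∀ i, m i ≠ 0 → ¬ q ∣ m i) (hm : ∀ i, m i ≠ 1) (j : κ)
    (hrf : Group.ResiduallyFinite (A j)) (h : nn Φ q j = 1) :
    (rk q (A j) = 0 ∧ ∃ i, FF Φ j = {i} ∧ m i ≠ 0 ∧
      Nonempty (A j ≃* Multiplicative (ZMod (m i)))) ∨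
    (rk q (A j) = 1 ∧ FF Φ j = ∅ ∧ Nonempty (A j ≃* Multiplicative (ZMod 0))) := by
  unfold nn at h
  rcases Nat.eq_zero_or_pos (rk q (A j)) with h0 | h0
  · left
    refine ⟨h0, ?_⟩
    rw [h0, zero_add, Finset.card_eq_one] at h
    obtain ⟨i, hi⟩ := h
    have hi' : i ∈ FF Φ j := by rw [hi]; exact Finset.mem_singleton_self i
    rw [mem_FF] at hi'
    refine ⟨i, hi, hi'.1, equiv_of_one_att Φ q hqm j hrf h0 hi'.1 (hm i) ?_ hi'.2⟩
    intro i' h1 h2
    have : i' ∈ FF Φ j := (mem_FF Φ).mpr ⟨h1, h2⟩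
    rw [hi, Finset.mem_singleton] at this
    exact this
  · right
    have h1 : rk q (A j) = 1 := by omega
    have h2 : FF Φ j = ∅ := by
      rw [← Finset.card_eq_zero]
      omega
    have hno : ∀ i, m i ≠ 0 → ¬ Att Φ j i := by
      intro i hi hatt
      have : i ∈ FF Φ j := (mem_FF Φ).mpr ⟨hi, hatt⟩
      rw [h2] at this
      exact absurd this (Finset.notMem_empty i)
    obtain ⟨n, hn⟩ := abRank_of_proj (A j) (proj_of_no_att Φ j hno)
    have hn1 : n = 1 := by rw [← rk_of_abRank hn q, h1]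
    subst hn1
    exact ⟨h1, h2, equiv_int hrf (cnt_of_no_att Φ j hno) hn⟩

/-- cyclic factors use exactly one cyclic factor of `Γ` -/
theorem nn_eq_one_of_cyclic (hqm : ∀ i, m i ≠ 0 → ¬ q ∣ m i) (j : κ) [Nontrivial (A j)]
    (hqA : Finite (A j) → ¬ q ∣ Nat.card (A j)) (hc : IsCyclic (A j)) : nn Φ q j = 1 := by
  unfold nn
  rcases finite_or_infinite (A j) with hf | hf
  · obtain ⟨h0, i, hi, hatt, huniq⟩ := att_of_finite_cyclic Φ q hqm j (hqA hf)
    have : FF Φ j = {i} := by
      ext i'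
      rw [mem_FF, Finset.mem_singleton]
      constructor
      · rintro ⟨h1, h2⟩
        exact huniq i' h1 h2
      · rintro rfl
        exact ⟨hi, hatt⟩
    rw [h0, this, Finset.card_singleton]
  · have h0 : Nat.card (A j) = 0 := Nat.card_eq_zero_of_infinite
    have e := (zmodCyclicMulEquiv hc).symm
    rw [h0] at e
    obtain ⟨h1, h2⟩ := att_of_infinite_cyclic Φ q hqm j e
    have : FF Φ j = ∅ := by
      rw [Finset.eq_empty_iff_forall_notMem]
      intro i hi
      rw [mem_FF] at hi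
      exact h2 i hi.1 hi.2
    rw [h1, this, Finset.card_empty]

end main

/-- a prime which does not divide given numbers -/
theorem exists_prime_not_dvd {ι κ : Type} [Finite ι] [Finite κ] (a : ι → ℕ) (b : κ → ℕ) :
    ∃ q : ℕ, q.Prime ∧ (∀ i, a i ≠ 0 → ¬ q ∣ a i) ∧ (∀ j, b j ≠ 0 → ¬ q ∣ b j) := by
  have := Fintype.ofFinite ι
  have := Fintype.ofFinite κ
  obtain ⟨q, hq, hp⟩ := Nat.exists_infinite_primes (∑ i, a i + ∑ j, b j + 1)
  refine ⟨q, hp, fun i hi hd => ?_, fun j hj hd => ?_⟩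
  · have h1 := Nat.le_of_dvd (Nat.pos_of_ne_zero hi) hd
    have h2 := Finset.single_le_sum (f := a) (fun _ _ => Nat.zero_le _) (Finset.mem_univ i)
    omega
  · have h1 := Nat.le_of_dvd (Nat.pos_of_ne_zero hj) hd
    have h2 := Finset.single_le_sum (f := b) (fun _ _ => Nat.zero_le _) (Finset.mem_univ j)
    omega

/-! ### Free factors of residually finite, finitely generated groups -/

section factor

variable {κ : Type} {A : κ → Type} [∀ j, Group (A j)]

theorem fg_factor [hfg : Group.FG (CoprodI A)] (j : κ) : Group.FG (A j) := by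
  classical
  refine Group.fg_of_surjective (f := ext j (MonoidHom.id (A j))) fun x => ⟨CoprodI.of x, ?_⟩
  exact DFunLike.congr_fun (ext_same j (MonoidHom.id (A j))) x

theorem rf_of_injective {G H : Type} [Group G] [Group H] (f : G →* H)
    (hf : Function.Injective f) (hrf : Group.ResiduallyFinite H) : Group.ResiduallyFinite G := by
  refine Group.residuallyFinite_iff_exists_finiteIndex.2 fun x hx => ?_
  have hx' : f x ≠ 1 := fun h => hx (hf (by rw [h, map_one]))
  obtain ⟨N, hN⟩ := Group.exists_finiteIndexNormalSubgroup_notMem (f x) hx'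
  have : Finite (H ⧸ N.toSubgroup) := Subgroup.finite_quotient_of_finiteIndex
  refine ⟨((QuotientGroup.mk' N.toSubgroup).comp f).ker, Subgroup.finiteIndex_ker _,
    fun h => hN ?_⟩
  exact (QuotientGroup.eq_one_iff (N := N.toSubgroup) _).mp h

theorem rf_factor (hrf : Group.ResiduallyFinite (CoprodI A)) (j : κ) :
    Group.ResiduallyFinite (A j) :=
  rf_of_injective CoprodI.of (CoprodI.of_injective j) hrf

end factor

end Pool.Agent.Lib.MP_305fdd_al
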