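import Pool.Agent.Lib.MP_305fdd_al.Decomp

/-!
# MP_305fdd_al: torsion in the genus of a free product of cyclic groups

The image in every finite quotient of an element of prime order is conjugate to the image of an
element of a factor (a finite form of a theorem of Herfort and Ribes).
-/

set_option autoImplicit false

namespace Pool.Agent.Lib.MP_305fdd_al

open Monoid Pool.Agent.MP_305fdd_al

section wr

variable {Q : Type} [Group Q] (P : Subgroup Q) {D E : Type} [CommGroup D] [CommGroup E]

/-- change of coefficients of the wreath product -/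
noncomputable def wmap (r : E →* D) :
    ((Q ⧸ P) → E) ⋊[indAct P E] Q →* ((Q ⧸ P) → D) ⋊[indAct P D] Q :=
  SemidirectProduct.map (MonoidHom.compLeft r (Q ⧸ P)) (MonoidHom.id Q) (by
    intro g
    ext F x
    rfl)

theorem wmap_left (r : E →* D) (w : ((Q ⧸ P) → E) ⋊[indAct P E] Q) (x : Q ⧸ P) :
    (wmap P r w).left x = r (w.left x) := rfl

theorem wmap_right (r : E →* D) (w : ((Q ⧸ P) → E) ⋊[indAct P E] Q) :
    (wmap P r w).right = w.right := rfl

theorem wmap_surjective (r : E →* D) (hr : Function.Surjective r) :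
    Function.Surjective (wmap P r) := by
  intro w
  choose f hf using hr
  refine ⟨⟨fun x => f (w.left x), w.right⟩, ?_⟩
  ext x
  · exact hf _
  · rfl

theorem pow_left_fixed (w : ((Q ⧸ P) → D) ⋊[indAct P D] Q) (x : Q ⧸ P) (hx : w.right • x = x)
    (n : ℕ) : (w ^ n).left x = w.left x ^ n := by
  have hx' : w.right⁻¹ • x = x := by
    rw [inv_smul_eq_iff]
    exact hx.symm
  induction n with
  | zero => simp
  | succ n ih =>
    rw [pow_succ', SemidirectProduct.mul_left, pow_succ']
    show w.left x * (indAct P D w.right (w ^ n).left) x = _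
    rw [indAct_apply, hx', ih]

/-- a hom from a subgroup `C` acting freely on `Q / P` is conjugate to the split one -/
theorem exists_conj_of_free (C : Subgroup Q) (ψ : Lifts (indAct P D) C.subtype)
    (hfree : ∀ c ∈ C, ∀ x : Q ⧸ P, c • x = x → c = 1) :
    ∃ v : (Q ⧸ P) → D, ψ = cobd (indAct P D) C.subtype v := by
  classical
  let rep : Q ⧸ P → Q ⧸ P := fun x =>
    Quotient.out (Quotient.mk (MulAction.orbitRel C (Q ⧸ P)) x)
  have hrep : ∀ x, ∃ c : C, (c : Q) • rep x = x := by
    intro x
    have h1 : (MulAction.orbitRel C (Q ⧸ P)) (rep x) x := Quotient.mk_out (s := MulAction.orbitRel C (Q ⧸ P)) x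
    rw [MulAction.orbitRel_apply, MulAction.mem_orbit_iff] at h1
    obtain ⟨c, hc⟩ := h1
    refine ⟨c⁻¹, ?_⟩
    rw [← hc]
    exact inv_smul_smul c x
  choose c hc using hrep
  have hrep2 : ∀ (g : C) (x : Q ⧸ P), rep ((g : Q)⁻¹ • x) = rep x := by
    intro g x
    have : Quotient.mk (MulAction.orbitRel C (Q ⧸ P)) ((g : Q)⁻¹ • x) =
        Quotient.mk (MulAction.orbitRel C (Q ⧸ P)) x := by
      apply Quotient.sound
      show (MulAction.orbitRel C (Q ⧸ P)) _ _
      rw [MulAction.orbitRel_apply, MulAction.mem_orbit_iff]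
      exact ⟨g⁻¹, rfl⟩
    show Quotient.out _ = Quotient.out _
    rw [this]
  have hcg : ∀ (g : C) (x : Q ⧸ P), g * c ((g : Q)⁻¹ • x) = c x := by
    intro g x
    have h1 : ((g * c ((g : Q)⁻¹ • x) : C) : Q) • rep x = x := by
      rw [Subgroup.coe_mul, mul_smul, ← hrep2 g x, hc, smul_inv_smul]
    have h2 : ((c x)⁻¹ * (g * c ((g : Q)⁻¹ • x)) : C) = 1 := by
      apply Subtype.ext
      apply hfree _ ((c x)⁻¹ * (g * c ((g : Q)⁻¹ • x)) : C).2 (rep x)
      rw [Subgroup.coe_mul, mul_smul, h1, Subgroup.coe_inv, inv_smul_eq_iff]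
      exact (hc x).symm
    rw [inv_mul_eq_one] at h2
    exact h2.symm
  have key : ∀ a : C, (ψ.1 a).right = (a : Q) := fun a => DFunLike.congr_fun ψ.2 a
  refine ⟨fun x => (ψ.1 (c x)).left x, ?_⟩
  apply Subtype.ext
  ext1 g
  ext x
  · rw [cobd_apply_left]
    show (ψ.1 g).left x = (ψ.1 (c x)).left x *
      ((ψ.1 (c ((g : Q)⁻¹ • x))).left ((g : Q)⁻¹ • x))⁻¹
    rw [eq_mul_inv_iff_mul_eq]
    conv_rhs => rw [← hcg g x, map_mul, SemidirectProduct.mul_left]
    show _ = (ψ.1 g).left x * (ψ.1 (c ((g : Q)⁻¹ • x))).left ((ψ.1 g).right⁻¹ • x)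
    rw [key]
  · rw [cobd_apply_right]
    exact key g

end wr

section main

variable {ι : Type} [Fintype ι] {m : ι → ℕ} {Λ : Type} [Group Λ] (Φ : NatBij Λ (FP m))

omit [Fintype ι] in
/-- elements of prime order are locally conjugate into the finite factors -/
theorem torsion_conj {p : ℕ} [hp : Fact p.Prime] (x : Λ) (hx : x ^ p = 1) {Q : Type} [Group Q]
    [Finite Q] (Θ : Λ →* Q) (h : Θ x ≠ 1) :
    ∃ i, m i ≠ 0 ∧ ∃ y : Multiplicative (ZMod (m i)),
      IsConj (Θ x) (Φ.toFun Q Θ (oi m i y)) := by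
  classical
  by_contra hno
  push Not at hno
  let P : Subgroup Q := Subgroup.zpowers (Θ x)
  have hord : orderOf (Θ x) = p := orderOf_eq_prime (by rw [← map_pow, hx, map_one]) h
  have hPcard : Nat.card P = p := by rw [Nat.card_zpowers, hord]
  let D : Type := Multiplicative (ZMod p)
  let E : Type := Multiplicative (ZMod (p * p))
  have : NeZero (p * p) := ⟨mul_ne_zero hp.out.ne_zero hp.out.ne_zero⟩
  have : Finite E := (inferInstance : Finite (ZMod (p * p)))
  have : Finite D := (inferInstance : Finite (ZMod p))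
  let χ : P ≃* D := mulEquivOfPrimeCardEq (p := p) hPcard (Nat.card_zmod p)
  let r : E →* D := AddMonoidHom.toMultiplicative
    (ZMod.castHom (dvd_mul_right p p) (ZMod p)).toAddMonoidHom
  have hr : Function.Surjective r := ZMod.castHom_surjective (dvd_mul_right p p)
  let s : Q →* ((Q ⧸ P) → D) ⋊[indAct P D] Q :=
    (indLift P (MonoidHom.id Q) (fun _ => (1 : D)) χ.toMonoidHom).1
  have hs_left : ∀ g y, (s g).left y = χ (tau P g y) := by
    intro g y
    show χ (tau P g y) * (1 * 1⁻¹) = _
    rw [inv_one, mul_one, mul_one]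
  have hs_right : ∀ g, (s g).right = g := fun g => rfl
  -- lifts exist on the factors
  have hl : ∀ i, ∃ ψ : Multiplicative (ZMod (m i)) →* ((Q ⧸ P) → E) ⋊[indAct P E] Q,
      (wmap P r).comp ψ = s.comp ((Φ.toFun Q Θ).comp (oi m i)) := by
    intro i
    by_cases hi : m i = 0
    · generalize s.comp ((Φ.toFun Q Θ).comp (oi m i)) = t
      revert t
      rw [hi]
      intro t
      obtain ⟨e, he⟩ := wmap_surjective P r hr (t (Multiplicative.ofAdd (1 : ℤ)))
      refine ⟨zpowersHom _ e, ?_⟩
      apply MonoidHom.ext_mint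
      show wmap P r (zpowersHom _ e (Multiplicative.ofAdd (1 : ℤ))) = _
      rw [zpowersHom_apply, toAdd_ofAdd, zpow_one]
      exact he
    · let ρ := (Φ.toFun Q Θ).comp (oi m i)
      let C := ρ.range
      let ψ : Lifts (indAct P D) C.subtype := ⟨s.comp C.subtype, by
        ext a
        rfl⟩
      have hfree : ∀ c ∈ C, ∀ z : Q ⧸ P, c • z = z → c = 1 := by
        rintro _ ⟨y, rfl⟩ z hz
        by_contra hne
        obtain ⟨k, rfl⟩ := QuotientGroup.mk_surjective z
        have h1 : k⁻¹ * ρ y * k ∈ P := by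
          have h2 : (QuotientGroup.mk (ρ y * k) : Q ⧸ P) = QuotientGroup.mk k := hz
          rw [QuotientGroup.eq] at h2
          have h3 := P.inv_mem h2
          rw [mul_inv_rev, inv_inv] at h3
          rwa [mul_assoc]
        have h2 : k⁻¹ * ρ y * k ≠ 1 := by
          intro h3
          apply hne
          have : ρ y = k * (k⁻¹ * ρ y * k) * k⁻¹ := by group
          rw [this, h3, mul_one, mul_inv_cancel]
        -- `Θ x` is a power of this element
        have h3 : Θ x ∈ Subgroup.zpowers (k⁻¹ * ρ y * k) := by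
          have h4 : Subgroup.zpowers (k⁻¹ * ρ y * k) = P := by
            apply Subgroup.eq_of_le_of_card_ge
            · rw [Subgroup.zpowers_le]
              exact h1
            · rw [hPcard, Nat.card_zpowers]
              have h5 : orderOf (k⁻¹ * ρ y * k) ∣ p := by
                rw [← hPcard]
                exact Subgroup.orderOf_dvd_natCard _ h1
              rcases (Nat.dvd_prime hp.out).mp h5 with h6 | h6
              · exact absurd (orderOf_eq_one_iff.mp h6) h2
              · exact h6.ge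
          rw [h4]
          exact Subgroup.mem_zpowers _
        obtain ⟨n, hn⟩ := Subgroup.mem_zpowers_iff.mp h3
        apply hno i hi (y ^ n)
        rw [isConj_iff]
        refine ⟨k, ?_⟩
        rw [← hn]
        show k * (k⁻¹ * ρ y * k) ^ n * k⁻¹ = ρ (y ^ n)
        rw [map_zpow, ← conj_zpow]
        congr 1
        group
      obtain ⟨v, hv⟩ := exists_conj_of_free P C ψ hfree
      choose f hf using hr
      refine ⟨(cobd (indAct P E) C.subtype (fun z => f (v z))).1.comp ρ.rangeRestrict, ?_⟩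
      have h1 : (wmap P r).comp (cobd (indAct P E) C.subtype (fun z => f (v z))).1 = ψ.1 := by
        rw [hv]
        ext1 g
        ext z
        · rw [MonoidHom.comp_apply, wmap_left, cobd_apply_left, cobd_apply_left]
          show r (f (v z) * (f (v ((g : Q)⁻¹ • z)))⁻¹) = v z * (v ((g : Q)⁻¹ • z))⁻¹
          rw [map_mul, map_inv, hf, hf]
        · rw [MonoidHom.comp_apply, wmap_right, cobd_apply_right, cobd_apply_right]
      rw [← MonoidHom.comp_assoc, h1]
      ext a
      · rfl
      · rfl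
  choose ψ hψ using hl
  let Ψ : FP m →* ((Q ⧸ P) → E) ⋊[indAct P E] Q := CoprodI.lift ψ
  have h1 : (wmap P r).comp Ψ = s.comp (Φ.toFun Q Θ) := by
    apply CoprodI.ext_hom
    intro i
    rw [MonoidHom.comp_assoc, CoprodI.lift_comp_of, MonoidHom.comp_assoc]
    exact hψ i
  let Ψ' := Φ.symm.toFun _ Ψ
  have h2 : (wmap P r).comp Ψ' = s.comp Θ := by
    rw [← Φ.symm.nat, h1, ← Φ.nat]
    exact Φ.left_inv _ _
  let x0 : Q ⧸ P := QuotientGroup.mk 1
  have h3 : (Ψ' x).right = Θ x := by
    have := congrArg SemidirectProduct.right (DFunLike.congr_fun h2 x)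
    rw [MonoidHom.comp_apply, wmap_right] at this
    exact this
  have hx0 : (Ψ' x).right • x0 = x0 := by
    rw [h3]
    show (QuotientGroup.mk (Θ x * 1) : Q ⧸ P) = QuotientGroup.mk 1
    rw [QuotientGroup.eq, mul_one, mul_one]
    exact P.inv_mem (Subgroup.mem_zpowers _)
  have h4 : (Ψ' x).left x0 ^ p = 1 := by
    rw [← pow_left_fixed P (Ψ' x) x0 hx0, ← map_pow, hx, map_one]
    rfl
  have h5 : r ((Ψ' x).left x0) = χ (tau P (Θ x) x0) := by
    have := congrFun (congrArg SemidirectProduct.left (DFunLike.congr_fun h2 x)) x0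
    rw [MonoidHom.comp_apply, wmap_left, MonoidHom.comp_apply, hs_left] at this
    exact this
  -- the reduction is trivial
  have h6 : r ((Ψ' x).left x0) = 1 := by
    have h7 : (p : ℕ) • Multiplicative.toAdd ((Ψ' x).left x0) = 0 := h4
    obtain ⟨k, hk⟩ := ZMod.natCast_zmod_surjective (Multiplicative.toAdd ((Ψ' x).left x0))
    rw [← hk, nsmul_eq_mul, ← Nat.cast_mul, ZMod.natCast_eq_zero_iff] at h7
    have h8 : p ∣ k := Nat.dvd_of_mul_dvd_mul_left hp.out.pos h7
    show ZMod.castHom (dvd_mul_right p p) (ZMod p)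
      (Multiplicative.toAdd ((Ψ' x).left x0)) = 0
    rw [← hk, map_natCast, ZMod.natCast_eq_zero_iff]
    exact h8
  rw [h5] at h6
  have h7 : tau P (Θ x) x0 = 1 := χ.injective (by rw [h6, map_one])
  have h8 : (Quotient.out x0)⁻¹ * Θ x * Quotient.out ((Θ x)⁻¹ • x0) = 1 :=
    congrArg Subtype.val h7
  have h9 : (Θ x)⁻¹ • x0 = x0 := by
    rw [inv_smul_eq_iff, ← h3]
    exact hx0.symm
  rw [h9] at h8
  apply h
  have h10 : Θ x = Quotient.out x0 * ((Quotient.out x0)⁻¹ * Θ x * Quotient.out x0) *
      (Quotient.out x0)⁻¹ := by group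
  rw [h10, h8, mul_one, mul_inv_cancel]

end main

end Pool.Agent.Lib.MP_305fdd_al
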