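import Pool.Agent.Lib.MP_305fdd_al.Torsion

/-!
# MP_305fdd_al: finite subgroups of groups in the genus of a free product of groups of prime order
-/

set_option autoImplicit false

namespace Pool.Agent.Lib.MP_305fdd_al

open Monoid Pool.Agent.MP_305fdd_al

/-- residually finite groups: separating finitely many elements from `1` -/
theorem exists_sep {Λ : Type} [Group Λ] (hrf : Group.ResiduallyFinite Λ) {σ : Type} [Finite σ]
    (f : σ → Λ) (hf : ∀ s, f s ≠ 1) :
    ∃ (Q : Type) (_ : Group Q) (_ : Finite Q) (Θ : Λ →* Q), ∀ s, Θ (f s) ≠ 1 := by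
  have h1 : ∀ s, ∃ N : FiniteIndexNormalSubgroup Λ, f s ∉ N := fun s =>
    Group.exists_finiteIndexNormalSubgroup_notMem (f s) (hf s)
  choose N hN using h1
  have : ∀ s, Finite (Λ ⧸ (N s).toSubgroup) := fun s => Subgroup.finite_quotient_of_finiteIndex
  refine ⟨∀ s, Λ ⧸ (N s).toSubgroup, inferInstance, inferInstance,
    MonoidHom.pi fun s => QuotientGroup.mk' (N s).toSubgroup, fun s h => hN s ?_⟩
  exact (QuotientGroup.eq_one_iff (N := (N s).toSubgroup) _).mp (congrFun h s)

/-- in the wreath product, conjugates of `D` and of `K` do not commute -/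
theorem wreath_not_comm {D K : Type} [CommGroup D] [CommGroup K] [DecidableEq K]
    (X Z : (K → D) ⋊[(mulAutArrow : K →* MulAut (K → D))] K) {a : D} {b : K} (ha : a ≠ 1)
    (hb : b ≠ 1) (hX : IsConj X (SemidirectProduct.inl (Pi.mulSingle 1 a)))
    (hZ : IsConj Z (SemidirectProduct.inr b)) (h : X * Z = Z * X) : False := by
  obtain ⟨w, hw⟩ := isConj_iff.mp hX.symm
  obtain ⟨w', hw'⟩ := isConj_iff.mp hZ.symm
  have hφ : ∀ (g : K) (F : K → D) (s : K),
      (mulAutArrow : K →* MulAut (K → D)) g F s = F (g⁻¹ * s) := fun g F s => rfl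
  have hX1 : X.right = 1 := by
    rw [← hw]
    simp
  have hX2 : ∀ s, X.left s = (Pi.mulSingle 1 a : K → D) (w.right⁻¹ * s) := by
    intro s
    rw [← hw]
    simp only [SemidirectProduct.mul_left, SemidirectProduct.mul_right,
      SemidirectProduct.left_inl, SemidirectProduct.right_inl, SemidirectProduct.inv_left,
      mul_one]
    rw [← MulAut.mul_apply, ← map_mul, mul_inv_cancel, map_one, MulAut.one_apply,
      mul_comm w.left, mul_inv_cancel_right]
    rfl
  have hZ1 : Z.right = b := by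
    rw [← hw']
    simp only [SemidirectProduct.mul_right, SemidirectProduct.right_inr,
      SemidirectProduct.inv_right]
    rw [mul_comm w'.right, mul_inv_cancel_right]
  have h1 := congrArg SemidirectProduct.left h
  rw [SemidirectProduct.mul_left, SemidirectProduct.mul_left, hX1, hZ1, map_one,
    MulAut.one_apply, mul_comm] at h1
  have h2 := mul_left_cancel h1
  have h3 := congrFun h2 w.right
  rw [hφ, hX2, hX2, inv_mul_cancel, Pi.mulSingle_eq_same, Pi.mulSingle_eq_of_ne] at h3
  · exact ha h3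
  · intro h6
    apply hb
    have : w.right⁻¹ * (b⁻¹ * w.right) = b⁻¹ := by
      rw [mul_comm b⁻¹, inv_mul_cancel_left]
    rw [this, inv_eq_one] at h6
    exact h6

section prime

variable {ι : Type} [Fintype ι] [DecidableEq ι] {m : ι → ℕ} [hm : ∀ i, Fact (m i).Prime]
  {Λ : Type} [Group Λ] (Φ : NatBij Λ (FP m))

instance neZero_m (i : ι) : NeZero (m i) := ⟨(hm i).out.ne_zero⟩

instance finite_G (i : ι) : Finite (Multiplicative (ZMod (m i))) :=
  (inferInstance : Finite (ZMod (m i)))

omit [Fintype ι] [DecidableEq ι] hm in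
theorem card_G (i : ι) : Nat.card (Multiplicative (ZMod (m i))) = m i := Nat.card_zmod (m i)

/-- the product of the factors -/
abbrev TG (m : ι → ℕ) : Type := ∀ i, Multiplicative (ZMod (m i))

/-- the projection to the product of the factors -/
noncomputable def prT (m : ι → ℕ) : FP m →* TG m :=
  MonoidHom.pi fun i => ext (A := fun i => Multiplicative (ZMod (m i))) i (MonoidHom.id _)

omit [Fintype ι] in
theorem prT_oi (i : ι) (y : Multiplicative (ZMod (m i))) :
    prT m (oi m i y) = Pi.mulSingle i y := by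
  funext k
  show ext (A := fun i => Multiplicative (ZMod (m i))) k (MonoidHom.id _) (CoprodI.of y) = _
  by_cases h : k = i
  · subst h
    rw [Pi.mulSingle_eq_same]
    exact DFunLike.congr_fun (ext_same (A := fun i => Multiplicative (ZMod (m i))) k
      (MonoidHom.id _)) y
  · rw [Pi.mulSingle_eq_of_ne h]
    exact DFunLike.congr_fun (ext_ne (A := fun i => Multiplicative (ZMod (m i)))
      (Ne.symm h) (MonoidHom.id _)) y

/-- the corresponding homomorphism of `Λ` -/
noncomputable def al : Λ →* TG m := Φ.symm.toFun _ (prT m)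

theorem Φ_al : Φ.toFun _ (al Φ) = prT m := Φ.right_inv _ _

/-- the local conjugacy of torsion elements, with the index -/
theorem conj_index {p : ℕ} [hp : Fact p.Prime] (x : Λ) (hx : x ^ p = 1) {Q : Type} [Group Q]
    [Finite Q] (Θ : Λ →* Q) (h : Θ x ≠ 1 ∨ al Φ x ≠ 1) :
    ∃ i, ∃ y : Multiplicative (ZMod (m i)), y ≠ 1 ∧ al Φ x = Pi.mulSingle i y ∧
      IsConj (Θ x) (Φ.toFun Q Θ (oi m i y)) := by
  have h1 : (Θ.prod (al Φ)) x ≠ 1 := by
    intro h1
    rcases h with h | h
    · exact h (congrArg Prod.fst h1)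
    · exact h (congrArg Prod.snd h1)
  obtain ⟨i, -, y, hy⟩ := torsion_conj Φ x hx (Θ.prod (al Φ)) h1
  have hfst : (MonoidHom.fst Q (TG m)).comp (Φ.toFun _ (Θ.prod (al Φ))) = Φ.toFun Q Θ := by
    rw [← Φ.nat]; rfl
  have hsnd : (MonoidHom.snd Q (TG m)).comp (Φ.toFun _ (Θ.prod (al Φ))) = prT m := by
    rw [← Φ.nat, ← Φ_al Φ]; rfl
  have h2 : IsConj (Θ x) (Φ.toFun Q Θ (oi m i y)) := by
    have := (MonoidHom.fst Q (TG m)).map_isConj hy
    rw [← hfst]
    exact this
  have h3 : al Φ x = Pi.mulSingle i y := by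
    have h4 := (MonoidHom.snd Q (TG m)).map_isConj hy
    rw [isConj_iff_eq] at h4
    have h5 : (MonoidHom.snd Q (TG m)) (Φ.toFun _ (Θ.prod (al Φ)) (oi m i y)) = prT m (oi m i y) :=
      DFunLike.congr_fun hsnd _
    rw [h5, prT_oi] at h4
    exact h4
  refine ⟨i, y, ?_, h3, h2⟩
  rintro rfl
  rw [map_one, map_one, isConj_one_left] at hy
  exact h1 hy

theorem al_ne_one (hrf : Group.ResiduallyFinite Λ) {p : ℕ} [hp : Fact p.Prime] (x : Λ)
    (hx : x ^ p = 1) (hx1 : x ≠ 1) :
    ∃ i, ∃ y : Multiplicative (ZMod (m i)), y ≠ 1 ∧ al Φ x = Pi.mulSingle i y := by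
  obtain ⟨Q, _, _, Θ, hΘ⟩ := exists_sep hrf (fun _ : Unit => x) (fun _ => hx1)
  obtain ⟨i, y, h1, h2, -⟩ := conj_index Φ x hx Θ (Or.inl (hΘ ()))
  exact ⟨i, y, h1, h2⟩

/-- the kernel of the homomorphism to the product of the factors is torsion free -/
theorem al_injective (hrf : Group.ResiduallyFinite Λ) {C : Type} [Group C] [Finite C]
    (γ : C →* Λ) (hγ : Function.Injective γ) : Function.Injective ((al Φ).comp γ) := by
  rw [injective_iff_map_eq_one]
  intro c hc
  by_contra hne
  have h1 : orderOf c ≠ 1 := fun h => hne (orderOf_eq_one_iff.mp h)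
  obtain ⟨p, hp, hd⟩ := Nat.exists_prime_and_dvd h1
  have : Fact p.Prime := ⟨hp⟩
  have h0 : orderOf c ≠ 0 := (orderOf_pos c).ne'
  obtain ⟨k, hk⟩ := hd
  have hk0 : k ≠ 0 := by
    rintro rfl
    rw [mul_zero] at hk
    exact h0 hk
  have h2 : orderOf (c ^ k) = p := by
    rw [orderOf_pow' c hk0, hk, Nat.gcd_eq_right (Dvd.intro_left p rfl)]
    exact Nat.mul_div_cancel p (Nat.pos_of_ne_zero hk0)
  have h3 : γ (c ^ k) ^ p = 1 := by
    rw [← map_pow, ← h2, pow_orderOf_eq_one, map_one]
  have h4 : γ (c ^ k) ≠ 1 := by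
    intro h5
    have h6 : c ^ k = 1 := hγ (by rw [h5, map_one])
    rw [h6, orderOf_one] at h2
    exact hp.one_lt.ne h2
  obtain ⟨i, y, hy, hal⟩ := al_ne_one Φ hrf (γ (c ^ k)) h3 h4
  have h5 : al Φ (γ (c ^ k)) = 1 := by
    rw [map_pow, map_pow]
    have : al Φ (γ c) = 1 := hc
    rw [this, one_pow]
  rw [h5] at hal
  have := congrFun hal i
  rw [Pi.mulSingle_eq_same] at this
  exact hy this.symm

/-- commuting elements of prime order have the same index -/
theorem same_index {p p' : ℕ} [hp : Fact p.Prime] [hp' : Fact p'.Prime] (x z : Λ)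
    (hx : x ^ p = 1) (hz : z ^ p' = 1) (hxz : x * z = z * x) {i k : ι}
    {y : Multiplicative (ZMod (m i))} {u : Multiplicative (ZMod (m k))} (hy : y ≠ 1) (hu : u ≠ 1)
    (hαx : al Φ x = Pi.mulSingle i y) (hαz : al Φ z = Pi.mulSingle k u) : i = k := by
  by_contra hik
  let Gi := Multiplicative (ZMod (m i))
  let Gk := Multiplicative (ZMod (m k))
  let φ : Gk →* MulAut (Gk → Gi) := mulAutArrow
  let W := (Gk → Gi) ⋊[φ] Gk
  have hφ : ∀ (g : Gk) (F : Gk → Gi) (s : Gk), φ g F s = F (g⁻¹ * s) := fun g F s => rfl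
  let single : Gi →* (Gk → Gi) := MonoidHom.mulSingle (fun _ : Gk => Gi) 1
  let f : ∀ l, Multiplicative (ZMod (m l)) →* W :=
    Function.update (Function.update (fun _ => 1) i (SemidirectProduct.inl.comp single)) k
      SemidirectProduct.inr
  have hfk : f k = SemidirectProduct.inr := Function.update_self _ _ _
  have hfi : f i = SemidirectProduct.inl.comp single := by
    show Function.update _ k _ i = _
    rw [Function.update_of_ne hik, Function.update_self]
  let ω : FP m →* W := CoprodI.lift f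
  have hωi : ∀ a, ω (oi m i a) = SemidirectProduct.inl (single a) := by
    intro a
    show CoprodI.lift f (CoprodI.of a) = _
    rw [CoprodI.lift_of, hfi]
    rfl
  have hωk : ∀ a, ω (oi m k a) = SemidirectProduct.inr a := by
    intro a
    show CoprodI.lift f (CoprodI.of a) = _
    rw [CoprodI.lift_of, hfk]
  let Θ : Λ →* W := Φ.symm.toFun W ω
  have hΘ : Φ.toFun W Θ = ω := Φ.right_inv _ _
  -- the image of `x`
  have hx1 : al Φ x ≠ 1 := by
    rw [hαx]
    intro h
    have := congrFun h i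
    rw [Pi.mulSingle_eq_same] at this
    exact hy this
  have hz1 : al Φ z ≠ 1 := by
    rw [hαz]
    intro h
    have := congrFun h k
    rw [Pi.mulSingle_eq_same] at this
    exact hu this
  have key : ∀ {l l' : ι} {a : Multiplicative (ZMod (m l))} {b : Multiplicative (ZMod (m l'))},
      b ≠ 1 → (Pi.mulSingle l a : TG m) = Pi.mulSingle l' b → ∃ h : l' = l, h ▸ b = a := by
    intro l l' a b hb h
    have h1 := congrFun h l'
    rw [Pi.mulSingle_eq_same] at h1
    by_cases hll : l' = l
    · subst hll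
      rw [Pi.mulSingle_eq_same] at h1
      exact ⟨rfl, h1.symm⟩
    · rw [Pi.mulSingle_eq_of_ne hll] at h1
      exact absurd h1.symm hb
  obtain ⟨l, a, ha, hal, hconj⟩ := conj_index Φ x hx Θ (Or.inr hx1)
  rw [hαx] at hal
  obtain ⟨rfl, rfl⟩ := key ha hal
  obtain ⟨l', b, hb, hbl, hconj'⟩ := conj_index Φ z hz Θ (Or.inr hz1)
  rw [hαz] at hbl
  obtain ⟨rfl, rfl⟩ := key hb hbl
  rw [hΘ] at hconj hconj'
  rw [hωi] at hconj
  rw [hωk] at hconj'
  exact wreath_not_comm _ _ ha hb hconj hconj' (by rw [← map_mul, hxz, map_mul])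

end prime

end Pool.Agent.Lib.MP_305fdd_al
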