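import Pool.Agent.Lib.MP_305fdd_al.Val

/-!
# MP_305fdd_al: the witness group and the large genus
-/

set_option autoImplicit false

namespace Pool.Agent.Lib.MP_305fdd_al

open Monoid Pool.Agent.MP_305fdd_al Monoid.Coprod

theorem two_le_hc_cyclic {N p k : ℕ} (hN : N ≠ 0) [Fact p.Prime] (hp : p ≡ 1 [MOD N])
    (hp2 : 2 < p) (hk : Allowed N k) (hk1 : k ≠ 1) :
    2 ≤ hc (Multiplicative (ZMod k)) (AGL p) := by
  rw [hc_cyclic_AGL hN hp hk]
  split_ifs with h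
  · have : 2 ≤ p - 1 := by omega
    calc 2 ≤ p - 1 := this
      _ ≤ p * (p - 1) := Nat.le_mul_of_pos_left _ (by omega)
  · have h1 : 1 ≤ k - 1 := by omega
    calc 2 ≤ 1 + p * 1 := by omega
      _ ≤ 1 + p * (k - 1) := Nat.add_le_add_left (Nat.mul_le_mul_left _ h1) _

/-- A non-isomorphic member of the genus of a free product of cyclic groups has, for a suitable
finite group `Q`, a smaller value. -/
theorem exists_gap {ι : Type} [Finite ι] {N : ℕ} (hN : N ≠ 0) (m : ι → ℕ)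
    (hm : ∀ i, Allowed N (m i)) (Λ : Type) [Group Λ] (hΛ : InGenus (FP m) Λ)
    (hne : ¬ Nonempty (Λ ≃* FP m)) :
    ∃ (Q : Type) (_ : Group Q) (_ : Finite Q) (a b : ℕ),
      IsVal N Λ Q a ∧ IsVal N (FP m) Q b ∧ a < b := by
  obtain ⟨hfg, hrf, hsame⟩ := hΛ
  have hcΛ : ∀ (Q : Type) [Group Q] [Finite Q], hc Λ Q = hc (FP m) Q := fun Q _ _ =>
    hc_eq_of_same Q hsame
  -- the inequality for one quotient
  have h1 : ∀ (n : ℕ) (l : Fin n → ℕ), HasQ N Λ l →
      ∃ (Q : Type) (_ : Group Q) (_ : Finite Q), hc (FP l) Q < hc (FP m) Q := by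
    rintro n l ⟨hl, f, hf⟩
    by_contra hcon
    push Not at hcon
    have h2 : ∀ (Q : Type) [Group Q] [Finite Q], hc (FP l) Q = hc (FP m) Q := by
      intro Q _ _
      refine le_antisymm ?_ (hcon Q _ ‹_›)
      rw [← hcΛ Q]
      exact hc_le_of_surjective Q f hf
    obtain ⟨e⟩ := equiv_of_hc_eq f hf fun Q _ _ => by rw [h2 Q, hcΛ Q]
    obtain ⟨e'⟩ := FP_equiv_of_card l m fun j hj => card_eq_of_hc_eq hN l m hl hm h2 j hj
    exact hne ⟨e.trans e'⟩
  -- the finite set of reduced quotients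
  let S : Set (Σ n : ℕ, Fin n → ℕ) := {x | HasQ N Λ x.2 ∧ ∀ i, x.2 i ≠ 1}
  have hS : S.Finite := by
    obtain ⟨p, hp, hp2, hp1⟩ := Nat.exists_prime_gt_modEq_one 2 hN
    have : Fact p.Prime := ⟨hp⟩
    let M := hc Λ (AGL p)
    have h3 : ∀ x ∈ S, x.1 < M ∧ ∀ i, x.2 i < N + 1 := by
      rintro ⟨n, l⟩ ⟨⟨hl, f, hf⟩, hl1⟩
      refine ⟨?_, ?_⟩
      · have h4 : hc (FP l) (AGL p) ≤ M := hc_le_of_surjective _ f hf
        have h5 : 2 ^ n ≤ hc (FP l) (AGL p) := by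
          rw [hc_FP]
          calc 2 ^ n = ∏ _i : Fin n, 2 := by simp
            _ ≤ _ := Finset.prod_le_prod' fun i _ => two_le_hc_cyclic hN hp1 hp2 (hl i) (hl1 i)
        exact lt_of_lt_of_le Nat.lt_two_pow_self (h5.trans h4)
      · intro i
        rcases hl i with h | h
        · show l i < N + 1
          rw [show l i = 0 from h]; omega
        · exact Nat.lt_succ_of_le (Nat.le_of_dvd (Nat.pos_of_ne_zero hN) h)
    let F : (Σ n : Fin M, Fin n → Fin (N + 1)) → Σ n : ℕ, Fin n → ℕ :=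
      fun x => ⟨x.1, fun i => (x.2 i : ℕ)⟩
    refine Set.Finite.subset (Set.finite_range F) ?_
    rintro ⟨n, l⟩ hx
    obtain ⟨h4, h5⟩ := h3 _ hx
    exact ⟨⟨⟨n, h4⟩, fun i => ⟨l i, h5 i⟩⟩, rfl⟩
  -- a common finite group
  have h2 : ∀ T : Set (Σ n : ℕ, Fin n → ℕ), T.Finite → T ⊆ S →
      ∃ (Q : Type) (_ : Group Q) (_ : Finite Q), ∀ x ∈ T, hc (FP x.2) Q < hc (FP m) Q := by
    intro T hT
    induction T, hT using Set.Finite.induction_on with
    | empty => exact fun _ => ⟨Unit, inferInstance, inferInstance, fun x hx => hx.elim⟩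
    | @insert x T hx hT ih =>
      intro hTS
      obtain ⟨Q, hQ, hQf, h3⟩ := ih ((Set.subset_insert _ _).trans hTS)
      obtain ⟨R, hR, hRf, h4⟩ := h1 x.1 x.2 (hTS (Set.mem_insert _ _)).1
      refine ⟨Q × R, inferInstance, inferInstance, ?_⟩
      have hle : ∀ y ∈ S, ∀ (Q : Type) [Group Q] [Finite Q], hc (FP y.2) Q ≤ hc (FP m) Q := by
        rintro y ⟨⟨_, f, hf⟩, _⟩ Q _ _
        rw [← hcΛ Q]
        exact hc_le_of_surjective Q f hf
      intro y hy
      rw [hc_prod, hc_prod]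
      rcases Set.mem_insert_iff.mp hy with rfl | hy'
      · exact Nat.mul_lt_mul_of_le_of_lt (hle _ (hTS hy) Q) h4 (hc_pos _ _)
      · exact Nat.mul_lt_mul_of_lt_of_le (h3 y hy') (hle _ (hTS hy) R) (hc_pos _ _)
  obtain ⟨Q, hQ, hQf, h3⟩ := h2 S hS subset_rfl
  obtain ⟨a, ha⟩ := exists_val N Λ Q
  refine ⟨Q, hQ, hQf, a, hc (FP m) Q, ha, isVal_FP m hm Q, ?_⟩
  obtain ⟨⟨n, l, ⟨hl, f, hf⟩, rfl⟩, -⟩ := ha
  obtain ⟨e1⟩ := FP_restrict l
  obtain ⟨n', l', hl', ⟨e2⟩⟩ := FP_fin (fun a : {i // l i ≠ 1} => l a)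
  have e : FP l ≃* FP l' := e1.symm.trans e2
  rw [hc_equiv Q e]
  refine h3 ⟨n', l'⟩ ⟨⟨fun i => ?_, e.toMonoidHom.comp f, e.surjective.comp hf⟩, fun i => ?_⟩
  · obtain ⟨j, hj⟩ := hl' i
    show Allowed N (l' i)
    rw [hj]
    exact hl _
  · obtain ⟨j, hj⟩ := hl' i
    show l' i ≠ 1
    rw [hj]
    exact j.2

/-! ### The family -/

/-- the free power -/
abbrev Pow (Γ : Type) [Group Γ] (k : ℕ) : Type := CoprodI (fun _ : Fin k => Γ)

theorem pow_succ_surj (Γ : Type) [Group Γ] (k : ℕ) :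
    (∃ f : Γ ∗ Pow Γ k →* Pow Γ (k + 1), Function.Surjective f) ∧
      ∃ f : Pow Γ (k + 1) →* Γ ∗ Pow Γ k, Function.Surjective f := by
  constructor
  · let f1 : Γ →* Pow Γ (k + 1) := CoprodI.of (M := fun _ : Fin (k + 1) => Γ) (i := 0)
    let f2 : Pow Γ k →* Pow Γ (k + 1) := CoprodI.lift fun i =>
      CoprodI.of (M := fun _ : Fin (k + 1) => Γ) (i := i.succ)
    refine ⟨Coprod.lift f1 f2, ?_⟩
    apply surjective_of_of
    intro i x
    induction i using Fin.cases with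
    | zero => exact ⟨Coprod.inl x, Coprod.lift_apply_inl _ _ _⟩
    | succ i =>
      refine ⟨Coprod.inr (CoprodI.of (M := fun _ : Fin k => Γ) (i := i) x), ?_⟩
      rw [Coprod.lift_apply_inr]
      exact CoprodI.lift_of (M := fun _ : Fin k => Γ) _ x
  · let g0 : ∀ i : Fin (k + 1), Γ →* Γ ∗ Pow Γ k := fun i =>
      Fin.cases Coprod.inl (fun j => Coprod.inr.comp (CoprodI.of (M := fun _ : Fin k => Γ) (i := j))) i
    refine ⟨CoprodI.lift g0, ?_⟩
    rw [← MonoidHom.range_eq_top, CoprodI.range_eq_iSup, eq_top_iff,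
      ← Coprod.range_inl_sup_range_inr, sup_le_iff]
    constructor
    · exact le_iSup (fun i => (g0 i).range) 0
    · rintro _ ⟨y, rfl⟩
      induction y using CoprodI.induction_left with
      | one => rw [map_one]; exact one_mem _
      | mul x y ih =>
        rename_i i
        rw [map_mul]
        refine mul_mem ?_ ih
        exact (le_iSup (fun i => (g0 i).range) i.succ) ⟨x, rfl⟩

theorem sameFQ_pow_step {P Λ Γ : Type} [Group P] [Group Λ] [Group Γ]
    (h : SameFiniteQuotients Λ Γ) (b : ℕ) :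
    SameFiniteQuotients ((P ∗ Λ) ∗ Pow Γ b) (P ∗ Pow Γ (b + 1)) := by
  have h1 : SameFiniteQuotients ((P ∗ Λ) ∗ Pow Γ b) ((P ∗ Γ) ∗ Pow Γ b) :=
    sameFQ_coprod (sameFQ_coprod_right h)
  have h2 : SameFiniteQuotients ((P ∗ Γ) ∗ Pow Γ b) (P ∗ (Γ ∗ Pow Γ b)) :=
    sameFQ_of_surj (MulEquiv.coprodAssoc P _ _).toMonoidHom (MulEquiv.coprodAssoc P _ _).surjective
      (MulEquiv.coprodAssoc P _ _).symm.toMonoidHom (MulEquiv.coprodAssoc P _ _).symm.surjective
  have h3 : SameFiniteQuotients (Γ ∗ Pow Γ b) (Pow Γ (b + 1)) := by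
    obtain ⟨⟨f, hf⟩, ⟨g, hg⟩⟩ := pow_succ_surj Γ b
    exact sameFQ_of_surj f hf g hg
  exact (h1.trans h2).trans (sameFQ_coprod_right h3)

theorem hc_coprodI' {ι : Type} [Fintype ι] (G : ι → Type) [∀ i, Group (G i)] (Q : Type)
    [Group Q] : hc (CoprodI G) Q = ∏ i, hc (G i) Q := by
  rw [hc_coprodI]
  congr
  exact Subsingleton.elim _ _

theorem isVal_pow {N : ℕ} {ι : Type} [Finite ι] (m : ι → ℕ) (hm : ∀ i, Allowed N (m i))
    (Q : Type) [Group Q] [Finite Q] (r : ℕ) : IsVal N (Pow (FP m) r) Q (hc (FP m) Q ^ r) := by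
  let M : (Sigma fun _ : Fin r => ι) → ℕ := fun x => m x.2
  let e : Pow (FP m) r ≃* FP M :=
    coprodI_flatten (ι := Fin r) (σ := fun _ => ι) (fun _ i => Multiplicative (ZMod (m i)))
  have h1 : IsVal N (FP M) Q (hc (FP M) Q) := isVal_FP M (fun x => hm x.2) Q
  have h2 := h1.equiv e.symm
  have h3 : hc (FP M) Q = hc (FP m) Q ^ r := by
    rw [← hc_equiv Q e, hc_coprodI', Finset.prod_const, Finset.card_univ, Fintype.card_fin]
  rw [h3] at h2
  exact h2

theorem family {N : ℕ} {ι : Type} [Finite ι] (m : ι → ℕ) (hm : ∀ i, Allowed N (m i))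
    {Λ : Type} [Group Λ] [Group.FG Λ] (h : SameFiniteQuotients Λ (FP m))
    {Q : Type} [Group Q] [Finite Q] {a : ℕ} (ha : IsVal N Λ Q a) (j : ℕ) :
    ∀ (P : Type) [Group P] [Group.FG P] (p : ℕ), IsVal N P Q p → ∀ r : ℕ,
      ∃ (G : Type) (_ : Group G), Group.FG G ∧ Group.ResiduallyFinite G ∧
        SameFiniteQuotients G (P ∗ Pow (FP m) (j + r)) ∧
          IsVal N G Q (p * a ^ j * hc (FP m) Q ^ r) := by
  induction j with
  | zero =>
    intro P _ _ p hp r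
    have : Group.FG (Pow (FP m) r) := fg_coprodI fun _ => fg_FP m
    refine ⟨(P ∗ Pow (FP m) r) ⧸ res _, inferInstance, inferInstance, inferInstance, ?_, ?_⟩
    · rw [zero_add]; exact sameFQ_res _
    · rw [pow_zero, mul_one]; exact (hp.coprod (isVal_pow m hm Q r)).res
  | succ j ih =>
    intro P _ _ p hp r
    obtain ⟨G, hG, h1, h2, h3, h4⟩ := ih (P ∗ Λ) (p * a) (hp.coprod ha) r
    refine ⟨G, hG, h1, h2, ?_, ?_⟩
    · have := h3.trans (sameFQ_pow_step h (j + r))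
      rwa [show j + r + 1 = j + 1 + r by ring] at this
    · rwa [show p * a * a ^ j * hc (FP m) Q ^ r = p * a ^ (j + 1) * hc (FP m) Q ^ r by ring] at h4

theorem genus_large {ι : Type} [Finite ι] (m : ι → ℕ) (h : ¬ ProfinitelyRigid (FP m)) (P : Type)
    [Group P] [Group.FG P] (k : ℕ) : GenusAtLeast (P ∗ Pow (FP m) k) (k + 1) := by
  have := Fintype.ofFinite ι
  rw [ProfinitelyRigid] at h
  push Not at h
  obtain ⟨Λ, hΛ, hgen, hne⟩ := h
  have hne' : ¬ Nonempty (Λ ≃* FP m) := by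
    intro h'; exact (not_isEmpty_iff.2 h') hne
  have hfg : Group.FG Λ := hgen.1
  let N : ℕ := ∏ i, (if m i = 0 then 1 else m i)
  have hN : N ≠ 0 := by
    apply Finset.prod_ne_zero_iff.mpr
    intro i _
    split_ifs with h
    · exact one_ne_zero
    · exact h
  have hm : ∀ i, Allowed N (m i) := by
    intro i
    by_cases h : m i = 0
    · exact Or.inl h
    · right
      have := Finset.dvd_prod_of_mem (fun i => if m i = 0 then 1 else m i) (Finset.mem_univ i)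
      simp only [if_neg h] at this
      exact this
  obtain ⟨Q, hQ, hQf, a, b, ha, hb, hab⟩ := exists_gap hN m hm Λ hgen hne'
  obtain rfl : b = hc (FP m) Q := hb.unique (isVal_FP m hm Q)
  obtain ⟨p, hp⟩ := exists_val N P Q
  have hp0 := hp.pos
  have ha0 := ha.pos
  set b := hc (FP m) Q with hbdef
  have key : ∀ j : Fin (k + 1), ∃ (G : Type) (_ : Group G),
      InGenus (P ∗ Pow (FP m) k) G ∧ IsVal N G Q (p * a ^ (j : ℕ) * b ^ (k - j)) := by
    intro j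
    have hj : (j : ℕ) ≤ k := Nat.lt_succ_iff.1 j.isLt
    obtain ⟨G, hG, h1, h2, h3, h4⟩ := family m hm hgen.2.2 ha j P p hp (k - j)
    rw [Nat.add_sub_cancel' hj] at h3
    exact ⟨G, hG, ⟨h1, h2, h3⟩, h4⟩
  choose G hG h1 h2 using key
  have hlt : ∀ i j : Fin (k + 1), i < j → p * a ^ (j : ℕ) * b ^ (k - j) <
      p * a ^ (i : ℕ) * b ^ (k - i) := by
    intro i j hij
    have hj : (j : ℕ) ≤ k := Nat.lt_succ_iff.1 j.isLt
    have hij' : (i : ℕ) < j := hij
    obtain ⟨d, hd⟩ : ∃ d, (j : ℕ) = i + (d + 1) := ⟨j - i - 1, by omega⟩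
    have e1 : k - (i : ℕ) = (k - j) + (d + 1) := by omega
    rw [e1, hd, pow_add a, pow_add b, ← hd]
    have h3 : a ^ (d + 1) < b ^ (d + 1) := Nat.pow_lt_pow_left hab (by omega)
    have h4 : 0 < p * a ^ (i : ℕ) := Nat.mul_pos hp0 (Nat.pow_pos ha0)
    have h5 : 0 < b ^ (k - (j : ℕ)) := Nat.pow_pos (lt_trans ha0 hab)
    calc p * (a ^ (i : ℕ) * a ^ (d + 1)) * b ^ (k - (j : ℕ))
        = (p * a ^ (i : ℕ)) * (b ^ (k - (j : ℕ)) * a ^ (d + 1)) := by ring
      _ < (p * a ^ (i : ℕ)) * (b ^ (k - (j : ℕ)) * b ^ (d + 1)) := by gcongr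
  refine ⟨G, hG, h1, fun i j hij => ⟨fun e => hij ?_⟩⟩
  have h3 := ((h2 i).equiv e).unique (h2 j)
  rcases lt_trichotomy i j with h4 | h4 | h4
  · exact absurd h3 (hlt i j h4).ne'
  · exact h4
  · exact absurd h3 (hlt j i h4).ne

end Pool.Agent.Lib.MP_305fdd_al
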